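import Pool.Agent.Lib.MP_270b6b_co.F4.Spec

/-!
# Module AC2: two nonadjacent zero centres with a common leaf, at most two leaf edges
-/

set_option autoImplicit false

namespace Pool.Agent.Lib.MP270b6b.F4

open Finset

namespace AC2M

variable {W : Type} [DecidableEq W]

theorem lm_le_card (L : Finset (Sym2 W)) (X : Finset W) (w : W) : lm L X w ≤ L.card := by
  unfold lm
  apply Finset.card_le_card_of_injOn (fun u => s(w, u))
  · intro u hu
    exact (Finset.mem_filter.mp hu).2
  · intro u _ u' _ h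
    exact Sym2.congr_right.mp h

theorem lm_mono (L : Finset (Sym2 W)) {X Y : Finset W} (h : X ⊆ Y) (w : W) :
    lm L X w ≤ lm L Y w :=
  Finset.card_le_card (Finset.filter_subset_filter _ h)

/-- all edges at `v0` -/
theorem all_at (L : Finset (Sym2 W)) (X : Finset W) (v0 : W) (h2 : L.card ≤ lm L X v0)
    (e : Sym2 W) (he : e ∈ L) : v0 ∈ e := by
  have h1 : (X.filter (fun u => s(v0, u) ∈ L)).image (fun u => s(v0, u)) ⊆ L := by
    intro x hx
    obtain ⟨u, hu, rfl⟩ := Finset.mem_image.mp hx
    exact (Finset.mem_filter.mp hu).2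
  have h3 : ((X.filter (fun u => s(v0, u) ∈ L)).image (fun u => s(v0, u))).card =
      lm L X v0 := by
    rw [Finset.card_image_of_injective _ (fun u u' h => Sym2.congr_right.mp h)]
    rfl
  have h4 : (X.filter (fun u => s(v0, u) ∈ L)).image (fun u => s(v0, u)) = L :=
    Finset.eq_of_subset_of_card_le h1 (by rw [h3]; exact h2)
  rw [← h4] at he
  obtain ⟨u, -, rfl⟩ := Finset.mem_image.mp he
  exact Sym2.mem_mk_left v0 u

end AC2M

open AC2M in
theorem specAC2 (hACG : SpecACG) : SpecAC2 := by
  intro W _ _ S i j w hij hΓ hi hj hwi hwj hL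
  have hle : ∀ (X : Finset W) (v : W), lm S.L X v ≤ 2 := fun X v =>
    (lm_le_card S.L X v).trans hL
  by_cases hex : ∃ v0, v0 ∈ S.N i ∧ v0 ∈ S.N j ∧ 2 ≤ lm S.L univ v0
  · obtain ⟨v0, h1, h2, h3⟩ := hex
    refine hACG W S i j v0 hij hΓ hi hj h1 h2 (fun v => (hle _ v).trans (by norm_num)) ?_
      (fun v _ _ => hle _ v)
    intro v hv _ _
    have h4 : lm S.L (univ.erase v0) v = 0 := by
      unfold lm
      rw [Finset.card_eq_zero, Finset.filter_eq_empty_iff]
      intro u hu he
      have h5 := all_at S.L univ v0 (hL.trans h3) _ he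
      rcases Sym2.mem_iff.mp h5 with h | h
      · exact hv h.symm
      · exact (Finset.mem_erase.mp hu).1 h.symm
    rw [h4]
    exact Nat.zero_le _
  · refine hACG W S i j w hij hΓ hi hj hwi hwj (fun v => (hle _ v).trans (by norm_num)) ?_
      (fun v _ _ => hle _ v)
    intro v _ h1 h2
    have h3 : ¬ 2 ≤ lm S.L univ v := fun h => hex ⟨v, h1, h2, h⟩
    have h4 := lm_mono S.L (Finset.erase_subset w univ) v
    omega

end Pool.Agent.Lib.MP270b6b.F4
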