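import Pool.Agent.Lib.MP_270b6b_co.F4.Spec

/-!
# MP_270b6b_co, module AC3: two nonadjacent zero centres with a common leaf, at most three leaf edges
-/

set_option autoImplicit false

namespace Pool.Agent.Lib.MP270b6b.F4

open Finset

namespace AC3M

variable {W : Type} [Fintype W] [DecidableEq W]

/-- the number of the leaf neighbours is at most the number of the leaf edges at the leaf -/
theorem lm_le_star (L : Finset (Sym2 W)) (v : W) :
    lm L univ v ≤ (L.filter (fun e => v ∈ e)).card := by
  unfold lm
  refine card_le_card_of_injOn (fun u => s(v, u)) ?_ ?_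
  · intro u hu
    have h1 : s(v, u) ∈ L := (mem_filter.1 hu).2
    exact mem_coe.2 (mem_filter.2 ⟨h1, Sym2.mem_mk_left v u⟩)
  · intro u _ u' _ h
    exact Sym2.congr_right.1 h

/-- two nonadjacent leaves -/
theorem two_stars (L : Finset (Sym2 W)) (v u : W) (hne : v ≠ u) (hn : s(v, u) ∉ L) :
    lm L univ v + lm L univ u ≤ L.card := by
  have h1 := lm_le_star L v
  have h2 := lm_le_star L u
  have hd : Disjoint (L.filter (fun e => v ∈ e)) (L.filter (fun e => u ∈ e)) := by
    rw [disjoint_left]
    intro e he he'
    have h3 := (mem_filter.1 he).2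
    have h4 := (mem_filter.1 he').2
    have h5 : e = s(v, u) := (Sym2.mem_and_mem_iff hne).1 ⟨h3, h4⟩
    exact hn (h5 ▸ (mem_filter.1 he).1)
  have h6 : (L.filter (fun e => v ∈ e)).card + (L.filter (fun e => u ∈ e)).card ≤ L.card := by
    rw [← card_union_of_disjoint hd]
    exact card_le_card (union_subset (filter_subset _ _) (filter_subset _ _))
  omega

theorem lm_mono (L : Finset (Sym2 W)) (X Y : Finset W) (h : X ⊆ Y) (v : W) : lm L X v ≤ lm L Y v :=
  card_le_card (filter_subset_filter _ h)

/-- an adjacent leaf which is removed -/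
theorem lm_erase_adj (L : Finset (Sym2 W)) (v u : W) (h : s(v, u) ∈ L) :
    lm L (univ.erase u) v + 1 = lm L univ v := by
  unfold lm
  have h1 : (univ.erase u).filter (fun x => s(v, x) ∈ L) = (univ.filter (fun x => s(v, x) ∈ L)).erase u := by
    ext x
    simp only [mem_filter, mem_erase, mem_univ, and_true, true_and]
  rw [h1]
  exact card_erase_add_one (mem_filter.2 ⟨mem_univ u, h⟩)

end AC3M

open AC3M in
theorem specAC3 (hACG : SpecACG) : SpecAC3 := by
  intro W _ _ S i j w hij hΓ hi hj hwi hwj hL hlm
  have h3 : ∀ v, lm S.L univ v ≤ 3 := fun v => (hlm v).trans (by norm_num)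
  by_cases hex : ∃ u, u ∈ S.N i ∧ u ∈ S.N j ∧ lm S.L univ u = 2
  · obtain ⟨u, hui, huj, hu⟩ := hex
    refine hACG W S i j u hij hΓ hi hj hui huj h3 ?_ ?_
    · intro v hvu _ _
      by_cases hadj : s(v, u) ∈ S.L
      · have h4 := lm_erase_adj S.L v u hadj
        have h5 := hlm v
        omega
      · have h4 := two_stars S.L v u hvu hadj
        have h5 := lm_mono S.L (univ.erase u) univ (subset_univ _) v
        omega
    · intro v _ _
      exact (lm_mono S.L (univ.erase u) univ (subset_univ _) v).trans (hlm v)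
  · refine hACG W S i j w hij hΓ hi hj hwi hwj h3 ?_ ?_
    · intro v _ hvi hvj
      have h4 : lm S.L univ v ≠ 2 := fun h => hex ⟨v, hvi, hvj, h⟩
      have h5 := hlm v
      have h6 := lm_mono S.L (univ.erase w) univ (subset_univ _) v
      omega
    · intro v _ _
      exact (lm_mono S.L (univ.erase w) univ (subset_univ _) v).trans (hlm v)

end Pool.Agent.Lib.MP270b6b.F4
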