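import Pool.Agent.Lib.MP_270b6b_co.F4.Spec

/-!
# MP_270b6b_co, F4, module AC4
-/

set_option autoImplicit false

namespace Pool.Agent.Lib.MP270b6b.F4

open Finset

namespace AC4M

variable {W : Type} [Fintype W] [DecidableEq W]

/-- the edges at `v` with the other end in `X` -/
def ed (L : Finset (Sym2 W)) (X : Finset W) (v : W) : Finset (Sym2 W) :=
  (X.filter (fun u => s(v, u) ∈ L)).image (fun u => s(v, u))

omit [Fintype W] in
lemma card_ed (L : Finset (Sym2 W)) (X : Finset W) (v : W) : (ed L X v).card = lm L X v := by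
  unfold ed lm
  exact card_image_of_injective _ (fun u u' h => Sym2.congr_right.1 h)

omit [Fintype W] in
lemma ed_sub (L : Finset (Sym2 W)) (X : Finset W) (v : W) : ed L X v ⊆ L := by
  intro e he
  obtain ⟨u, hu, rfl⟩ := mem_image.1 he
  exact (mem_filter.1 hu).2

omit [Fintype W] in
lemma disj (L : Finset (Sym2 W)) (X Y : Finset W) {a b : W} (hab : a ≠ b) (ha : a ∉ Y) :
    Disjoint (ed L X a) (ed L Y b) := by
  rw [Finset.disjoint_left]
  intro e he he'
  obtain ⟨u, _, rfl⟩ := mem_image.1 he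
  obtain ⟨u', hu', h⟩ := mem_image.1 he'
  rcases Sym2.eq_iff.1 h with ⟨h1, _⟩ | ⟨_, h2⟩
  · exact hab h1.symm
  · rw [h2] at hu'
    exact ha (mem_filter.1 hu').1

lemma three (L : Finset (Sym2 W)) {a b c : W} (hab : a ≠ b) (hac : a ≠ c) (hbc : b ≠ c) :
    lm L univ a + lm L (univ.erase a) b + lm L ((univ.erase a).erase b) c ≤ L.card := by
  rw [← card_ed, ← card_ed, ← card_ed]
  have d1 : Disjoint (ed L univ a) (ed L (univ.erase a) b) := disj L _ _ hab (by simp)
  have d2 : Disjoint (ed L univ a) (ed L ((univ.erase a).erase b) c) := disj L _ _ hac (by simp)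
  have d3 : Disjoint (ed L (univ.erase a) b) (ed L ((univ.erase a).erase b) c) :=
    disj L _ _ hbc (by simp)
  have d4 : Disjoint (ed L univ a ∪ ed L (univ.erase a) b) (ed L ((univ.erase a).erase b) c) :=
    disjoint_union_left.2 ⟨d2, d3⟩
  rw [← card_union_of_disjoint d1, ← card_union_of_disjoint d4]
  exact card_le_card (union_subset (union_subset (ed_sub _ _ _) (ed_sub _ _ _)) (ed_sub _ _ _))

lemma two (L : Finset (Sym2 W)) {a b : W} (hab : a ≠ b) :
    lm L univ a + lm L (univ.erase a) b ≤ L.card := by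
  rw [← card_ed, ← card_ed]
  have d1 : Disjoint (ed L univ a) (ed L (univ.erase a) b) := disj L _ _ hab (by simp)
  rw [← card_union_of_disjoint d1]
  exact card_le_card (union_subset (ed_sub _ _ _) (ed_sub _ _ _))

omit [Fintype W] in
lemma lm_mono (L : Finset (Sym2 W)) {X Y : Finset W} (h : X ⊆ Y) (v : W) : lm L X v ≤ lm L Y v :=
  card_le_card (filter_subset_filter _ h)

omit [Fintype W] in
lemma lm_erase (L : Finset (Sym2 W)) (X : Finset W) (a v : W) : lm L X v ≤ lm L (X.erase a) v + 1 := by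
  unfold lm
  have h : X.filter (fun u => s(v, u) ∈ L) ⊆ insert a ((X.erase a).filter (fun u => s(v, u) ∈ L)) := by
    intro u hu
    rw [mem_filter] at hu
    rw [mem_insert, mem_filter, mem_erase]
    by_cases hua : u = a
    · exact Or.inl hua
    · exact Or.inr ⟨⟨hua, hu.1⟩, hu.2⟩
  exact (card_le_card h).trans (card_insert_le _ _)

end AC4M

open AC4M in
theorem specAC4 (hACG : SpecACG) : SpecAC4 := by
  intro W _ _ S i j w z hij hΓ hNi hNj hwi hwj hL hlm hz hiff
  by_cases hzi : z ∈ S.N i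
  · have hzj := hiff.1 hzi
    have h1 : ∀ v, v ≠ z → lm S.L (univ.erase z) v ≤ 1 := by
      intro v hv
      have h := two S.L (Ne.symm hv)
      omega
    exact hACG W S i j z hij hΓ hNi hNj hzi hzj hlm (fun v hv _ _ => h1 v hv)
      (fun v hv _ => (h1 v hv).trans (by norm_num))
  · have hzj : z ∉ S.N j := fun h => hzi (hiff.2 h)
    have h2 : ∀ v, v ≠ z → lm S.L univ v ≤ 2 := by
      intro v hv
      have h := two S.L (Ne.symm hv)
      have h' := lm_erase S.L univ z v
      omega
    have h3 : ∀ v, (v ∈ S.N i ∨ v ∈ S.N j) → v ≠ z := by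
      rintro v (hv | hv) rfl
      · exact hzi hv
      · exact hzj hv
    have h4 : ∀ w', ∀ v, v ≠ w' → (v ∈ S.N i ∨ v ∈ S.N j) → lm S.L (univ.erase w') v ≤ 2 :=
      fun w' v _ hv => (lm_mono S.L (erase_subset _ _) v).trans (h2 v (h3 v hv))
    by_cases hex : ∃ w', w' ∈ S.N i ∧ w' ∈ S.N j ∧ lm S.L univ w' = 2
    · obtain ⟨w', hi, hj, hw2⟩ := hex
      refine hACG W S i j w' hij hΓ hNi hNj hi hj hlm ?_ (h4 w')
      intro v hv hvi _
      have hvz : v ≠ z := h3 v (Or.inl hvi)
      have hwz : w' ≠ z := h3 w' (Or.inl hi)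
      have h5 := three S.L (Ne.symm hv) hwz hvz
      have h6 := lm_erase S.L univ w' z
      have h7 := lm_erase S.L (univ.erase w') v z
      omega
    · refine hACG W S i j w hij hΓ hNi hNj hwi hwj hlm ?_ (h4 w)
      intro v hv hvi hvj
      have hvz : v ≠ z := h3 v (Or.inl hvi)
      have h5 := h2 v hvz
      have h6 : lm S.L univ v ≠ 2 := fun h => hex ⟨v, hvi, hvj, h⟩
      have h7 := lm_mono S.L (erase_subset w univ) v
      omega

end Pool.Agent.Lib.MP270b6b.F4
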