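import Pool.Agent.Lib.MP_270b6b_co.F4.Spec

/-!
# MP_270b6b_co, F4, module ACG
-/

set_option autoImplicit false

namespace Pool.Agent.Lib.MP270b6b.F4

open Finset

namespace ACGM

theorem lm_mono {W : Type} [DecidableEq W] (L : Finset (Sym2 W)) {X Y : Finset W} (h : X ⊆ Y)
    (w : W) : lm L X w ≤ lm L Y w :=
  Finset.card_le_card (Finset.filter_subset_filter _ h)

theorem first {W : Type} [Fintype W] [DecidableEq W] (S : Sys (Fin 5) W) (i j : Fin 5) (w : W)
    (hΓ : S.Γ i j = false) (hc : (S.N i).card = 4) (hw : w ∈ S.N i) :
    S.dg {i, j} i + (S.N i ∩ univ.erase w).card ≤ 3 := by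
  have h1 : S.dg {i, j} i = 0 := by
    unfold Sys.dg
    rw [Finset.card_eq_zero, Finset.filter_eq_empty_iff]
    intro x hx
    rw [Finset.mem_insert, Finset.mem_singleton] at hx
    rcases hx with rfl | rfl
    · rw [S.irr]; exact Bool.false_ne_true
    · rw [hΓ]; exact Bool.false_ne_true
  have h2 : S.N i ∩ univ.erase w = (S.N i).erase w := by
    ext x
    simp only [Finset.mem_inter, Finset.mem_erase, Finset.mem_univ, and_true]
    exact and_comm
  rw [h1, h2, Finset.card_erase_of_mem hw, hc]

end ACGM

open ACGM in
theorem specACG : SpecACG := by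
  intro W _ _ S i j w hij hΓ hci hcj hwi hwj hlm h2 h1
  refine ⟨{i, j}, univ.erase w, ?_, ?_, ?_, ?_⟩
  · intro k hk
    rw [Finset.mem_insert, Finset.mem_singleton] at hk
    rcases hk with rfl | rfl
    · exact first S k j w hΓ hci hwi
    · have := first S k i w (by rw [S.sym]; exact hΓ) hcj hwj
      rwa [Finset.pair_comm] at this
  · intro k hk
    have hcard : ({i, j} : Finset (Fin 5))ᶜ.card = 3 := by
      rw [Finset.card_compl, Finset.card_pair hij, Fintype.card_fin]
    have e1 : S.dg ({i, j} : Finset (Fin 5))ᶜ k ≤ 2 := by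
      unfold Sys.dg
      have hsub : ({i, j} : Finset (Fin 5))ᶜ.filter (fun x => S.Γ k x = true)
          ⊆ ({i, j} : Finset (Fin 5))ᶜ.erase k := by
        intro x hx
        rw [Finset.mem_filter] at hx
        rw [Finset.mem_erase]
        refine ⟨?_, hx.1⟩
        rintro rfl
        rw [S.irr] at hx
        exact Bool.false_ne_true hx.2
      refine (Finset.card_le_card hsub).trans ?_
      rw [Finset.card_erase_of_mem (Finset.mem_compl.2 hk), hcard]
    have e2 : (S.N k \ univ.erase w).card ≤ 1 := by
      have hsub : S.N k \ univ.erase w ⊆ {w} := by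
        intro x hx
        rw [Finset.mem_sdiff, Finset.mem_erase, not_and_or, not_not] at hx
        rw [Finset.mem_singleton]
        rcases hx.2 with h | h
        · exact h
        · exact absurd (Finset.mem_univ x) h
      exact (Finset.card_le_card hsub).trans (by rw [Finset.card_singleton])
    omega
  · intro v hv
    have hvw : v ≠ w := (Finset.mem_erase.1 hv).1
    have e1 : S.tr {i, j} v = (if v ∈ S.N i then 1 else 0) + (if v ∈ S.N j then 1 else 0) := by
      unfold Sys.tr
      rw [Finset.card_filter, Finset.sum_pair hij]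
    have e2 : lm S.L (univ.erase w) v ≤ 3 := (lm_mono S.L (Finset.erase_subset _ _) v).trans (hlm v)
    rw [e1]
    by_cases hi : v ∈ S.N i
    · by_cases hj : v ∈ S.N j
      · rw [if_pos hi, if_pos hj]
        have := h2 v hvw hi hj
        omega
      · rw [if_pos hi, if_neg hj]
        have := h1 v hvw (Or.inl hi)
        omega
    · by_cases hj : v ∈ S.N j
      · rw [if_neg hi, if_pos hj]
        have := h1 v hvw (Or.inr hj)
        omega
      · rw [if_neg hi, if_neg hj]
        omega
  · intro v hv
    have hvw : v = w := by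
      rw [Finset.mem_erase, not_and_or, not_not] at hv
      rcases hv with h | h
      · exact h
      · exact absurd (Finset.mem_univ v) h
    subst hvw
    have hcard : ({i, j} : Finset (Fin 5))ᶜ.card = 3 := by
      rw [Finset.card_compl, Finset.card_pair hij, Fintype.card_fin]
    have e1 : S.tr ({i, j} : Finset (Fin 5))ᶜ v ≤ 3 := by
      unfold Sys.tr
      refine (Finset.card_le_card (Finset.filter_subset _ _)).trans ?_
      rw [hcard]
    have e2 : lm S.L (univ.erase v)ᶜ v = 0 := by
      unfold lm
      rw [Finset.card_eq_zero, Finset.filter_eq_empty_iff]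
      intro x hx
      rw [Finset.mem_compl, Finset.mem_erase, not_and_or, not_not] at hx
      rcases hx with h | h
      · rw [h]; exact S.nd v
      · exact absurd (Finset.mem_univ x) h
    omega

end Pool.Agent.Lib.MP270b6b.F4
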