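import Pool.Agent.Lib.MP_270b6b_co.F4.Spec

set_option autoImplicit false

namespace Pool.Agent.Lib.MP270b6b.F4

open Finset

namespace ANM

theorem cov {h i j k l : Fin 5} (hF : Five h i j k l) (x : Fin 5) :
    x = h ∨ x = i ∨ x = j ∨ x = k ∨ x = l := by
  obtain ⟨h1, h2, h3, h4, h5, h6, h7, h8, h9, h10⟩ := hF
  have hc : ({h, i, j, k, l} : Finset (Fin 5)).card = 5 := by
    rw [card_insert_of_notMem (by simp [h1, h2, h3, h4]),
      card_insert_of_notMem (by simp [h5, h6, h7]),
      card_insert_of_notMem (by simp [h8, h9]),
      card_insert_of_notMem (by simp [h10]), card_singleton]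
  have hu := Finset.eq_univ_of_card _ (hc.trans (Fintype.card_fin 5).symm)
  have hx : x ∈ ({h, i, j, k, l} : Finset (Fin 5)) := by rw [hu]; exact mem_univ x
  simpa using hx

variable {W : Type} [DecidableEq W]

theorem pick (L : Finset (Sym2 W)) (hL : L.card ≤ 2) (w : W) (N : Finset W) (hN : N.card = 4) :
    ∃ v ∈ N, s(w, v) ∉ L := by
  by_contra hc
  push Not at hc
  have h1 : N.card ≤ L.card := by
    apply Finset.card_le_card_of_injOn (fun v => s(w, v)) (fun v hv => hc v hv)
    intro a _ b _ hab
    exact Sym2.congr_right.mp hab
  omega

theorem lmle (L : Finset (Sym2 W)) (X : Finset W) (w : W) : lm L X w ≤ L.card := by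
  unfold lm
  apply Finset.card_le_card_of_injOn (fun v => s(w, v))
  · intro v hv
    exact (mem_filter.mp hv).2
  · intro a _ b _ hab
    exact Sym2.congr_right.mp hab

end ANM

open ANM in
theorem specAN (hAC2 : SpecAC2) (hS32 : SpecS32) : SpecAN := by
  intro W _ _ S h i j k l hF hij hkl hi hj hh hL
  have hF' := hF
  obtain ⟨h1, h2, h3, h4, h5, h6, h7, h8, h9, h10⟩ := hF'
  have hlm : ∀ v, lm S.L univ v ≤ 2 := fun v => (lmle S.L univ v).trans hL
  have hlk : S.Γ l k = false := by rw [S.sym]; exact hkl
  by_cases hcom : ∃ w, w ∈ S.N i ∧ w ∈ S.N j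
  · obtain ⟨w, hwi, hwj⟩ := hcom
    exact hAC2 W S i j w h5 hij hi hj hwi hwj hL
  · have hdis : Disjoint (S.N i) (S.N j) := by
      rw [Finset.disjoint_left]
      intro a ha hb
      exact hcom ⟨a, ha, hb⟩
    have key : ∀ w w', w ∈ S.N i → w' ∈ S.N j → s(w, w') ∉ S.L → (w ∉ S.N h ∨ w' ∉ S.N h) →
        S.Good := by
      intro w w' hw hw' hs hnot
      refine hS32 W S i j w w' h5 hij hi hj hdis hw hw' hs hlm ?_
      intro x hxi hxj
      rcases cov hF x with hx | hx | hx | hx | hx
      · subst hx
        have hd : S.dg ({i, j}ᶜ) x ≤ 2 := by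
          unfold Sys.dg
          calc _ ≤ ({k, l} : Finset (Fin 5)).card := by
                apply card_le_card
                intro y hy
                rw [mem_filter] at hy
                rcases cov hF y with hy' | hy' | hy' | hy' | hy'
                · rw [hy', S.irr] at hy; exact absurd hy.2 (by simp)
                · rw [hy'] at hy; exact absurd hy.1 (by simp)
                · rw [hy'] at hy; exact absurd hy.1 (by simp)
                · rw [hy']; simp
                · rw [hy']; simp
            _ ≤ 2 := card_le_two
        rcases hnot with hn | hn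
        · rw [if_neg hn]
          split_ifs <;> omega
        · rw [if_neg hn]
          split_ifs <;> omega
      · exact absurd hx hxi
      · exact absurd hx hxj
      · have hd : S.dg ({i, j}ᶜ) x ≤ 1 := by
          unfold Sys.dg
          calc _ ≤ ({h} : Finset (Fin 5)).card := by
                apply card_le_card
                intro y hy
                rw [mem_filter, hx] at hy
                rcases cov hF y with hy' | hy' | hy' | hy' | hy'
                · rw [hy']; simp
                · rw [hy'] at hy; exact absurd hy.1 (by simp)
                · rw [hy'] at hy; exact absurd hy.1 (by simp)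
                · rw [hy', S.irr] at hy; exact absurd hy.2 (by simp)
                · rw [hy', hkl] at hy; exact absurd hy.2 (by simp)
            _ = 1 := card_singleton h
        split_ifs <;> omega
      · have hd : S.dg ({i, j}ᶜ) x ≤ 1 := by
          unfold Sys.dg
          calc _ ≤ ({h} : Finset (Fin 5)).card := by
                apply card_le_card
                intro y hy
                rw [mem_filter, hx] at hy
                rcases cov hF y with hy' | hy' | hy' | hy' | hy'
                · rw [hy']; simp
                · rw [hy'] at hy; exact absurd hy.1 (by simp)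
                · rw [hy'] at hy; exact absurd hy.1 (by simp)
                · rw [hy', hlk] at hy; exact absurd hy.2 (by simp)
                · rw [hy', S.irr] at hy; exact absurd hy.2 (by simp)
            _ = 1 := card_singleton h
        split_ifs <;> omega
    have hun : (S.N i ∪ S.N j).card = 8 := by
      rw [card_union_of_disjoint hdis, hi, hj]
    obtain ⟨x, hx, hxh⟩ : ∃ x ∈ S.N i ∪ S.N j, x ∉ S.N h := by
      by_contra hc
      push Not at hc
      have := card_le_card (show S.N i ∪ S.N j ⊆ S.N h from hc)
      omega
    rcases mem_union.mp hx with hxi | hxj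
    · obtain ⟨w', hw', hs⟩ := pick S.L hL x (S.N j) hj
      exact key x w' hxi hw' hs (Or.inl hxh)
    · obtain ⟨w, hw, hs⟩ := pick S.L hL x (S.N i) hi
      refine key w x hw hxj ?_ (Or.inr hxh)
      rw [Sym2.eq_swap]; exact hs

end Pool.Agent.Lib.MP270b6b.F4
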