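import Pool.Agent.Lib.MP_270b6b_co.F4.Spec

/-!
Small lemmas for the modules (optional).
-/

set_option autoImplicit false

namespace Pool.Agent.Lib.MP270b6b.F4.Base

open Finset

theorem five_cover : ∀ h i j k l : Fin 5, Five h i j k l → ∀ x, x = h ∨ x = i ∨ x = j ∨ x = k ∨ x = l := by
  unfold Five; decide

theorem five_univ (h i j k l : Fin 5) (H : Five h i j k l) : (univ : Finset (Fin 5)) = {h, i, j, k, l} := by
  ext x
  have := five_cover h i j k l H x
  simp only [mem_univ, mem_insert, mem_singleton, true_iff]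
  exact this

theorem five_compl1 (h i j k l : Fin 5) (H : Five h i j k l) : ({h}ᶜ : Finset (Fin 5)) = {i, j, k, l} := by
  ext x
  have hc := five_cover h i j k l H x
  obtain ⟨h1, h2, h3, h4, h5, h6, h7, h8, h9, h10⟩ := H
  simp only [mem_compl, mem_insert, mem_singleton]
  constructor
  · intro hx; rcases hc with h | h | h | h | h <;> simp_all
  · rintro (rfl | rfl | rfl | rfl) <;> simp_all [ne_comm, Ne.symm]

theorem five_erase (h i j k l : Fin 5) (H : Five h i j k l) : (univ : Finset (Fin 5)).erase h = {i, j, k, l} := by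
  rw [← five_compl1 h i j k l H]; ext x; simp

theorem five_compl2 (h i j k l : Fin 5) (H : Five h i j k l) : ({h, i}ᶜ : Finset (Fin 5)) = {j, k, l} := by
  ext x
  have hc := five_cover h i j k l H x
  obtain ⟨h1, h2, h3, h4, h5, h6, h7, h8, h9, h10⟩ := H
  simp only [mem_compl, mem_insert, mem_singleton]
  constructor
  · intro hx; rcases hc with h | h | h | h | h <;> simp_all
  · rintro (rfl | rfl | rfl) <;> simp_all [ne_comm, Ne.symm]

theorem five_compl3 (h i j k l : Fin 5) (H : Five h i j k l) : ({h, i, j}ᶜ : Finset (Fin 5)) = {k, l} := by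
  ext x
  have hc := five_cover h i j k l H x
  obtain ⟨h1, h2, h3, h4, h5, h6, h7, h8, h9, h10⟩ := H
  simp only [mem_compl, mem_insert, mem_singleton]
  constructor
  · intro hx; rcases hc with h | h | h | h | h <;> simp_all
  · rintro (rfl | rfl) <;> simp_all [ne_comm, Ne.symm]

theorem six_cover : ∀ h s a b c d : Fin 6, Six h s a b c d → ∀ x, x = h ∨ x = s ∨ x = a ∨ x = b ∨ x = c ∨ x = d := by
  intro h s a b c d H x
  have hu : (univ : Finset (Fin 6)) = {h, s, a, b, c, d} := by
    symm
    apply Finset.eq_univ_of_card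
    obtain ⟨h1, h2, h3, h4, h5, h6, h7, h8, h9, h10, h11, h12, h13, h14, h15⟩ := H
    rw [card_insert_of_notMem (by simp [*]), card_insert_of_notMem (by simp [*]), card_insert_of_notMem (by simp [*]),
      card_insert_of_notMem (by simp [*]), card_insert_of_notMem (by simp [*]), card_singleton]
    rfl
  have := mem_univ x
  rw [hu] at this
  simpa using this

theorem six_compl3 (h s a b c d : Fin 6) (H : Six h s a b c d) : ({h, s, a}ᶜ : Finset (Fin 6)) = {b, c, d} := by
  ext x
  have hc := six_cover h s a b c d H x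
  obtain ⟨h1, h2, h3, h4, h5, h6, h7, h8, h9, h10, h11, h12, h13, h14, h15⟩ := H
  simp only [mem_compl, mem_insert, mem_singleton]
  constructor
  · intro hx; rcases hc with h | h | h | h | h | h <;> simp_all
  · rintro (rfl | rfl | rfl) <;> simp_all [ne_comm, Ne.symm]

section
variable {K W : Type} [Fintype K] [DecidableEq K] [Fintype W] [DecidableEq W] (S : Sys K W)

theorem dg_le (P : Finset K) (i : K) : S.dg P i ≤ P.card := card_filter_le _ _

theorem dg_le_erase (P : Finset K) (i : K) : S.dg P i ≤ (P.erase i).card := by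
  apply card_le_card
  intro j hj
  rw [mem_filter] at hj
  rw [mem_erase]
  refine ⟨?_, hj.1⟩
  rintro rfl
  rw [S.irr] at hj
  exact absurd hj.2 (by decide)

theorem dg_mono {P Q : Finset K} (h : P ⊆ Q) (i : K) : S.dg P i ≤ S.dg Q i := card_le_card (filter_subset_filter _ h)

theorem tr_le (P : Finset K) (w : W) : S.tr P w ≤ P.card := card_filter_le _ _

theorem e_comm (i j : K) : S.e i j = S.e j i := by unfold Sys.e; rw [S.sym]

theorem e_le (i j : K) : S.e i j ≤ 1 := by unfold Sys.e; cases S.Γ i j <;> simp

theorem e_zero {i j : K} : S.e i j = 0 ↔ S.Γ i j = false := by unfold Sys.e; cases S.Γ i j <;> simp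

/-- degree in an explicit set -/
theorem dg_insert (P : Finset K) (i a : K) (ha : a ∉ P) : S.dg (insert a P) i = S.e i a + S.dg P i := by
  unfold Sys.dg Sys.e
  rw [filter_insert]
  cases h : S.Γ i a
  · simp
  · rw [if_pos rfl, card_insert_of_notMem (by simp [ha])]; simp [add_comm]

theorem dg_empty (i : K) : S.dg ∅ i = 0 := by simp [Sys.dg]

theorem dg_single (i a : K) : S.dg {a} i = S.e i a := by
  rw [← insert_empty, dg_insert _ _ _ _ (by simp), dg_empty, add_zero]

theorem e_self (i : K) : S.e i i = 0 := by rw [e_zero]; exact S.irr i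

theorem dg_pair {a b : K} (i : K) (h : a ≠ b) : S.dg {a, b} i = S.e i a + S.e i b := by
  rw [dg_insert _ _ _ _ (by simpa using h), dg_single]

theorem dg_triple {a b c : K} (i : K) (h : a ≠ b) (h' : a ≠ c) (h'' : b ≠ c) :
    S.dg {a, b, c} i = S.e i a + S.e i b + S.e i c := by
  rw [dg_insert _ _ _ _ (by simp [h, h']), dg_pair _ _ h'', add_assoc]

theorem dg_four {a b c d : K} (i : K) (h1 : a ≠ b) (h2 : a ≠ c) (h3 : a ≠ d) (h4 : b ≠ c) (h5 : b ≠ d) (h6 : c ≠ d) :
    S.dg {a, b, c, d} i = S.e i a + S.e i b + S.e i c + S.e i d := by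
  rw [dg_insert _ _ _ _ (by simp [h1, h2, h3]), dg_triple _ _ h4 h5 h6]; ring

end

section
variable {W : Type} [DecidableEq W] (L : Finset (Sym2 W))

theorem lm_mono {X Y : Finset W} (h : X ⊆ Y) (w : W) : lm L X w ≤ lm L Y w := card_le_card (filter_subset_filter _ h)

/-- the number of the leaf neighbours is at most the number of the leaf edges at `w` -/
theorem lm_le_inc (X : Finset W) (w : W) : lm L X w ≤ (L.filter (fun e => w ∈ e)).card := by
  unfold lm
  apply card_le_card_of_injOn (fun u => s(w, u))
  · intro u hu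
    simp only [coe_filter, Set.mem_ofPred_eq] at hu ⊢
    exact ⟨hu.2, by simp⟩
  · intro u _ v _ h
    exact Sym2.congr_right.1 h

theorem lm_le_card (X : Finset W) (w : W) : lm L X w ≤ L.card := (lm_le_inc L X w).trans (card_filter_le _ _)

theorem lm_univ_eq [Fintype W] (w : W) : lm L univ w = (L.filter (fun e => w ∈ e)).card := by
  apply le_antisymm (lm_le_inc L univ w)
  unfold lm
  apply card_le_card_of_surjOn (fun u => s(w, u))
  intro e he
  simp only [coe_filter, Set.mem_ofPred_eq] at he
  obtain ⟨u, hu⟩ := he.2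
  refine ⟨u, ?_, hu.symm⟩
  simp only [coe_filter, Set.mem_ofPred_eq, mem_univ, true_and]
  rw [← hu]; exact he.1

/-- two different nonadjacent leaves share no edge -/
theorem lm_add_le [Fintype W] {v w : W} (hvw : v ≠ w) (hn : s(v, w) ∉ L) : lm L univ v + lm L univ w ≤ L.card := by
  rw [lm_univ_eq, lm_univ_eq, ← card_union_of_disjoint]
  · apply card_le_card
    intro e he
    rw [mem_union, mem_filter, mem_filter] at he
    rcases he with h | h <;> exact h.1
  · rw [disjoint_left]
    intro e h1 h2
    rw [mem_filter] at h1 h2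
    have := (Sym2.mem_and_mem_iff hvw).1 ⟨h1.2, h2.2⟩
    rw [this] at h1
    exact hn h1.1

/-- two different leaves share at most one edge -/
theorem lm_add_le' [Fintype W] {v w : W} (hvw : v ≠ w) : lm L univ v + lm L univ w ≤ L.card + 1 := by
  rw [lm_univ_eq, lm_univ_eq, ← card_union_add_card_inter]
  apply Nat.add_le_add
  · apply card_le_card
    intro e he
    rw [mem_union, mem_filter, mem_filter] at he
    rcases he with h | h <;> exact h.1
  · apply card_le_one.2
    intro e he f hf
    rw [mem_inter, mem_filter, mem_filter] at he hf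
    rw [(Sym2.mem_and_mem_iff hvw).1 ⟨he.1.2, he.2.2⟩, (Sym2.mem_and_mem_iff hvw).1 ⟨hf.1.2, hf.2.2⟩]

/-- if the leaf `v` has `|L|` leaf neighbours then all leaf edges are at `v` -/
theorem all_at [Fintype W] {v : W} (h : lm L univ v = L.card) : ∀ e ∈ L, v ∈ e := by
  rw [lm_univ_eq] at h
  intro e he
  have := eq_of_subset_of_card_le (filter_subset (fun e => v ∈ e) L) h.ge
  rw [← this, mem_filter] at he
  exact he.2

/-- if nonadjacent `v, w` have together `|L|` leaf neighbours then all leaf edges are at `v` or `w` -/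
theorem all_at2 [Fintype W] {v w : W} (hvw : v ≠ w) (hn : s(v, w) ∉ L) (h : L.card ≤ lm L univ v + lm L univ w) :
    ∀ e ∈ L, v ∈ e ∨ w ∈ e := by
  rw [lm_univ_eq, lm_univ_eq, ← card_union_of_disjoint] at h
  · intro e he
    have hs : L.filter (fun e => v ∈ e) ∪ L.filter (fun e => w ∈ e) ⊆ L := by
      intro e he
      rw [mem_union, mem_filter, mem_filter] at he
      rcases he with h | h <;> exact h.1
    have := eq_of_subset_of_card_le hs h
    rw [← this, mem_union, mem_filter, mem_filter] at he
    rcases he with h | h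
    · exact Or.inl h.2
    · exact Or.inr h.2
  · rw [disjoint_left]
    intro e h1 h2
    rw [mem_filter] at h1 h2
    have := (Sym2.mem_and_mem_iff hvw).1 ⟨h1.2, h2.2⟩
    rw [this] at h1
    exact hn h1.1

/-- leaf neighbours other than an adjacent leaf -/
theorem lm_erase [Fintype W] {v w : W} (h : s(v, w) ∈ L) : lm L (univ.erase w) v + 1 = lm L univ v := by
  unfold lm
  have : (univ.filter (fun u => s(v, u) ∈ L)) = insert w ((univ.erase w).filter (fun u => s(v, u) ∈ L)) := by
    ext u
    simp only [mem_filter, mem_univ, true_and, mem_insert, mem_erase, ne_eq, and_true]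
    constructor
    · intro hu
      by_cases huw : u = w
      · exact Or.inl huw
      · exact Or.inr ⟨huw, hu⟩
    · rintro (rfl | hu)
      · exact h
      · exact hu.2
  rw [this, card_insert_of_notMem (by simp)]

theorem lm_of_empty (X : Finset W) (w : W) : lm (∅ : Finset (Sym2 W)) X w = 0 := by simp [lm]

end

end Pool.Agent.Lib.MP270b6b.F4.Base
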