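import Pool.Agent.Lib.MP_270b6b_co.F4.Spec

/-!
# MP_270b6b, module CHO: the choice of the set of the centres
-/

set_option autoImplicit false

namespace Pool.Agent.Lib.MP270b6b.F4

open Finset

namespace CHOM

open Classical in
theorem nb_eq {V : Type} [Fintype V] [DecidableEq V] (G : SimpleGraph V) (C : Finset V) (v : V) :
    nb G C v = ∑ u ∈ C, if G.Adj v u then 1 else 0 := by
  unfold nb
  rw [Finset.card_filter]

/-- adding a vertex to the set -/
theorem nb_insert {V : Type} [Fintype V] [DecidableEq V] (G : SimpleGraph V) (A : Finset V)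
    (w v : V) (hw : w ∉ A) :
    (G.Adj v w → nb G (insert w A) v = nb G A v + 1) ∧
      (¬ G.Adj v w → nb G (insert w A) v = nb G A v) := by
  classical
  rw [nb_eq, nb_eq, Finset.sum_insert hw]
  refine ⟨fun h => ?_, fun h => ?_⟩
  · rw [if_pos h, add_comm]
  · rw [if_neg h, zero_add]

/-- twice the number of the edges inside -/
noncomputable def E {V : Type} [Fintype V] [DecidableEq V] (G : SimpleGraph V) (A : Finset V) : ℕ :=
  ∑ v ∈ A, nb G A v

theorem E_insert {V : Type} [Fintype V] [DecidableEq V] (G : SimpleGraph V) (A : Finset V)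
    (w : V) (hw : w ∉ A) : E G (insert w A) = E G A + 2 * nb G A w := by
  classical
  unfold E
  rw [Finset.sum_insert hw, (nb_insert G A w w hw).2 (G.loopless.irrefl w)]
  have h1 : ∑ v ∈ A, nb G (insert w A) v = ∑ v ∈ A, (nb G A v + if G.Adj v w then 1 else 0) := by
    refine Finset.sum_congr rfl fun v _ => ?_
    by_cases h : G.Adj v w
    · rw [(nb_insert G A w v hw).1 h, if_pos h]
    · rw [(nb_insert G A w v hw).2 h, if_neg h, add_zero]
  rw [h1, Finset.sum_add_distrib]
  have h2 : (∑ v ∈ A, if G.Adj v w then 1 else 0) = nb G A w := by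
    rw [nb_eq]
    refine Finset.sum_congr rfl fun v _ => ?_
    by_cases h : G.Adj v w
    · rw [if_pos h, if_pos h.symm]
    · rw [if_neg h, if_neg fun h' => h h'.symm]
  rw [h2]
  ring

/-- the key -/
noncomputable def key {V : Type} [Fintype V] [DecidableEq V] (G : SimpleGraph V) (C : Finset V) :
    ℤ ×ₗ ℤ ×ₗ ℤ :=
  toLex (8 * (C.card : ℤ) + E G Cᶜ, toLex (-(C.card : ℤ), -(E G C : ℤ)))

theorem key_le {V : Type} [Fintype V] [DecidableEq V] (G : SimpleGraph V) (C D : Finset V)
    (h : key G C ≤ key G D) :
    8 * (C.card : ℤ) + E G Cᶜ < 8 * (D.card : ℤ) + E G Dᶜ ∨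
      (8 * (C.card : ℤ) + E G Cᶜ = 8 * (D.card : ℤ) + E G Dᶜ ∧
        ((D.card : ℤ) < C.card ∨ ((D.card : ℤ) = C.card ∧ (E G D : ℤ) ≤ E G C))) := by
  unfold key at h
  rw [Prod.Lex.toLex_le_toLex] at h
  rcases h with h | ⟨h1, h2⟩
  · exact Or.inl h
  · refine Or.inr ⟨h1, ?_⟩
    have h2' : toLex (-(C.card : ℤ), -(E G C : ℤ)) ≤ toLex (-(D.card : ℤ), -(E G D : ℤ)) := h2
    rw [Prod.Lex.toLex_le_toLex] at h2'
    rcases h2' with h | ⟨h3, h4⟩
    · left
      have h' : -(C.card : ℤ) < -(D.card : ℤ) := h
      linarith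
    · right
      have h3' : -(C.card : ℤ) = -(D.card : ℤ) := h3
      have h4' : -(E G C : ℤ) ≤ -(E G D : ℤ) := h4
      exact ⟨by linarith, by linarith⟩

end CHOM

open CHOM in
theorem specCHO : SpecCHO := by
  classical
  intro V _ _ G
  obtain ⟨C, -, hC⟩ := Finset.exists_min_image (univ : Finset (Finset V)) (key G) univ_nonempty
  have hmin : ∀ D : Finset V, key G C ≤ key G D := fun D => hC D (mem_univ D)
  refine ⟨C, ?_, ?_, ?_⟩
  · intro v hv
    have h1 := key_le G C (insert v C) (hmin _)
    have h2 : Cᶜ = insert v (insert v C)ᶜ := by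
      ext u
      simp only [mem_compl, mem_insert]
      by_cases hu : u = v
      · subst hu
        simp [hv]
      · simp [hu]
    have h3 : v ∉ (insert v C)ᶜ := by simp
    have h4 : E G Cᶜ = E G (insert v C)ᶜ + 2 * nb G (insert v C)ᶜ v := by
      conv_lhs => rw [h2]
      exact E_insert G _ v h3
    have h5 : nb G Cᶜ v = nb G (insert v C)ᶜ v := by
      conv_lhs => rw [h2]
      exact (nb_insert G _ v v h3).2 (G.loopless.irrefl v)
    have h6 : (insert v C).card = C.card + 1 := Finset.card_insert_of_notMem hv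
    rw [h6] at h1
    push_cast at h1
    rw [h4] at h1
    push_cast at h1
    rw [h5]
    omega
  · intro x hx
    have h1 := key_le G C (C.erase x) (hmin _)
    have h2 : (C.erase x)ᶜ = insert x Cᶜ := by
      ext u
      simp only [mem_compl, mem_insert, mem_erase]
      tauto
    have h3 : x ∉ Cᶜ := by simp [hx]
    have h4 : E G (C.erase x)ᶜ = E G Cᶜ + 2 * nb G Cᶜ x := by
      rw [h2]
      exact E_insert G _ x h3
    have h6 : (C.erase x).card + 1 = C.card := Finset.card_erase_add_one hx
    rw [h4] at h1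
    push_cast at h1
    omega
  · intro w hw i hi hw3 hwi hi4
    have hne : w ≠ i := fun h => hw (h ▸ hi)
    -- first add w, then remove i
    have a1 : Cᶜ = insert w (insert w C)ᶜ := by
      ext u
      simp only [mem_compl, mem_insert]
      by_cases hu : u = w
      · subst hu
        simp [hw]
      · simp [hu]
    have a2 : w ∉ (insert w C)ᶜ := by simp
    have a3 : E G Cᶜ = E G (insert w C)ᶜ + 2 * nb G (insert w C)ᶜ w := by
      conv_lhs => rw [a1]
      exact E_insert G _ w a2
    have a4 : nb G Cᶜ w = nb G (insert w C)ᶜ w := by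
      conv_lhs => rw [a1]
      exact (nb_insert G _ w w a2).2 (G.loopless.irrefl w)
    have a5 : nb G Cᶜ i = nb G (insert w C)ᶜ i + 1 := by
      conv_lhs => rw [a1]
      exact (nb_insert G _ w i a2).1 hwi.symm
    have b1 : ((insert w C).erase i)ᶜ = insert i (insert w C)ᶜ := by
      ext u
      simp only [mem_compl, mem_insert, mem_erase]
      tauto
    have b2 : i ∉ (insert w C)ᶜ := by simp [hi]
    have b3 : E G ((insert w C).erase i)ᶜ = E G (insert w C)ᶜ + 2 * nb G (insert w C)ᶜ i := by
      rw [b1]
      exact E_insert G _ i b2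
    have c1 : (insert w C).card = C.card + 1 := Finset.card_insert_of_notMem hw
    have hi' : i ∈ insert w C := mem_insert_of_mem hi
    have c2 : ((insert w C).erase i).card + 1 = (insert w C).card := Finset.card_erase_add_one hi'
    have d1 : E G (insert w C) = E G C + 2 * nb G C w := E_insert G C w hw
    have d2 : insert w C = insert i ((insert w C).erase i) := (Finset.insert_erase hi').symm
    have d3 : i ∉ (insert w C).erase i := by simp
    have d4 : E G (insert w C) = E G ((insert w C).erase i) +
        2 * nb G ((insert w C).erase i) i := by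
      conv_lhs => rw [d2]
      exact E_insert G _ i d3
    have d5 : nb G (insert w C) i = nb G ((insert w C).erase i) i := by
      conv_lhs => rw [d2]
      exact (nb_insert G _ i i d3).2 (G.loopless.irrefl i)
    have d6 : nb G (insert w C) i = nb G C i + 1 := (nb_insert G C w i hw).1 hwi.symm
    have h1 := key_le G C ((insert w C).erase i) (hmin _)
    rw [b3, a3] at h1
    push_cast at h1
    omega

end Pool.Agent.Lib.MP270b6b.F4
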