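import Pool.Agent.Lib.MP_270b6b_co.F4.Spec

/-!
# MP_270b6b_co, module CNT: the degree sum, split along a set of vertices
-/

set_option autoImplicit false

namespace Pool.Agent.Lib.MP270b6b.F4

open Finset

namespace CNTM

variable {V : Type} [Fintype V] [DecidableEq V]

theorem nb_eq (G : SimpleGraph V) [DecidableRel G.Adj] (C : Finset V) (v : V) :
    nb G C v = ∑ u ∈ C, (if G.Adj v u then 1 else 0) := by
  rw [← card_filter]
  unfold nb
  exact congrArg card (by ext u; simp only [mem_filter])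

theorem deg_eq (G : SimpleGraph V) [DecidableRel G.Adj] (C : Finset V) (v : V) :
    G.degree v = nb G C v + nb G Cᶜ v := by
  rw [nb_eq, nb_eq, sum_add_sum_compl, ← card_filter, ← SimpleGraph.card_neighborFinset_eq_degree]
  exact congrArg card (by ext u; simp only [SimpleGraph.mem_neighborFinset, mem_filter, mem_univ, true_and])

theorem swap (G : SimpleGraph V) [DecidableRel G.Adj] (C : Finset V) :
    ∑ v ∈ Cᶜ, nb G C v = ∑ x ∈ C, nb G Cᶜ x := by
  have h1 : ∀ v ∈ Cᶜ, nb G C v = ∑ u ∈ C, (if G.Adj v u then 1 else 0) := fun v _ => nb_eq G C v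
  have h2 : ∀ x ∈ C, nb G Cᶜ x = ∑ u ∈ Cᶜ, (if G.Adj x u then 1 else 0) := fun x _ => nb_eq G Cᶜ x
  rw [sum_congr rfl h1, sum_congr rfl h2, sum_comm]
  refine sum_congr rfl fun x _ => sum_congr rfl fun u _ => ?_
  by_cases h : G.Adj x u
  · rw [if_pos h, if_pos h.symm]
  · rw [if_neg h, if_neg fun h' => h h'.symm]

end CNTM

open CNTM in
theorem specCNT : SpecCNT := by
  intro V _ _ G _ C
  have h1 : ∑ v, G.degree v = 2 * G.edgeFinset.card := G.sum_degrees_eq_twice_card_edges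
  have h2 : ∑ v, G.degree v = ∑ v, (nb G C v + nb G Cᶜ v) := sum_congr rfl fun v _ => deg_eq G C v
  have h3 : ∑ v, (nb G C v + nb G Cᶜ v) = ∑ v ∈ C, (nb G C v + nb G Cᶜ v) + ∑ v ∈ Cᶜ, (nb G C v + nb G Cᶜ v) :=
    (sum_add_sum_compl C _).symm
  have h4 : ∑ v ∈ C, (nb G C v + nb G Cᶜ v) = ∑ v ∈ C, nb G C v + ∑ v ∈ C, nb G Cᶜ v := sum_add_distrib
  have h5 : ∑ v ∈ Cᶜ, (nb G C v + nb G Cᶜ v) = ∑ v ∈ Cᶜ, nb G C v + ∑ v ∈ Cᶜ, nb G Cᶜ v := sum_add_distrib
  have h6 := swap G C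
  omega

end Pool.Agent.Lib.MP270b6b.F4
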