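import Pool.Agent.Lib.MP_270b6b_co.F4.Spec

/-!
# MP_270b6b, module FIN: every graph with at most 29 edges has a good partition
-/

set_option autoImplicit false

namespace Pool.Agent.Lib.MP270b6b.F4

open Finset

namespace FINM

theorem nb_eq {V : Type} [Fintype V] [DecidableEq V] (G : SimpleGraph V) (C : Finset V) (v : V) :
    ∃ N : Finset V, N.card = nb G C v ∧ ∀ u, u ∈ N ↔ u ∈ C ∧ G.Adj v u := by
  classical
  refine ⟨C.filter (fun u => G.Adj v u), ?_, fun u => by simp⟩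
  unfold nb
  rfl

theorem low {V : Type} [Fintype V] [DecidableEq V] (G : SimpleGraph V) (C : Finset V) (h : V)
    (hC : h ∈ C) (hh : 4 ≤ nb G C h) : 8 ≤ ∑ x ∈ C, nb G C x ∧ 5 ≤ C.card := by
  obtain ⟨N, hN1, hN2⟩ := nb_eq G C h
  have hhN : h ∉ N := by
    intro hm
    exact G.loopless.irrefl h ((hN2 h).mp hm).2
  have hsub : insert h N ⊆ C := by
    intro u hu
    rcases Finset.mem_insert.mp hu with rfl | hu
    · exact hC
    · exact ((hN2 u).mp hu).1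
  have hone : ∀ x ∈ N, 1 ≤ nb G C x := by
    intro x hx
    obtain ⟨N', hN1', hN2'⟩ := nb_eq G C x
    have : h ∈ N' := (hN2' h).mpr ⟨hC, ((hN2 x).mp hx).2.symm⟩
    rw [← hN1']
    exact Finset.card_pos.mpr ⟨h, this⟩
  constructor
  · have h1 : N.card ≤ ∑ x ∈ N, nb G C x := by
      calc N.card = ∑ x ∈ N, 1 := by simp
        _ ≤ _ := Finset.sum_le_sum hone
    have h2 : ∑ x ∈ insert h N, nb G C x ≤ ∑ x ∈ C, nb G C x :=
      Finset.sum_le_sum_of_subset hsub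
    rw [Finset.sum_insert hhN] at h2
    omega
  · have h1 := Finset.card_le_card hsub
    rw [Finset.card_insert_of_notMem hhN] at h1
    omega

theorem env {V : Type} [Fintype V] [DecidableEq V] (G : SimpleGraph V) (C : Finset V) (k : ℕ)
    (h1 : ∀ v ∉ C, nb G Cᶜ v ≤ 3) (h2 : ∀ x ∈ C, 4 ≤ nb G Cᶜ x)
    (h3 : ∀ w ∉ C, ∀ i ∈ C, nb G Cᶜ w = 3 → G.Adj w i → nb G Cᶜ i = 4 → nb G C w ≤ nb G C i + 1)
    (S : Sys (Fin k) {v : V // v ∉ C}) (x : Fin k → V) (hx2 : ∀ v, v ∈ C ↔ ∃ i, x i = v)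
    (hN : ∀ i (w : {v : V // v ∉ C}), w ∈ S.N i ↔ G.Adj (x i) w.1)
    (hdg : ∀ i, S.dg univ i = nb G C (x i)) (hNc : ∀ i, (S.N i).card = nb G Cᶜ (x i))
    (htr : ∀ w : {v : V // v ∉ C}, S.tr univ w = nb G C w.1)
    (hlm : ∀ w : {v : V // v ∉ C}, lm S.L univ w = nb G Cᶜ w.1) : Env S := by
  have hxC : ∀ i, x i ∈ C := fun i => (hx2 _).mpr ⟨i, rfl⟩
  refine ⟨?_, ?_, ?_⟩
  · intro i
    rw [hNc]
    exact h2 _ (hxC i)
  · intro w
    rw [hlm]
    exact h1 _ w.2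
  · intro w i hw hwi hc
    rw [htr, hdg]
    rw [hlm] at hw
    rw [hNc] at hc
    exact h3 w.1 w.2 (x i) (hxC i) hw ((hN i w).mp hwi).symm hc

theorem tot {V : Type} [Fintype V] [DecidableEq V] (G : SimpleGraph V) (C : Finset V) (k : ℕ)
    (S : Sys (Fin k) {v : V // v ∉ C}) (x : Fin k → V) (hx1 : Function.Injective x)
    (hx2 : ∀ v, v ∈ C ↔ ∃ i, x i = v)
    (hdg : ∀ i, S.dg univ i = nb G C (x i)) (hNc : ∀ i, (S.N i).card = nb G Cᶜ (x i))
    (hL : 2 * S.L.card = ∑ v ∈ Cᶜ, nb G Cᶜ v)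
    (hc : (∑ x ∈ C, nb G C x) + 2 * (∑ x ∈ C, nb G Cᶜ x) + (∑ v ∈ Cᶜ, nb G Cᶜ v) ≤ 58) :
    (∑ i, S.dg univ i) + 2 * ((∑ i, (S.N i).card) + S.L.card) ≤ 58 := by
  have hCi : C = univ.image x := by
    ext v
    rw [hx2 v]
    simp
  have e1 : ∑ i, S.dg univ i = ∑ y ∈ C, nb G C y := by
    have : ∑ y ∈ C, nb G C y = ∑ y ∈ univ.image x, nb G C y := by rw [← hCi]
    rw [this, Finset.sum_image fun a _ b _ hab => hx1 hab]
    exact Finset.sum_congr rfl fun i _ => hdg i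
  have e2 : ∑ i, (S.N i).card = ∑ y ∈ C, nb G Cᶜ y := by
    have : ∑ y ∈ C, nb G Cᶜ y = ∑ y ∈ univ.image x, nb G Cᶜ y := by rw [← hCi]
    rw [this, Finset.sum_image fun a _ b _ hab => hx1 hab]
    exact Finset.sum_congr rfl fun i _ => hNc i
  rw [e1, e2]
  omega

theorem hub {W : Type} [Fintype W] [DecidableEq W] (S : Sys (Fin 5) W) (h : Fin 5)
    (hh : 4 ≤ S.dg univ h) : S.Hub h := by
  intro j hj
  by_contra hc
  have hsub : (univ.filter (fun i => S.Γ h i = true)) ⊆ (univ.erase h).erase j := by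
    intro i hi
    rw [Finset.mem_filter] at hi
    refine Finset.mem_erase.mpr ⟨?_, Finset.mem_erase.mpr ⟨?_, Finset.mem_univ _⟩⟩
    · rintro rfl
      exact hc hi.2
    · rintro rfl
      have := hi.2
      rw [S.irr] at this
      exact Bool.false_ne_true this
  have h1 := Finset.card_le_card hsub
  have h2 : ((univ.erase h).erase j).card = 3 := by
    rw [Finset.card_erase_of_mem (Finset.mem_erase.mpr ⟨hj, Finset.mem_univ _⟩),
      Finset.card_erase_of_mem (Finset.mem_univ _)]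
    simp
  have h3 : S.dg univ h = (univ.filter (fun i => S.Γ h i = true)).card := rfl
  omega

end FINM

open FINM

theorem specFIN (hK5 : SpecK5) (hX6 : SpecX6) (hCHO : SpecCHO) (hCNT : SpecCNT)
    (hTRN : SpecTRN) : SpecFIN := by
  intro V _ _ G _ hE
  obtain ⟨C, h1, h2, h3⟩ := hCHO V G
  by_cases hgood : ∀ x ∈ C, nb G C x ≤ 3
  · exact ⟨C, hgood, fun v hv => h1 v hv⟩
  obtain ⟨h, hhC, hh⟩ : ∃ h ∈ C, 4 ≤ nb G C h := by
    by_contra hcon
    apply hgood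
    intro x hx
    by_contra h4
    exact hcon ⟨x, hx, by omega⟩
  have hcnt := hCNT V G C
  have hc : (∑ x ∈ C, nb G C x) + 2 * (∑ x ∈ C, nb G Cᶜ x) + (∑ v ∈ Cᶜ, nb G Cᶜ v) ≤ 58 := by
    omega
  obtain ⟨b1, b2⟩ := low G C h hhC hh
  have b3 : 4 * C.card ≤ ∑ x ∈ C, nb G Cᶜ x := by
    calc 4 * C.card = ∑ x ∈ C, 4 := by simp [mul_comm]
      _ ≤ _ := Finset.sum_le_sum h2
  have hcard : C.card = 5 ∨ C.card = 6 := by omega
  rcases hcard with h5 | h6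
  · obtain ⟨S, x, hx1, hx2, -, hN, hdg, hNc, htr, hlm, hL, hg⟩ := hTRN V G C 5 h5
    apply hg
    obtain ⟨i0, hi0⟩ := (hx2 h).mp hhC
    refine hK5 _ S i0 (env G C 5 h1 h2 h3 S x hx2 hN hdg hNc htr hlm) (hub S i0 ?_)
      (tot G C 5 S x hx1 hx2 hdg hNc hL hc)
    rw [hdg, hi0]
    exact hh
  · obtain ⟨S, x, hx1, hx2, -, hN, hdg, hNc, htr, hlm, hL, hg⟩ := hTRN V G C 6 h6
    apply hg
    obtain ⟨i0, hi0⟩ := (hx2 h).mp hhC
    refine hX6 _ S i0 (env G C 6 h1 h2 h3 S x hx2 hN hdg hNc htr hlm) ?_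
      (tot G C 6 S x hx1 hx2 hdg hNc hL hc)
    rw [hdg, hi0]
    exact hh

end Pool.Agent.Lib.MP270b6b.F4
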