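import Pool.Agent.Lib.MP_270b6b_co.F4.Spec

/-!
# MP_270b6b_co, module F4.H0A: the hub has four leaves, not all full
-/

set_option autoImplicit false

namespace Pool.Agent.Lib.MP270b6b.F4

open Finset

namespace H0AM

variable {W : Type} [Fintype W] [DecidableEq W]

omit [Fintype W] in
theorem lm_mono {L : Finset (Sym2 W)} {X Y : Finset W} (h : X ⊆ Y) (w : W) :
    lm L X w ≤ lm L Y w :=
  Finset.card_le_card (Finset.filter_subset_filter _ h)

/-- two nonadjacent leaves have disjoint sets of edges -/
theorem two {L : Finset (Sym2 W)} {v z : W} (hvz : v ≠ z) (hn : s(v, z) ∉ L) :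
    lm L univ v + lm L univ z ≤ L.card := by
  have inj : ∀ a : W, Function.Injective (fun u : W => s(a, u)) := by
    intro a u u' h
    exact Sym2.congr_right.mp h
  have h1 : lm L univ v = ((univ.filter (fun u => s(v, u) ∈ L)).image (fun u => s(v, u))).card :=
    (Finset.card_image_of_injective _ (inj v)).symm
  have h2 : lm L univ z = ((univ.filter (fun u => s(z, u) ∈ L)).image (fun u => s(z, u))).card :=
    (Finset.card_image_of_injective _ (inj z)).symm
  rw [h1, h2, ← Finset.card_union_of_disjoint]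
  · refine Finset.card_le_card ?_
    intro e he
    rcases Finset.mem_union.mp he with he | he
    · obtain ⟨u, hu, rfl⟩ := Finset.mem_image.mp he
      exact (Finset.mem_filter.mp hu).2
    · obtain ⟨u, hu, rfl⟩ := Finset.mem_image.mp he
      exact (Finset.mem_filter.mp hu).2
  · rw [Finset.disjoint_left]
    intro e he he'
    obtain ⟨u, hu, rfl⟩ := Finset.mem_image.mp he
    obtain ⟨u', hu', h⟩ := Finset.mem_image.mp he'
    have h3 : s(z, u') = s(v, u) := h
    rw [Sym2.eq_iff] at h3
    rcases h3 with ⟨h4, h5⟩ | ⟨h4, h5⟩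
    · exact hvz h4.symm
    · have h6 : s(v, u) ∈ L := (Finset.mem_filter.mp hu).2
      rw [← h4] at h6
      exact hn h6

/-- a leaf adjacent to `v` is removed -/
theorem lm_compl_adj {L : Finset (Sym2 W)} {v z : W} (h : s(v, z) ∈ L) :
    lm L ({z}ᶜ) v + 1 ≤ lm L univ v := by
  have h1 : (({z}ᶜ : Finset W).filter (fun u => s(v, u) ∈ L)) ⊂
      (univ.filter (fun u => s(v, u) ∈ L)) := by
    refine (Finset.ssubset_iff_of_subset (Finset.filter_subset_filter _
      (Finset.subset_univ _))).mpr ⟨z, by simp [h], by simp⟩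
  exact Finset.card_lt_card h1

theorem tr_le {S : Sys (Fin 5) W} {h : Fin 5} {w : W} (hw : w ∈ S.N h) (hf : ¬ S.Full w) :
    S.tr (univ.erase h) w ≤ 3 := by
  by_contra hc
  apply hf
  have h1 : (univ.erase h : Finset (Fin 5)).card = 4 := by
    rw [Finset.card_erase_of_mem (Finset.mem_univ h)]
    simp
  have h2 : ((univ.erase h).filter (fun i => w ∈ S.N i)) = univ.erase h := by
    refine Finset.eq_of_subset_of_card_le (Finset.filter_subset _ _) ?_
    rw [h1]
    have h3 : S.tr (univ.erase h) w = ((univ.erase h).filter (fun i => w ∈ S.N i)).card := rfl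
    omega
  intro i
  by_cases hi : i = h
  · rw [hi]; exact hw
  · have h4 : i ∈ (univ.erase h).filter (fun i => w ∈ S.N i) := by
      rw [h2]
      exact Finset.mem_erase.mpr ⟨hi, Finset.mem_univ i⟩
    exact (Finset.mem_filter.mp h4).2

/-- the partition with `Y = {z}` -/
theorem good (hS14 : SpecS14) (S : Sys (Fin 5) W) (h : Fin 5) (z : W)
    (hc : (S.N h).card = 4) (hd : ∀ x, x ≠ h → S.dg (univ.erase h) x ≤ 2)
    (hl : ∀ v, lm S.L univ v ≤ 3) (hz : z ∈ S.N h) (hf : ¬ S.Full z)
    (hv : ∀ v ∈ S.N h, v ≠ z → lm S.L ({z}ᶜ) v ≤ 2) : S.Good := by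
  refine hS14 W S h {z} (Finset.singleton_subset_iff.mpr hz) (by rw [hc]; simp) ?_ ?_ ?_
  · intro x hx
    have h1 := hd x hx
    have h2 : (S.N x ∩ {z}).card ≤ 1 := by
      have := Finset.card_le_card (Finset.inter_subset_right : S.N x ∩ {z} ⊆ {z})
      simpa using this
    omega
  · intro w hw
    rw [Finset.mem_singleton] at hw
    subst hw
    have h1 := tr_le hz hf
    have h2 : lm S.L {w} w = 0 := by
      unfold lm
      rw [Finset.card_eq_zero, Finset.filter_eq_empty_iff]
      intro u hu
      rw [Finset.mem_singleton] at hu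
      subst hu
      exact S.nd u
    omega
  · intro v hvY
    have hne : v ≠ z := fun h => hvY (by simp [h])
    by_cases hvh : v ∈ S.N h
    · have h1 := hv v hvh hne
      simp only [hvh, if_true]
      omega
    · have h1 := (lm_mono (L := S.L) (Finset.subset_univ ({z}ᶜ : Finset W)) v).trans (hl v)
      simp only [hvh, if_false]
      omega

end H0AM

open H0AM in
theorem specH0A (hS14 : SpecS14) : SpecH0A := by
  intro W _ _ S h w hc hd hL hl hz3 hw hf
  by_cases hex : ∃ z ∈ S.N h, lm S.L univ z = 3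
  · obtain ⟨z, hz, hz'⟩ := hex
    refine good hS14 S h z hc hd hl hz (hz3 z hz hz') ?_
    intro v hv hvz
    by_cases hadj : s(v, z) ∈ S.L
    · have h1 := lm_compl_adj hadj
      have h2 := hl v
      omega
    · have h1 := two hvz hadj
      have h2 := lm_mono (L := S.L) (Finset.subset_univ ({z}ᶜ : Finset W)) v
      omega
  · refine good hS14 S h w hc hd hl hw hf ?_
    intro v hv hvw
    have h1 := hl v
    have h2 : lm S.L univ v ≠ 3 := fun h3 => hex ⟨v, hv, h3⟩
    have h3 := lm_mono (L := S.L) (Finset.subset_univ ({w}ᶜ : Finset W)) v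
    omega

end Pool.Agent.Lib.MP270b6b.F4
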