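import Pool.Agent.Lib.MP_270b6b_co.F4.Base

/-!
# MP_270b6b, F4: module H0B
-/

set_option autoImplicit false

namespace Pool.Agent.Lib.MP270b6b.F4

open Finset Base

theorem specH0B (hSPL : SpecSPL) : SpecH0B := by
  intro W _ _ S h a i j k h5 ch ca hfull hL hl3 hl2 he
  obtain ⟨p, q, r, t, hH, hpq, hpr, hpt, hqr, hqt, hrt, hnrt, hp1, hq1⟩ :=
    hSPL W S.L (S.N h) S.nd ch hL hl2
  have hNa : S.N a = S.N h := by
    symm
    apply eq_of_subset_of_card_le
    · intro w hw
      exact hfull w hw a
    · rw [ch, ca]
  have hcomp : ({h, a}ᶜ : Finset (Fin 5)) = {i, j, k} := five_compl2 h a i j k h5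
  have hXc : (({r, t}ᶜ : Finset W)ᶜ) = {r, t} := compl_compl _
  have hcap : (S.N h ∩ {r, t}ᶜ).card ≤ 2 := by
    have h1 : S.N h ∩ {r, t}ᶜ ⊆ {p, q} := by
      intro w hw
      rw [mem_inter, hH, mem_compl] at hw
      simp only [mem_insert, mem_singleton] at hw ⊢
      tauto
    exact (card_le_card h1).trans card_le_two
  have hdiff : ∀ x, (S.N x \ {r, t}ᶜ).card ≤ 2 := by
    intro x
    have h1 : S.N x \ {r, t}ᶜ ⊆ {r, t} := by
      intro w hw
      rw [mem_sdiff, mem_compl, not_not] at hw
      exact hw.2
    exact (card_le_card h1).trans card_le_two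
  obtain ⟨nha, nhi, nhj, nhk, nai, naj, nak, nij, nik, njk⟩ := h5
  refine ⟨{h, a}, {r, t}ᶜ, ?_, ?_, ?_, ?_⟩
  · intro x hx
    rw [mem_insert, mem_singleton] at hx
    rw [dg_pair S x nha]
    rcases hx with rfl | rfl
    · have h1 := e_self S x
      have h2 := e_le S x a
      omega
    · have h1 := e_self S x
      have h2 := e_le S x h
      rw [hNa]
      omega
  · intro x hx
    have h1 : x ∈ ({h, a}ᶜ : Finset (Fin 5)) := mem_compl.2 hx
    rw [hcomp] at h1 ⊢
    have h2 := hdiff x
    rw [dg_triple S x nij nik njk]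
    rw [mem_insert, mem_insert, mem_singleton] at h1
    rcases h1 with rfl | rfl | rfl
    · have h3 := e_self S x
      omega
    · have h3 := e_self S x
      have h4 := e_comm S x i
      omega
    · have h3 := e_self S x
      have h4 := e_comm S x i
      have h5 := e_comm S x j
      omega
  · intro w hw
    by_cases hwH : w ∈ S.N h
    · have h1 : w = p ∨ w = q := by
        rw [hH] at hwH
        rw [mem_compl] at hw
        simp only [mem_insert, mem_singleton] at hw hwH
        tauto
      have h2 : S.tr {h, a} w ≤ 2 := (tr_le S _ w).trans card_le_two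
      rcases h1 with rfl | rfl
      · omega
      · omega
    · have h1 : S.tr {h, a} w = 0 := by
        unfold Sys.tr
        rw [card_eq_zero, filter_eq_empty_iff]
        intro x hx
        rw [mem_insert, mem_singleton] at hx
        rcases hx with rfl | rfl
        · exact hwH
        · rw [hNa]; exact hwH
      have h2 := lm_mono S.L (subset_univ ({r, t}ᶜ : Finset W)) w
      have h3 := hl3 w
      omega
  · intro w hw
    rw [mem_compl, not_not] at hw
    have h1 : S.tr {h, a}ᶜ w ≤ 3 := by
      refine (tr_le S _ w).trans ?_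
      rw [hcomp]
      exact card_le_three
    have h2 : lm S.L ({r, t}ᶜ)ᶜ w = 0 := by
      rw [hXc]
      unfold lm
      rw [card_eq_zero, filter_eq_empty_iff]
      intro u hu
      rw [mem_insert, mem_singleton] at hu hw
      rcases hu with rfl | rfl <;> rcases hw with rfl | rfl
      · exact S.nd _
      · rw [Sym2.eq_swap]; exact hnrt
      · exact hnrt
      · exact S.nd _
    omega

end Pool.Agent.Lib.MP270b6b.F4
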