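import Pool.Agent.Lib.MP_270b6b_co.F4.Spec

/-! # H0C: four full leaves at the hub, `|N a| = 5` -/

set_option autoImplicit false

namespace Pool.Agent.Lib.MP270b6b.F4

open Finset

namespace H0CM

lemma cover {h a i j k : Fin 5} (hF : Five h a i j k) (x : Fin 5) (h1 : x ≠ h) (h2 : x ≠ a) :
    x = i ∨ x = j ∨ x = k := by
  obtain ⟨a1, a2, a3, a4, a5, a6, a7, a8, a9, a10⟩ := hF
  omega

lemma exEdge {W : Type} [Fintype W] [DecidableEq W] (L : Finset (Sym2 W)) (w : W) (hL : L.card ≤ 1) :
    ∃ x y : W, ∀ e ∈ L, e = s(x, y) := by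
  rcases Finset.eq_empty_or_nonempty L with h | ⟨e, he⟩
  · exact ⟨w, w, by simp [h]⟩
  · induction e using Sym2.inductionOn with
    | hf x y => exact ⟨x, y, fun e' he' => Finset.card_le_one.mp hL _ he' _ he⟩

lemma lm_le {W : Type} [Fintype W] [DecidableEq W] (L : Finset (Sym2 W)) (X : Finset W) (w : W) :
    lm L X w ≤ L.card := by
  unfold lm
  refine Finset.card_le_card_of_injOn (fun u => s(w, u)) ?_ ?_
  · intro u hu
    rw [Finset.mem_coe, Finset.mem_filter] at hu
    exact hu.2
  · intro u _ v _ huv
    have h1 : s(w, u) = s(w, v) := huv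
    rw [Sym2.eq_iff] at h1
    rcases h1 with ⟨_, h2⟩ | ⟨h2, h3⟩
    · exact h2
    · rw [h3, h2]

end H0CM

open H0CM in
theorem specH0C : SpecH0C := by
  intro W _ _ S h a i j k hF ch ca full hL eij eik ejk
  have hsub : S.N h ⊆ S.N a := fun w hw => full w hw a
  have hne : (S.N a \ S.N h).Nonempty := by
    rw [← Finset.card_pos, Finset.card_sdiff_of_subset hsub]
    omega
  obtain ⟨e, he⟩ := hne
  rw [Finset.mem_sdiff] at he
  obtain ⟨x, y, hxy⟩ := exEdge S.L e hL
  have h2 : 1 < (S.N h \ {x, y}).card := by
    have := Finset.le_card_sdiff {x, y} (S.N h)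
    have h3 : ({x, y} : Finset W).card ≤ 2 := Finset.card_le_two
    omega
  obtain ⟨r, hr, t, ht, hrt⟩ := Finset.one_lt_card.mp h2
  simp only [Finset.mem_sdiff, Finset.mem_insert, Finset.mem_singleton, not_or] at hr ht
  have hre : r ≠ e := fun hh => he.2 (hh ▸ hr.1)
  have hte : t ≠ e := fun hh => he.2 (hh ▸ ht.1)
  have hha : h ≠ a := hF.1
  have cP : (({h, a} : Finset (Fin 5))ᶜ).card = 3 := by
    rw [Finset.card_compl, Finset.card_pair hha]; rfl
  have noadj : ∀ u v : W, (u = r ∨ u = t) → s(u, v) ∉ S.L := by
    intro u v hu hmem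
    have := hxy _ hmem
    rw [Sym2.eq_iff] at this
    rcases hu with rfl | rfl
    · rcases this with ⟨h1, _⟩ | ⟨h1, _⟩
      · exact hr.2.1 h1
      · exact hr.2.2 h1
    · rcases this with ⟨h1, _⟩ | ⟨h1, _⟩
      · exact ht.2.1 h1
      · exact ht.2.2 h1
  refine ⟨{h, a}, ({r, t, e} : Finset W)ᶜ, ?_, ?_, ?_, ?_⟩
  · intro z hz
    have hd : S.dg {h, a} z ≤ 1 := by
      unfold Sys.dg
      have : (({h, a} : Finset (Fin 5)).filter (fun j => S.Γ z j = true)) ⊆ ({h, a} : Finset (Fin 5)).erase z := by
        intro u hu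
        rw [Finset.mem_filter] at hu
        rw [Finset.mem_erase]
        refine ⟨?_, hu.1⟩
        rintro rfl
        have := S.irr u
        rw [this] at hu
        exact absurd hu.2 (by decide)
      have h3 := Finset.card_le_card this
      rw [Finset.card_erase_of_mem hz, Finset.card_pair hha] at h3
      omega
    have hN : (S.N z ∩ ({r, t, e} : Finset W)ᶜ).card ≤ 2 := by
      rw [Finset.mem_insert, Finset.mem_singleton] at hz
      have h3 : S.N z ∩ ({r, t, e} : Finset W)ᶜ = S.N z \ {r, t, e} := by
        ext u; simp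
      rw [h3]
      rcases hz with rfl | rfl
      · have h4 : S.N z \ {r, t, e} ⊆ S.N z \ {r, t} := by
          intro u hu
          simp only [Finset.mem_sdiff, Finset.mem_insert, Finset.mem_singleton, not_or] at hu ⊢
          exact ⟨hu.1, hu.2.1, hu.2.2.1⟩
        have h5 := Finset.card_le_card h4
        have h6 : ({r, t} : Finset W) ⊆ S.N z := by
          intro u hu
          simp only [Finset.mem_insert, Finset.mem_singleton] at hu
          rcases hu with rfl | rfl
          · exact hr.1
          · exact ht.1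
        rw [Finset.card_sdiff_of_subset h6, Finset.card_pair hrt] at h5
        omega
      · have h6 : ({r, t, e} : Finset W) ⊆ S.N z := by
          intro u hu
          simp only [Finset.mem_insert, Finset.mem_singleton] at hu
          rcases hu with rfl | rfl | rfl
          · exact hsub hr.1
          · exact hsub ht.1
          · exact he.1
        have h7 : ({r, t, e} : Finset W).card = 3 := by
          rw [Finset.card_eq_three]
          exact ⟨r, t, e, hrt, hre, hte, rfl⟩
        rw [Finset.card_sdiff_of_subset h6, h7]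
        omega
    omega
  · intro z hz
    simp only [Finset.mem_insert, Finset.mem_singleton, not_or] at hz
    have hd : S.dg ({h, a} : Finset (Fin 5))ᶜ z = 0 := by
      unfold Sys.dg
      rw [Finset.card_eq_zero, Finset.filter_eq_empty_iff]
      intro u hu
      simp only [Finset.mem_compl, Finset.mem_insert, Finset.mem_singleton, not_or] at hu
      have s1 := S.sym i j
      have s2 := S.sym i k
      have s3 := S.sym j k
      have i1 := S.irr i
      have i2 := S.irr j
      have i3 := S.irr k
      rcases cover hF z hz.1 hz.2 with rfl | rfl | rfl <;> rcases cover hF u hu.1 hu.2 with rfl | rfl | rfl <;>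
        simp_all
    have hN : (S.N z \ ({r, t, e} : Finset W)ᶜ).card ≤ 3 := by
      refine le_trans (Finset.card_le_card (t := ({r, t, e} : Finset W)) ?_) Finset.card_le_three
      intro u hu
      simp only [Finset.mem_sdiff, Finset.mem_compl, not_not] at hu
      exact hu.2
    omega
  · intro w _
    have h3 : S.tr {h, a} w ≤ 2 := by
      unfold Sys.tr
      exact le_trans (Finset.card_filter_le _ _) Finset.card_le_two
    have h4 := lm_le S.L ({r, t, e} : Finset W)ᶜ w
    omega
  · intro w hw
    rw [Finset.mem_compl, not_not] at hw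
    have h3 : S.tr ({h, a} : Finset (Fin 5))ᶜ w ≤ 3 := by
      unfold Sys.tr
      exact le_trans (Finset.card_filter_le _ _) cP.le
    have h4 : lm S.L ({r, t, e} : Finset W)ᶜᶜ w = 0 := by
      unfold lm
      rw [Finset.card_eq_zero, Finset.filter_eq_empty_iff]
      intro u hu
      rw [compl_compl] at hu
      simp only [Finset.mem_insert, Finset.mem_singleton] at hu hw
      rcases hw with rfl | rfl | rfl
      · exact noadj _ _ (Or.inl rfl)
      · exact noadj _ _ (Or.inr rfl)
      · rcases hu with rfl | rfl | rfl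
        · rw [Sym2.eq_swap]; exact noadj _ _ (Or.inl rfl)
        · rw [Sym2.eq_swap]; exact noadj _ _ (Or.inr rfl)
        · exact S.nd _
    omega

end Pool.Agent.Lib.MP270b6b.F4
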