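import Pool.Agent.Lib.MP_270b6b_co.F4.Spec

/-!
# MP_270b6b, module H1A: a hub with five leaves, none of them full
-/

set_option autoImplicit false

namespace Pool.Agent.Lib.MP270b6b.F4

open Finset

namespace H1AM

variable {W : Type} [Fintype W] [DecidableEq W]

theorem two3 (L : Finset (Sym2 W)) (z z' : W) (hne : z ≠ z') (h : 3 ≤ lm L univ z)
    (h' : 3 ≤ lm L univ z') : 5 ≤ L.card := by
  have him : ∀ v : W, ((univ.filter (fun u => s(v, u) ∈ L)).image (fun u => s(v, u))).card
      = lm L univ v := by
    intro v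
    rw [Finset.card_image_of_injective]
    · rfl
    · intro a b hab
      exact Sym2.congr_right.mp hab
  obtain ⟨A, hA⟩ : ∃ A, A = (univ.filter (fun u => s(z, u) ∈ L)).image (fun u => s(z, u)) :=
    ⟨_, rfl⟩
  obtain ⟨B, hB⟩ : ∃ B, B = (univ.filter (fun u => s(z', u) ∈ L)).image (fun u => s(z', u)) :=
    ⟨_, rfl⟩
  have h1 : 3 ≤ A.card := by rw [hA, him]; exact h
  have h2 : 3 ≤ B.card := by rw [hB, him]; exact h'
  have hAB : A ∪ B ⊆ L := by
    intro e he
    rcases Finset.mem_union.mp he with he | he
    · rw [hA] at he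
      obtain ⟨u, hu, rfl⟩ := Finset.mem_image.mp he
      exact (Finset.mem_filter.mp hu).2
    · rw [hB] at he
      obtain ⟨u, hu, rfl⟩ := Finset.mem_image.mp he
      exact (Finset.mem_filter.mp hu).2
  have hI : A ∩ B ⊆ {s(z, z')} := by
    intro e he
    obtain ⟨he1, he2⟩ := Finset.mem_inter.mp he
    rw [hA] at he1
    rw [hB] at he2
    obtain ⟨u, -, hu⟩ := Finset.mem_image.mp he1
    obtain ⟨u', -, hu'⟩ := Finset.mem_image.mp he2
    have h3 : z' ∈ e := by rw [← hu']; exact Sym2.mem_mk_left _ _
    rw [← hu] at h3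
    rcases Sym2.mem_iff.mp h3 with h4 | h4
    · exact absurd h4.symm hne
    · rw [Finset.mem_singleton, ← hu, ← h4]
  have h5 := Finset.card_union_add_card_inter A B
  have h6 := Finset.card_le_card hAB
  have h7 := Finset.card_le_card hI
  rw [Finset.card_singleton] at h7
  omega

theorem lm_mono (L : Finset (Sym2 W)) (X : Finset W) (v : W) : lm L X v ≤ lm L univ v :=
  Finset.card_le_card (Finset.filter_subset_filter _ (Finset.subset_univ _))

end H1AM

open H1AM

theorem specH1A (hS14 : SpecS14) : SpecH1A := by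
  intro W _ _ S h h5 hdg hnf hL hl
  have hne : (S.N h).Nonempty := Finset.card_pos.mp (by omega)
  obtain ⟨z, hz, hmax⟩ := Finset.exists_max_image (S.N h) (fun v => lm S.L univ v) hne
  obtain ⟨y, hy, hzy, hzyL⟩ : ∃ y ∈ S.N h, y ≠ z ∧ s(z, y) ∉ S.L := by
    by_contra hcon
    have hsub : (S.N h).erase z ⊆ univ.filter (fun u => s(z, u) ∈ S.L) := by
      intro u hu
      obtain ⟨hu1, hu2⟩ := Finset.mem_erase.mp hu
      refine Finset.mem_filter.mpr ⟨Finset.mem_univ _, ?_⟩
      by_contra hh
      exact hcon ⟨u, hu2, hu1, hh⟩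
    have h1 := Finset.card_le_card hsub
    rw [Finset.card_erase_of_mem hz] at h1
    have h2 := hl z
    have h3 : lm S.L univ z = (univ.filter (fun u => s(z, u) ∈ S.L)).card := rfl
    omega
  have hYc : ({z, y} : Finset W).card = 2 := Finset.card_pair hzy.symm
  have hYN : ({z, y} : Finset W) ⊆ S.N h := by
    intro u hu
    rcases Finset.mem_insert.mp hu with rfl | hu
    · exact hz
    · rw [Finset.mem_singleton.mp hu]; exact hy
  refine hS14 W S h {z, y} hYN (by rw [hYc, h5]) ?_ ?_ ?_
  · intro x hx
    have h1 := hdg x hx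
    have h2 : (S.N x ∩ {z, y}).card ≤ 2 := by
      rw [← hYc]
      exact Finset.card_le_card Finset.inter_subset_right
    omega
  · intro w hw
    have hwN := hYN hw
    have h1 : lm S.L {z, y} w = 0 := by
      unfold lm
      rw [Finset.card_eq_zero, Finset.filter_eq_empty_iff]
      intro u hu
      rw [Finset.mem_insert, Finset.mem_singleton] at hu hw
      rcases hw with rfl | rfl
      · rcases hu with rfl | rfl
        · exact S.nd _
        · exact hzyL
      · rcases hu with rfl | rfl
        · rw [Sym2.eq_swap]; exact hzyL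
        · exact S.nd _
    have h2 : S.tr (univ.erase h) w ≤ 3 := by
      obtain ⟨i, hi⟩ := not_forall.mp (hnf w hwN)
      have hih : i ≠ h := by
        rintro rfl
        exact hi hwN
      have hsub : (univ.erase h).filter (fun j => w ∈ S.N j) ⊆ (univ.erase h).erase i := by
        intro j hj
        obtain ⟨hj1, hj2⟩ := Finset.mem_filter.mp hj
        refine Finset.mem_erase.mpr ⟨?_, hj1⟩
        rintro rfl
        exact hi hj2
      have h3 := Finset.card_le_card hsub
      rw [Finset.card_erase_of_mem (Finset.mem_erase.mpr ⟨hih, Finset.mem_univ _⟩),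
        Finset.card_erase_of_mem (Finset.mem_univ _), Finset.card_univ, Fintype.card_fin] at h3
      exact h3
    omega
  · intro v hv
    have h1 := lm_mono S.L ({z, y} : Finset W)ᶜ v
    by_cases hvN : v ∈ S.N h
    · rw [if_pos hvN]
      by_contra hcon
      have h2 : 3 ≤ lm S.L univ v := by omega
      have h3 : 3 ≤ lm S.L univ z := h2.trans (hmax v hvN)
      have hzv : z ≠ v := by
        rintro rfl
        exact hv (Finset.mem_insert_self _ _)
      have h4 := two3 S.L z v hzv h3 h2
      omega
    · rw [if_neg hvN]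
      have h2 := hl v
      omega

end Pool.Agent.Lib.MP270b6b.F4
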