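import Pool.Agent.Lib.MP_270b6b_co.F4.Spec
import Pool.Agent.Lib.MP_270b6b_co.F4.Base

/-!
# MP_270b6b_co, F4: module H1B
-/

set_option autoImplicit false

namespace Pool.Agent.Lib.MP270b6b.F4

open Finset

namespace H1BM

variable {W : Type} [DecidableEq W]

theorem lm_zero {L : Finset (Sym2 W)} {X : Finset W} {w : W} (h : ∀ u ∈ X, s(w, u) ∉ L) :
    lm L X w = 0 := by
  unfold lm
  rw [card_eq_zero, filter_eq_empty_iff]
  exact fun u hu => h u hu

/-- deleting one end of every edge -/
theorem indep (L : Finset (Sym2 W)) (H : Finset W) :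
    ∃ Y ⊆ H, H.card ≤ Y.card + L.card ∧ ∀ u ∈ Y, ∀ v ∈ Y, s(u, v) ∉ L := by
  refine ⟨H \ L.image (fun e => (Quot.out e).1), sdiff_subset, ?_, ?_⟩
  · have h1 : (L.image (fun e => (Quot.out e).1)).card ≤ L.card := card_image_le
    have h2 := le_card_sdiff (L.image (fun e => (Quot.out e).1)) H
    omega
  · intro u hu v hv huv
    rw [mem_sdiff] at hu hv
    have h1 : (Quot.out s(u, v)).1 ∈ s(u, v) := Sym2.out_fst_mem s(u, v)
    have h2 : (Quot.out s(u, v)).1 ∈ L.image (fun e => (Quot.out e).1) :=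
      mem_image.mpr ⟨s(u, v), huv, rfl⟩
    rcases Sym2.mem_iff.mp h1 with h3 | h3
    · rw [h3] at h2
      exact hu.2 h2
    · rw [h3] at h2
      exact hv.2 h2

theorem key [Fintype W] (L : Finset (Sym2 W)) (H : Finset W) (hL : L.card ≤ 2) (hH : H.card = 5)
    (hnd : ∀ v, s(v, v) ∉ L) :
    ∃ Y ⊆ H, Y.card = 3 ∧ (∀ w ∈ Y, lm L Y w = 0) ∧ ∀ x ∈ H, x ∉ Y → lm L Yᶜ x ≤ 1 := by
  by_cases hx : ∃ x ∈ H, lm L univ x = 2
  · obtain ⟨x, hxH, hx2⟩ := hx
    have h1 := Base.lm_le_card L univ x
    have hall := Base.all_at L (v := x) (by omega)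
    have h2 : (H.erase x).card = 4 := by
      rw [card_erase_of_mem hxH, hH]
    have h3 : ((H.erase x).filter (fun u => s(x, u) ∈ L)).card ≤ 2 := by
      rw [← hx2]
      exact card_le_card (filter_subset_filter _ (subset_univ _))
    have h4 := card_filter_add_card_filter_not (s := H.erase x) (fun u => s(x, u) ∈ L)
    obtain ⟨T, hT, hT2⟩ := exists_subset_card_eq
      (s := (H.erase x).filter (fun u => ¬ s(x, u) ∈ L)) (n := 2) (by omega)
    have hT' : ∀ u ∈ T, u ≠ x ∧ u ∈ H ∧ s(x, u) ∉ L := by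
      intro u hu
      have h5 := mem_filter.mp (hT hu)
      exact ⟨(mem_erase.mp h5.1).1, (mem_erase.mp h5.1).2, h5.2⟩
    have hxT : x ∉ T := fun h => (hT' x h).1 rfl
    refine ⟨insert x T, ?_, ?_, ?_, ?_⟩
    · intro u hu
      rcases mem_insert.mp hu with rfl | hu
      · exact hxH
      · exact (hT' u hu).2.1
    · rw [card_insert_of_notMem hxT, hT2]
    · intro w hw
      refine lm_zero fun u hu hwu => ?_
      rcases mem_insert.mp hw with hw' | hw'
      · rcases mem_insert.mp hu with hu' | hu'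
        · rw [hw', hu'] at hwu
          exact hnd _ hwu
        · rw [hw'] at hwu
          exact (hT' u hu').2.2 hwu
      · rcases mem_insert.mp hu with hu' | hu'
        · rw [hu', Sym2.eq_swap] at hwu
          exact (hT' w hw').2.2 hwu
        · rcases Sym2.mem_iff.mp (hall _ hwu) with h5 | h5
          · exact (hT' w hw').1 h5.symm
          · exact (hT' u hu').1 h5.symm
    · intro v _ hv
      have h5 : lm L (insert x T)ᶜ v = 0 := by
        refine lm_zero fun u hu hvu => ?_
        rw [mem_compl] at hu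
        rcases Sym2.mem_iff.mp (hall _ hvu) with h5 | h5
        · exact hv (mem_insert.mpr (Or.inl h5.symm))
        · exact hu (mem_insert.mpr (Or.inl h5.symm))
      omega
  · push Not at hx
    obtain ⟨Y, hYH, hYc, hYi⟩ := indep L H
    obtain ⟨Z, hZY, hZ⟩ := exists_subset_card_eq (s := Y) (n := 3) (by omega)
    refine ⟨Z, hZY.trans hYH, hZ, ?_, ?_⟩
    · intro w hw
      exact lm_zero fun u hu => hYi w (hZY hw) u (hZY hu)
    · intro v hv _
      have h1 := hx v hv
      have h2 := Base.lm_le_card L univ v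
      have h3 := Base.lm_mono L (subset_univ Zᶜ) v
      omega

end H1BM

theorem specH1B (hSUB : SpecSUB) (hS23 : SpecS23) : SpecH1B := by
  intro W _ _ S h a i j k h5 hh ha hij hik hjk hL
  by_contra hng
  have hlm : ∀ v, lm S.L univ v ≤ 2 := fun v => (Base.lm_le_card S.L univ v).trans hL
  have he : S.e i j + S.e i k + S.e j k ≤ 1 := by
    rw [(Base.e_zero S).mpr hij, (Base.e_zero S).mpr hik, (Base.e_zero S).mpr hjk]
    omega
  have hsub : S.N a ⊆ S.N h := by
    intro w hw
    by_contra hwh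
    exact hng (hSUB W S h a i j k w h5 ha he hlm hw hwh)
  obtain ⟨Y, hY1, hY2, hY3, hY4⟩ := H1BM.key S.L (S.N h) hL hh S.nd
  exact hng (hS23 W S h a i j k Y h5 hh hsub hij hik hjk hY1 hY2 hY3 hY4
    (fun v => (hlm v).trans (by omega)))

end Pool.Agent.Lib.MP270b6b.F4
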