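import Pool.Agent.Lib.MP_270b6b_co.F4.Spec

/-!
# MP_270b6b_co, module H1C
-/

set_option autoImplicit false

namespace Pool.Agent.Lib.MP270b6b.F4

open Finset

namespace H1CM

lemma lm_zero {W : Type} [DecidableEq W] {L : Finset (Sym2 W)} (hL : L = ∅) (X : Finset W) (w : W) :
    lm L X w = 0 := by
  subst hL
  unfold lm
  simp

lemma tr_le {W : Type} [Fintype W] [DecidableEq W] (S : Sys (Fin 5) W) (h : Fin 5) (w : W)
    (hw : w ∈ S.N h) (hf : ¬ S.Full w) : S.tr (univ.erase h) w ≤ 3 := by
  unfold Sys.Full at hf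
  push Not at hf
  obtain ⟨i, hi⟩ := hf
  have hih : i ≠ h := by
    rintro rfl
    exact hi hw
  have hsub : (univ.erase h).filter (fun i => w ∈ S.N i) ⊆ (univ.erase h).erase i := by
    intro j hj
    rw [mem_filter] at hj
    rw [mem_erase]
    exact ⟨fun e => hi (e ▸ hj.2), hj.1⟩
  have h1 := card_le_card hsub
  have h2 : i ∈ (univ : Finset (Fin 5)).erase h := mem_erase.2 ⟨hih, mem_univ _⟩
  rw [card_erase_of_mem h2, card_erase_of_mem (mem_univ h)] at h1
  unfold Sys.tr
  simpa using h1

end H1CM

open H1CM in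
theorem specH1C (hS14 : SpecS14) : SpecH1C := by
  intro W _ _ S h w w' hN hdg hL hw hw' hne hf hf'
  apply hS14 W S h {w, w'}
  · intro x hx
    rw [mem_insert, mem_singleton] at hx
    rcases hx with rfl | rfl
    · exact hw
    · exact hw'
  · rw [card_pair hne, hN]
  · intro x hx
    have h1 := hdg x hx
    have h2 : (S.N x ∩ {w, w'}).card ≤ 2 :=
      (card_le_card inter_subset_right).trans (card_le_two)
    omega
  · intro y hy
    rw [lm_zero hL, add_zero]
    rw [mem_insert, mem_singleton] at hy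
    rcases hy with rfl | rfl
    · exact tr_le S h _ hw hf
    · exact tr_le S h _ hw' hf'
  · intro v _
    rw [lm_zero hL, add_zero]
    split_ifs <;> omega

end Pool.Agent.Lib.MP270b6b.F4
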