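import Pool.Agent.Lib.MP_270b6b_co.F4.Spec

/-!
# MP_270b6b_co, F4: module H1D
-/

set_option autoImplicit false

namespace Pool.Agent.Lib.MP270b6b.F4

open Finset

namespace H1DM

theorem five_cases {h i j k l : Fin 5} (h5 : Five h i j k l) (x : Fin 5) :
    x = h ∨ x = i ∨ x = j ∨ x = k ∨ x = l := by
  obtain ⟨a1, a2, a3, a4, a5, a6, a7, a8, a9, a10⟩ := h5
  have h1 : ({h, i, j, k, l} : Finset (Fin 5)) = univ := by
    apply Finset.eq_univ_of_card
    rw [Finset.card_insert_of_notMem, Finset.card_insert_of_notMem, Finset.card_insert_of_notMem,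
      Finset.card_insert_of_notMem, Finset.card_singleton, Fintype.card_fin]
    · simpa using a10
    · simp [a8, a9]
    · simp [a5, a6, a7]
    · simp [a1, a2, a3, a4]
  have h2 := Finset.mem_univ x
  rw [← h1] at h2
  simpa using h2

theorem e_zero {W : Type} [Fintype W] [DecidableEq W] {S : Sys (Fin 5) W} {i j : Fin 5}
    (h : S.e i j = 0) : S.Γ i j = false := by
  unfold Sys.e at h
  cases hb : S.Γ i j
  · rfl
  · rw [hb] at h
    simp at h

end H1DM

open H1DM in
theorem specH1D : SpecH1D := by
  intro W _ _ S h i j k l H h5 hN he hL hH hfull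
  have hΓ : ∀ x y, x ≠ h → y ≠ h → S.Γ x y = false := by
    have e1 : S.Γ i j = false := e_zero (by omega)
    have e2 : S.Γ i k = false := e_zero (by omega)
    have e3 : S.Γ i l = false := e_zero (by omega)
    have e4 : S.Γ j k = false := e_zero (by omega)
    have e5 : S.Γ j l = false := e_zero (by omega)
    have e6 : S.Γ k l = false := e_zero (by omega)
    intro x y hx hy
    rcases five_cases h5 x with rfl | rfl | rfl | rfl | rfl
    · exact absurd rfl hx
    all_goals
      rcases five_cases h5 y with rfl | rfl | rfl | rfl | rfl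
      · exact absurd rfl hy
      all_goals first
        | exact S.irr _
        | assumption
        | (rw [S.sym]; assumption)
  have hsub : ∀ x, H ⊆ S.N x := fun x w hw => hfull w hw x
  have hone : ∀ x, ∃ e, e ∉ H ∧ ∀ w, w ∈ S.N x ↔ w = e ∨ w ∈ H := by
    intro x
    have h1 : (S.N x \ H).card = 1 := by
      rw [Finset.card_sdiff_of_subset (hsub x), hN, hH]
    obtain ⟨e, he⟩ := Finset.card_eq_one.1 h1
    have h2 : e ∈ S.N x \ H := by rw [he]; exact Finset.mem_singleton_self e
    refine ⟨e, (Finset.mem_sdiff.1 h2).2, fun w => ⟨fun hw => ?_, ?_⟩⟩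
    · by_cases hwH : w ∈ H
      · exact Or.inr hwH
      · left
        have h3 : w ∈ S.N x \ H := Finset.mem_sdiff.2 ⟨hw, hwH⟩
        rw [he] at h3
        exact Finset.mem_singleton.1 h3
    · rintro (rfl | hw)
      · exact (Finset.mem_sdiff.1 h2).1
      · exact hsub x hw
  choose e heH heN using hone
  obtain ⟨a, hah, ha⟩ : ∃ a, a ≠ h ∧ (e a = e h ∨ ∀ x, x ≠ h → e x ≠ e h) := by
    by_cases hex : ∃ a, a ≠ h ∧ e a = e h
    · obtain ⟨a, h1, h2⟩ := hex
      exact ⟨a, h1, Or.inl h2⟩
    · push Not at hex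
      exact ⟨i, h5.1.symm, Or.inr hex⟩
  obtain ⟨Rr, hRH, hR⟩ := Finset.exists_subset_card_eq (s := H) (n := 2) (by omega)
  have hHR : (H \ Rr).card = 2 := by
    rw [Finset.card_sdiff_of_subset hRH, hH, hR]
  have hlm : ∀ (X : Finset W) (w : W), lm S.L X w = 0 := by
    intro X w
    unfold lm
    rw [hL]
    simp
  have hdP : ∀ x, x = h ∨ x = a → S.dg {h, a} x ≤ 1 := by
    intro x hx
    unfold Sys.dg
    have h1 : (({h, a} : Finset (Fin 5)).filter (fun j => S.Γ x j = true)) ⊆
        ({h, a} : Finset (Fin 5)).erase x := by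
      intro y hy
      rw [Finset.mem_filter] at hy
      refine Finset.mem_erase.2 ⟨?_, hy.1⟩
      rintro rfl
      rw [S.irr] at hy
      exact absurd hy.2 (by simp)
    refine (Finset.card_le_card h1).trans ?_
    rw [Finset.card_erase_of_mem (by simpa using hx), Finset.card_pair hah.symm]
  refine ⟨{h, a}, (Rr ∪ {e h, e a})ᶜ, ?_, ?_, ?_, ?_⟩
  · intro x hx
    have hx' : x = h ∨ x = a := by simpa using hx
    have h1 : S.N x ∩ (Rr ∪ {e h, e a})ᶜ ⊆ H \ Rr := by
      intro w hw
      rw [Finset.mem_inter, Finset.mem_compl, Finset.mem_union, not_or, heN] at hw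
      obtain ⟨h2, h3, h4⟩ := hw
      rw [Finset.mem_insert, Finset.mem_singleton, not_or] at h4
      refine Finset.mem_sdiff.2 ⟨?_, h3⟩
      rcases h2 with h2 | h2
      · rcases hx' with rfl | rfl
        · exact absurd h2 h4.1
        · exact absurd h2 h4.2
      · exact h2
    have h2 := Finset.card_le_card h1
    have h3 := hdP x hx'
    omega
  · intro x hx
    have hxh : x ≠ h := fun h1 => hx (by simp [h1])
    have h1 : S.dg ({h, a} : Finset (Fin 5))ᶜ x = 0 := by
      unfold Sys.dg
      rw [Finset.card_eq_zero, Finset.filter_eq_empty_iff]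
      intro y hy
      have hyh : y ≠ h := by
        rintro rfl
        simp at hy
      rw [hΓ x y hxh hyh]
      simp
    have h2 : ∃ f, S.N x \ (Rr ∪ {e h, e a})ᶜ ⊆ insert f Rr := by
      have h3 : ∀ w ∈ S.N x \ (Rr ∪ {e h, e a})ᶜ, w ∈ S.N x ∧ (w ∈ Rr ∨ w = e h ∨ w = e a) := by
        intro w hw
        rw [Finset.mem_sdiff, Finset.mem_compl, not_not, Finset.mem_union, Finset.mem_insert,
          Finset.mem_singleton] at hw
        exact hw
      rcases ha with ha | ha
      · refine ⟨e h, fun w hw => ?_⟩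
        obtain ⟨-, h4 | h4 | h4⟩ := h3 w hw
        · exact Finset.mem_insert_of_mem h4
        · rw [h4]; exact Finset.mem_insert_self _ _
        · rw [h4, ha]; exact Finset.mem_insert_self _ _
      · refine ⟨e a, fun w hw => ?_⟩
        obtain ⟨h5', h4 | h4 | h4⟩ := h3 w hw
        · exact Finset.mem_insert_of_mem h4
        · exfalso
          rw [heN, h4] at h5'
          rcases h5' with h6 | h6
          · exact ha x hxh h6.symm
          · exact heH h h6
        · rw [h4]; exact Finset.mem_insert_self _ _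
    obtain ⟨f, hf⟩ := h2
    have h3 := Finset.card_le_card hf
    have h4 := Finset.card_insert_le f Rr
    omega
  · intro w _
    rw [hlm, add_zero]
    unfold Sys.tr
    refine (Finset.card_filter_le _ _).trans ?_
    rw [Finset.card_pair hah.symm]
    omega
  · intro w _
    rw [hlm, add_zero]
    unfold Sys.tr
    refine (Finset.card_filter_le _ _).trans ?_
    rw [Finset.card_compl, Finset.card_pair hah.symm, Fintype.card_fin]

end Pool.Agent.Lib.MP270b6b.F4
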