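import Pool.Agent.Lib.MP_270b6b_co.F4.Spec

/-!
# MP_270b6b_co, F4, module H1E

Five centres, one edge `ij` among the four centres other than `h`, sizes `5, 5, 5, 5, 4`, no leaf edges.
-/

set_option autoImplicit false

namespace Pool.Agent.Lib.MP270b6b.F4

open Finset

namespace H1EM

variable {W : Type} [Fintype W] [DecidableEq W]

theorem cover {h i j k l : Fin 5} (hf : Five h i j k l) (x : Fin 5) :
    x = h ∨ x = i ∨ x = j ∨ x = k ∨ x = l := by
  obtain ⟨h1, h2, h3, h4, h5, h6, h7, h8, h9, h10⟩ := hf
  have hc : ({h, i, j, k, l} : Finset (Fin 5)).card = 5 := by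
    rw [card_insert_of_notMem, card_insert_of_notMem, card_insert_of_notMem,
      card_insert_of_notMem, card_singleton] <;> simp [*]
  have hu : ({h, i, j, k, l} : Finset (Fin 5)) = univ :=
    eq_univ_of_card _ (by rw [hc]; rfl)
  have hx : x ∈ ({h, i, j, k, l} : Finset (Fin 5)) := by rw [hu]; exact mem_univ x
  simpa using hx

theorem dg_le (S : Sys (Fin 5) W) {P Q : Finset (Fin 5)} {x : Fin 5}
    (hQ : ∀ y ∈ P, S.Γ x y = true → y ∈ Q) : S.dg P x ≤ Q.card := by
  unfold Sys.dg
  refine card_le_card fun y hy => ?_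
  rw [mem_filter] at hy
  exact hQ y hy.1 hy.2

/-- the partition with the two centres `h, a` and all leaves outside `T` on one side -/
theorem good_pair (S : Sys (Fin 5) W) {h a : Fin 5} (hne : h ≠ a) (T : Finset W) (hL : S.L = ∅)
    (h1 : (S.N h \ T).card ≤ 2) (h2 : (S.N a \ T).card ≤ 2)
    (h3 : ∀ x, x ≠ h → x ≠ a → S.dg ({h, a}ᶜ) x + (S.N x ∩ T).card ≤ 3) : S.Good := by
  have hlm : ∀ (X : Finset W) (w : W), lm S.L X w = 0 := by
    intro X w
    unfold lm
    rw [hL, card_eq_zero]
    exact filter_eq_empty_iff.mpr fun u _ => notMem_empty _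
  have hcP : ({h, a} : Finset (Fin 5)).card = 2 := card_pair hne
  have hdg : ∀ x ∈ ({h, a} : Finset (Fin 5)), S.dg {h, a} x ≤ 1 := by
    intro x hx
    have h5 : S.dg {h, a} x ≤ (({h, a} : Finset (Fin 5)).erase x).card := by
      refine dg_le S fun y hy hxy => ?_
      refine mem_erase.mpr ⟨?_, hy⟩
      rintro rfl
      rw [S.irr] at hxy
      exact Bool.noConfusion hxy
    rw [card_erase_of_mem hx, hcP] at h5
    exact h5
  refine ⟨{h, a}, Tᶜ, ?_, ?_, ?_, ?_⟩
  · intro x hx
    have h6 : (S.N x ∩ Tᶜ).card ≤ 2 := by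
      have h7 : S.N x ∩ Tᶜ = S.N x \ T := by
        ext w
        simp only [mem_inter, mem_compl, mem_sdiff]
      rw [h7]
      rcases mem_insert.mp hx with rfl | hx'
      · exact h1
      · rw [mem_singleton] at hx'
        rw [hx']
        exact h2
    have := hdg x hx
    omega
  · intro x hx
    have h7 : S.N x \ Tᶜ = S.N x ∩ T := by
      ext w
      simp only [mem_inter, mem_compl, mem_sdiff, not_not]
    rw [h7]
    rw [mem_insert, mem_singleton, not_or] at hx
    exact h3 x hx.1 hx.2
  · intro w _
    rw [hlm, add_zero]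
    have h8 : S.tr {h, a} w ≤ ({h, a} : Finset (Fin 5)).card := card_filter_le _ _
    omega
  · intro w _
    rw [hlm, add_zero]
    have h8 : S.tr ({h, a}ᶜ) w ≤ (({h, a} : Finset (Fin 5))ᶜ).card := card_filter_le _ _
    have h9 : (({h, a} : Finset (Fin 5))ᶜ).card = 3 := by
      rw [card_compl, hcP]
      rfl
    omega

end H1EM

open H1EM in
theorem specH1E : SpecH1E := by
  intro W _ _ S h i j k l H hf nh ni nj nk nl he hL hH hfull
  have hcov := cover hf
  obtain ⟨hi, hj, hk, hl, ij, ik, il, jk, jl, kl⟩ := hf
  -- the nonadjacent pairs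
  have e0 : ∀ x y, S.e x y = 0 → S.Γ x y = false := by
    intro x y hxy
    unfold Sys.e at hxy
    cases hb : S.Γ x y
    · rfl
    · rw [hb] at hxy
      exact absurd hxy (by decide)
  have gik : S.Γ i k = false := e0 _ _ (by omega)
  have gil : S.Γ i l = false := e0 _ _ (by omega)
  have gjk : S.Γ j k = false := e0 _ _ (by omega)
  have gjl : S.Γ j l = false := e0 _ _ (by omega)
  have gkl : S.Γ k l = false := e0 _ _ (by omega)
  have gki : S.Γ k i = false := by rw [S.sym]; exact gik
  have gli : S.Γ l i = false := by rw [S.sym]; exact gil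
  have gkj : S.Γ k j = false := by rw [S.sym]; exact gjk
  have glj : S.Γ l j = false := by rw [S.sym]; exact gjl
  have glk : S.Γ l k = false := by rw [S.sym]; exact gkl
  have hsub : ∀ x, H ⊆ S.N x := fun x w hw => hfull w hw x
  -- the fifth leaf of `h`
  have ht1 : (S.N h \ H).card = 1 := by
    have := card_sdiff_add_card_eq_card (hsub h)
    omega
  obtain ⟨t, ht⟩ := card_eq_one.mp ht1
  have htH : t ∉ H := by
    have : t ∈ S.N h \ H := by rw [ht]; exact mem_singleton_self t
    exact (mem_sdiff.mp this).2
  have hNh : S.N h ⊆ insert t H := by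
    intro w hw
    by_cases hwH : w ∈ H
    · exact mem_insert_of_mem hwH
    · have : w ∈ S.N h \ H := mem_sdiff.mpr ⟨hw, hwH⟩
      rw [ht, mem_singleton] at this
      rw [this]
      exact mem_insert_self t H
  obtain ⟨R, hRH, hR⟩ := exists_subset_card_eq (show 2 ≤ H.card by omega)
  have hHR : (H \ R).card = 2 := by
    have := card_sdiff_add_card_eq_card hRH
    omega
  have hT : (insert t R).card ≤ 3 := by
    have := card_insert_le t R
    omega
  have hsm : ∀ x, S.N x ⊆ insert t H → (S.N x \ insert t R).card ≤ 2 := by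
    intro x hx
    rw [← hHR]
    refine card_le_card fun w hw => ?_
    rw [mem_sdiff, mem_insert, not_or] at hw
    refine mem_sdiff.mpr ⟨?_, hw.2.2⟩
    rcases mem_insert.mp (hx hw.1) with h5 | h5
    · exact absurd h5 hw.2.1
    · exact h5
  have hall : ∀ x, (S.N x ∩ insert t R).card ≤ 3 := fun x =>
    (card_le_card inter_subset_right).trans hT
  have htw : ∀ x, t ∉ S.N x → (S.N x ∩ insert t R).card ≤ 2 := by
    intro x hx
    rw [← hR]
    refine card_le_card fun w hw => ?_
    rw [mem_inter, mem_insert] at hw
    rcases hw.2 with h5 | h5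
    · rw [h5] at hw
      exact absurd hw.1 hx
    · exact h5
  have hfive : ∀ x, (S.N x).card = 5 → t ∈ S.N x → S.N x ⊆ insert t H := by
    intro x hx htx
    have h5 : insert t H ⊆ S.N x := insert_subset htx (hsub x)
    have h6 : (S.N x).card ≤ (insert t H).card := by
      rw [card_insert_of_notMem htH, hH, hx]
    rw [eq_of_subset_of_card_le h5 h6]
  have hNl : S.N l ⊆ insert t H := by
    have h6 : H = S.N l := eq_of_subset_of_card_le (hsub l) (by rw [hH, nl])
    rw [← h6]
    exact subset_insert t H
  by_cases hti : t ∈ S.N i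
  · -- `P = {h, i}`
    refine good_pair S hi (insert t R) hL (hsm h hNh) (hsm i (hfive i ni hti)) ?_
    intro x hxh hxi
    have h0 : S.dg ({h, i}ᶜ) x ≤ (∅ : Finset (Fin 5)).card := by
      refine dg_le S fun y hy hxy => ?_
      exfalso
      rw [mem_compl, mem_insert, mem_singleton, not_or] at hy
      rcases hcov x with rfl | rfl | rfl | rfl | rfl <;>
        rcases hcov y with rfl | rfl | rfl | rfl | rfl <;>
        simp_all [S.irr]
    rw [card_empty] at h0
    have := hall x
    omega
  by_cases htj : t ∈ S.N j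
  · -- `P = {h, j}`
    refine good_pair S hj (insert t R) hL (hsm h hNh) (hsm j (hfive j nj htj)) ?_
    intro x hxh hxj
    have h0 : S.dg ({h, j}ᶜ) x ≤ (∅ : Finset (Fin 5)).card := by
      refine dg_le S fun y hy hxy => ?_
      exfalso
      rw [mem_compl, mem_insert, mem_singleton, not_or] at hy
      rcases hcov x with rfl | rfl | rfl | rfl | rfl <;>
        rcases hcov y with rfl | rfl | rfl | rfl | rfl <;>
        simp_all [S.irr]
    rw [card_empty] at h0
    have := hall x
    omega
  · -- `P = {h, l}`
    refine good_pair S hl (insert t R) hL (hsm h hNh) (hsm l hNl) ?_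
    intro x hxh hxl
    rcases hcov x with hx | hx | hx | hx | hx
    · exact absurd hx hxh
    · subst hx
      have h0 : S.dg ({h, l}ᶜ) x ≤ ({j} : Finset (Fin 5)).card := by
        refine dg_le S fun y hy hxy => ?_
        rw [mem_compl, mem_insert, mem_singleton, not_or] at hy
        rw [mem_singleton]
        rcases hcov y with rfl | rfl | rfl | rfl | rfl <;> simp_all [S.irr]
      rw [card_singleton] at h0
      have := htw x hti
      omega
    · subst hx
      have h0 : S.dg ({h, l}ᶜ) x ≤ ({i} : Finset (Fin 5)).card := by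
        refine dg_le S fun y hy hxy => ?_
        rw [mem_compl, mem_insert, mem_singleton, not_or] at hy
        rw [mem_singleton]
        rcases hcov y with rfl | rfl | rfl | rfl | rfl <;> simp_all [S.irr]
      rw [card_singleton] at h0
      have := htw x htj
      omega
    · subst hx
      have h0 : S.dg ({h, l}ᶜ) x ≤ (∅ : Finset (Fin 5)).card := by
        refine dg_le S fun y hy hxy => ?_
        exfalso
        rw [mem_compl, mem_insert, mem_singleton, not_or] at hy
        rcases hcov y with rfl | rfl | rfl | rfl | rfl <;> simp_all [S.irr]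
      rw [card_empty] at h0
      have := hall x
      omega
    · exact absurd hx hxl

end Pool.Agent.Lib.MP270b6b.F4
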