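import Pool.Agent.Lib.MP_270b6b_co.F4.Base

/-!
# MP_270b6b, F4, module H1F
-/

set_option autoImplicit false

namespace Pool.Agent.Lib.MP270b6b.F4

open Finset Base

theorem specH1F : SpecH1F := by
  intro W _ _ S h i j k l H h5 hNh hNi hNj hNk hNl he hL hH hfull
  have hsub : ∀ x, H ⊆ S.N x := fun x w hw => hfull w hw x
  have hI : S.N i = H := (eq_of_subset_of_card_le (hsub i) (by rw [hNi, hH])).symm
  have hJ : S.N j = H := (eq_of_subset_of_card_le (hsub j) (by rw [hNj, hH])).symm
  have c1 : (S.N l \ H).card = 1 := by rw [card_sdiff_of_subset (hsub l), hNl, hH]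
  obtain ⟨R, hRH, hR⟩ := exists_subset_card_eq (s := H) (n := 2) (by rw [hH]; norm_num)
  have hHR : (H \ R).card = 2 := by rw [card_sdiff_of_subset hRH, hH, hR]
  obtain ⟨T, hT⟩ : ∃ T : Finset W, T = R ∪ (S.N h \ H) ∪ (S.N k \ H) := ⟨_, rfl⟩
  have hTH : ∀ x, x ∈ T → x ∈ H → x ∈ R := by
    intro x hx hxH
    rw [hT, mem_union, mem_union, mem_sdiff, mem_sdiff] at hx
    rcases hx with (hx | hx) | hx
    · exact hx
    · exact absurd hxH hx.2
    · exact absurd hxH hx.2
  have hRT : ∀ x, x ∈ R → x ∈ T := by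
    intro x hx
    rw [hT, mem_union, mem_union]
    exact Or.inl (Or.inl hx)
  have hhT : ∀ x, x ∈ S.N h → x ∉ T → x ∈ H \ R := by
    intro x hx hxT
    rw [mem_sdiff]
    refine ⟨?_, fun hxR => hxT (hRT x hxR)⟩
    by_contra hxH
    apply hxT
    rw [hT, mem_union, mem_union, mem_sdiff]
    exact Or.inl (Or.inr ⟨hx, hxH⟩)
  have hkT : ∀ x, x ∈ S.N k → x ∉ T → x ∈ H \ R := by
    intro x hx hxT
    rw [mem_sdiff]
    refine ⟨?_, fun hxR => hxT (hRT x hxR)⟩
    by_contra hxH
    apply hxT
    rw [hT, mem_union]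
    exact Or.inr (mem_sdiff.2 ⟨hx, hxH⟩)
  have hc5 := five_cover h i j k l h5
  have h5' := h5
  obtain ⟨dhi, dhj, dhk, dhl, dij, dik, dil, djk, djl, dkl⟩ := h5
  have hcompl : ({h, k}ᶜ : Finset (Fin 5)) = {i, j, l} := by
    apply five_compl2 h k i j l
    exact ⟨dhk, dhi, dhj, dhl, Ne.symm dik, Ne.symm djk, dkl, dij, dil, djl⟩
  have e1 := e_le S h k
  have e2 := e_le S i j
  refine ⟨{h, k}, Tᶜ, ?_, ?_, ?_, ?_⟩
  · intro x hx
    rw [mem_insert, mem_singleton] at hx
    rcases hx with rfl | rfl
    · have a1 : S.dg {x, k} x ≤ 1 := by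
        rw [dg_pair S x dhk, e_self]
        omega
      have a2 : (S.N x ∩ Tᶜ).card ≤ 2 := by
        rw [← hHR]
        apply card_le_card
        intro y hy
        rw [mem_inter, mem_compl] at hy
        exact hhT y hy.1 hy.2
      omega
    · have a1 : S.dg {h, x} x ≤ 1 := by
        rw [dg_pair S x dhk, e_self, e_comm]
        omega
      have a2 : (S.N x ∩ Tᶜ).card ≤ 2 := by
        rw [← hHR]
        apply card_le_card
        intro y hy
        rw [mem_inter, mem_compl] at hy
        exact hkT y hy.1 hy.2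
      omega
  · intro x hx
    rw [mem_insert, mem_singleton, not_or] at hx
    rw [hcompl, dg_triple S x dij dil djl]
    rcases hc5 x with hxx | hxx | hxx | hxx | hxx
    · exact absurd hxx hx.1
    · rw [hxx, e_self]
      have a2 : (S.N i \ Tᶜ).card ≤ 2 := by
        rw [← hR]
        apply card_le_card
        intro y hy
        rw [mem_sdiff, mem_compl, not_not, hI] at hy
        exact hTH y hy.2 hy.1
      omega
    · rw [hxx, e_self, e_comm S j i]
      have a2 : (S.N j \ Tᶜ).card ≤ 2 := by
        rw [← hR]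
        apply card_le_card
        intro y hy
        rw [mem_sdiff, mem_compl, not_not, hJ] at hy
        exact hTH y hy.2 hy.1
      omega
    · exact absurd hxx hx.2
    · rw [hxx, e_self, e_comm S l i, e_comm S l j]
      have a2 : (S.N l \ Tᶜ).card ≤ 3 := by
        calc (S.N l \ Tᶜ).card ≤ (R ∪ (S.N l \ H)).card := by
              apply card_le_card
              intro y hy
              rw [mem_sdiff, mem_compl, not_not] at hy
              rw [mem_union, mem_sdiff]
              by_cases hyH : y ∈ H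
              · exact Or.inl (hTH y hy.2 hyH)
              · exact Or.inr ⟨hy.1, hyH⟩
          _ ≤ R.card + (S.N l \ H).card := card_union_le _ _
          _ = 3 := by rw [hR, c1]
      omega
  · intro w _
    rw [hL, lm_of_empty]
    have := tr_le S {h, k} w
    have h2 : ({h, k} : Finset (Fin 5)).card ≤ 2 := card_le_two
    omega
  · intro w _
    rw [hL, lm_of_empty, hcompl]
    have := tr_le S {i, j, l} w
    have h2 : ({i, j, l} : Finset (Fin 5)).card ≤ 3 := card_le_three
    omega

end Pool.Agent.Lib.MP270b6b.F4
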