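import Pool.Agent.Lib.MP_270b6b_co.F4.Spec

/-!
# MP_270b6b_co, module H1G: three pairwise nonadjacent zero centres and a full leaf
-/

set_option autoImplicit false

namespace Pool.Agent.Lib.MP270b6b.F4

open Finset

namespace H1GM

variable {W : Type} [Fintype W] [DecidableEq W]

theorem gam_false (S : Sys (Fin 5) W) (i j : Fin 5) (h : S.e i j = 0) : S.Γ i j = false := by
  unfold Sys.e at h
  cases hb : S.Γ i j
  · rfl
  · rw [hb] at h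
    exact absurd h (by decide)

theorem three (hAC3 : SpecAC3) (hAC4 : SpecAC4) (S : Sys (Fin 5) W) (a b c : Fin 5) (w : W)
    (hab : a ≠ b) (hac : a ≠ c) (hbc : b ≠ c) (hlam : ∀ v, lm S.L univ v ≤ 3) (hw : S.Full w)
    (hL : S.L.card ≤ 4) (hz : S.L.card = 4 → ∃ z, lm S.L univ z = 3)
    (h1 : S.e a b = 0) (h2 : S.e a c = 0) (h3 : S.e b c = 0)
    (ha : (S.N a).card = 4) (hb : (S.N b).card = 4) (hc : (S.N c).card = 4) : S.Good := by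
  have g1 := gam_false S a b h1
  have g2 := gam_false S a c h2
  have g3 := gam_false S b c h3
  by_cases hex : ∃ z, lm S.L univ z = 3
  · obtain ⟨z, hz3⟩ := hex
    by_cases hza : z ∈ S.N a
    · by_cases hzb : z ∈ S.N b
      · exact hAC4 W S a b w z hab g1 ha hb (hw a) (hw b) hL hlam hz3 ⟨fun _ => hzb, fun _ => hza⟩
      · by_cases hzc : z ∈ S.N c
        · exact hAC4 W S a c w z hac g2 ha hc (hw a) (hw c) hL hlam hz3 ⟨fun _ => hzc, fun _ => hza⟩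
        · exact hAC4 W S b c w z hbc g3 hb hc (hw b) (hw c) hL hlam hz3
            ⟨fun h => absurd h hzb, fun h => absurd h hzc⟩
    · by_cases hzb : z ∈ S.N b
      · by_cases hzc : z ∈ S.N c
        · exact hAC4 W S b c w z hbc g3 hb hc (hw b) (hw c) hL hlam hz3 ⟨fun _ => hzc, fun _ => hzb⟩
        · exact hAC4 W S a c w z hac g2 ha hc (hw a) (hw c) hL hlam hz3
            ⟨fun h => absurd h hza, fun h => absurd h hzc⟩
      · exact hAC4 W S a b w z hab g1 ha hb (hw a) (hw b) hL hlam hz3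
          ⟨fun h => absurd h hza, fun h => absurd h hzb⟩
  · have hL3 : S.L.card ≤ 3 := by
      by_contra hcon
      exact hex (hz (by omega))
    refine hAC3 W S a b w hab g1 ha hb (hw a) (hw b) hL3 fun v => ?_
    have h4 := hlam v
    have h5 : lm S.L univ v ≠ 3 := fun h => hex ⟨v, h⟩
    omega

/-- one of the four triples avoids the only quantity which can be different from zero -/
theorem pick (e1 e2 e3 e4 e5 e6 c1 c2 c3 c4 : ℕ) (h1 : 4 ≤ c1) (h2 : 4 ≤ c2) (h3 : 4 ≤ c3) (h4 : 4 ≤ c4)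
    (h : e1 + e2 + e3 + e4 + e5 + e6 + c1 + c2 + c3 + c4 ≤ 17) :
    (e1 = 0 ∧ e2 = 0 ∧ e4 = 0 ∧ c1 = 4 ∧ c2 = 4 ∧ c3 = 4) ∨
    (e1 = 0 ∧ e3 = 0 ∧ e5 = 0 ∧ c1 = 4 ∧ c2 = 4 ∧ c4 = 4) ∨
    (e2 = 0 ∧ e3 = 0 ∧ e6 = 0 ∧ c1 = 4 ∧ c3 = 4 ∧ c4 = 4) ∨
    (e4 = 0 ∧ e5 = 0 ∧ e6 = 0 ∧ c2 = 4 ∧ c3 = 4 ∧ c4 = 4) := by
  by_cases g1 : e1 = 0 ∧ e2 = 0 ∧ e4 = 0 ∧ c1 = 4 ∧ c2 = 4 ∧ c3 = 4
  · exact Or.inl g1
  by_cases g2 : e1 = 0 ∧ e3 = 0 ∧ e5 = 0 ∧ c1 = 4 ∧ c2 = 4 ∧ c4 = 4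
  · exact Or.inr (Or.inl g2)
  by_cases g3 : e2 = 0 ∧ e3 = 0 ∧ e6 = 0 ∧ c1 = 4 ∧ c3 = 4 ∧ c4 = 4
  · exact Or.inr (Or.inr (Or.inl g3))
  refine Or.inr (Or.inr (Or.inr ?_))
  omega

end H1GM

open H1GM in
theorem specH1G (hAC3 : SpecAC3) (hAC4 : SpecAC4) : SpecH1G := by
  intro W _ _ S h i j k l w hF hE hw hsum hL hz
  obtain ⟨-, -, -, -, hij, hik, hil, hjk, hjl, hkl⟩ := hF
  rcases pick (S.e i j) (S.e i k) (S.e i l) (S.e j k) (S.e j l) (S.e k l) (S.N i).card (S.N j).card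
    (S.N k).card (S.N l).card (hE.four i) (hE.four j) (hE.four k) (hE.four l) hsum with
    ⟨a1, a2, a3, a4, a5, a6⟩ | ⟨a1, a2, a3, a4, a5, a6⟩ | ⟨a1, a2, a3, a4, a5, a6⟩ | ⟨a1, a2, a3, a4, a5, a6⟩
  · exact three hAC3 hAC4 S i j k w hij hik hjk hE.lam hw hL hz a1 a2 a3 a4 a5 a6
  · exact three hAC3 hAC4 S i j l w hij hil hjl hE.lam hw hL hz a1 a2 a3 a4 a5 a6
  · exact three hAC3 hAC4 S i k l w hik hil hkl hE.lam hw hL hz a1 a2 a3 a4 a5 a6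
  · exact three hAC3 hAC4 S j k l w hjk hjl hkl hE.lam hw hL hz a1 a2 a3 a4 a5 a6

end Pool.Agent.Lib.MP270b6b.F4
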