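import Pool.Agent.Lib.MP_270b6b_co.F4.Spec
import Pool.Agent.Lib.MP_270b6b_co.F4.Base

/-!
# MP_270b6b_co, F4: module H1H
-/

set_option autoImplicit false

namespace Pool.Agent.Lib.MP270b6b.F4

open Finset

namespace H1HM

variable {W : Type} [DecidableEq W]

theorem lm_zero {L : Finset (Sym2 W)} {X : Finset W} {w : W} (h : ∀ u ∈ X, s(w, u) ∉ L) :
    lm L X w = 0 := by
  unfold lm
  rw [card_eq_zero, filter_eq_empty_iff]
  exact fun u hu => h u hu

theorem lm_split [Fintype W] (L : Finset (Sym2 W)) (Y : Finset W) (w : W) :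
    lm L Y w + lm L Yᶜ w = lm L univ w := by
  unfold lm
  rw [← card_union_of_disjoint]
  · rw [← filter_union, union_compl]
  · exact disjoint_filter_filter disjoint_compl_right

/-- the two leaves `v1, v2` cover all edges -/
theorem key [Fintype W] (L : Finset (Sym2 W)) (H : Finset W) (hH : H.card = 5)
    (hnd : ∀ v, s(v, v) ∉ L) (v1 v2 : W) (hv : v1 ≠ v2) (h1 : v1 ∈ H) (h2 : v2 ∈ H)
    (hn : s(v1, v2) ∉ L) (hl1 : lm L univ v1 = 2) (hl2 : lm L univ v2 = 2)
    (hall : ∀ e ∈ L, v1 ∈ e ∨ v2 ∈ e) :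
    ∃ Y ⊆ H, Y.card = 3 ∧ (∀ w ∈ Y, lm L Y w = 0) ∧ ∀ x ∈ H, x ∉ Y → lm L Yᶜ x ≤ 1 := by
  by_cases hy : ∃ y ∈ H, y ≠ v1 ∧ y ≠ v2 ∧ s(v1, y) ∉ L ∧ s(v2, y) ∉ L
  · obtain ⟨y, hyH, hy1, hy2, hn1, hn2⟩ := hy
    refine ⟨{v1, v2, y}, ?_, ?_, ?_, ?_⟩
    · intro u hu
      simp only [mem_insert, mem_singleton] at hu
      rcases hu with rfl | rfl | rfl
      · exact h1
      · exact h2
      · exact hyH
    · rw [card_insert_of_notMem, card_insert_of_notMem, card_singleton]
      · simpa using Ne.symm hy2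
      · simp only [mem_insert, mem_singleton, not_or]
        exact ⟨hv, Ne.symm hy1⟩
    · intro w hw
      refine lm_zero fun u hu hwu => ?_
      simp only [mem_insert, mem_singleton] at hw hu
      rcases hw with rfl | rfl | rfl <;> rcases hu with rfl | rfl | rfl
      · exact hnd _ hwu
      · exact hn hwu
      · exact hn1 hwu
      · exact hn (by rw [Sym2.eq_swap]; exact hwu)
      · exact hnd _ hwu
      · exact hn2 hwu
      · exact hn1 (by rw [Sym2.eq_swap]; exact hwu)
      · exact hn2 (by rw [Sym2.eq_swap]; exact hwu)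
      · exact hnd _ hwu
    · intro v _ hvY
      have h3 : lm L ({v1, v2, y} : Finset W)ᶜ v = 0 := by
        refine lm_zero fun u hu hvu => ?_
        rw [mem_compl] at hu
        simp only [mem_insert, mem_singleton, not_or] at hu hvY
        rcases hall _ hvu with h4 | h4
        · rcases Sym2.mem_iff.mp h4 with h5 | h5
          · exact hvY.1 h5.symm
          · exact hu.1 h5.symm
        · rcases Sym2.mem_iff.mp h4 with h5 | h5
          · exact hvY.2.1 h5.symm
          · exact hu.2.1 h5.symm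
      omega
  · push Not at hy
    have hYm : ∀ u, u ∈ (H.erase v1).erase v2 ↔ u ≠ v2 ∧ u ≠ v1 ∧ u ∈ H := by
      intro u
      rw [mem_erase, mem_erase]
    have hYc : ((H.erase v1).erase v2).card = 3 := by
      rw [card_erase_of_mem (mem_erase.mpr ⟨Ne.symm hv, h2⟩), card_erase_of_mem h1, hH]
    generalize (H.erase v1).erase v2 = Y at hYm hYc
    -- at least one neighbour in Y
    have hpos : ∀ p q : W, lm L univ q = 2 → (∀ y ∈ Y, s(p, y) ∉ L → s(q, y) ∈ L) →
        1 ≤ lm L Y p := by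
      intro p q hq hpq
      by_contra hc
      have h3 : lm L Y p = 0 := by omega
      unfold lm at h3
      rw [card_eq_zero, filter_eq_empty_iff] at h3
      have h4 : Y.card ≤ lm L univ q := by
        unfold lm
        refine card_le_card fun y hyY => ?_
        exact mem_filter.mpr ⟨mem_univ _, hpq y hyY (h3 hyY)⟩
      omega
    have hp1 : 1 ≤ lm L Y v1 := hpos v1 v2 hl2 (fun y hyY hn1 => by
      obtain ⟨a1, a2, a3⟩ := (hYm y).mp hyY
      exact hy y a3 a2 a1 hn1)
    have hp2 : 1 ≤ lm L Y v2 := hpos v2 v1 hl1 (fun y hyY hn1 => by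
      obtain ⟨a1, a2, a3⟩ := (hYm y).mp hyY
      by_contra hn2
      exact hn1 (hy y a3 a2 a1 hn2))
    refine ⟨Y, fun u hu => ((hYm u).mp hu).2.2, hYc, ?_, ?_⟩
    · intro w hw
      refine lm_zero fun u hu hwu => ?_
      obtain ⟨a1, a2, _⟩ := (hYm w).mp hw
      obtain ⟨b1, b2, _⟩ := (hYm u).mp hu
      rcases hall _ hwu with h4 | h4
      · rcases Sym2.mem_iff.mp h4 with h5 | h5
        · exact a2 h5.symm
        · exact b2 h5.symm
      · rcases Sym2.mem_iff.mp h4 with h5 | h5
        · exact a1 h5.symm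
        · exact b1 h5.symm
    · intro x hxH hxY
      have h3 : x = v1 ∨ x = v2 := by
        by_contra hc
        rw [not_or] at hc
        exact hxY ((hYm x).mpr ⟨hc.2, hc.1, hxH⟩)
      have h4 := lm_split L Y x
      rcases h3 with rfl | rfl
      · omega
      · omega

end H1HM

theorem specH1H (hACG : SpecACG) (hSUB : SpecSUB) (hS23 : SpecS23) : SpecH1H := by
  intro W _ _ S h i j k l h5 hh hi hj hk hl he hL hlm
  have h5' := h5
  obtain ⟨n1, n2, n3, n4, n5, n6, n7, n8, n9, n10⟩ := h5'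
  by_contra hng
  have hsubi : S.N i ⊆ S.N h := by
    intro w hw
    by_contra hwh
    exact hng (hSUB W S h i j k l w h5 hi (by omega) hlm hw hwh)
  have hsubj : S.N j ⊆ S.N h := by
    intro w hw
    by_contra hwh
    exact hng (hSUB W S h j i k l w ⟨n2, n1, n3, n4, Ne.symm n5, n8, n9, n6, n7, n10⟩ hj
      (by omega) hlm hw hwh)
  have hI : 3 ≤ (S.N i ∩ S.N j).card := by
    have h1 := card_union_add_card_inter (S.N i) (S.N j)
    have h2 := card_le_card (union_subset hsubi hsubj)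
    omega
  have hij : S.Γ i j = false := (Base.e_zero S).mp (by omega)
  have hjk : S.Γ j k = false := (Base.e_zero S).mp (by omega)
  have hjl : S.Γ j l = false := (Base.e_zero S).mp (by omega)
  have hkl : S.Γ k l = false := (Base.e_zero S).mp (by omega)
  have hB : ∀ w ∈ S.N i ∩ S.N j, ∃ v ∈ S.N i ∩ S.N j, v ≠ w ∧ lm S.L univ v = 2 ∧
      s(v, w) ∉ S.L := by
    intro w hw
    by_contra hc
    push Not at hc
    rw [mem_inter] at hw
    refine hng (hACG W S i j w n5 hij hi hj hw.1 hw.2 (fun v => (hlm v).trans (by omega)) ?_ ?_)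
    · intro v hvw hvi hvj
      have h1 := hlm v
      have h2 := Base.lm_mono S.L (subset_univ (univ.erase w)) v
      by_cases h3 : lm S.L univ v = 2
      · have h4 := Base.lm_erase S.L (hc v (mem_inter.mpr ⟨hvi, hvj⟩) hvw h3)
        omega
      · omega
    · intro v _ _
      exact (Base.lm_mono S.L (subset_univ (univ.erase w)) v).trans (hlm v)
  obtain ⟨w0, hw0⟩ : (S.N i ∩ S.N j).Nonempty := by
    rw [← card_pos]
    omega
  obtain ⟨v1, hv1, _, hl1, _⟩ := hB w0 hw0
  obtain ⟨v2, hv2, hv21, hl2, hn⟩ := hB v1 hv1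
  have hall := Base.all_at2 S.L hv21 hn (by omega)
  rw [mem_inter] at hv1 hv2
  obtain ⟨Y, hY1, hY2, hY3, hY4⟩ := H1HM.key S.L (S.N h) hh S.nd v2 v1 hv21 (hsubi hv2.1)
    (hsubi hv1.1) hn hl2 hl1 hall
  exact hng (hS23 W S h i j k l Y h5 hh hsubi hjk hjl hkl hY1 hY2 hY3 hY4
    (fun v => (hlm v).trans (by omega)))

end Pool.Agent.Lib.MP270b6b.F4
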