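import Pool.Agent.Lib.MP_270b6b_co.F4.Spec

set_option autoImplicit false

namespace Pool.Agent.Lib.MP270b6b.F4

open Finset

namespace H2AM

variable {W : Type} [Fintype W] [DecidableEq W]

/-- application of S14 with an independent set of three leaves -/
theorem app (hS : SpecS14) (S : Sys (Fin 5) W) (h : Fin 5) (h6 : (S.N h).card = 6)
    (hdg : ∀ x, x ≠ h → S.dg (univ.erase h) x = 0) (hF : ∀ w ∈ S.N h, ¬ S.Full w)
    (hl : ∀ v, lm S.L univ v ≤ 3) (Y : Finset W) (hY : Y ⊆ S.N h) (hY3 : Y.card = 3)
    (hind : ∀ w ∈ Y, ∀ u ∈ Y, s(w, u) ∉ S.L) (hv : ∀ v ∉ Y, v ∈ S.N h → lm S.L Yᶜ v ≤ 2) : S.Good := by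
  refine hS W S h Y hY (by omega) ?_ ?_ ?_
  · intro x hx
    rw [hdg x hx, zero_add]
    calc (S.N x ∩ Y).card ≤ Y.card := card_le_card inter_subset_right
      _ = 3 := hY3
      _ ≤ 3 := le_rfl
  · intro w hw
    have h1 : lm S.L Y w = 0 := by
      unfold lm
      rw [card_eq_zero, filter_eq_empty_iff]
      exact fun u hu => hind w hw u hu
    rw [h1, add_zero]
    have h2 := hF w (hY hw)
    unfold Sys.Full at h2
    push Not at h2
    obtain ⟨i, hi⟩ := h2
    have hih : i ≠ h := by
      rintro rfl
      exact hi (hY hw)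
    unfold Sys.tr
    calc ((univ.erase h).filter (fun i => w ∈ S.N i)).card ≤ ((univ.erase h).erase i).card := by
          apply card_le_card
          intro j hj
          obtain ⟨hj1, hj2⟩ := mem_filter.1 hj
          refine mem_erase.2 ⟨?_, hj1⟩
          rintro rfl
          exact hi hj2
      _ = 3 := by
          rw [card_erase_of_mem (mem_erase.2 ⟨hih, mem_univ _⟩), card_erase_of_mem (mem_univ _), card_univ,
            Fintype.card_fin]
      _ ≤ 3 := le_rfl
  · intro v hvY
    split_ifs with hvN
    · have := hv v hvY hvN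
      omega
    · have h3 : lm S.L Yᶜ v ≤ lm S.L univ v := card_le_card (filter_subset_filter _ (subset_univ _))
      have := hl v
      omega

end H2AM

/-- six leaves at the hub, no edges among the other centres, at most three leaf edges -/
theorem specH2A (hS : SpecS14) : SpecH2A := by
  intro W _ _ S h h6 hdg hF hL hl
  by_cases hz : ∃ z ∈ S.N h, lm S.L univ z = 3
  · obtain ⟨z, hzN, hz3⟩ := hz
    have hinj : Set.InjOn (fun u => s(z, u)) ((univ.filter (fun u => s(z, u) ∈ S.L) : Finset W) : Set W) := by
      intro u _ v _ huv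
      exact Sym2.congr_right.1 huv
    have himg : (univ.filter (fun u => s(z, u) ∈ S.L)).image (fun u => s(z, u)) = S.L := by
      apply eq_of_subset_of_card_le
      · intro e he
        obtain ⟨u, hu, rfl⟩ := mem_image.1 he
        exact (mem_filter.1 hu).2
      · rw [card_image_of_injOn hinj]
        change S.L.card ≤ lm S.L univ z
        omega
    have hall : ∀ e ∈ S.L, z ∈ e := by
      intro e he
      rw [← himg] at he
      obtain ⟨u, _, rfl⟩ := mem_image.1 he
      exact Sym2.mem_mk_left z u
    have hns : ∀ u v, u ≠ z → v ≠ z → s(u, v) ∉ S.L := by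
      intro u v hu hv he
      rcases Sym2.mem_iff.1 (hall _ he) with h1 | h1
      · exact hu h1.symm
      · exact hv h1.symm
    obtain ⟨Y', hY'sub, hY'2⟩ : ∃ Y' ⊆ ((S.N h).erase z) \ (univ.filter (fun u => s(z, u) ∈ S.L)), Y'.card = 2 := by
      apply exists_subset_card_eq
      have h1 := le_card_sdiff (univ.filter (fun u => s(z, u) ∈ S.L)) ((S.N h).erase z)
      rw [card_erase_of_mem hzN] at h1
      have h2 : (univ.filter (fun u => s(z, u) ∈ S.L)).card = 3 := hz3
      omega
    have hzY' : z ∉ Y' := fun hmem => (mem_erase.1 (mem_sdiff.1 (hY'sub hmem)).1).1 rfl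
    refine H2AM.app hS S h h6 hdg hF hl (insert z Y') ?_ ?_ ?_ ?_
    · intro u hu
      rcases mem_insert.1 hu with rfl | hu
      · exact hzN
      · exact (mem_erase.1 (mem_sdiff.1 (hY'sub hu)).1).2
    · rw [card_insert_of_notMem hzY', hY'2]
    · intro w hw u hu he
      rcases mem_insert.1 hw with hw1 | hw
      · rw [hw1] at he
        rcases mem_insert.1 hu with hu1 | hu
        · rw [hu1] at he
          exact S.nd _ he
        · exact (mem_sdiff.1 (hY'sub hu)).2 (mem_filter.2 ⟨mem_univ _, he⟩)
      · rcases mem_insert.1 hu with hu1 | hu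
        · rw [hu1, Sym2.eq_swap] at he
          exact (mem_sdiff.1 (hY'sub hw)).2 (mem_filter.2 ⟨mem_univ _, he⟩)
        · exact hns w u (fun h => hzY' (h ▸ hw)) (fun h => hzY' (h ▸ hu)) he
    · intro v hv _
      have hvz : v ≠ z := fun h => hv (h ▸ mem_insert_self _ _)
      have h0 : lm S.L (insert z Y')ᶜ v = 0 := by
        unfold lm
        rw [card_eq_zero, filter_eq_empty_iff]
        intro u hu
        exact hns v u hvz (fun h => (mem_compl.1 hu) (h ▸ mem_insert_self _ _))
      omega
  · push Not at hz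
    obtain ⟨Y, hYsub, hY3⟩ : ∃ Y ⊆ (S.N h) \ (S.L.image (fun e => (Quot.out e).1)), Y.card = 3 := by
      apply exists_subset_card_eq
      have h1 := le_card_sdiff (S.L.image (fun e => (Quot.out e).1)) (S.N h)
      have h2 : (S.L.image (fun e => (Quot.out e).1)).card ≤ S.L.card := card_image_le
      omega
    refine H2AM.app hS S h h6 hdg hF hl Y (fun u hu => (mem_sdiff.1 (hYsub hu)).1) hY3 ?_ ?_
    · intro w hw u hu he
      have h1 : (Quot.out s(w, u)).1 ∈ S.L.image (fun e => (Quot.out e).1) := mem_image_of_mem _ he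
      have h2 : (Quot.out s(w, u)).1 ∈ s(w, u) := Sym2.out_fst_mem _
      rcases Sym2.mem_iff.1 h2 with h3 | h3
      · rw [h3] at h1
        exact (mem_sdiff.1 (hYsub hw)).2 h1
      · rw [h3] at h1
        exact (mem_sdiff.1 (hYsub hu)).2 h1
    · intro v _ hvN
      have h1 := hz v hvN
      have h2 := hl v
      have h3 : lm S.L Yᶜ v ≤ lm S.L univ v := card_le_card (filter_subset_filter _ (subset_univ _))
      omega

end Pool.Agent.Lib.MP270b6b.F4
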