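import Pool.Agent.Lib.MP_270b6b_co.F4.Spec

set_option autoImplicit false

namespace Pool.Agent.Lib.MP270b6b.F4

open Finset

namespace H2BM

variable {W : Type} [Fintype W] [DecidableEq W]

theorem cover {h i j k l : Fin 5} (H : Five h i j k l) (x : Fin 5) :
    x = h ∨ x = i ∨ x = j ∨ x = k ∨ x = l := by
  obtain ⟨h1, h2, h3, h4, h5, h6, h7, h8, h9, h10⟩ := H
  have hc : ({h, i, j, k, l} : Finset (Fin 5)).card = 5 := by
    rw [card_insert_of_notMem, card_insert_of_notMem, card_insert_of_notMem,
      card_insert_of_notMem, card_singleton] <;> simp [*]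
  have hu : ({h, i, j, k, l} : Finset (Fin 5)) = univ := eq_univ_of_card _ (by simpa using hc)
  have hx : x ∈ ({h, i, j, k, l} : Finset (Fin 5)) := by rw [hu]; exact mem_univ x
  simpa using hx

theorem lm_zero {L : Finset (Sym2 W)} (hL : L = ∅) (X : Finset W) (w : W) : lm L X w = 0 := by
  unfold lm
  rw [hL, card_eq_zero, filter_eq_empty_iff]
  intro u _ hu
  exact absurd hu (notMem_empty _)

theorem noedge {S : Sys (Fin 5) W} {h i j k l : Fin 5} (H : Five h i j k l)
    (he : S.e i j + S.e i k + S.e i l + S.e j k + S.e j l + S.e k l = 0) (x y : Fin 5)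
    (hx : x ≠ h) (hy : y ≠ h) : S.Γ x y = false := by
  have hz : ∀ a b, S.e a b = 0 → S.Γ a b = false := by
    intro a b hab
    unfold Sys.e at hab
    cases hg : S.Γ a b
    · rfl
    · rw [hg] at hab; simp at hab
  have a1 := hz i j (by omega)
  have a2 := hz i k (by omega)
  have a3 := hz i l (by omega)
  have a4 := hz j k (by omega)
  have a5 := hz j l (by omega)
  have a6 := hz k l (by omega)
  rcases cover H x with e | e | e | e | e
  · exact absurd e hx
  all_goals
    rcases cover H y with e' | e' | e' | e' | e'
    · exact absurd e' hy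
    all_goals
      rw [e, e']
      first
        | exact S.irr _
        | assumption
        | (rw [S.sym]; assumption)

theorem dg_zero {S : Sys (Fin 5) W} {P : Finset (Fin 5)} {x : Fin 5}
    (h : ∀ y ∈ P, S.Γ x y = false) : S.dg P x = 0 := by
  unfold Sys.dg
  rw [card_eq_zero, filter_eq_empty_iff]
  intro y hy hxy
  rw [h y hy] at hxy
  exact absurd hxy (by decide)

theorem tr_le {S : Sys (Fin 5) W} (P : Finset (Fin 5)) (w : W) : S.tr P w ≤ P.card :=
  card_filter_le _ _

end H2BM

open H2BM in
theorem specH2B (hS14 : SpecS14) : SpecH2B := by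
  classical
  intro W _ _ S h i j k l H hh hi hj hk hl he hL
  have hG := noedge H he
  set U : Finset W := (S.N h).filter (fun w => ¬ S.Full w) with hU
  by_cases h3 : 3 ≤ U.card
  · obtain ⟨Y, hYU, hY⟩ := exists_subset_card_eq h3
    have hYh : Y ⊆ S.N h := hYU.trans (filter_subset _ _)
    refine hS14 W S h Y hYh (by rw [hh, hY]) ?_ ?_ ?_
    · intro x hx
      rw [dg_zero (fun y hy => hG x y hx (ne_of_mem_erase hy))]
      have := card_le_card (inter_subset_right (s₁ := S.N x) (s₂ := Y))
      omega
    · intro w hw
      rw [lm_zero hL]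
      have hnf : ¬ S.Full w := (mem_filter.1 (hYU hw)).2
      unfold Sys.Full at hnf
      rw [not_forall] at hnf
      obtain ⟨x, hx⟩ := hnf
      have hxh : x ≠ h := by
        rintro rfl
        exact hx (hYh hw)
      have h1 : (univ.erase h).filter (fun i => w ∈ S.N i) ⊆ (univ.erase h).erase x := by
        intro y hy
        rw [mem_filter] at hy
        refine mem_erase.2 ⟨?_, hy.1⟩
        rintro rfl
        exact hx hy.2
      have h2 := card_le_card h1
      have h4 : ((univ.erase h).erase x : Finset (Fin 5)).card = 3 := by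
        rw [card_erase_of_mem (mem_erase.2 ⟨hxh, mem_univ _⟩), card_erase_of_mem (mem_univ _)]
        simp
      unfold Sys.tr
      omega
    · intro v _
      rw [lm_zero hL]
      split_ifs <;> omega
  · set F : Finset W := (S.N h).filter (fun w => S.Full w) with hF
    have hsum : F.card + U.card = 6 := by
      rw [← hh, hF, hU]
      exact card_filter_add_card_filter_not _
    have hFfull : ∀ x, F ⊆ S.N x := fun x w hw => (mem_filter.1 hw).2 x
    have hFh : F ⊆ S.N h := filter_subset _ _
    have hFi : F = S.N i := eq_of_subset_of_card_le (hFfull i) (by omega)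
    have hF4 : F.card = 4 := by rw [hFi, hi]
    obtain ⟨R, hRF, hR⟩ := exists_subset_card_eq (show 2 ≤ F.card by omega)
    have hFR : (F \ R).card = 2 := by rw [card_sdiff_of_subset hRF]; omega
    set T : Finset W := S.N h \ F with hT
    have hpc : ({h, i} : Finset (Fin 5)).card = 2 := card_pair H.1
    refine ⟨{h, i}, (R ∪ T)ᶜ, ?_, ?_, ?_, ?_⟩
    · intro x hx
      have hd : S.dg {h, i} x ≤ 1 := by
        have h1 : ({h, i} : Finset (Fin 5)).filter (fun j => S.Γ x j = true) ⊆
            ({h, i} : Finset (Fin 5)).erase x := by
          intro y hy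
          rw [mem_filter] at hy
          refine mem_erase.2 ⟨?_, hy.1⟩
          rintro rfl
          rw [S.irr] at hy
          exact absurd hy.2 (by decide)
        have h2 := card_le_card h1
        rw [card_erase_of_mem hx, hpc] at h2
        exact h2
      have hN : S.N x ∩ (R ∪ T)ᶜ ⊆ F \ R := by
        intro w hw
        rw [mem_inter, mem_compl, mem_union, not_or] at hw
        refine mem_sdiff.2 ⟨?_, hw.2.1⟩
        rw [mem_insert, mem_singleton] at hx
        rcases hx with e | e
        · by_contra hc
          refine hw.2.2 (mem_sdiff.2 ⟨?_, hc⟩)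
          rw [← e]
          exact hw.1
        · rw [hFi, ← e]
          exact hw.1
      have := card_le_card hN
      omega
    · intro x hx
      rw [mem_insert, mem_singleton, not_or] at hx
      rw [dg_zero (fun y hy => hG x y hx.1 (by
        rintro rfl
        exact (mem_compl.1 hy) (mem_insert_self _ _)))]
      have hx5 : (S.N x).card = 5 := by
        rcases cover H x with e | e | e | e | e
        · exact absurd e hx.1
        · exact absurd e hx.2
        · rw [e, hj]
        · rw [e, hk]
        · rw [e, hl]
      have hN : S.N x \ (R ∪ T)ᶜ ⊆ R ∪ (S.N x \ F) := by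
        intro w hw
        rw [mem_sdiff, mem_compl, not_not, mem_union] at hw
        rcases hw.2 with h1 | h1
        · exact mem_union_left _ h1
        · exact mem_union_right _ (mem_sdiff.2 ⟨hw.1, (mem_sdiff.1 h1).2⟩)
      have h1 := card_le_card hN
      have h2 := card_union_le R (S.N x \ F)
      have h5 : (S.N x \ F).card = 1 := by rw [card_sdiff_of_subset (hFfull x)]; omega
      omega
    · intro w _
      rw [lm_zero hL]
      have := tr_le (S := S) {h, i} w
      omega
    · intro w _
      rw [lm_zero hL]
      have h1 := tr_le (S := S) ({h, i}ᶜ) w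
      rw [card_compl, hpc, Fintype.card_fin] at h1
      omega

end Pool.Agent.Lib.MP270b6b.F4
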