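import Pool.Agent.Lib.MP_270b6b_co.F4.Spec
import Pool.Agent.Lib.MP_270b6b_co.F4.Base

/-!
# MP_270b6b, part F4, module H4
-/

set_option autoImplicit false

namespace Pool.Agent.Lib.MP270b6b.F4

open Finset

namespace H4M

variable {W : Type} [Fintype W] [DecidableEq W]

omit [Fintype W] in
lemma lm_erase_le (L : Finset (Sym2 W)) (hnd : ∀ v, s(v, v) ∉ L) (X : Finset W) (w : W) :
    lm L X w ≤ (X.erase w).card := by
  unfold lm
  apply card_le_card
  intro u hu
  rw [mem_filter] at hu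
  rw [mem_erase]
  refine ⟨?_, hu.1⟩
  rintro rfl
  exact hnd _ hu.2

lemma core (S : Sys (Fin 5) W) (h a i j k : Fin 5) (H : Five h a i j k)
    (hi : (S.N i).card = 4) (hj : (S.N j).card = 4) (hk : (S.N k).card = 4)
    (hL : S.L.card ≤ 1) (eij : S.e i j = 0) (eik : S.e i k = 0) (ejk : S.e j k = 0)
    (X : Finset W) (hX : X.card ≤ 2) (hXi : ∃ x ∈ X, x ∈ S.N i) (hXj : ∃ x ∈ X, x ∈ S.N j)
    (hXk : ∃ x ∈ X, x ∈ S.N k)
    (hw : ∀ w, w ∉ X → 1 ≤ lm S.L Xᶜ w → ¬ (w ∈ S.N i ∧ w ∈ S.N j ∧ w ∈ S.N k)) : S.Good := by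
  have hc : ({h, a}ᶜ : Finset (Fin 5)) = {i, j, k} := Base.five_compl2 h a i j k H
  have hcov := Base.five_cover h a i j k H
  obtain ⟨h1, h2, h3, h4, h5, h6, h7, h8, h9, h10⟩ := H
  have hP : ({h, a} : Finset (Fin 5)).card = 2 := card_pair h1
  have key : ∀ p : Fin 5, (S.N p).card = 4 → (∃ x ∈ X, x ∈ S.N p) → (S.N p \ X).card ≤ 3 := by
    intro p hp hx
    obtain ⟨x, hxX, hxp⟩ := hx
    have hsub : S.N p \ X ⊆ (S.N p).erase x := by
      intro u hu
      rw [mem_sdiff] at hu
      rw [mem_erase]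
      refine ⟨?_, hu.1⟩
      rintro rfl
      exact hu.2 hxX
    have := card_le_card hsub
    rw [card_erase_of_mem hxp, hp] at this
    omega
  refine ⟨{h, a}, X, ?_, ?_, ?_, ?_⟩
  · intro p hp
    have e1 := Base.dg_le_erase S {h, a} p
    rw [card_erase_of_mem hp, hP] at e1
    have e2 : (S.N p ∩ X).card ≤ X.card := card_le_card inter_subset_right
    omega
  · intro p hp
    rw [hc, Base.dg_triple S p h8 h9 h10]
    rw [mem_insert, mem_singleton, not_or] at hp
    rcases hcov p with r | r | r | r | r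
    · exact absurd r hp.1
    · exact absurd r hp.2
    · subst r
      have := key p hi hXi
      rw [Base.e_self S p, eij, eik]
      omega
    · subst r
      have := key p hj hXj
      rw [Base.e_self S p, Base.e_comm S p i, eij, ejk]
      omega
    · subst r
      have := key p hk hXk
      rw [Base.e_self S p, Base.e_comm S p i, Base.e_comm S p j, eik, ejk]
      omega
  · intro w hwX
    have e1 := Base.tr_le S {h, a} w
    rw [hP] at e1
    have e2 := lm_erase_le S.L S.nd X w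
    rw [card_erase_of_mem hwX] at e2
    omega
  · intro w hwX
    rw [hc]
    have hcard : ({i, j, k} : Finset (Fin 5)).card = 3 := card_eq_three.2 ⟨i, j, k, h8, h9, h10, rfl⟩
    have e1 := Base.tr_le S {i, j, k} w
    rw [hcard] at e1
    by_cases h0 : lm S.L Xᶜ w = 0
    · omega
    · have e2 := Base.lm_le_card S.L Xᶜ w
      have h3' := hw w hwX (by omega)
      have e3 : S.tr {i, j, k} w < 3 := by
        rcases Nat.lt_or_ge (S.tr {i, j, k} w) 3 with r | r
        · exact r
        · exfalso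
          apply h3'
          unfold Sys.tr at r
          have hs : ({i, j, k} : Finset (Fin 5)).filter (fun p => w ∈ S.N p) = {i, j, k} :=
            eq_of_subset_of_card_le (filter_subset _ _) (by rw [hcard]; exact r)
          have hm : ∀ p ∈ ({i, j, k} : Finset (Fin 5)), w ∈ S.N p := filter_eq_self.1 hs
          exact ⟨hm i (by simp), hm j (by simp), hm k (by simp)⟩
      omega

/-- the case where two given sets meet -/
lemma meet (S : Sys (Fin 5) W) (h a i j k : Fin 5) (H : Five h a i j k)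
    (hi : (S.N i).card = 4) (hj : (S.N j).card = 4) (hk : (S.N k).card = 4)
    (hL : S.L.card ≤ 1) (eij : S.e i j = 0) (eik : S.e i k = 0) (ejk : S.e j k = 0)
    (x : W) (hxi : x ∈ S.N i) (hxj : x ∈ S.N j) : S.Good := by
  by_cases hx' : ∃ v, 1 ≤ lm S.L univ v ∧ v ∈ S.N i ∧ v ∈ S.N j ∧ v ∈ S.N k
  · obtain ⟨v, hv, vi, vj, vk⟩ := hx'
    refine core S h a i j k H hi hj hk hL eij eik ejk {v} (by simp) ⟨v, by simp, vi⟩
      ⟨v, by simp, vj⟩ ⟨v, by simp, vk⟩ ?_
    intro w hwv h1
    exfalso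
    unfold lm at hv h1
    obtain ⟨u, hu⟩ := card_pos.1 hv
    obtain ⟨u', hu'⟩ := card_pos.1 h1
    rw [mem_filter] at hu hu'
    have heq : s(v, u) = s(w, u') := card_le_one.1 hL _ hu.2 _ hu'.2
    have hvm : v ∈ s(w, u') := by
      rw [← heq]
      exact Sym2.mem_mk_left _ _
    rw [Sym2.mem_iff] at hvm
    rcases hvm with r | r
    · apply hwv
      rw [r]
      simp
    · have := hu'.1
      rw [← r] at this
      simp at this
  · obtain ⟨y, hy⟩ : (S.N k).Nonempty := by
      rw [← card_pos, hk]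
      norm_num
    refine core S h a i j k H hi hj hk hL eij eik ejk {x, y} (card_le_two) ⟨x, by simp, hxi⟩
      ⟨x, by simp, hxj⟩ ⟨y, by simp, hy⟩ ?_
    intro w _ h1 h2
    exact hx' ⟨w, h1.trans (Base.lm_mono S.L (subset_univ _) w), h2⟩

end H4M

theorem specH4 (hSUB : SpecSUB) : SpecH4 := by
  intro W _ _ S h a i j k H h8 h11 hi hj hk ha he hs
  by_contra hgood
  have hL : S.L.card ≤ 1 := by omega
  have eij : S.e i j = 0 := by omega
  have eik : S.e i k = 0 := by omega
  have ejk : S.e j k = 0 := by omega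
  have hlm : ∀ v, lm S.L univ v ≤ 2 := fun v => (Base.lm_le_card S.L univ v).trans (by omega)
  have H' := H
  obtain ⟨h1, h2, h3, h4, h5, h6, h7, h8', h9, h10⟩ := H'
  have Fj : Five h a j i k := ⟨h1, h3, h2, h4, h6, h5, h7, Ne.symm h8', h10, h9⟩
  have Si : S.N i ⊆ S.N h := by
    intro w hw
    by_contra hwh
    exact hgood (hSUB W S h i a j k w
      ⟨h2, h1, h3, h4, Ne.symm h5, h8', h9, h6, h7, h10⟩ hi (by omega) hlm hw hwh)
  have Sj : S.N j ⊆ S.N h := by
    intro w hw
    by_contra hwh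
    exact hgood (hSUB W S h j a i k w
      ⟨h3, h1, h2, h4, Ne.symm h6, Ne.symm h8', h10, h5, h7, h9⟩ hj (by omega) hlm hw hwh)
  have Sk : S.N k ⊆ S.N h := by
    intro w hw
    by_contra hwh
    exact hgood (hSUB W S h k a i j w
      ⟨h4, h1, h2, h3, Ne.symm h7, Ne.symm h9, Ne.symm h10, h5, h6, h8'⟩ hk (by omega) hlm hw hwh)
  have dij : Disjoint (S.N i) (S.N j) := by
    rw [disjoint_left]
    intro x hxi hxj
    exact hgood (H4M.meet S h a i j k H hi hj hk hL eij eik ejk x hxi hxj)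
  have dik : Disjoint (S.N i) (S.N k) := by
    rw [disjoint_left]
    intro x hxi hxk
    exact hgood (H4M.meet S h a i k j ⟨h1, h2, h4, h3, h5, h7, h6, h9, h8', Ne.symm h10⟩ hi hk hj hL
      eik eij (by rw [Base.e_comm]; exact ejk) x hxi hxk)
  have djk : Disjoint (S.N j) (S.N k) := by
    rw [disjoint_left]
    intro x hxj hxk
    exact hgood (H4M.meet S h a j k i ⟨h1, h3, h4, h2, h6, h7, h5, h10, Ne.symm h8', Ne.symm h9⟩
      hj hk hi hL ejk (by rw [Base.e_comm]; exact eij) (by rw [Base.e_comm]; exact eik) x hxj hxk)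
  have hu : (S.N i ∪ S.N j ∪ S.N k).card = 12 := by
    rw [card_union_of_disjoint (disjoint_union_left.2 ⟨dik, djk⟩), card_union_of_disjoint dij,
      hi, hj, hk]
  have hle : (S.N i ∪ S.N j ∪ S.N k).card ≤ (S.N h).card :=
    card_le_card (union_subset (union_subset Si Sj) Sk)
  omega

end Pool.Agent.Lib.MP270b6b.F4
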