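import Pool.Agent.Lib.MP_270b6b_co.F4.Spec

/-!
# Module K0: five centres, one hub `h` with four leaves.
-/

set_option autoImplicit false

namespace Pool.Agent.Lib.MP270b6b.F4

open Finset

namespace K0M

theorem univ5 {h i j k l : Fin 5} (H : Five h i j k l) :
    (univ : Finset (Fin 5)) = {h, i, j, k, l} := by
  obtain ⟨a1, a2, a3, a4, a5, a6, a7, a8, a9, a10⟩ := H
  symm
  apply Finset.eq_univ_of_card
  rw [Finset.card_insert_of_notMem (by simp [a1, a2, a3, a4]),
    Finset.card_insert_of_notMem (by simp [a5, a6, a7]),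
    Finset.card_insert_of_notMem (by simp [a8, a9]),
    Finset.card_insert_of_notMem (by simp [a10]), Finset.card_singleton]
  rfl

theorem ite_toNat (b : Bool) : (if b = true then 1 else 0) = b.toNat := by
  cases b <;> rfl

theorem dg_univ {W : Type} [Fintype W] [DecidableEq W] (S : Sys (Fin 5) W)
    {h i j k l : Fin 5} (H : Five h i j k l) (x : Fin 5) :
    S.dg univ x = S.e x h + (S.e x i + (S.e x j + (S.e x k + S.e x l))) := by
  unfold Sys.dg Sys.e
  rw [Finset.card_filter, univ5 H]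
  obtain ⟨a1, a2, a3, a4, a5, a6, a7, a8, a9, a10⟩ := H
  rw [Finset.sum_insert (by simp [a1, a2, a3, a4]),
    Finset.sum_insert (by simp [a5, a6, a7]),
    Finset.sum_insert (by simp [a8, a9]),
    Finset.sum_insert (by simp [a10]), Finset.sum_singleton]
  simp only [ite_toNat]

theorem dg_erase {W : Type} [Fintype W] [DecidableEq W] (S : Sys (Fin 5) W) (h x : Fin 5) :
    S.dg (univ.erase h) x + S.e x h = S.dg univ x := by
  unfold Sys.dg Sys.e
  rw [Finset.card_filter, Finset.card_filter, ← ite_toNat (S.Γ x h)]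
  exact Finset.sum_erase_add univ (fun j => if S.Γ x j = true then 1 else 0) (mem_univ h)

theorem e_comm {W : Type} [Fintype W] [DecidableEq W] (S : Sys (Fin 5) W) (x y : Fin 5) :
    S.e x y = S.e y x := by
  unfold Sys.e
  rw [S.sym]

theorem e_self {W : Type} [Fintype W] [DecidableEq W] (S : Sys (Fin 5) W) (x : Fin 5) :
    S.e x x = 0 := by
  unfold Sys.e
  rw [S.irr]
  rfl

theorem lm_le {W : Type} [Fintype W] [DecidableEq W] (L : Finset (Sym2 W)) (w : W) :
    lm L univ w ≤ L.card := by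
  unfold lm
  apply Finset.card_le_card_of_injOn (fun u => s(w, u))
  · intro u hu
    exact (Finset.mem_filter.mp hu).2
  · intro u _ v _ huv
    exact Sym2.congr_right.mp huv

theorem tr_full {W : Type} [Fintype W] [DecidableEq W] (S : Sys (Fin 5) W) (w : W)
    (hw : S.Full w) : S.tr univ w = 5 := by
  unfold Sys.tr
  rw [Finset.filter_true_of_mem (fun i _ => hw i)]
  rfl

end K0M

theorem specK0 (hAC2 : SpecAC2) (hH0A : SpecH0A) (hH0B : SpecH0B) (hH0C : SpecH0C) :
    SpecK0 := by
  intro W _ _ S h i j k l H E hub hp T hh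
  have H1 := H
  obtain ⟨a1, a2, a3, a4, a5, a6, a7, a8, a9, a10⟩ := H1
  have Fj : Five h j i k l := ⟨a2, a1, a3, a4, a5.symm, a8, a9, a6, a7, a10⟩
  have Fk : Five h k i j l := ⟨a3, a1, a2, a4, a6.symm, a8.symm, a10, a5, a7, a9⟩
  have Fl : Five h l i j k := ⟨a4, a1, a2, a3, a7.symm, a9.symm, a10.symm, a5, a6, a8⟩
  unfold Tot at T
  rw [hh] at T
  have ni := E.four i
  have nj := E.four j
  have nk := E.four k
  have nl := E.four l
  -- degrees
  have deg : (S.e i j + S.e i k + S.e i l ≤ 2) ∧ (S.e i j + S.e j k + S.e j l ≤ 2) ∧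
      (S.e i k + S.e j k + S.e k l ≤ 2) ∧ (S.e i l + S.e j l + S.e k l ≤ 2) := by
    unfold Sys.e
    rcases hp with h | h | h | h | h | h | h <;>
    · obtain ⟨p1, p2, p3, p4, p5, p6⟩ := h
      rw [p1, p2, p3, p4, p5, p6]
      decide
  obtain ⟨di, dj, dk, dl⟩ := deg
  have eh : ∀ x, x ≠ h → S.e x h = 1 := by
    intro x hx
    rw [K0M.e_comm]
    unfold Sys.e
    rw [hub x hx]
    rfl
  have cases4 : ∀ x, x ≠ h → x = i ∨ x = j ∨ x = k ∨ x = l := by
    intro x hx
    have := mem_univ x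
    rw [K0M.univ5 H] at this
    simp only [mem_insert, mem_singleton] at this
    rcases this with h | h | h | h | h
    · exact absurd h hx
    · exact Or.inl h
    · exact Or.inr (Or.inl h)
    · exact Or.inr (Or.inr (Or.inl h))
    · exact Or.inr (Or.inr (Or.inr h))
  have hd : ∀ x, x ≠ h → S.dg univ x ≤ 3 := by
    intro x hx
    have e0 := eh x hx
    rw [K0M.dg_univ S H x, e0]
    rcases cases4 x hx with h | h | h | h <;> subst h
    · rw [K0M.e_self]; omega
    · rw [K0M.e_self, K0M.e_comm S x i]; omega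
    · rw [K0M.e_self, K0M.e_comm S x i, K0M.e_comm S x j]; omega
    · rw [K0M.e_self, K0M.e_comm S x i, K0M.e_comm S x j, K0M.e_comm S x k]; omega
  have hd' : ∀ x, x ≠ h → S.dg (univ.erase h) x ≤ 2 := by
    intro x hx
    have e1 := hd x hx
    have e2 := K0M.dg_erase S h x
    have e3 := eh x hx
    omega
  -- full leaves have at most two leaf neighbours
  have full3 : ∀ z, lm S.L univ z = 3 → ¬ S.Full z := by
    intro z hz hf
    have hL : 3 ≤ S.L.card := by
      rw [← hz]
      exact K0M.lm_le S.L z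
    have key : ∀ x, x ≠ h → (S.N x).card ≠ 4 := by
      intro x hx h4
      have e1 := E.ext z x hz (hf x) h4
      rw [K0M.tr_full S z hf] at e1
      have e2 := hd x hx
      omega
    have k1 := key i a1.symm
    have k2 := key j a2.symm
    have k3 := key k a3.symm
    have k4 := key l a4.symm
    omega
  by_cases hnf : ∃ w ∈ S.N h, ¬ S.Full w
  · obtain ⟨w, hw, hwf⟩ := hnf
    exact hH0A W S h w hh hd' (by omega) E.lam (fun z _ hz => full3 z hz) hw hwf
  have hF : ∀ w ∈ S.N h, S.Full w := by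
    intro w hw
    by_contra hc
    exact hnf ⟨w, hw, hc⟩
  have h2 : ∀ w ∈ S.N h, lm S.L univ w ≤ 2 := by
    intro w hw
    have e1 := E.lam w
    have e2 : lm S.L univ w ≠ 3 := fun e => full3 w e (hF w hw)
    omega
  obtain ⟨w0, hw0⟩ : (S.N h).Nonempty := by
    rw [← Finset.card_pos, hh]
    norm_num
  have L5 : S.L.card ≤ 5 := by omega
  have B : ∀ a x y z : Fin 5, Five h a x y z → (S.N a).card = 4 →
      S.e x y + S.e x z + S.e y z ≤ 1 → S.Good := by
    intro a x y z hf h4 he
    exact hH0B W S h a x y z hf hh h4 hF L5 E.lam h2 he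
  have C : ∀ a x y z : Fin 5, Five h a x y z → (S.N a).card = 5 → S.L.card ≤ 1 →
      S.Γ x y = false → S.Γ x z = false → S.Γ y z = false → S.Good := by
    intro a x y z hf h5 hL e1 e2 e3
    exact hH0C W S h a x y z hf hh h5 hF hL e1 e2 e3
  have A : ∀ x y : Fin 5, x ≠ y → S.Γ x y = false → (S.N x).card = 4 → (S.N y).card = 4 →
      S.L.card ≤ 2 → S.Good := by
    intro x y hxy e hx hy hL
    exact hAC2 W S x y w0 hxy e hx hy (hF w0 hw0 x) (hF w0 hw0 y) hL
  rcases hp with hp | hp | hp | hp | hp | hp | hp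
  · -- empty
    obtain ⟨p1, p2, p3, p4, p5, p6⟩ := hp
    have q1 : S.e i j = 0 := by rw [Sys.e, p1]; rfl
    have q2 : S.e i k = 0 := by rw [Sys.e, p2]; rfl
    have q3 : S.e i l = 0 := by rw [Sys.e, p3]; rfl
    have q4 : S.e j k = 0 := by rw [Sys.e, p4]; rfl
    have q5 : S.e j l = 0 := by rw [Sys.e, p5]; rfl
    have q6 : S.e k l = 0 := by rw [Sys.e, p6]; rfl
    by_cases c1 : (S.N i).card = 4
    · exact B i j k l H c1 (by omega)
    by_cases c2 : (S.N j).card = 4
    · exact B j i k l Fj c2 (by omega)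
    by_cases c3 : (S.N k).card = 4
    · exact B k i j l Fk c3 (by omega)
    by_cases c4 : (S.N l).card = 4
    · exact B l i j k Fl c4 (by omega)
    by_cases c5 : (S.N i).card = 5
    · exact C i j k l H c5 (by omega) p4 p5 p6
    · exact C j i k l Fj (by omega) (by omega) p2 p3 p6
  · -- the edge ij
    obtain ⟨p1, p2, p3, p4, p5, p6⟩ := hp
    have q1 : S.e i j = 1 := by rw [Sys.e, p1]; rfl
    have q2 : S.e i k = 0 := by rw [Sys.e, p2]; rfl
    have q3 : S.e i l = 0 := by rw [Sys.e, p3]; rfl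
    have q4 : S.e j k = 0 := by rw [Sys.e, p4]; rfl
    have q5 : S.e j l = 0 := by rw [Sys.e, p5]; rfl
    have q6 : S.e k l = 0 := by rw [Sys.e, p6]; rfl
    by_cases c1 : (S.N i).card = 4
    · exact B i j k l H c1 (by omega)
    by_cases c2 : (S.N j).card = 4
    · exact B j i k l Fj c2 (by omega)
    by_cases c3 : (S.N k).card = 4
    · exact B k i j l Fk c3 (by omega)
    by_cases c4 : (S.N l).card = 4
    · exact B l i j k Fl c4 (by omega)
    exact C i j k l H (by omega) (by omega) p4 p5 p6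
  · -- two disjoint edges
    obtain ⟨p1, p2, p3, p4, p5, p6⟩ := hp
    have q1 : S.e i j = 1 := by rw [Sys.e, p1]; rfl
    have q2 : S.e i k = 0 := by rw [Sys.e, p2]; rfl
    have q3 : S.e i l = 0 := by rw [Sys.e, p3]; rfl
    have q4 : S.e j k = 0 := by rw [Sys.e, p4]; rfl
    have q5 : S.e j l = 0 := by rw [Sys.e, p5]; rfl
    have q6 : S.e k l = 1 := by rw [Sys.e, p6]; rfl
    by_cases c1 : (S.N i).card = 4
    · exact B i j k l H c1 (by omega)
    by_cases c2 : (S.N j).card = 4
    · exact B j i k l Fj c2 (by omega)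
    by_cases c3 : (S.N k).card = 4
    · exact B k i j l Fk c3 (by omega)
    exact B l i j k Fl (by omega) (by omega)
  · -- the path i j k
    obtain ⟨p1, p2, p3, p4, p5, p6⟩ := hp
    have q1 : S.e i j = 1 := by rw [Sys.e, p1]; rfl
    have q2 : S.e i k = 0 := by rw [Sys.e, p2]; rfl
    have q3 : S.e i l = 0 := by rw [Sys.e, p3]; rfl
    have q4 : S.e j k = 1 := by rw [Sys.e, p4]; rfl
    have q5 : S.e j l = 0 := by rw [Sys.e, p5]; rfl
    have q6 : S.e k l = 0 := by rw [Sys.e, p6]; rfl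
    by_cases c1 : (S.N i).card = 4
    · exact B i j k l H c1 (by omega)
    by_cases c2 : (S.N j).card = 4
    · exact B j i k l Fj c2 (by omega)
    by_cases c3 : (S.N k).card = 4
    · exact B k i j l Fk c3 (by omega)
    exact C j i k l Fj (by omega) (by omega) p2 p3 p6
  · -- the path i j k l
    obtain ⟨p1, p2, p3, p4, p5, p6⟩ := hp
    have q1 : S.e i j = 1 := by rw [Sys.e, p1]; rfl
    have q2 : S.e i k = 0 := by rw [Sys.e, p2]; rfl
    have q3 : S.e i l = 0 := by rw [Sys.e, p3]; rfl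
    have q4 : S.e j k = 1 := by rw [Sys.e, p4]; rfl
    have q5 : S.e j l = 0 := by rw [Sys.e, p5]; rfl
    have q6 : S.e k l = 1 := by rw [Sys.e, p6]; rfl
    by_cases c2 : (S.N j).card = 4
    · exact B j i k l Fj c2 (by omega)
    by_cases c3 : (S.N k).card = 4
    · exact B k i j l Fk c3 (by omega)
    exact A i l a7 p3 (by omega) (by omega) (by omega)
  · -- the triangle i j k
    obtain ⟨p1, p2, p3, p4, p5, p6⟩ := hp
    have q1 : S.e i j = 1 := by rw [Sys.e, p1]; rfl
    have q2 : S.e i k = 1 := by rw [Sys.e, p2]; rfl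
    have q3 : S.e i l = 0 := by rw [Sys.e, p3]; rfl
    have q4 : S.e j k = 1 := by rw [Sys.e, p4]; rfl
    have q5 : S.e j l = 0 := by rw [Sys.e, p5]; rfl
    have q6 : S.e k l = 0 := by rw [Sys.e, p6]; rfl
    by_cases c1 : (S.N i).card = 4
    · exact B i j k l H c1 (by omega)
    by_cases c2 : (S.N j).card = 4
    · exact B j i k l Fj c2 (by omega)
    exact B k i j l Fk (by omega) (by omega)
  · -- the four-cycle i j k l
    obtain ⟨p1, p2, p3, p4, p5, p6⟩ := hp
    have q1 : S.e i j = 1 := by rw [Sys.e, p1]; rfl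
    have q2 : S.e i k = 0 := by rw [Sys.e, p2]; rfl
    have q3 : S.e i l = 1 := by rw [Sys.e, p3]; rfl
    have q4 : S.e j k = 1 := by rw [Sys.e, p4]; rfl
    have q5 : S.e j l = 0 := by rw [Sys.e, p5]; rfl
    have q6 : S.e k l = 1 := by rw [Sys.e, p6]; rfl
    by_cases c1 : (S.N i).card = 4 ∧ (S.N k).card = 4
    · exact A i k a6 p2 c1.1 c1.2 (by omega)
    · exact A j l a9 p5 (by omega) (by omega) (by omega)

end Pool.Agent.Lib.MP270b6b.F4
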