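import Pool.Agent.Lib.MP_270b6b_co.F4.Spec

/-!
# MP_270b6b_co, F4: module K1A
-/

set_option autoImplicit false

namespace Pool.Agent.Lib.MP270b6b.F4

open Finset

namespace K1AM

theorem cover {h i j k l : Fin 5} (hF : Five h i j k l) (x : Fin 5) :
    x = h ∨ x = i ∨ x = j ∨ x = k ∨ x = l := by
  obtain ⟨h1, h2, h3, h4, h5, h6, h7, h8, h9, h10⟩ := hF
  have hu : ({h, i, j, k, l} : Finset (Fin 5)) = univ := by
    apply eq_univ_of_card
    rw [card_insert_of_notMem, card_insert_of_notMem, card_insert_of_notMem, card_insert_of_notMem,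
      card_singleton]
    · rfl
    · simp [h10]
    · simp [h8, h9]
    · simp [h5, h6, h7]
    · simp [h1, h2, h3, h4]
  have hx : x ∈ ({h, i, j, k, l} : Finset (Fin 5)) := by rw [hu]; exact mem_univ x
  simpa using hx

theorem noedge {W : Type} [Fintype W] [DecidableEq W] (S : Sys (Fin 5) W) {h i j k l : Fin 5}
    (hF : Five h i j k l) (hP : Pat S i j k l false false false false false false) (x y : Fin 5)
    (hx : x ≠ h) (hy : y ≠ h) : S.Γ x y = false := by
  obtain ⟨p1, p2, p3, p4, p5, p6⟩ := hP
  rcases cover hF x with rfl | rfl | rfl | rfl | rfl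
  · exact absurd rfl hx
  all_goals
    rcases cover hF y with rfl | rfl | rfl | rfl | rfl
    · exact absurd rfl hy
    all_goals first
      | exact S.irr _
      | assumption
      | (rw [S.sym]; assumption)

theorem five_perm {h i j k l : Fin 5} (hF : Five h i j k l) :
    Five h j i k l ∧ Five h k i j l ∧ Five h l i j k := by
  obtain ⟨h1, h2, h3, h4, h5, h6, h7, h8, h9, h10⟩ := hF
  exact ⟨⟨h2, h1, h3, h4, h5.symm, h8, h9, h6, h7, h10⟩,
    ⟨h3, h1, h2, h4, h6.symm, h8.symm, h10, h5, h7, h9⟩,
    ⟨h4, h1, h2, h3, h7.symm, h9.symm, h10.symm, h5, h6, h8⟩⟩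

end K1AM

open K1AM in
theorem specK1A (_hAC2 : SpecAC2) (hH1A : SpecH1A) (hH1B : SpecH1B) (hH1C : SpecH1C)
    (hH1D : SpecH1D) (hH1G : SpecH1G) (hH1H : SpecH1H) : SpecK1A := by
  intro W _ _ S h i j k l hF hE hHub hP hT hh
  have hne := noedge S hF hP
  have hdg : ∀ x, x ≠ h → S.dg (univ.erase h) x ≤ 1 := by
    intro x hx
    have h0 : S.dg (univ.erase h) x = 0 := by
      unfold Sys.dg
      rw [card_eq_zero, filter_eq_empty_iff]
      intro y hy
      rw [hne x y hx (ne_of_mem_erase hy)]
      simp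
    omega
  have hP' := hP
  obtain ⟨p1, p2, p3, p4, p5, p6⟩ := hP'
  have e0 : S.e i j + S.e i k + S.e i l + S.e j k + S.e j l + S.e k l = 0 := by
    unfold Sys.e
    rw [p1, p2, p3, p4, p5, p6]
    rfl
  have hi := hE.four i
  have hj := hE.four j
  have hk := hE.four k
  have hl := hE.four l
  have hT' : (S.N i).card + (S.N j).card + (S.N k).card + (S.N l).card + S.L.card ≤ 20 := by
    unfold Tot at hT
    omega
  obtain ⟨q1, q2, q3⟩ := five_perm hF
  by_cases hL : S.L.card ≤ 2
  · by_cases zi : (S.N i).card = 4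
    · exact hH1B W S h i j k l hF hh zi p4 p5 p6 hL
    by_cases zj : (S.N j).card = 4
    · exact hH1B W S h j i k l q1 hh zj p2 p3 p6 hL
    by_cases zk : (S.N k).card = 4
    · exact hH1B W S h k i j l q2 hh zk p1 p3 p5 hL
    by_cases zl : (S.N l).card = 4
    · exact hH1B W S h l i j k q3 hh zl p1 p2 p4 hL
    have ci : (S.N i).card = 5 := by omega
    have cj : (S.N j).card = 5 := by omega
    have ck : (S.N k).card = 5 := by omega
    have cl : (S.N l).card = 5 := by omega
    have hL0 : S.L = ∅ := by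
      rw [← card_eq_zero]
      omega
    have hall : ∀ x, (S.N x).card = 5 := by
      intro x
      rcases cover hF x with rfl | rfl | rfl | rfl | rfl <;> assumption
    classical
    let F := (S.N h).filter (fun w => S.Full w)
    let D := (S.N h).filter (fun w => ¬ S.Full w)
    have hFD : F.card + D.card = 5 := by
      rw [← hh]
      exact card_filter_add_card_filter_not (fun w => S.Full w)
    by_cases hF4 : 4 ≤ F.card
    · obtain ⟨H, hHF, hH4⟩ := exists_subset_card_eq hF4
      exact hH1D W S h i j k l H hF hall e0 hL0 hH4 (fun w hw => (mem_filter.1 (hHF hw)).2)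
    · have hD : 1 < D.card := by omega
      obtain ⟨w, hw, w', hw', hww⟩ := one_lt_card.1 hD
      exact hH1C W S h w w' hh hdg hL0 (mem_filter.1 hw).1 (mem_filter.1 hw').1 hww
        (mem_filter.1 hw).2 (mem_filter.1 hw').2
  · have hL4 : S.L.card ≤ 4 := by omega
    by_cases hfull : ∃ w, S.Full w
    · obtain ⟨w, hw⟩ := hfull
      by_cases hz : ∃ z, lm S.L univ z = 3
      · exact hH1G W S h i j k l w hF hE hw (by omega) hL4 (fun _ => hz)
      by_cases h4 : S.L.card = 4
      · refine hH1H W S h i j k l hF hh (by omega) (by omega) (by omega) (by omega) e0 hL4 ?_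
        intro v
        have h1 := hE.lam v
        have h2 : lm S.L univ v ≠ 3 := fun h => hz ⟨v, h⟩
        omega
      · exact hH1G W S h i j k l w hF hE hw (by omega) hL4 (fun h => absurd h h4)
    · exact hH1A W S h hh hdg (fun w _ hw => hfull ⟨w, hw⟩) hL4 hE.lam

end Pool.Agent.Lib.MP270b6b.F4
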