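import Pool.Agent.Lib.MP_270b6b_co.F4.Spec

/-!
# Partitions into two parts of maximum degree at most 3: five centres, one edge among the four
-/

set_option autoImplicit false

namespace Pool.Agent.Lib.MP270b6b.F4

open Finset

namespace K1BM

theorem cover {h i j k l : Fin 5} (hF : Five h i j k l) (x : Fin 5) :
    x = h ∨ x = i ∨ x = j ∨ x = k ∨ x = l := by
  obtain ⟨h1, h2, h3, h4, h5, h6, h7, h8, h9, h10⟩ := hF
  have hc : ({h, i, j, k, l} : Finset (Fin 5)).card = 5 := by
    rw [card_insert_of_notMem (by simp [h1, h2, h3, h4]), card_insert_of_notMem (by simp [h5, h6, h7]),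
      card_insert_of_notMem (by simp [h8, h9]), card_insert_of_notMem (by simp [h10]), card_singleton]
  have hu := Finset.eq_univ_of_card _ (hc.trans (Fintype.card_fin 5).symm)
  have hx : x ∈ ({h, i, j, k, l} : Finset (Fin 5)) := by rw [hu]; exact mem_univ x
  simpa using hx

section
variable {W : Type} [Fintype W] [DecidableEq W] (S : Sys (Fin 5) W)

theorem dg_le {h i j k l : Fin 5} (hF : Five h i j k l)
    (hP : Pat S i j k l true false false false false false) (x : Fin 5) (hx : x ≠ h) :
    S.dg (univ.erase h) x ≤ 1 := by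
  obtain ⟨p1, p2, p3, p4, p5, p6⟩ := hP
  have key : ∀ z : Fin 5, (∀ y, y ≠ h → S.Γ x y = true → y = z) → S.dg (univ.erase h) x ≤ 1 := by
    intro z hz
    unfold Sys.dg
    rw [← card_singleton z]
    apply card_le_card
    intro y hy
    rw [mem_filter, mem_erase] at hy
    rw [mem_singleton]
    exact hz y hy.1.1 hy.2
  have q1 : S.Γ k i = false := by rw [S.sym]; exact p2
  have q2 : S.Γ l i = false := by rw [S.sym]; exact p3
  have q3 : S.Γ k j = false := by rw [S.sym]; exact p4
  have q4 : S.Γ l j = false := by rw [S.sym]; exact p5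
  have q5 : S.Γ l k = false := by rw [S.sym]; exact p6
  rcases cover hF x with rfl | rfl | rfl | rfl | rfl
  · exact absurd rfl hx
  · refine key j fun y hy hxy => ?_
    rcases cover hF y with rfl | rfl | rfl | rfl | rfl
    · exact absurd rfl hy
    · rw [S.irr] at hxy; exact absurd hxy (by decide)
    · rfl
    · rw [p2] at hxy; exact absurd hxy (by decide)
    · rw [p3] at hxy; exact absurd hxy (by decide)
  · refine key i fun y hy hxy => ?_
    rcases cover hF y with rfl | rfl | rfl | rfl | rfl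
    · exact absurd rfl hy
    · rfl
    · rw [S.irr] at hxy; exact absurd hxy (by decide)
    · rw [p4] at hxy; exact absurd hxy (by decide)
    · rw [p5] at hxy; exact absurd hxy (by decide)
  · refine key i fun y hy hxy => ?_
    rcases cover hF y with rfl | rfl | rfl | rfl | rfl
    · exact absurd rfl hy
    · rfl
    · rw [q3] at hxy; exact absurd hxy (by decide)
    · rw [S.irr] at hxy; exact absurd hxy (by decide)
    · rw [p6] at hxy; exact absurd hxy (by decide)
  · refine key i fun y hy hxy => ?_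
    rcases cover hF y with rfl | rfl | rfl | rfl | rfl
    · exact absurd rfl hy
    · rfl
    · rw [q4] at hxy; exact absurd hxy (by decide)
    · rw [q5] at hxy; exact absurd hxy (by decide)
    · rw [S.irr] at hxy; exact absurd hxy (by decide)

theorem e_zero {a b : Fin 5} (h : S.Γ a b = false) : S.e a b = 0 := by
  unfold Sys.e; rw [h]; rfl

theorem e_one {a b : Fin 5} (h : S.Γ a b = true) : S.e a b = 1 := by
  unfold Sys.e; rw [h]; rfl

/-- four full leaves or two leaves which are not full -/
theorem full_or (h : Fin 5) (hh : (S.N h).card = 5) :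
    (∃ H : Finset W, H.card = 4 ∧ ∀ w ∈ H, S.Full w) ∨
    ∃ w w' : W, w ∈ S.N h ∧ w' ∈ S.N h ∧ w ≠ w' ∧ ¬ S.Full w ∧ ¬ S.Full w' := by
  classical
  have hs : ((S.N h).filter (fun w => S.Full w)).card + ((S.N h).filter (fun w => ¬ S.Full w)).card = 5 := by
    rw [card_filter_add_card_filter_not, hh]
  by_cases hc : 4 ≤ ((S.N h).filter (fun w => S.Full w)).card
  · obtain ⟨H, hH, hH4⟩ := exists_subset_card_eq hc
    exact Or.inl ⟨H, hH4, fun w hw => (mem_filter.1 (hH hw)).2⟩
  · have h2 : 1 < ((S.N h).filter (fun w => ¬ S.Full w)).card := by omega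
    obtain ⟨w, hw, w', hw', hne⟩ := one_lt_card.1 h2
    rw [mem_filter] at hw hw'
    exact Or.inr ⟨w, w', hw.1, hw'.1, hne, hw.2, hw'.2⟩

end

end K1BM

/-- **K1B** -/
theorem specK1B (hAC2 : SpecAC2) (hH1A : SpecH1A) (hH1B : SpecH1B) (hH1C : SpecH1C) (hH1E : SpecH1E)
    (hH1G : SpecH1G) : SpecK1B := by
  intro W _ _ S h i j k l hF hE _ hP hT hh
  have hdg := K1BM.dg_le S hF hP
  have hfull := K1BM.full_or S h hh
  obtain ⟨p1, p2, p3, p4, p5, p6⟩ := hP
  have e1 := K1BM.e_one S p1
  have e2 := K1BM.e_zero S p2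
  have e3 := K1BM.e_zero S p3
  have e4 := K1BM.e_zero S p4
  have e5 := K1BM.e_zero S p5
  have e6 := K1BM.e_zero S p6
  unfold Tot at hT
  rw [hh, e1, e2, e3, e4, e5, e6] at hT
  have f1 := hE.four i
  have f2 := hE.four j
  have f3 := hE.four k
  have f4 := hE.four l
  have hF' := hF
  obtain ⟨h1, h2, h3, h4, h5, h6, h7, h8, h9, h10⟩ := hF
  by_cases hL : 3 ≤ S.L.card
  · by_cases hw : ∃ w, S.Full w
    · obtain ⟨w, hw⟩ := hw
      exact hH1G W S h i j k l w hF' hE hw (by rw [e1, e2, e3, e4, e5, e6]; omega) (by omega)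
        (fun h4' => absurd h4' (by omega))
    · push Not at hw
      exact hH1A W S h hh hdg (fun w _ => hw w) (by omega) hE.lam
  · have hL2 : S.L.card ≤ 2 := by omega
    by_cases hi : (S.N i).card = 4
    · exact hH1B W S h i j k l hF' hh hi p4 p5 p6 hL2
    by_cases hj : (S.N j).card = 4
    · exact hH1B W S h j i k l ⟨h2, h1, h3, h4, h5.symm, h8, h9, h6, h7, h10⟩ hh hj p2 p3 p6 hL2
    by_cases hkl : (S.N k).card = 4 ∧ (S.N l).card = 4
    · by_cases hw : ∃ w, w ∈ S.N k ∧ w ∈ S.N l
      · obtain ⟨w, hw1, hw2⟩ := hw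
        exact hAC2 W S k l w h10 p6 hkl.1 hkl.2 hw1 hw2 hL2
      · push Not at hw
        exact hH1A W S h hh hdg (fun w _ hfw => hw w (hfw k) (hfw l)) (by omega) hE.lam
    · have hL0 : S.L = ∅ := by
        rw [← card_eq_zero]
        omega
      have hi5 : (S.N i).card = 5 := by omega
      have hj5 : (S.N j).card = 5 := by omega
      rcases hfull with ⟨H, hH4, hHf⟩ | ⟨w, w', hw, hw', hne, hnf, hnf'⟩
      · by_cases hl : (S.N l).card = 4
        · have hk5 : (S.N k).card = 5 := by omega
          exact hH1E W S h i j k l H hF' hh hi5 hj5 hk5 hl (by rw [e2, e3, e4, e5, e6]) hL0 hH4 hHf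
        · have hl5 : (S.N l).card = 5 := by omega
          have hk4 : (S.N k).card = 4 := by omega
          have e7 : S.e l k = 0 := K1BM.e_zero S (by rw [S.sym]; exact p6)
          exact hH1E W S h i j l k H ⟨h1, h2, h4, h3, h5, h7, h6, h9, h8, h10.symm⟩ hh hi5 hj5 hl5 hk4
            (by rw [e2, e3, e4, e5, e7]) hL0 hH4 hHf
      · exact hH1C W S h w w' hh hdg hL0 hw hw' hne hnf hnf'

end Pool.Agent.Lib.MP270b6b.F4
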