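import Pool.Agent.Lib.MP_270b6b_co.F4.Spec

set_option autoImplicit false

namespace Pool.Agent.Lib.MP270b6b.F4

open Finset

namespace K1CM

theorem all_of (h i j k l : Fin 5) (hf : Five h i j k l) (x : Fin 5) :
    x = h ∨ x = i ∨ x = j ∨ x = k ∨ x = l := by
  revert h i j k l x
  unfold Five
  decide +kernel

theorem erase_eq (h i j k l : Fin 5) (hf : Five h i j k l) :
    (univ : Finset (Fin 5)).erase h = {i, j, k, l} := by
  ext x
  have h1 := all_of h i j k l hf x
  obtain ⟨a1, a2, a3, a4, a5, a6, a7, a8, a9, a10⟩ := hf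
  simp only [mem_erase, mem_univ, and_true, mem_insert, mem_singleton]
  constructor
  · intro hx
    rcases h1 with h1 | h1
    · exact absurd h1 hx
    · exact h1
  · rintro (rfl | rfl | rfl | rfl)
    · exact a1.symm
    · exact a2.symm
    · exact a3.symm
    · exact a4.symm

variable {W : Type} [Fintype W] [DecidableEq W]

theorem dg_two (S : Sys (Fin 5) W) (h i j k l : Fin 5) (hf : Five h i j k l)
    (b : S.Γ i k = false) (c : S.Γ i l = false) (d : S.Γ j k = false) (e : S.Γ j l = false) :
    ∀ x, x ≠ h → S.dg (univ.erase h) x ≤ 1 := by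
  intro x hx
  rw [erase_eq h i j k l hf]
  have b' : S.Γ k i = false := by rw [S.sym]; exact b
  have c' : S.Γ l i = false := by rw [S.sym]; exact c
  have d' : S.Γ k j = false := by rw [S.sym]; exact d
  have e' : S.Γ l j = false := by rw [S.sym]; exact e
  unfold Sys.dg
  rcases all_of h i j k l hf x with rfl | rfl | rfl | rfl | rfl
  · exact absurd rfl hx
  · refine le_trans (card_le_card (t := {j}) ?_) (by simp)
    intro y hy
    simp only [mem_filter, mem_insert, mem_singleton] at hy ⊢
    rcases hy with ⟨rfl | rfl | rfl | rfl, hy⟩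
    · rw [S.irr] at hy; exact absurd hy (by simp)
    · rfl
    · rw [b] at hy; exact absurd hy (by simp)
    · rw [c] at hy; exact absurd hy (by simp)
  · refine le_trans (card_le_card (t := {i}) ?_) (by simp)
    intro y hy
    simp only [mem_filter, mem_insert, mem_singleton] at hy ⊢
    rcases hy with ⟨rfl | rfl | rfl | rfl, hy⟩
    · rfl
    · rw [S.irr] at hy; exact absurd hy (by simp)
    · rw [d] at hy; exact absurd hy (by simp)
    · rw [e] at hy; exact absurd hy (by simp)
  · refine le_trans (card_le_card (t := {l}) ?_) (by simp)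
    intro y hy
    simp only [mem_filter, mem_insert, mem_singleton] at hy ⊢
    rcases hy with ⟨rfl | rfl | rfl | rfl, hy⟩
    · rw [b'] at hy; exact absurd hy (by simp)
    · rw [d'] at hy; exact absurd hy (by simp)
    · rw [S.irr] at hy; exact absurd hy (by simp)
    · rfl
  · refine le_trans (card_le_card (t := {k}) ?_) (by simp)
    intro y hy
    simp only [mem_filter, mem_insert, mem_singleton] at hy ⊢
    rcases hy with ⟨rfl | rfl | rfl | rfl, hy⟩
    · rw [c'] at hy; exact absurd hy (by simp)
    · rw [e'] at hy; exact absurd hy (by simp)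
    · rfl
    · rw [S.irr] at hy; exact absurd hy (by simp)

/-- four full leaves, or two leaves of `N h` which are not full -/
theorem full_or (S : Sys (Fin 5) W) (h : Fin 5) (hc : (S.N h).card = 5) :
    (∃ H : Finset W, H.card = 4 ∧ ∀ w ∈ H, S.Full w) ∨
      ∃ w w', w ∈ S.N h ∧ w' ∈ S.N h ∧ w ≠ w' ∧ ¬ S.Full w ∧ ¬ S.Full w' := by
  classical
  by_cases hF : 4 ≤ ((S.N h).filter (fun w => S.Full w)).card
  · left
    obtain ⟨H, hH, hH4⟩ := Finset.exists_subset_card_eq hF
    exact ⟨H, hH4, fun w hw => (mem_filter.mp (hH hw)).2⟩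
  · right
    have hsum : ((S.N h).filter (fun w => S.Full w)).card +
        ((S.N h).filter (fun w => ¬ S.Full w)).card = (S.N h).card :=
      Finset.card_filter_add_card_filter_not (s := S.N h) (p := fun w => S.Full w)
    have h2 : 1 < ((S.N h).filter (fun w => ¬ S.Full w)).card := by omega
    obtain ⟨w, hw, w', hw', hne⟩ := Finset.one_lt_card.mp h2
    rw [mem_filter] at hw hw'
    exact ⟨w, w', hw.1, hw'.1, hne, hw.2, hw'.2⟩

end K1CM

open K1CM

theorem specK1C (hAC2 : SpecAC2) (hAN : SpecAN) (hH1A : SpecH1A) (hH1B : SpecH1B) (hH1C : SpecH1C)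
    (hH1F : SpecH1F) (hT2 : SpecT2) : SpecK1C := by
  intro W _ _ S h i j k l hf hE hHub hPat hTot hNh
  have hi := hE.four i
  have hj := hE.four j
  have hk := hE.four k
  have hl := hE.four l
  have hf' := hf
  obtain ⟨n1, n2, n3, n4, n5, n6, n7, n8, n9, n10⟩ := hf'
  rcases hPat with hP | hP
  · obtain ⟨pij, pik, pil, pjk, pjl, pkl⟩ := hP
    have hT := hTot
    unfold Tot Sys.e at hT
    rw [pij, pik, pil, pjk, pjl, pkl, hNh] at hT
    simp only [Bool.toNat_true, Bool.toNat_false] at hT
    have hdg := dg_two S h i j k l hf pik pil pjk pjl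
    by_cases hfull : ∀ w ∈ S.N h, ¬ S.Full w
    · exact hH1A W S h hNh hdg hfull (by omega) hE.lam
    · push Not at hfull
      obtain ⟨w, hwh, hw⟩ := hfull
      have hL2 : S.L.card ≤ 2 := by omega
      by_cases c1 : (S.N i).card = 4 ∧ (S.N k).card = 4
      · exact hAC2 W S i k w n6 pik c1.1 c1.2 (hw i) (hw k) hL2
      by_cases c2 : (S.N i).card = 4 ∧ (S.N l).card = 4
      · exact hAC2 W S i l w n7 pil c2.1 c2.2 (hw i) (hw l) hL2
      by_cases c3 : (S.N j).card = 4 ∧ (S.N k).card = 4
      · exact hAC2 W S j k w n8 pjk c3.1 c3.2 (hw j) (hw k) hL2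
      by_cases c4 : (S.N j).card = 4 ∧ (S.N l).card = 4
      · exact hAC2 W S j l w n9 pjl c4.1 c4.2 (hw j) (hw l) hL2
      have hL0 : S.L = ∅ := by
        rw [← Finset.card_eq_zero]
        omega
      rcases full_or S h hNh with ⟨H, hH4, hHf⟩ | ⟨w1, w2, hw1, hw2, hne, hn1, hn2⟩
      · have pki : S.Γ k i = false := by rw [S.sym]; exact pik
        have pli : S.Γ l i = false := by rw [S.sym]; exact pil
        have pkj : S.Γ k j = false := by rw [S.sym]; exact pjk
        have plj : S.Γ l j = false := by rw [S.sym]; exact pjl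
        by_cases c5 : (S.N i).card = 4
        · have a1 : (S.N j).card = 4 := by omega
          have a2 : (S.N k).card = 5 := by omega
          have a3 : (S.N l).card = 5 := by omega
          refine hH1F W S h i j k l H hf hNh c5 a1 a2 a3 ?_ hL0 hH4 hHf
          unfold Sys.e
          rw [pik, pil, pjk, pjl]
          rfl
        · have a0 : (S.N i).card = 5 := by omega
          have a1 : (S.N j).card = 5 := by omega
          have a2 : (S.N k).card = 4 := by omega
          have a3 : (S.N l).card = 4 := by omega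
          refine hH1F W S h k l i j H ⟨n3, n4, n1, n2, n10, n6.symm, n8.symm, n7.symm, n9.symm, n5⟩ hNh a2 a3 a0 a1 ?_ hL0 hH4 hHf
          unfold Sys.e
          rw [pki, pkj, pli, plj]
          rfl
      · exact hH1C W S h w1 w2 hNh hdg hL0 hw1 hw2 hne hn1 hn2
  · obtain ⟨pij, pik, pil, pjk, pjl, pkl⟩ := hP
    have hT := hTot
    unfold Tot Sys.e at hT
    rw [pij, pik, pil, pjk, pjl, pkl, hNh] at hT
    simp only [Bool.toNat_true, Bool.toNat_false] at hT
    have hL2 : S.L.card ≤ 2 := by omega
    by_cases c1 : (S.N j).card = 4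
    · exact hH1B W S h j i k l ⟨n2, n1, n3, n4, n5.symm, n8, n9, n6, n7, n10⟩ hNh c1 pik pil pkl hL2
    by_cases c2 : (S.N i).card = 4 ∧ (S.N k).card = 4
    · exact hAN W S h i k j l ⟨n1, n3, n2, n4, n6, n5, n7, n8.symm, n10, n9⟩ pik pjl c2.1 c2.2 (by omega) hL2
    have hL0 : S.L = ∅ := by
      rw [← Finset.card_eq_zero]
      omega
    by_cases c3 : (S.N i).card = 4
    · have a1 : (S.N j).card = 5 := by omega
      have a2 : (S.N k).card = 5 := by omega
      have a3 : (S.N l).card = 4 := by omega
      have pki : S.Γ k i = false := by rw [S.sym]; exact pik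
      refine hT2 W S h k j i l ⟨n3, n2, n1, n4, n8.symm, n6.symm, n10, n5.symm, n9, n7⟩ hNh a2 a1 c3 a3 ?_ hL0
      unfold Sys.e
      rw [pki, pkl, pjl, pil]
      rfl
    · have a0 : (S.N i).card = 5 := by omega
      have a1 : (S.N j).card = 5 := by omega
      have a2 : (S.N k).card = 4 := by omega
      have a3 : (S.N l).card = 4 := by omega
      refine hT2 W S h i j k l hf hNh a0 a1 a2 a3 ?_ hL0
      unfold Sys.e
      rw [pik, pil, pjl, pkl]
      rfl

end Pool.Agent.Lib.MP270b6b.F4
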