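import Pool.Agent.Lib.MP_270b6b_co.F4.Spec

/-!
# MP_270b6b_co, module K2A: one hub with five leaves, at least three edges among the other centres
-/

set_option autoImplicit false

namespace Pool.Agent.Lib.MP270b6b.F4

open Finset

theorem specK2A (hAN : SpecAN) (hT5A : SpecT5A) (hT5B : SpecT5B) (hT5C : SpecT5C) : SpecK2A := by
  intro W _ _ S h i j k l h5 hE hH hO hT hh h3
  have f1 := hE.four i
  have f2 := hE.four j
  have f3 := hE.four k
  have f4 := hE.four l
  obtain ⟨n1, n2, n3, n4, n5, n6, n7, n8, n9, n10⟩ := h5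
  unfold Tot at hT
  unfold Sys.e at hT h3
  rcases hO with hp | hp | hp | hp | hp | hp | hp <;>
    obtain ⟨a1, a2, a3, a4, a5, a6⟩ := hp <;>
    rw [a1, a2, a3, a4, a5, a6] at hT h3 <;>
    simp only [Bool.toNat_true, Bool.toNat_false] at hT h3
  · omega
  · omega
  · omega
  · omega
  · -- path i j k l
    by_cases hc : (S.N i).card = 4 ∧ (S.N k).card = 4
    · exact hAN W S h i k j l ⟨n1, n3, n2, n4, n6, n5, n7, n8.symm, n10, n9⟩ a2 a5 hc.1 hc.2
        (by omega) (by omega)
    · exact hAN W S h j l i k ⟨n2, n4, n1, n3, n9, n5.symm, n8, n7.symm, n10.symm, n6⟩ a5 a2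
        (by omega) (by omega) (by omega) (by omega)
  · -- triangle
    by_cases hc : (S.N i).card = 4 ∧ (S.N j).card = 4 ∧ (S.N k).card = 4 ∧ (S.N l).card = 4
    · exact hT5A W S h i j k l ⟨n1, n2, n3, n4, n5, n6, n7, n8, n9, n10⟩ a3 a5 a6
        hc.1 hc.2.1 hc.2.2.1 hc.2.2.2 (by omega) (by omega)
    · have hL : S.L = ∅ := by
        rw [← Finset.card_eq_zero]
        omega
      by_cases hl : (S.N l).card = 4
      · by_cases hk : (S.N k).card = 4
        · by_cases hj : (S.N j).card = 4
          · exact hT5B W S h j k i l ⟨n2, n3, n1, n4, n8, n5.symm, n9, n6.symm, n10, n7⟩ a5 a6 a3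
              (by omega) (by omega) (by omega) (by omega) hh hL
          · exact hT5B W S h i k j l ⟨n1, n3, n2, n4, n6, n5, n7, n8.symm, n10, n9⟩ a3 a6 a5
              (by omega) (by omega) (by omega) (by omega) hh hL
        · exact hT5B W S h i j k l ⟨n1, n2, n3, n4, n5, n6, n7, n8, n9, n10⟩ a3 a5 a6
            (by omega) (by omega) (by omega) (by omega) hh hL
      · exact hT5C W S h i j k l ⟨n1, n2, n3, n4, n5, n6, n7, n8, n9, n10⟩ a3 a5 a6
          (by omega) (by omega) (by omega) (by omega) hh hL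
  · -- four-cycle
    exact hAN W S h i k j l ⟨n1, n3, n2, n4, n6, n5, n7, n8.symm, n10, n9⟩ a2 a5
        (by omega) (by omega) (by omega) (by omega)

end Pool.Agent.Lib.MP270b6b.F4
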