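import Pool.Agent.Lib.MP_270b6b_co.F4.Spec

set_option autoImplicit false

namespace Pool.Agent.Lib.MP270b6b.F4

open Finset

namespace K2BM

theorem cover {h i j k l : Fin 5} (hd : Five h i j k l) (x : Fin 5) :
    x = h ∨ x = i ∨ x = j ∨ x = k ∨ x = l := by
  obtain ⟨h1, h2, h3, h4, h5, h6, h7, h8, h9, h10⟩ := hd
  have hcard : ({h, i, j, k, l} : Finset (Fin 5)).card = 5 := by
    rw [card_insert_of_notMem, card_insert_of_notMem, card_insert_of_notMem,
      card_insert_of_notMem, card_singleton]
    · simpa using h10
    · simpa using ⟨h8, h9⟩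
    · simpa using ⟨h5, h6, h7⟩
    · simpa using ⟨h1, h2, h3, h4⟩
  have hu : ({h, i, j, k, l} : Finset (Fin 5)) = univ := by
    apply eq_univ_of_card
    rw [hcard, Fintype.card_fin]
  have hx : x ∈ ({h, i, j, k, l} : Finset (Fin 5)) := by
    rw [hu]
    exact mem_univ x
  simpa using hx

end K2BM

open K2BM in
theorem specK2B (hAC2 : SpecAC2) (hH2A : SpecH2A) (hH2B : SpecH2B) (hH1G : SpecH1G) : SpecK2B := by
  intro W _ _ S h i j k l hd hE _ hP hT h6
  have hcov := cover hd
  obtain ⟨pij, pik, pil, pjk, pjl, pkl⟩ := hP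
  have hd' := hd
  obtain ⟨n1, n2, n3, n4, n5, n6, n7, n8, n9, n10⟩ := hd'
  have eij : S.e i j = 0 := by unfold Sys.e; rw [pij]; rfl
  have eik : S.e i k = 0 := by unfold Sys.e; rw [pik]; rfl
  have eil : S.e i l = 0 := by unfold Sys.e; rw [pil]; rfl
  have ejk : S.e j k = 0 := by unfold Sys.e; rw [pjk]; rfl
  have ejl : S.e j l = 0 := by unfold Sys.e; rw [pjl]; rfl
  have ekl : S.e k l = 0 := by unfold Sys.e; rw [pkl]; rfl
  have pji : S.Γ j i = false := by rw [S.sym]; exact pij
  have pki : S.Γ k i = false := by rw [S.sym]; exact pik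
  have pli : S.Γ l i = false := by rw [S.sym]; exact pil
  have pkj : S.Γ k j = false := by rw [S.sym]; exact pjk
  have plj : S.Γ l j = false := by rw [S.sym]; exact pjl
  have plk : S.Γ l k = false := by rw [S.sym]; exact pkl
  have eji : S.e j i = 0 := by unfold Sys.e; rw [pji]; rfl
  have eki : S.e k i = 0 := by unfold Sys.e; rw [pki]; rfl
  have eli : S.e l i = 0 := by unfold Sys.e; rw [pli]; rfl
  have ekj : S.e k j = 0 := by unfold Sys.e; rw [pkj]; rfl
  have elj : S.e l j = 0 := by unfold Sys.e; rw [plj]; rfl
  have elk : S.e l k = 0 := by unfold Sys.e; rw [plk]; rfl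
  unfold Tot at hT
  rw [eij, eik, eil, ejk, ejl, ekl, h6] at hT
  have fi := hE.four i
  have fj := hE.four j
  have fk := hE.four k
  have fl := hE.four l
  by_cases hfull : ∀ w ∈ S.N h, ¬ S.Full w
  · refine hH2A W S h h6 ?_ hfull (by omega) hE.lam
    intro x hx
    unfold Sys.dg
    rw [card_eq_zero, filter_eq_empty_iff]
    intro y hy
    have hy' : y ≠ h := (mem_erase.1 hy).1
    have hxc := (hcov x).resolve_left hx
    have hyc := (hcov y).resolve_left hy'
    have hf : S.Γ x y = false := by
      rcases hxc with rfl | rfl | rfl | rfl <;> rcases hyc with rfl | rfl | rfl | rfl <;>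
        first
        | assumption
        | exact S.irr _
    rw [hf]
    decide
  · push Not at hfull
    obtain ⟨w, _, hw⟩ := hfull
    by_cases hsum : (S.N i).card + (S.N j).card + (S.N k).card + (S.N l).card ≤ 17
    · refine hH1G W S h i j k l w hd hE hw ?_ (by omega) (fun h4 => absurd h4 (by omega))
      rw [eij, eik, eil, ejk, ejl, ekl]
      omega
    · by_cases hi : (S.N i).card = 4
      · by_cases hj : (S.N j).card = 4
        · exact hAC2 W S i j w n5 pij hi hj (hw i) (hw j) (by omega)
        · by_cases hk : (S.N k).card = 4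
          · exact hAC2 W S i k w n6 pik hi hk (hw i) (hw k) (by omega)
          · by_cases hl : (S.N l).card = 4
            · exact hAC2 W S i l w n7 pil hi hl (hw i) (hw l) (by omega)
            · refine hH2B W S h i j k l hd h6 hi (by omega) (by omega) (by omega) ?_
                (card_eq_zero.1 (by omega))
              rw [eij, eik, eil, ejk, ejl, ekl]
      · by_cases hj : (S.N j).card = 4
        · by_cases hk : (S.N k).card = 4
          · exact hAC2 W S j k w n8 pjk hj hk (hw j) (hw k) (by omega)
          · by_cases hl : (S.N l).card = 4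
            · exact hAC2 W S j l w n9 pjl hj hl (hw j) (hw l) (by omega)
            · refine hH2B W S h j i k l ⟨n2, n1, n3, n4, n5.symm, n8, n9, n6, n7, n10⟩ h6 hj
                (by omega) (by omega) (by omega) ?_ (card_eq_zero.1 (by omega))
              rw [eji, ejk, ejl, eik, eil, ekl]
        · by_cases hk : (S.N k).card = 4
          · by_cases hl : (S.N l).card = 4
            · exact hAC2 W S k l w n10 pkl hk hl (hw k) (hw l) (by omega)
            · refine hH2B W S h k i j l ⟨n3, n1, n2, n4, n6.symm, n8.symm, n10, n5, n7, n9⟩ h6 hk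
                (by omega) (by omega) (by omega) ?_ (card_eq_zero.1 (by omega))
              rw [eki, ekj, ekl, eij, eil, ejl]
          · by_cases hl : (S.N l).card = 4
            · refine hH2B W S h l i j k ⟨n4, n1, n2, n3, n7.symm, n9.symm, n10.symm, n5, n6, n8⟩
                h6 hl (by omega) (by omega) (by omega) ?_ (card_eq_zero.1 (by omega))
              rw [eli, elj, elk, eij, eik, ejk]
            · exfalso
              omega

end Pool.Agent.Lib.MP270b6b.F4
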