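import Pool.Agent.Lib.MP_270b6b_co.F4.Spec

set_option autoImplicit false

namespace Pool.Agent.Lib.MP270b6b.F4

open Finset

namespace K2CM

lemma perm {h i j k l : Fin 5} (F : Five h i j k l) :
    Five h i k j l ∧ Five h j l i k ∧ Five h i l j k ∧ Five h j k i l ∧ Five h k i j l ∧
      Five h l i j k := by
  obtain ⟨a1, a2, a3, a4, a5, a6, a7, a8, a9, a10⟩ := F
  have b5 := a5.symm
  have b6 := a6.symm
  have b7 := a7.symm
  have b8 := a8.symm
  have b9 := a9.symm
  have b10 := a10.symm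
  unfold Five
  refine ⟨?_, ?_, ?_, ?_, ?_, ?_⟩ <;> refine ⟨?_, ?_, ?_, ?_, ?_, ?_, ?_, ?_, ?_, ?_⟩ <;>
    assumption

lemma lm_zero {W : Type} [DecidableEq W] {L : Finset (Sym2 W)} (h : L = ∅) (X : Finset W) (v : W) :
    lm L X v = 0 := by
  unfold lm
  rw [h]
  simp

end K2CM

open K2CM in
theorem specK2C (hAC2 : SpecAC2) (hAN : SpecAN) (hSUB : SpecSUB) (hT1 : SpecT1)
    (hT5A : SpecT5A) : SpecK2C := by
  intro W _ _ S h i j k l F hE hH hO hT h6 h1
  obtain ⟨F1, F2, F3, F4, F5, F6⟩ := perm F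
  have ni := hE.four i
  have nj := hE.four j
  have nk := hE.four k
  have nl := hE.four l
  have hkl : k ≠ l := F.2.2.2.2.2.2.2.2.2
  unfold Tot at hT
  rcases hO with hp | hp | hp | hp | hp | hp | hp <;>
    obtain ⟨p1, p2, p3, p4, p5, p6⟩ := hp <;>
    have e1 : S.e i j = (S.Γ i j).toNat := rfl <;>
    have e2 : S.e i k = (S.Γ i k).toNat := rfl <;>
    have e3 : S.e i l = (S.Γ i l).toNat := rfl <;>
    have e4 : S.e j k = (S.Γ j k).toNat := rfl <;>
    have e5 : S.e j l = (S.Γ j l).toNat := rfl <;>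
    have e6 : S.e k l = (S.Γ k l).toNat := rfl <;>
    rw [p1] at e1 <;> rw [p2] at e2 <;> rw [p3] at e3 <;> rw [p4] at e4 <;> rw [p5] at e5 <;>
    rw [p6] at e6 <;> simp only [Bool.toNat_true, Bool.toNat_false] at e1 e2 e3 e4 e5 e6
  · omega
  · -- one edge
    by_cases c1 : (S.N i).card = 4 ∧ (S.N k).card = 4
    · exact hAN W S h i k j l F1 p2 p5 c1.1 c1.2 (by omega) (by omega)
    by_cases c2 : (S.N j).card = 4 ∧ (S.N l).card = 4
    · exact hAN W S h j l i k F2 p5 p2 c2.1 c2.2 (by omega) (by omega)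
    by_cases c3 : (S.N i).card = 4 ∧ (S.N l).card = 4
    · exact hAN W S h i l j k F3 p3 p4 c3.1 c3.2 (by omega) (by omega)
    by_cases c4 : (S.N j).card = 4 ∧ (S.N k).card = 4
    · exact hAN W S h j k i l F4 p4 p3 c4.1 c4.2 (by omega) (by omega)
    have hL : S.L = ∅ := Finset.card_eq_zero.1 (by omega)
    by_cases c5 : (S.N i).card = 4
    · exact hT1 W S h i j k l F h6 c5 (by omega) (by omega) (by omega) (by omega) hL
    · have ck : (S.N k).card = 4 := by omega
      have cl : (S.N l).card = 4 := by omega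
      by_cases g1 : ∃ w, w ∈ S.N k ∧ w ∉ S.N h
      · obtain ⟨w, w1, w2⟩ := g1
        exact hSUB W S h k i j l w F5 ck (by omega) (fun v => by rw [lm_zero hL]; omega) w1 w2
      by_cases g2 : ∃ w, w ∈ S.N l ∧ w ∉ S.N h
      · obtain ⟨w, w1, w2⟩ := g2
        exact hSUB W S h l i j k w F6 cl (by omega) (fun v => by rw [lm_zero hL]; omega) w1 w2
      by_cases g3 : ∃ w, w ∈ S.N k ∧ w ∈ S.N l
      · obtain ⟨w, w1, w2⟩ := g3
        exact hAC2 W S k l w hkl p6 ck cl w1 w2 (by omega)
      exfalso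
      push Not at g1 g2 g3
      have d1 : Disjoint (S.N k) (S.N l) := Finset.disjoint_left.2 g3
      have d2 : S.N k ∪ S.N l ⊆ S.N h := by
        intro w hw
        rcases Finset.mem_union.1 hw with hw | hw
        · exact g1 w hw
        · exact g2 w hw
      have d3 := Finset.card_le_card d2
      rw [Finset.card_union_of_disjoint d1] at d3
      omega
  · -- two disjoint edges
    by_cases c1 : (S.N i).card = 4 ∧ (S.N k).card = 4
    · exact hAN W S h i k j l F1 p2 p5 c1.1 c1.2 (by omega) (by omega)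
    · exact hAN W S h j l i k F2 p5 p2 (by omega) (by omega) (by omega) (by omega)
  · -- path with two edges
    by_cases c1 : (S.N i).card = 4 ∧ (S.N k).card = 4
    · exact hAN W S h i k j l F1 p2 p5 c1.1 c1.2 (by omega) (by omega)
    · exact hAN W S h j l i k F2 p5 p2 (by omega) (by omega) (by omega) (by omega)
  · -- path with three edges
    exact hAN W S h i k j l F1 p2 p5 (by omega) (by omega) (by omega) (by omega)
  · -- triangle
    exact hT5A W S h i j k l F p3 p5 p6 (by omega) (by omega) (by omega) (by omega) (by omega)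
      (by omega)
  · omega

end Pool.Agent.Lib.MP270b6b.F4
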