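import Pool.Agent.Lib.MP_270b6b_co.F4.Spec

/-!
# MP_270b6b_co, F4, module K2D: the hub has seven leaves
-/

set_option autoImplicit false

namespace Pool.Agent.Lib.MP270b6b.F4

open Finset

namespace K2DM

variable {h i j k l : Fin 5}

lemma five_ik (hF : Five h i j k l) : Five h i k j l := by
  obtain ⟨a1, a2, a3, a4, a5, a6, a7, a8, a9, a10⟩ := hF
  exact ⟨a1, a3, a2, a4, a6, a5, a7, a8.symm, a10, a9⟩

lemma five_il (hF : Five h i j k l) : Five h i l j k := by
  obtain ⟨a1, a2, a3, a4, a5, a6, a7, a8, a9, a10⟩ := hF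
  exact ⟨a1, a4, a2, a3, a7, a5, a6, a9.symm, a10.symm, a8⟩

lemma five_jk (hF : Five h i j k l) : Five h j k i l := by
  obtain ⟨a1, a2, a3, a4, a5, a6, a7, a8, a9, a10⟩ := hF
  exact ⟨a2, a3, a1, a4, a8, a5.symm, a9, a6.symm, a10, a7⟩

lemma five_jl (hF : Five h i j k l) : Five h j l i k := by
  obtain ⟨a1, a2, a3, a4, a5, a6, a7, a8, a9, a10⟩ := hF
  exact ⟨a2, a4, a1, a3, a9, a5.symm, a8, a7.symm, a10.symm, a6⟩

lemma five_kl (hF : Five h i j k l) : Five h k l i j := by
  obtain ⟨a1, a2, a3, a4, a5, a6, a7, a8, a9, a10⟩ := hF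
  exact ⟨a3, a4, a1, a2, a10, a6.symm, a8.symm, a7.symm, a9.symm, a5⟩

end K2DM

open K2DM in
theorem specK2D (hAN : SpecAN) : SpecK2D := by
  intro W _ _ S h i j k l hF hE _ hO hT h7
  have n1 := hE.four i
  have n2 := hE.four j
  have n3 := hE.four k
  have n4 := hE.four l
  unfold Tot Sys.e at hT
  have h7' : (S.N h).card ≤ 7 := h7.le
  rcases hO with hp | hp | hp | hp | hp | hp | hp <;>
    obtain ⟨p1, p2, p3, p4, p5, p6⟩ := hp <;>
    rw [p1, p2, p3, p4, p5, p6] at hT <;>
    simp only [Bool.toNat_true, Bool.toNat_false] at hT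
  · -- no edge
    by_cases z1 : (S.N i).card = 4
    · by_cases z2 : (S.N j).card = 4
      · exact hAN W S h i j k l hF p1 p6 z1 z2 h7' (by omega)
      · by_cases z3 : (S.N k).card = 4
        · exact hAN W S h i k j l (five_ik hF) p2 p5 z1 z3 h7' (by omega)
        · exact hAN W S h i l j k (five_il hF) p3 p4 z1 (by omega) h7' (by omega)
    · by_cases z2 : (S.N j).card = 4
      · by_cases z3 : (S.N k).card = 4
        · exact hAN W S h j k i l (five_jk hF) p4 p3 z2 z3 h7' (by omega)
        · exact hAN W S h j l i k (five_jl hF) p5 p2 z2 (by omega) h7' (by omega)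
      · exact hAN W S h k l i j (five_kl hF) p6 p1 (by omega) (by omega) h7' (by omega)
  · -- one edge
    by_cases z1 : (S.N i).card = 4
    · by_cases z3 : (S.N k).card = 4
      · exact hAN W S h i k j l (five_ik hF) p2 p5 z1 z3 h7' (by omega)
      · exact hAN W S h j l i k (five_jl hF) p5 p2 (by omega) (by omega) h7' (by omega)
    · exact hAN W S h j l i k (five_jl hF) p5 p2 (by omega) (by omega) h7' (by omega)
  · exact hAN W S h i k j l (five_ik hF) p2 p5 (by omega) (by omega) h7' (by omega)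
  · exact hAN W S h i k j l (five_ik hF) p2 p5 (by omega) (by omega) h7' (by omega)
  · exfalso
    omega
  · exfalso
    omega
  · exfalso
    omega

end Pool.Agent.Lib.MP270b6b.F4
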