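import Pool.Agent.Lib.MP_270b6b_co.F4.Spec
import Pool.Agent.Lib.MP_270b6b_co.F4.Base

/-!
# MP_270b6b_co, module K4: a hub with at least eight leaves
-/

set_option autoImplicit false

namespace Pool.Agent.Lib.MP270b6b.F4

open Finset

namespace K4M

theorem pat_e {W : Type} [Fintype W] [DecidableEq W] {S : Sys (Fin 5) W} {i j k l : Fin 5}
    {a b c d e f : Bool} (hp : Pat S i j k l a b c d e f) :
    S.e i j = a.toNat ∧ S.e i k = b.toNat ∧ S.e i l = c.toNat ∧ S.e j k = d.toNat ∧
      S.e j l = e.toNat ∧ S.e k l = f.toNat := by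
  obtain ⟨h1, h2, h3, h4, h5, h6⟩ := hp
  unfold Sys.e
  rw [h1, h2, h3, h4, h5, h6]
  exact ⟨rfl, rfl, rfl, rfl, rfl, rfl⟩

end K4M

open K4M in
theorem specK4 (hH4 : SpecH4) : SpecK4 := by
  intro W _ _ S h i j k l hF hE hHub hOne hTot h8
  have fi := hE.four i
  have fj := hE.four j
  have fk := hE.four k
  have fl := hE.four l
  unfold Tot at hTot
  have c1 := Base.e_comm S i j
  have c2 := Base.e_comm S i k
  have c3 := Base.e_comm S i l
  have c4 := Base.e_comm S j k
  have c5 := Base.e_comm S j l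
  have c6 := Base.e_comm S k l
  obtain ⟨n1, n2, n3, n4, n5, n6, n7, n8, n9, n10⟩ := hF
  rcases hOne with hp | hp | hp | hp | hp | hp | hp
  · obtain ⟨e1, e2, e3, e4, e5, e6⟩ := pat_e hp
    simp only [Bool.toNat_false] at e1 e2 e3 e4 e5 e6
    by_cases hj : (S.N j).card = 5
    · exact hH4 W S h j i k l ⟨n2, n1, n3, n4, n5.symm, n8, n9, n6, n7, n10⟩ h8 (by omega)
        (by omega) (by omega) (by omega) fj (by omega) (by omega)
    · by_cases hk : (S.N k).card = 5
      · exact hH4 W S h k i j l ⟨n3, n1, n2, n4, n6.symm, n8.symm, n10, n5, n7, n9⟩ h8 (by omega)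
          (by omega) (by omega) (by omega) fk (by omega) (by omega)
      · by_cases hl : (S.N l).card = 5
        · exact hH4 W S h l i j k ⟨n4, n1, n2, n3, n7.symm, n9.symm, n10.symm, n5, n6, n8⟩ h8
            (by omega) (by omega) (by omega) (by omega) fl (by omega) (by omega)
        · exact hH4 W S h i j k l ⟨n1, n2, n3, n4, n5, n6, n7, n8, n9, n10⟩ h8 (by omega)
            (by omega) (by omega) (by omega) fi (by omega) (by omega)
  · obtain ⟨e1, e2, e3, e4, e5, e6⟩ := pat_e hp
    simp only [Bool.toNat_false, Bool.toNat_true] at e1 e2 e3 e4 e5 e6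
    exact hH4 W S h i j k l ⟨n1, n2, n3, n4, n5, n6, n7, n8, n9, n10⟩ h8 (by omega)
      (by omega) (by omega) (by omega) fi (by omega) (by omega)
  all_goals
    obtain ⟨e1, e2, e3, e4, e5, e6⟩ := pat_e hp
    simp only [Bool.toNat_false, Bool.toNat_true] at e1 e2 e3 e4 e5 e6
    exfalso
    omega

end Pool.Agent.Lib.MP270b6b.F4
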