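import Pool.Agent.Lib.MP_270b6b_co.F4.Spec

/-!
# MP_270b6b, n = 4: module K5, assembly for five centres
-/

set_option autoImplicit false

namespace Pool.Agent.Lib.MP270b6b.F4

open Finset

namespace K5M

theorem sum_five (f : Fin 5 → ℕ) (h i j k l : Fin 5) (h5 : Five h i j k l) :
    ∑ x, f x = f h + (f i + (f j + (f k + f l))) := by
  obtain ⟨a1, a2, a3, a4, b1, b2, b3, c1, c2, d1⟩ := h5
  have hu : (univ : Finset (Fin 5)) = {h, i, j, k, l} := by
    symm
    apply Finset.eq_univ_of_card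
    rw [card_insert_of_notMem (by simp [a1, a2, a3, a4]), card_insert_of_notMem (by simp [b1, b2, b3]),
      card_insert_of_notMem (by simp [c1, c2]), card_pair d1]
    rfl
  rw [hu, sum_insert (by simp [a1, a2, a3, a4]), sum_insert (by simp [b1, b2, b3]),
    sum_insert (by simp [c1, c2]), sum_pair d1]

theorem dg_eq {W : Type} [Fintype W] [DecidableEq W] (S : Sys (Fin 5) W) (x : Fin 5) :
    S.dg univ x = ∑ y, S.e x y := by
  unfold Sys.dg Sys.e
  rw [card_filter]
  refine sum_congr rfl fun y _ => ?_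
  cases S.Γ x y <;> simp

theorem tot {W : Type} [Fintype W] [DecidableEq W] (S : Sys (Fin 5) W) (h i j k l : Fin 5)
    (h5 : Five h i j k l) (hH : S.Hub h)
    (hs : (∑ i, S.dg univ i) + 2 * ((∑ i, (S.N i).card) + S.L.card) ≤ 58) : Tot S h i j k l := by
  have he : ∀ x y, S.e x y = S.e y x := fun x y => by unfold Sys.e; rw [S.sym]
  have h0 : ∀ x, S.e x x = 0 := fun x => by unfold Sys.e; rw [S.irr]; rfl
  have h1 : ∀ x, x ≠ h → S.e h x = 1 := fun x hx => by unfold Sys.e; rw [hH x hx]; rfl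
  have hdg : ∀ x, S.dg univ x = S.e x h + (S.e x i + (S.e x j + (S.e x k + S.e x l))) := fun x => by
    rw [dg_eq, sum_five _ h i j k l h5]
  rw [sum_five _ h i j k l h5, sum_five _ h i j k l h5, hdg h, hdg i, hdg j, hdg k, hdg l, h0, h0, h0,
    h0, h0] at hs
  obtain ⟨a1, a2, a3, a4, -⟩ := h5
  rw [he i h, he j h, he k h, he l h, h1 i a1.symm, h1 j a2.symm, h1 k a3.symm, h1 l a4.symm,
    he j i, he k i, he l i, he k j, he l j, he l k] at hs
  unfold Tot
  omega

theorem pat_e {W : Type} [Fintype W] [DecidableEq W] (S : Sys (Fin 5) W) (i j k l : Fin 5)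
    (a b c d e f : Bool) (h : Pat S i j k l a b c d e f) :
    S.e i j + S.e i k + S.e i l + S.e j k + S.e j l + S.e k l =
      a.toNat + b.toNat + c.toNat + d.toNat + e.toNat + f.toNat := by
  obtain ⟨h1, h2, h3, h4, h5, h6⟩ := h
  unfold Sys.e
  rw [h1, h2, h3, h4, h5, h6]

end K5M

theorem specK5 (hNF : SpecNF) (hK0 : SpecK0) (hK1A : SpecK1A) (hK1B : SpecK1B) (hK1C : SpecK1C)
    (hK2A : SpecK2A) (hK2B : SpecK2B) (hK2C : SpecK2C) (hK2D : SpecK2D) (hK4 : SpecK4)
    (hKT : SpecKT) : SpecK5 := by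
  intro W _ _ S h hE hH hs
  obtain ⟨i, j, k, l, h5, hp⟩ := hNF W S h hH
  have hT : Tot S h i j k l := K5M.tot S h i j k l h5 hH hs
  rcases hp with hp | hp
  · have h4 := hE.four h
    rcases (show (S.N h).card = 4 ∨ (S.N h).card = 5 ∨ (S.N h).card = 6 ∨ (S.N h).card = 7 ∨
      8 ≤ (S.N h).card by omega) with hn | hn | hn | hn | hn
    · exact hK0 W S h i j k l h5 hE hH hp hT hn
    · have hp' := hp
      rcases hp with hp | hp | hp | hp | hp | hp | hp
      · exact hK1A W S h i j k l h5 hE hH hp hT hn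
      · exact hK1B W S h i j k l h5 hE hH hp hT hn
      · exact hK1C W S h i j k l h5 hE hH (Or.inl hp) hT hn
      · exact hK1C W S h i j k l h5 hE hH (Or.inr hp) hT hn
      · refine hK2A W S h i j k l h5 hE hH hp' hT hn ?_
        rw [K5M.pat_e S i j k l _ _ _ _ _ _ hp]
        decide
      · refine hK2A W S h i j k l h5 hE hH hp' hT hn ?_
        rw [K5M.pat_e S i j k l _ _ _ _ _ _ hp]
        decide
      · refine hK2A W S h i j k l h5 hE hH hp' hT hn ?_
        rw [K5M.pat_e S i j k l _ _ _ _ _ _ hp]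
        decide
    · have hp' := hp
      rcases hp with hp | hp | hp | hp | hp | hp | hp
      · exact hK2B W S h i j k l h5 hE hH hp hT hn
      all_goals
        refine hK2C W S h i j k l h5 hE hH hp' hT hn ?_
        rw [K5M.pat_e S i j k l _ _ _ _ _ _ hp]
        decide
    · exact hK2D W S h i j k l h5 hE hH hp hT hn
    · exact hK4 W S h i j k l h5 hE hH hp hT hn
  · exact hKT W S h i j k l h5 hE hH hp hT

end Pool.Agent.Lib.MP270b6b.F4
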