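import Pool.Agent.Lib.MP_270b6b_co.F4.Spec

/-!
# MP_270b6b_co, module KT: two hubs
-/

set_option autoImplicit false

namespace Pool.Agent.Lib.MP270b6b.F4

open Finset

theorem specKT (hRM : SpecRM) (hTH1 : SpecTH1) (hTH0 : SpecTH0) : SpecKT := by
  intro W _ _ S h i j k l hF hE _ hT hTot
  have h4 := hE.four
  have nh := h4 h
  have ni := h4 i
  have nj := h4 j
  have nk := h4 k
  have nl := h4 l
  obtain ⟨f1, f2, f3, f4, f5, f6, f7, f8, f9, f10⟩ := id hF
  have hTot' : (S.N h).card + (S.N i).card + (S.N j).card + (S.N k).card + (S.N l).card +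
    S.L.card + (S.e i j + S.e i k + S.e i l + S.e j k + S.e j l + S.e k l) ≤ 25 := hTot
  -- the pair `j, k`
  have rjk : S.Γ j k = false → (S.N j).card = 4 → (S.N k).card = 4 → (S.N h).card ≤ 5 →
      (S.N i).card ≤ 5 → (S.N l).card ≤ 5 →
      (S.N h).card + (S.N i).card + (S.N l).card + S.L.card ≤ 14 → S.L.card ≤ 2 → S.Good :=
    hRM W S h i l j k ⟨f1, f4, f2, f3, f7, f5, f6, f9.symm, f10.symm, f8⟩ h4
  have rjl : S.Γ j l = false → (S.N j).card = 4 → (S.N l).card = 4 → (S.N h).card ≤ 5 →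
      (S.N i).card ≤ 5 → (S.N k).card ≤ 5 →
      (S.N h).card + (S.N i).card + (S.N k).card + S.L.card ≤ 14 → S.L.card ≤ 2 → S.Good :=
    hRM W S h i k j l ⟨f1, f3, f2, f4, f6, f5, f7, f8.symm, f10, f9⟩ h4
  have rkl : S.Γ k l = false → (S.N k).card = 4 → (S.N l).card = 4 → (S.N h).card ≤ 5 →
      (S.N i).card ≤ 5 → (S.N j).card ≤ 5 →
      (S.N h).card + (S.N i).card + (S.N j).card + S.L.card ≤ 14 → S.L.card ≤ 2 → S.Good :=
    hRM W S h i j k l ⟨f1, f2, f3, f4, f5, f6, f7, f8, f9, f10⟩ h4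
  rcases hT with hp | hp | hp | hp
  · obtain ⟨e1, e2, e3, e4, e5, e6⟩ := hp
    have g1 : S.e i j = 1 := by simp [Sys.e, e1]
    have g2 : S.e i k = 1 := by simp [Sys.e, e2]
    have g3 : S.e i l = 1 := by simp [Sys.e, e3]
    have g4 : S.e j k = 0 := by simp [Sys.e, e4]
    have g5 : S.e j l = 0 := by simp [Sys.e, e5]
    have g6 : S.e k l = 0 := by simp [Sys.e, e6]
    rw [g1, g2, g3, g4, g5, g6] at hTot'
    by_cases hA : (S.N h).card = 4 ∧ (S.N i).card = 4
    · exact hTH1 W S h i j k l hF hA.1 hA.2 (by rw [g4, g5, g6]; omega) (by omega)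
    · by_cases hB : (S.N h).card ≤ 5 ∧ (S.N i).card ≤ 5
      · by_cases hl : (S.N j).card = 4 ∧ (S.N k).card = 4
        · exact rjk e4 hl.1 hl.2 hB.1 hB.2 (by omega) (by omega) (by omega)
        · by_cases hk : (S.N j).card = 4 ∧ (S.N l).card = 4
          · exact rjl e5 hk.1 hk.2 hB.1 hB.2 (by omega) (by omega) (by omega)
          · exact rkl e6 (by omega) (by omega) hB.1 hB.2 (by omega) (by omega) (by omega)
      · refine hTH0 W S h i j k l hF (by omega) (by omega) (by omega) (by rw [g4, g5, g6])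
          (by omega) ?_
        apply Finset.card_eq_zero.1
        omega
  · obtain ⟨e1, e2, e3, e4, e5, e6⟩ := hp
    have g1 : S.e i j = 1 := by simp [Sys.e, e1]
    have g2 : S.e i k = 1 := by simp [Sys.e, e2]
    have g3 : S.e i l = 1 := by simp [Sys.e, e3]
    have g4 : S.e j k = 0 := by simp [Sys.e, e4]
    have g5 : S.e j l = 0 := by simp [Sys.e, e5]
    have g6 : S.e k l = 1 := by simp [Sys.e, e6]
    rw [g1, g2, g3, g4, g5, g6] at hTot'
    by_cases hA : (S.N h).card = 4 ∧ (S.N i).card = 4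
    · exact hTH1 W S h i j k l hF hA.1 hA.2 (by rw [g4, g5, g6]) (by omega)
    · exact rjk e4 (by omega) (by omega) (by omega) (by omega) (by omega) (by omega) (by omega)
  · obtain ⟨e1, e2, e3, e4, e5, e6⟩ := hp
    have g1 : S.e i j = 1 := by simp [Sys.e, e1]
    have g2 : S.e i k = 1 := by simp [Sys.e, e2]
    have g3 : S.e i l = 1 := by simp [Sys.e, e3]
    have g4 : S.e j k = 0 := by simp [Sys.e, e4]
    have g5 : S.e j l = 1 := by simp [Sys.e, e5]
    have g6 : S.e k l = 1 := by simp [Sys.e, e6]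
    rw [g1, g2, g3, g4, g5, g6] at hTot'
    exact rjk e4 (by omega) (by omega) (by omega) (by omega) (by omega) (by omega) (by omega)
  · obtain ⟨e1, e2, e3, e4, e5, e6⟩ := hp
    have g1 : S.e i j = 1 := by simp [Sys.e, e1]
    have g2 : S.e i k = 1 := by simp [Sys.e, e2]
    have g3 : S.e i l = 1 := by simp [Sys.e, e3]
    have g4 : S.e j k = 1 := by simp [Sys.e, e4]
    have g5 : S.e j l = 1 := by simp [Sys.e, e5]
    have g6 : S.e k l = 1 := by simp [Sys.e, e6]
    rw [g1, g2, g3, g4, g5, g6] at hTot'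
    omega

end Pool.Agent.Lib.MP270b6b.F4
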