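import Pool.Agent.Lib.MP_270b6b_co.F4.Spec

/-!
# MP_270b6b, module NF: normal forms of the graph among four centres
-/

set_option autoImplicit false

namespace Pool.Agent.Lib.MP270b6b.F4

open Finset

namespace NFM

/-- the graph on four vertices with the given six edges -/
def T (a b c d e f : Bool) (x y : Fin 4) : Bool :=
  match x, y with
  | 0, 1 => a | 1, 0 => a
  | 0, 2 => b | 2, 0 => b
  | 0, 3 => c | 3, 0 => c
  | 1, 2 => d | 2, 1 => d
  | 1, 3 => e | 3, 1 => e
  | 2, 3 => f | 3, 2 => f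
  | _, _ => false

/-- the six values -/
def six (g : Fin 4 → Fin 4 → Bool) (i j k l : Fin 4) (a b c d e f : Bool) : Bool :=
  (g i j == a) && (g i k == b) && (g i l == c) && (g j k == d) && (g j l == e) && (g k l == f)

def nf (g : Fin 4 → Fin 4 → Bool) (i j k l : Fin 4) : Bool :=
  six g i j k l false false false false false false ||
  six g i j k l true false false false false false ||
  six g i j k l true false false false false true ||
  six g i j k l true false false true false false ||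
  six g i j k l true false false true false true ||
  six g i j k l true true false true false false ||
  six g i j k l true false true true false true ||
  six g i j k l true true true false false false ||
  six g i j k l true true true false false true ||
  six g i j k l true true true false true true ||
  six g i j k l true true true true true true

theorem all : ∀ a b c d e f : Bool, ∃ i j k l : Fin 4,
    (i ≠ j ∧ i ≠ k ∧ i ≠ l ∧ j ≠ k ∧ j ≠ l ∧ k ≠ l) ∧ nf (T a b c d e f) i j k l = true := by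
  decide +kernel

theorem table (g : Fin 4 → Fin 4 → Bool) (hs : ∀ x y, g x y = g y x) (hi : ∀ x, g x x = false) :
    g = T (g 0 1) (g 0 2) (g 0 3) (g 1 2) (g 1 3) (g 2 3) := by
  funext x y
  fin_cases x <;> fin_cases y
  · exact hi 0
  · rfl
  · rfl
  · rfl
  · exact hs 1 0
  · exact hi 1
  · rfl
  · rfl
  · exact hs 2 0
  · exact hs 2 1
  · exact hi 2
  · rfl
  · exact hs 3 0
  · exact hs 3 1
  · exact hs 3 2
  · exact hi 3

theorem pat {W : Type} [Fintype W] [DecidableEq W] (S : Sys (Fin 5) W) (m : Fin 4 → Fin 5)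
    (i j k l : Fin 4) (a b c d e f : Bool)
    (h : six (fun x y => S.Γ (m x) (m y)) i j k l a b c d e f = true) :
    Pat S (m i) (m j) (m k) (m l) a b c d e f := by
  unfold six at h
  simp only [Bool.and_eq_true, beq_iff_eq] at h
  obtain ⟨⟨⟨⟨⟨h1, h2⟩, h3⟩, h4⟩, h5⟩, h6⟩ := h
  exact ⟨h1, h2, h3, h4, h5, h6⟩

end NFM

theorem specNF : SpecNF := by
  intro W _ _ S h _
  obtain ⟨i, j, k, l, ⟨h1, h2, h3, h4, h5, h6⟩, hn⟩ :=
    NFM.all (S.Γ (h.succAbove 0) (h.succAbove 1)) (S.Γ (h.succAbove 0) (h.succAbove 2))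
      (S.Γ (h.succAbove 0) (h.succAbove 3)) (S.Γ (h.succAbove 1) (h.succAbove 2))
      (S.Γ (h.succAbove 1) (h.succAbove 3)) (S.Γ (h.succAbove 2) (h.succAbove 3))
  have ht : (fun x y => S.Γ (h.succAbove x) (h.succAbove y)) =
      NFM.T (S.Γ (h.succAbove 0) (h.succAbove 1)) (S.Γ (h.succAbove 0) (h.succAbove 2))
      (S.Γ (h.succAbove 0) (h.succAbove 3)) (S.Γ (h.succAbove 1) (h.succAbove 2))
      (S.Γ (h.succAbove 1) (h.succAbove 3)) (S.Γ (h.succAbove 2) (h.succAbove 3)) :=
    NFM.table (fun x y => S.Γ (h.succAbove x) (h.succAbove y))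
      (fun x y => S.sym _ _) (fun x => S.irr _)
  rw [← ht] at hn
  have inj : ∀ x y : Fin 4, x ≠ y → h.succAbove x ≠ h.succAbove y :=
    fun x y hxy he => hxy (Fin.succAbove_right_injective he)
  refine ⟨h.succAbove i, h.succAbove j, h.succAbove k, h.succAbove l,
    ⟨(Fin.succAbove_ne h i).symm, (Fin.succAbove_ne h j).symm, (Fin.succAbove_ne h k).symm,
      (Fin.succAbove_ne h l).symm, inj _ _ h1, inj _ _ h2, inj _ _ h3, inj _ _ h4, inj _ _ h5,
      inj _ _ h6⟩, ?_⟩
  unfold NFM.nf at hn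
  simp only [Bool.or_eq_true] at hn
  rcases hn with ((((((((((h|h)|h)|h)|h)|h)|h)|h)|h)|h)|h)
  · exact Or.inl (Or.inl (NFM.pat S _ i j k l _ _ _ _ _ _ h))
  · exact Or.inl (Or.inr (Or.inl (NFM.pat S _ i j k l _ _ _ _ _ _ h)))
  · exact Or.inl (Or.inr (Or.inr (Or.inl (NFM.pat S _ i j k l _ _ _ _ _ _ h))))
  · exact Or.inl (Or.inr (Or.inr (Or.inr (Or.inl (NFM.pat S _ i j k l _ _ _ _ _ _ h)))))
  · exact Or.inl (Or.inr (Or.inr (Or.inr (Or.inr (Or.inl
      (NFM.pat S _ i j k l _ _ _ _ _ _ h))))))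
  · exact Or.inl (Or.inr (Or.inr (Or.inr (Or.inr (Or.inr (Or.inl
      (NFM.pat S _ i j k l _ _ _ _ _ _ h)))))))
  · exact Or.inl (Or.inr (Or.inr (Or.inr (Or.inr (Or.inr (Or.inr
      (NFM.pat S _ i j k l _ _ _ _ _ _ h)))))))
  · exact Or.inr (Or.inl (NFM.pat S _ i j k l _ _ _ _ _ _ h))
  · exact Or.inr (Or.inr (Or.inl (NFM.pat S _ i j k l _ _ _ _ _ _ h)))
  · exact Or.inr (Or.inr (Or.inr (Or.inl (NFM.pat S _ i j k l _ _ _ _ _ _ h))))
  · exact Or.inr (Or.inr (Or.inr (Or.inr (NFM.pat S _ i j k l _ _ _ _ _ _ h))))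

end Pool.Agent.Lib.MP270b6b.F4
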