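import Pool.Agent.Lib.MP_270b6b_co.F4.Spec

/-!
# Module RM: two nonadjacent zero centres, the other three have four or five leaves
-/

set_option autoImplicit false

namespace Pool.Agent.Lib.MP270b6b.F4

open Finset

namespace RMM

/-- a leaf has at most as many leaf neighbours as there are leaf edges -/
lemma lm_le_card {W : Type} [DecidableEq W] (L : Finset (Sym2 W)) (X : Finset W) (v : W) :
    lm L X v ≤ L.card := by
  unfold lm
  refine Finset.card_le_card_of_injOn (fun u => s(v, u)) ?_ ?_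
  · intro u hu
    exact Finset.mem_coe.2 (Finset.mem_filter.1 (Finset.mem_coe.1 hu)).2
  · intro u _ u' _ huu
    exact Sym2.congr_right.1 huu

/-- outside two other centres a centre has at most two neighbours -/
lemma dg_le {W : Type} [Fintype W] [DecidableEq W] (S : Sys (Fin 5) W) {i j x : Fin 5}
    (hij : i ≠ j) (hi : x ≠ i) (hj : x ≠ j) : S.dg ({i, j}ᶜ) x ≤ 2 := by
  unfold Sys.dg
  have hsub : (({i, j}ᶜ : Finset (Fin 5)).filter (fun l => S.Γ x l = true)) ⊆
      ({i, j}ᶜ : Finset (Fin 5)).erase x := by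
    intro l hl
    obtain ⟨h1, h2⟩ := Finset.mem_filter.1 hl
    refine Finset.mem_erase.2 ⟨?_, h1⟩
    rintro rfl
    rw [S.irr] at h2
    exact Bool.false_ne_true h2
  refine (Finset.card_le_card hsub).trans ?_
  have hx : x ∈ ({i, j}ᶜ : Finset (Fin 5)) := by
    simp [hi, hj]
  rw [Finset.card_erase_of_mem hx, Finset.card_compl, Finset.card_pair hij, Fintype.card_fin]

end RMM

theorem specRM (hAC2 : SpecAC2) (hREC : SpecREC) (hS32 : SpecS32) : SpecRM := by
  intro W _ _ S h g k i j hF h4 hG hi hj hh hg hk hsum hL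
  obtain ⟨h1, h2, h3, h5, h6, h7, h8, h9, h10, hij⟩ := hF
  by_cases hd : Disjoint (S.N i) (S.N j)
  swap
  · rw [Finset.not_disjoint_iff] at hd
    obtain ⟨w, hw1, hw2⟩ := hd
    exact hAC2 W S i j w hij hG hi hj hw1 hw2 hL
  obtain ⟨a, ha, b, hb, n1, n2, n3, n4⟩ :=
    hREC W (S.N i) (S.N j) (S.N h) (S.N g) (S.N k) S.L hi hj hd (h4 h) (h4 g) (h4 k) hh hg hk hsum
  refine hS32 W S i j a b hij hG hi hj hd ha hb n4 ?_ ?_
  · intro v
    exact (RMM.lm_le_card S.L univ v).trans hL
  · intro x hxi hxj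
    have hd2 := RMM.dg_le S hij hxi hxj
    have hx : x = h ∨ x = g ∨ x = k := by omega
    have hn : ¬ (a ∈ S.N x ∧ b ∈ S.N x) := by
      rcases hx with rfl | rfl | rfl
      · exact n1
      · exact n2
      · exact n3
    by_cases ha' : a ∈ S.N x
    · have hb' : b ∉ S.N x := fun hb' => hn ⟨ha', hb'⟩
      rw [if_pos ha', if_neg hb']
      omega
    · rw [if_neg ha']
      by_cases hb' : b ∈ S.N x
      · rw [if_pos hb']
        omega
      · rw [if_neg hb']
        omega

end Pool.Agent.Lib.MP270b6b.F4
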