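import Pool.Agent.Lib.MP_270b6b_co.F4.Spec

set_option autoImplicit false

namespace Pool.Agent.Lib.MP270b6b.F4

open Finset

theorem specS14 : SpecS14 := by
  intro W _ _ S h Y hY hc h1 h2 h3
  have hcompl : ({h} : Finset (Fin 5))ᶜ = univ.erase h := by
    ext x
    rw [mem_compl, mem_singleton, mem_erase]
    simp
  refine ⟨{h}, Yᶜ, ?_, ?_, ?_, ?_⟩
  · intro i hi
    rw [mem_singleton] at hi
    subst hi
    have e1 : S.dg {i} i = 0 := by
      unfold Sys.dg
      rw [card_eq_zero, filter_eq_empty_iff]
      intro x hx
      rw [mem_singleton] at hx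
      rw [hx, S.irr]
      decide
    have e2 : S.N i ∩ Yᶜ = S.N i \ Y := by
      ext x
      rw [mem_inter, mem_compl, mem_sdiff]
    rw [e1, e2, card_sdiff_of_subset hY, hc]
    omega
  · intro i hi
    rw [mem_singleton] at hi
    have e2 : S.N i \ Yᶜ = S.N i ∩ Y := by
      ext x
      rw [mem_inter, mem_sdiff, mem_compl, not_not]
    rw [hcompl, e2]
    exact h1 i hi
  · intro w hw
    rw [mem_compl] at hw
    have e1 : S.tr {h} w = if w ∈ S.N h then 1 else 0 := by
      unfold Sys.tr
      by_cases hwh : w ∈ S.N h
      · rw [if_pos hwh, filter_true_of_mem, card_singleton]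
        intro x hx
        rw [mem_singleton] at hx
        rw [hx]
        exact hwh
      · rw [if_neg hwh, card_eq_zero, filter_eq_empty_iff]
        intro x hx
        rw [mem_singleton] at hx
        rw [hx]
        exact hwh
    rw [e1]
    exact h3 w hw
  · intro w hw
    rw [mem_compl, not_not] at hw
    rw [hcompl, compl_compl]
    exact h2 w hw

end Pool.Agent.Lib.MP270b6b.F4
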