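import Pool.Agent.Lib.MP_270b6b_co.F4.Spec

set_option autoImplicit false

namespace Pool.Agent.Lib.MP270b6b.F4

open Finset

namespace S23M

lemma lm_mono {W : Type} [Fintype W] [DecidableEq W] (L : Finset (Sym2 W)) (X : Finset W) (w : W) :
    lm L X w ≤ lm L univ w := by
  unfold lm
  exact card_le_card (filter_subset_filter _ (subset_univ _))

end S23M

theorem specS23 : SpecS23 := by
  intro W _ _ S h a i j k Y h5 hN haN hij hik hjk hYN hY3 hYL hYr hv
  obtain ⟨hha, hhi, hhj, hhk, hai, haj, hak, hij', hik', hjk'⟩ := h5
  have hPc : ({h, a} : Finset (Fin 5))ᶜ = {i, j, k} := by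
    symm
    apply Finset.eq_of_subset_of_card_le
    · intro x hx
      simp only [mem_insert, mem_singleton] at hx
      simp only [mem_compl, mem_insert, mem_singleton, not_or]
      rcases hx with rfl | rfl | rfl
      · exact ⟨Ne.symm hhi, Ne.symm hai⟩
      · exact ⟨Ne.symm hhj, Ne.symm haj⟩
      · exact ⟨Ne.symm hhk, Ne.symm hak⟩
    · rw [card_compl, Fintype.card_fin, card_pair hha,
        card_insert_of_notMem (by simp [hij', hik']), card_pair hjk']
  have hres : (S.N h \ Y).card = 2 := by
    rw [card_sdiff_of_subset hYN, hN, hY3]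
  have hdgP : ∀ x ∈ ({h, a} : Finset (Fin 5)), S.dg {h, a} x ≤ 1 := by
    intro x hx
    unfold Sys.dg
    have hsub : ({h, a} : Finset (Fin 5)).filter (fun j => S.Γ x j = true) ⊆ ({h, a} : Finset (Fin 5)).erase x := by
      intro y hy
      rw [mem_filter] at hy
      rw [mem_erase]
      refine ⟨?_, hy.1⟩
      rintro rfl
      have := hy.2
      rw [S.irr] at this
      exact Bool.noConfusion this
    refine (card_le_card hsub).trans ?_
    rw [card_erase_of_mem hx, card_pair hha]
  refine ⟨{h, a}, Yᶜ, ?_, ?_, ?_, ?_⟩
  · intro x hx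
    have h1 := hdgP x hx
    have h2 : (S.N x ∩ Yᶜ).card ≤ 2 := by
      rw [← hres]
      apply card_le_card
      intro y hy
      rw [mem_inter, mem_compl] at hy
      rw [mem_sdiff]
      refine ⟨?_, hy.2⟩
      simp only [mem_insert, mem_singleton] at hx
      rcases hx with rfl | rfl
      · exact hy.1
      · exact haN hy.1
    omega
  · intro x hx
    have hx' : x ∈ ({h, a} : Finset (Fin 5))ᶜ := mem_compl.2 hx
    rw [hPc] at hx' ⊢
    have h1 : S.dg {i, j, k} x = 0 := by
      unfold Sys.dg
      rw [card_eq_zero, filter_eq_empty_iff]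
      intro y hy
      have hji : S.Γ j i = false := by rw [S.sym]; exact hij
      have hki : S.Γ k i = false := by rw [S.sym]; exact hik
      have hkj : S.Γ k j = false := by rw [S.sym]; exact hjk
      simp only [mem_insert, mem_singleton] at hx' hy
      rcases hx' with rfl | rfl | rfl <;> rcases hy with rfl | rfl | rfl <;>
        simp [S.irr, hij, hik, hjk, hji, hki, hkj]
    have h2 : (S.N x \ Yᶜ).card ≤ 3 := by
      rw [← hY3]
      apply card_le_card
      intro y hy
      rw [mem_sdiff, mem_compl, not_not] at hy
      exact hy.2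
    omega
  · intro w hw
    rw [mem_compl] at hw
    by_cases hwh : w ∈ S.N h
    · have h1 := hYr w hwh hw
      have h2 : S.tr {h, a} w ≤ 2 := by
        unfold Sys.tr
        exact (card_filter_le _ _).trans (card_pair hha).le
      omega
    · have h2 : S.tr {h, a} w = 0 := by
        unfold Sys.tr
        rw [card_eq_zero, filter_eq_empty_iff]
        intro y hy
        simp only [mem_insert, mem_singleton] at hy
        rcases hy with rfl | rfl
        · exact hwh
        · exact fun hc => hwh (haN hc)
      have h3 := (S23M.lm_mono S.L Yᶜ w).trans (hv w)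
      omega
  · intro w hw
    rw [mem_compl, not_not] at hw
    rw [hPc, compl_compl, hYL w hw]
    unfold Sys.tr
    have : ({i, j, k} : Finset (Fin 5)).card = 3 := by
      rw [card_insert_of_notMem (by simp [hij', hik']), card_pair hjk']
    rw [← this]
    simpa using card_filter_le _ _

end Pool.Agent.Lib.MP270b6b.F4
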