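import Pool.Agent.Lib.MP_270b6b_co.F4.Spec

/-!
# Module S32: two disjoint nonadjacent zero centres
-/

set_option autoImplicit false

namespace Pool.Agent.Lib.MP270b6b.F4

open Finset

namespace S32M

variable {W : Type} [Fintype W] [DecidableEq W]

theorem lm_mono (L : Finset (Sym2 W)) {X Y : Finset W} (h : X ⊆ Y) (v : W) : lm L X v ≤ lm L Y v := by
  unfold lm
  exact card_le_card (filter_subset_filter _ h)

theorem dg_pair (S : Sys (Fin 5) W) (i j : Fin 5) (hij : S.Γ i j = false) : S.dg {i, j} i = 0 := by
  unfold Sys.dg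
  rw [card_eq_zero, filter_eq_empty_iff]
  intro x hx
  rcases mem_insert.1 hx with h | h
  · rw [h, S.irr]; decide
  · rw [mem_singleton.1 h, hij]; decide

theorem card_leaf (N X : Finset W) (w : W) (hw : w ∈ N) (hX : w ∉ X) (h4 : N.card = 4) : (N ∩ X).card ≤ 3 := by
  have h1 : N ∩ X ⊆ N.erase w := by
    intro v hv
    rcases mem_inter.1 hv with ⟨h1, h2⟩
    refine mem_erase.2 ⟨?_, h1⟩
    intro h
    rw [h] at h2
    exact hX h2
  have h2 := card_le_card h1
  rw [card_erase_of_mem hw, h4] at h2
  exact h2

theorem card_pair (N : Finset W) (w w' : W) :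
    (N \ (univ \ {w, w'})).card ≤ (if w ∈ N then 1 else 0) + (if w' ∈ N then 1 else 0) := by
  have h1 : N \ (univ \ {w, w'}) ⊆ (if w ∈ N then {w} else ∅) ∪ (if w' ∈ N then {w'} else ∅) := by
    intro v hv
    rcases mem_sdiff.1 hv with ⟨h1, h2⟩
    have h3 : v ∈ ({w, w'} : Finset W) := by
      by_contra h
      exact h2 (mem_sdiff.2 ⟨mem_univ _, h⟩)
    rcases mem_insert.1 h3 with h | h
    · subst h
      refine mem_union_left _ ?_
      rw [if_pos h1]
      exact mem_singleton_self _
    · have h' := mem_singleton.1 h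
      subst h'
      refine mem_union_right _ ?_
      rw [if_pos h1]
      exact mem_singleton_self _
  refine le_trans (card_le_card h1) (le_trans (card_union_le _ _) ?_)
  refine Nat.add_le_add ?_ ?_
  · split_ifs <;> simp
  · split_ifs <;> simp

end S32M

open S32M in
theorem specS32 : SpecS32 := by
  intro W _ _ S i j w w' hij hΓ hi hj hd hw hw' he hl hx
  have hji : S.Γ j i = false := by rw [S.sym]; exact hΓ
  refine ⟨{i, j}, univ \ {w, w'}, ?_, ?_, ?_, ?_⟩
  · intro x hxP
    rcases mem_insert.1 hxP with h | h
    · rw [h, dg_pair S i j hΓ, Nat.zero_add]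
      refine card_leaf _ _ w hw ?_ hi
      intro h1
      exact (mem_sdiff.1 h1).2 (mem_insert_self _ _)
    · rw [mem_singleton.1 h]
      have h1 : ({i, j} : Finset (Fin 5)) = {j, i} := pair_comm i j
      rw [h1, dg_pair S j i hji, Nat.zero_add]
      refine card_leaf _ _ w' hw' ?_ hj
      intro h1
      exact (mem_sdiff.1 h1).2 (mem_insert_of_mem (mem_singleton_self _))
  · intro x hxP
    have h1 : x ≠ i := fun h => hxP (mem_insert.2 (Or.inl h))
    have h2 : x ≠ j := fun h => hxP (mem_insert.2 (Or.inr (mem_singleton.2 h)))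
    have h3 := hx x h1 h2
    have h4 := card_pair (S.N x) w w'
    omega
  · intro v hv
    have h1 : lm S.L (univ \ {w, w'}) v ≤ 2 := le_trans (lm_mono S.L (subset_univ _) v) (hl v)
    have h2 : S.tr {i, j} v ≤ 1 := by
      unfold Sys.tr
      rw [card_le_one]
      intro a ha b hb
      rcases mem_filter.1 ha with ⟨ha1, ha2⟩
      rcases mem_filter.1 hb with ⟨hb1, hb2⟩
      have hdis := disjoint_left.1 hd
      rcases mem_insert.1 ha1 with h | h
      · rcases mem_insert.1 hb1 with h' | h'
        · rw [h, h']
        · rw [h] at ha2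
          rw [mem_singleton.1 h'] at hb2
          exact absurd hb2 (hdis ha2)
      · rcases mem_insert.1 hb1 with h' | h'
        · rw [mem_singleton.1 h] at ha2
          rw [h'] at hb2
          exact absurd ha2 (hdis hb2)
        · rw [mem_singleton.1 h, mem_singleton.1 h']
    omega
  · intro v hv
    have hv' : v = w ∨ v = w' := by
      have h3 : v ∈ ({w, w'} : Finset W) := by
        by_contra h
        exact hv (mem_sdiff.2 ⟨mem_univ _, h⟩)
      rcases mem_insert.1 h3 with h | h
      · exact Or.inl h
      · exact Or.inr (mem_singleton.1 h)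
    have h1 : S.tr {i, j}ᶜ v ≤ 3 := by
      unfold Sys.tr
      refine le_trans (card_filter_le _ _) ?_
      rw [card_compl, Finset.card_pair hij]
      simp
    have h2 : lm S.L (univ \ {w, w'})ᶜ v = 0 := by
      unfold lm
      rw [card_eq_zero, filter_eq_empty_iff]
      intro u hu
      have h3 : u ∈ ({w, w'} : Finset W) := by
        by_contra h
        exact (mem_compl.1 hu) (mem_sdiff.2 ⟨mem_univ _, h⟩)
      have he' : s(w', w) ∉ S.L := by rw [Sym2.eq_swap]; exact he
      rcases mem_insert.1 h3 with h | h
      · rcases hv' with h' | h'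
        · rw [h, h']; exact S.nd w
        · rw [h, h']; exact he'
      · rw [mem_singleton.1 h]
        rcases hv' with h' | h'
        · rw [h']; exact he
        · rw [h']; exact S.nd w'
    omega

end Pool.Agent.Lib.MP270b6b.F4
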