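import Pool.Agent.Lib.MP_270b6b_co.F4.Spec

/-! # S41: the partition `{j}` and all leaves but `w` -/

set_option autoImplicit false

namespace Pool.Agent.Lib.MP270b6b.F4

open Finset

theorem specS41 : SpecS41 := by
  intro W _ _ S j w hj hw hF h3 h2 hc
  refine ⟨{j}, univ.erase w, ?_, ?_, ?_, ?_⟩
  · intro i hi
    obtain rfl := Finset.mem_singleton.1 hi
    have h1 : S.dg {i} i = 0 := by
      unfold Sys.dg
      rw [Finset.card_eq_zero, Finset.filter_eq_empty_iff]
      intro x hx
      obtain rfl := Finset.mem_singleton.1 hx
      simp [S.irr]
    have h4 : S.N i ∩ univ.erase w = (S.N i).erase w := by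
      ext x; simp only [Finset.mem_inter, Finset.mem_erase, Finset.mem_univ, and_true]; tauto
    rw [h1, h4, Finset.card_erase_of_mem hw, hj]
  · intro i hi
    have hij : i ≠ j := fun h => hi (Finset.mem_singleton.2 h)
    have e1 : ({j}ᶜ : Finset (Fin 5)) = univ.erase j := by
      ext x; simp
    rw [e1]
    by_cases hwi : w ∈ S.N i
    · have := hc i hij hwi
      have h5 : (S.N i \ univ.erase w).card ≤ 1 := by
        have : S.N i \ univ.erase w ⊆ {w} := by
          intro x hx
          simp only [Finset.mem_sdiff, Finset.mem_erase, Finset.mem_univ, and_true, not_not] at hx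
          exact Finset.mem_singleton.2 hx.2
        simpa using Finset.card_le_card this
      omega
    · have h5 : (S.N i \ univ.erase w) = ∅ := by
        ext x
        simp only [Finset.mem_sdiff, Finset.mem_erase, Finset.mem_univ, and_true, not_not, Finset.notMem_empty, iff_false]
        rintro ⟨hx, rfl⟩
        exact hwi hx
      have h6 : S.dg (univ.erase j) i ≤ 3 := by
        have : (univ.erase j).filter (fun x => S.Γ i x = true) ⊆ (univ.erase j).erase i := by
          intro x hx
          rw [Finset.mem_filter] at hx
          refine Finset.mem_erase.2 ⟨?_, hx.1⟩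
          rintro rfl
          simp [S.irr] at hx
        refine (Finset.card_le_card this).trans ?_
        rw [Finset.card_erase_of_mem (by simp [hij]), Finset.card_erase_of_mem (Finset.mem_univ j)]
        simp
      rw [h5]
      simpa using h6
  · intro v hv
    have hvw : v ≠ w := (Finset.mem_erase.1 hv).1
    by_cases hvj : v ∈ S.N j
    · have h5 : S.tr {j} v ≤ 1 := by
        unfold Sys.tr
        exact (Finset.card_filter_le _ _).trans (by simp)
      have := h2 v hvw hvj
      omega
    · have h5 : S.tr {j} v = 0 := by
        unfold Sys.tr
        rw [Finset.card_eq_zero, Finset.filter_eq_empty_iff]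
        intro x hx
        obtain rfl := Finset.mem_singleton.1 hx
        exact hvj
      have h6 : lm S.L (univ.erase w) v ≤ lm S.L univ v :=
        Finset.card_le_card (Finset.filter_subset_filter _ (Finset.subset_univ _))
      have := h3 v
      omega
  · intro v hv
    have hvw : v = w := by
      by_contra h
      exact hv (Finset.mem_erase.2 ⟨h, Finset.mem_univ _⟩)
    subst hvw
    have h5 : lm S.L (univ.erase v)ᶜ v = 0 := by
      unfold lm
      rw [Finset.card_eq_zero, Finset.filter_eq_empty_iff]
      intro x hx
      have : x = v := by simpa using hx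
      rw [this]
      exact S.nd v
    obtain ⟨i, hi⟩ := not_forall.1 hF
    have hij : i ≠ j := by rintro rfl; exact hi hw
    have h6 : S.tr {j}ᶜ v ≤ 3 := by
      have : ({j}ᶜ : Finset (Fin 5)).filter (fun x => v ∈ S.N x) ⊆ (univ.erase j).erase i := by
        intro x hx
        rw [Finset.mem_filter] at hx
        refine Finset.mem_erase.2 ⟨?_, Finset.mem_erase.2 ⟨by simpa using hx.1, Finset.mem_univ _⟩⟩
        rintro rfl
        exact hi hx.2
      refine (Finset.card_le_card this).trans ?_
      rw [Finset.card_erase_of_mem (by simp [hij]), Finset.card_erase_of_mem (Finset.mem_univ j)]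
      simp
    omega

end Pool.Agent.Lib.MP270b6b.F4
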