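import Pool.Agent.Lib.MP_270b6b_co.F4.Spec

/-! # Module SUB -/

set_option autoImplicit false

namespace Pool.Agent.Lib.MP270b6b.F4

open Finset

namespace SUBM

theorem erase_eq {h j a b c : Fin 5} (h5 : Five h j a b c) :
    (univ.erase j : Finset (Fin 5)) = {h, a, b, c} := by
  obtain ⟨h1, h2, h3, h4, h5, h6, h7, h8, h9, h10⟩ := h5
  symm
  apply Finset.eq_of_subset_of_card_le
  · intro x hx
    simp only [Finset.mem_insert, Finset.mem_singleton] at hx
    rw [Finset.mem_erase]
    refine ⟨?_, Finset.mem_univ x⟩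
    rcases hx with rfl | rfl | rfl | rfl
    · exact h1
    · exact h5.symm
    · exact h6.symm
    · exact h7.symm
  · rw [Finset.card_erase_of_mem (Finset.mem_univ j), Finset.card_univ, Fintype.card_fin,
      Finset.card_insert_of_notMem (by simp [h2, h3, h4]),
      Finset.card_insert_of_notMem (by simp [h8, h9]),
      Finset.card_insert_of_notMem (by simp [h10]), Finset.card_singleton]

theorem dg_eq {W : Type} [Fintype W] [DecidableEq W] (S : Sys (Fin 5) W) {h j a b c : Fin 5}
    (h5 : Five h j a b c) (i : Fin 5) :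
    S.dg (univ.erase j) i = S.e i h + S.e i a + S.e i b + S.e i c := by
  have hE := erase_eq h5
  obtain ⟨h1, h2, h3, h4, h5, h6, h7, h8, h9, h10⟩ := h5
  have ht : ∀ k, (if S.Γ i k = true then 1 else 0) = S.e i k := by
    intro k
    unfold Sys.e
    cases S.Γ i k <;> rfl
  unfold Sys.dg
  rw [hE, Finset.card_filter, Finset.sum_insert (by simp [h2, h3, h4]),
    Finset.sum_insert (by simp [h8, h9]), Finset.sum_insert (by simp [h10]),
    Finset.sum_singleton, ht, ht, ht, ht]
  ring

theorem lm_mono {W : Type} [DecidableEq W] (L : Finset (Sym2 W)) {X Y : Finset W} (h : X ⊆ Y)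
    (w : W) : lm L X w ≤ lm L Y w :=
  Finset.card_le_card (Finset.filter_subset_filter _ h)

end SUBM

theorem specSUB (hS41 : SpecS41) : SpecSUB := by
  intro W _ _ S h j a b c w h5 hj he hlm hwj hwh
  have hsym : ∀ x y, S.e x y = S.e y x := by
    intro x y
    unfold Sys.e
    rw [S.sym]
  have hirr : ∀ x, S.e x x = 0 := by
    intro x
    unfold Sys.e
    rw [S.irr]
    rfl
  have hle : ∀ x y, S.e x y ≤ 1 := by
    intro x y
    unfold Sys.e
    cases S.Γ x y <;> decide
  refine hS41 W S j w hj hwj (fun hF => hwh (hF h)) (fun v => (hlm v).trans (by norm_num))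
    (fun v _ _ => (SUBM.lm_mono S.L (Finset.subset_univ _) v).trans (hlm v)) ?_
  intro i hij hwi
  have hmem : i ∈ (univ.erase j : Finset (Fin 5)) := Finset.mem_erase.2 ⟨hij, Finset.mem_univ i⟩
  rw [SUBM.erase_eq h5] at hmem
  rw [SUBM.dg_eq S h5]
  simp only [Finset.mem_insert, Finset.mem_singleton] at hmem
  rcases hmem with rfl | rfl | rfl | rfl
  · exact absurd hwi hwh
  · have h1 := hirr i
    have h2 := hle i h
    omega
  · have h1 := hirr i
    have h2 := hle i h
    have h3 := hsym i a
    omega
  · have h1 := hirr i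
    have h2 := hle i h
    have h3 := hsym i a
    have h4 := hsym i b
    omega

end Pool.Agent.Lib.MP270b6b.F4
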