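import Pool.Agent.Lib.MP_270b6b_co.F4.Spec
import Pool.Agent.Lib.MP_270b6b_co.F4.Base

/-! # Module T1 -/

set_option autoImplicit false

namespace Pool.Agent.Lib.MP270b6b.F4

open Finset

namespace T1M

section
variable {W : Type} [DecidableEq W]

theorem inter_big {H A B : Finset W} (hA : A ⊆ H) (hB : B ⊆ H) :
    A.card + B.card ≤ (A ∩ B).card + H.card := by
  have h1 := card_union_add_card_inter A B
  have h2 := card_le_card (union_subset hA hB)
  omega

theorem c1 {A : Finset W} {x y : W} (hx : x ∈ A ∨ y ∈ A) {n : ℕ} (hA : A.card ≤ n + 1) :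
    (A \ {x, y}).card ≤ n := by
  rcases hx with hx | hx
  · have h1 : (A \ {x, y}).card ≤ (A.erase x).card := by
      apply card_le_card
      intro z hz
      simp only [mem_sdiff, mem_insert, mem_singleton, not_or] at hz
      exact mem_erase.2 ⟨hz.2.1, hz.1⟩
    rw [card_erase_of_mem hx] at h1
    omega
  · have h1 : (A \ {x, y}).card ≤ (A.erase y).card := by
      apply card_le_card
      intro z hz
      simp only [mem_sdiff, mem_insert, mem_singleton, not_or] at hz
      exact mem_erase.2 ⟨hz.2.2, hz.1⟩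
    rw [card_erase_of_mem hx] at h1
    omega

theorem c2 {A : Finset W} {x y : W} (hx : x ∈ A) (hy : y ∈ A) (hxy : x ≠ y) {n : ℕ}
    (hA : A.card ≤ n + 2) : (A \ {x, y}).card ≤ n := by
  have h1 : (A \ {x, y}).card ≤ ((A.erase x).erase y).card := by
    apply card_le_card
    intro z hz
    simp only [mem_sdiff, mem_insert, mem_singleton, not_or] at hz
    exact mem_erase.2 ⟨hz.2.2, mem_erase.2 ⟨hz.2.1, hz.1⟩⟩
  rw [card_erase_of_mem (mem_erase.2 ⟨hxy.symm, hy⟩), card_erase_of_mem hx] at h1
  omega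

theorem choose {H J A B : Finset W} (hH : H.card = 6) (hJ : J ⊆ H) (hJ4 : J.card = 4)
    (hA : A ⊆ H) (hA4 : 4 ≤ A.card) (hA5 : A.card ≤ 5) (hB : B ⊆ H) (hB4 : 4 ≤ B.card)
    (hB5 : B.card ≤ 5) :
    ∃ x y : W, x ∈ H ∧ y ∈ H ∧ x ≠ y ∧ (J \ {x, y}).card ≤ 3 ∧ (A \ {x, y}).card ≤ 3 ∧
      (B \ {x, y}).card ≤ 3 := by
  have hAB := inter_big hA hB
  have hJA := inter_big hJ hA
  have hJB := inter_big hJ hB
  rcases Nat.lt_or_ge A.card 5 with h5 | h5
  · rcases Nat.lt_or_ge B.card 5 with h6 | h6
    · obtain ⟨x, hx⟩ := card_pos.1 (show 0 < (A ∩ B).card by omega)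
      obtain ⟨y, hy, hyx⟩ := exists_mem_ne (show 1 < J.card by omega) x
      rw [mem_inter] at hx
      exact ⟨x, y, hA hx.1, hJ hy, hyx.symm, c1 (Or.inr hy) (by omega),
        c1 (Or.inl hx.1) (by omega), c1 (Or.inl hx.2) (by omega)⟩
    · obtain ⟨x, hx⟩ := card_pos.1 (show 0 < (A ∩ B).card by omega)
      obtain ⟨y, hy, hyx⟩ := exists_mem_ne (show 1 < (J ∩ B).card by omega) x
      rw [mem_inter] at hx hy
      exact ⟨x, y, hA hx.1, hJ hy.1, hyx.symm, c1 (Or.inr hy.1) (by omega),
        c1 (Or.inl hx.1) (by omega), c2 hx.2 hy.2 hyx.symm (by omega)⟩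
  · rcases Nat.lt_or_ge B.card 5 with h6 | h6
    · obtain ⟨x, hx⟩ := card_pos.1 (show 0 < (A ∩ B).card by omega)
      obtain ⟨y, hy, hyx⟩ := exists_mem_ne (show 1 < (J ∩ A).card by omega) x
      rw [mem_inter] at hx hy
      exact ⟨x, y, hA hx.1, hJ hy.1, hyx.symm, c1 (Or.inr hy.1) (by omega),
        c2 hx.1 hy.2 hyx.symm (by omega), c1 (Or.inl hx.2) (by omega)⟩
    · have hJAB := inter_big (A := J) (B := A ∩ B) hJ (inter_subset_left.trans hA)
      obtain ⟨x, hx⟩ := card_pos.1 (show 0 < (J ∩ (A ∩ B)).card by omega)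
      obtain ⟨y, hy, hyx⟩ := exists_mem_ne (show 1 < (A ∩ B).card by omega) x
      rw [mem_inter, mem_inter] at hx
      rw [mem_inter] at hy
      exact ⟨x, y, hJ hx.1, hA hy.1, hyx.symm, c1 (Or.inl hx.1) (by omega),
        c2 hx.2.1 hy.1 hyx.symm (by omega), c2 hx.2.2 hy.2 hyx.symm (by omega)⟩

end

end T1M

open T1M Base in
theorem specT1 (hSUB : SpecSUB) : SpecT1 := by
  intro W _ _ S h i j k l h5 hh hi hj hk hl he hL
  have hlm : ∀ (X : Finset W) (v : W), lm S.L X v = 0 := by
    intro X v
    rw [hL]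
    exact lm_of_empty X v
  by_contra hng
  have hiH : S.N i ⊆ S.N h := by
    intro w hw
    by_contra hwh
    exact hng (hSUB W S h i j k l w h5 hi (by omega) (fun v => by rw [hlm]; omega) hw hwh)
  have h5' : Five h j i k l := by
    obtain ⟨h1, h2, h3, h4, h5, h6, h7, h8, h9, h10⟩ := h5
    exact ⟨h2, h1, h3, h4, h5.symm, h8, h9, h6, h7, h10⟩
  have hjH : S.N j ⊆ S.N h := by
    intro w hw
    by_contra hwh
    exact hng (hSUB W S h j i k l w h5' hj (by omega) (fun v => by rw [hlm]; omega) hw hwh)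
  have key1 : ∀ k l, Five h i j k l → (S.N k).card = 5 → S.e i k + S.e i l + S.e j k + S.e j l = 0 →
      (S.N k \ S.N h).card ≤ 1 := by
    intro k l h5 hk he
    by_contra hcon
    obtain ⟨w, hw, w', hw', hne⟩ := one_lt_card.1 (not_le.1 hcon)
    rw [mem_sdiff] at hw hw'
    have hk5 : Five k h i j l := by
      obtain ⟨h1, h2, h3, h4, h5, h6, h7, h8, h9, h10⟩ := h5
      exact ⟨h3.symm, h6.symm, h8.symm, h10, h1, h2, h4, h5, h7, h9⟩
    have hcomp : ({k}ᶜ : Finset (Fin 5)) = {h, i, j, l} := five_compl1 k h i j l hk5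
    have hcov := five_cover h i j k l h5
    have hdg : ∀ x, S.dg ({k}ᶜ) x = S.e x h + S.e x i + S.e x j + S.e x l := by
      intro x
      rw [hcomp]
      obtain ⟨h1, h2, h3, h4, h5, h6, h7, h8, h9, h10⟩ := h5
      exact dg_four S x h1 h2 h4 h5 h7 h9
    have hemp : ∀ x, S.N x ⊆ S.N h → (S.N x ∩ {w, w'}).card = 0 := by
      intro x hx
      rw [card_eq_zero, eq_empty_iff_forall_notMem]
      intro z hz
      rw [mem_inter, mem_insert, mem_singleton] at hz
      rcases hz.2 with rfl | rfl
      · exact hw.2 (hx hz.1)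
      · exact hw'.2 (hx hz.1)
    refine hng ⟨{k}, {w, w'}ᶜ, ?_, ?_, ?_, ?_⟩
    · intro x hx
      rw [mem_singleton] at hx
      subst hx
      have h1 : S.dg {x} x = 0 := by rw [dg_single, e_self]
      have h2 : S.N x ∩ {w, w'}ᶜ = S.N x \ {w, w'} := by rw [sdiff_eq_inter_compl]
      rw [h1, h2, zero_add]
      exact c2 hw.1 hw'.1 hne (by omega)
    · intro x hx
      rw [mem_singleton] at hx
      rw [sdiff_compl, hdg]
      rcases hcov x with rfl | rfl | rfl | rfl | rfl
      · have h1 := e_self S x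
        have h2 := e_le S x i
        have h3 := e_le S x j
        have h4 := e_le S x l
        have h6 := hemp x (fun _ hz => hz)
        rw [inf_eq_inter]
        omega
      · have h1 := e_self S x
        have h2 := e_le S x h
        have h3 := e_le S x j
        have h6 := hemp x hiH
        rw [inf_eq_inter]
        omega
      · have h1 := e_self S x
        have h2 := e_le S x h
        have h3 := e_le S x i
        have h6 := hemp x hjH
        rw [inf_eq_inter]
        omega
      · exact absurd rfl hx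
      · have h1 := e_self S x
        have h2 := e_le S x h
        have h3 := e_comm S x i
        have h4 := e_comm S x j
        have h6 : (S.N x ∩ {w, w'}).card ≤ 2 := (card_le_card inter_subset_right).trans card_le_two
        rw [inf_eq_inter]
        omega
    · intro v _
      rw [hlm]
      have := tr_le S {k} v
      rw [card_singleton] at this
      omega
    · intro v hv
      rw [hlm]
      have hv' : v ∉ S.N h := by
        rw [mem_compl, not_not, mem_insert, mem_singleton] at hv
        rcases hv with rfl | rfl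
        · exact hw.2
        · exact hw'.2
      have : S.tr ({k}ᶜ) v ≤ ({l} : Finset (Fin 5)).card := by
        apply card_le_card
        intro x hx
        rw [mem_filter, mem_compl, mem_singleton] at hx
        rw [mem_singleton]
        rcases hcov x with rfl | rfl | rfl | rfl | rfl
        · exact absurd hx.2 hv'
        · exact absurd (hiH hx.2) hv'
        · exact absurd (hjH hx.2) hv'
        · exact absurd rfl hx.1
        · rfl
      rw [card_singleton] at this
      omega
  have hk1 : (S.N k \ S.N h).card ≤ 1 := key1 k l h5 hk (by omega)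
  have h5'' : Five h i j l k := by
    obtain ⟨h1, h2, h3, h4, h5, h6, h7, h8, h9, h10⟩ := h5
    exact ⟨h1, h2, h4, h3, h5, h7, h6, h9, h8, h10.symm⟩
  have hl1 : (S.N l \ S.N h).card ≤ 1 := key1 l k h5'' hl (by omega)
  have hk2 : 4 ≤ (S.N k ∩ S.N h).card ∧ (S.N k ∩ S.N h).card ≤ 5 := by
    have := card_sdiff_add_card_inter (S.N k) (S.N h)
    omega
  have hl2 : 4 ≤ (S.N l ∩ S.N h).card ∧ (S.N l ∩ S.N h).card ≤ 5 := by
    have := card_sdiff_add_card_inter (S.N l) (S.N h)
    omega
  obtain ⟨x, y, hx, hy, hxy, hJ, hA, hB⟩ := choose hh hjH hj (inter_subset_right (s₁ := S.N k)) hk2.1 hk2.2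
    (inter_subset_right (s₁ := S.N l)) hl2.1 hl2.2
  have hcomp : ({h, i}ᶜ : Finset (Fin 5)) = {j, k, l} := five_compl2 h i j k l h5
  have hcov := five_cover h i j k l h5
  obtain ⟨h1, h2, h3, h4, h6, h7, h8, h9, h10, h11⟩ := h5
  have hdg : ∀ x, S.dg ({h, i}ᶜ) x = S.e x j + S.e x k + S.e x l := by
    intro x
    rw [hcomp]
    exact dg_triple S x h9 h10 h11
  refine hng ⟨{h, i}, (S.N h \ {x, y})ᶜ, ?_, ?_, ?_, ?_⟩
  · intro z hz
    have hsub : S.N z ⊆ S.N h := by
      rw [mem_insert, mem_singleton] at hz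
      rcases hz with rfl | rfl
      · exact fun _ h => h
      · exact hiH
    have hc : (S.N z ∩ (S.N h \ {x, y})ᶜ).card ≤ 2 := by
      refine (card_le_card (t := {x, y}) ?_).trans card_le_two
      intro u hu
      rw [mem_inter, mem_compl, mem_sdiff, not_and, not_not] at hu
      exact hu.2 (hsub hu.1)
    rw [dg_pair S z h1]
    rw [mem_insert, mem_singleton] at hz
    rcases hz with rfl | rfl
    · have h1 := e_self S z
      have h2 := e_le S z i
      omega
    · have h1 := e_self S z
      have h2 := e_le S z h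
      omega
  · intro z hz
    rw [hdg, sdiff_compl, inf_eq_inter]
    rw [mem_insert, mem_singleton, not_or] at hz
    rcases hcov z with rfl | rfl | rfl | rfl | rfl
    · exact absurd rfl hz.1
    · exact absurd rfl hz.2
    · have h1 := e_self S z
      have h2 : (S.N z ∩ (S.N h \ {x, y})).card ≤ (S.N z \ {x, y}).card := by
        apply card_le_card
        intro u hu
        rw [mem_inter, mem_sdiff] at hu
        exact mem_sdiff.2 ⟨hu.1, hu.2.2⟩
      omega
    · have h1 := e_self S z
      have h3 := e_comm S z j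
      have h2 : (S.N z ∩ (S.N h \ {x, y})).card ≤ ((S.N z ∩ S.N h) \ {x, y}).card := by
        apply card_le_card
        intro u hu
        rw [mem_inter, mem_sdiff] at hu
        exact mem_sdiff.2 ⟨mem_inter.2 ⟨hu.1, hu.2.1⟩, hu.2.2⟩
      omega
    · have h1 := e_self S z
      have h3 := e_comm S z j
      have h4 := e_comm S z k
      have h2 : (S.N z ∩ (S.N h \ {x, y})).card ≤ ((S.N z ∩ S.N h) \ {x, y}).card := by
        apply card_le_card
        intro u hu
        rw [mem_inter, mem_sdiff] at hu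
        exact mem_sdiff.2 ⟨mem_inter.2 ⟨hu.1, hu.2.1⟩, hu.2.2⟩
      omega
  · intro v _
    rw [hlm]
    have h1 := tr_le S {h, i} v
    have h2 : ({h, i} : Finset (Fin 5)).card ≤ 2 := card_le_two
    omega
  · intro v _
    rw [hlm, hcomp]
    have h1 := tr_le S {j, k, l} v
    have h2 : ({j, k, l} : Finset (Fin 5)).card ≤ 3 := card_le_three
    omega

end Pool.Agent.Lib.MP270b6b.F4
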