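import Pool.Agent.Lib.MP_270b6b_co.F4.Spec

/-!
# T2: the path `i j k` and an isolated centre `l`
-/

set_option autoImplicit false

namespace Pool.Agent.Lib.MP270b6b.F4

open Finset

namespace T2M

lemma cover {h i j k l : Fin 5} (hF : Five h i j k l) (y : Fin 5) :
    y = h ∨ y = i ∨ y = j ∨ y = k ∨ y = l := by
  obtain ⟨h1, h2, h3, h4, h5, h6, h7, h8, h9, h10⟩ := hF
  have hc : ({h, i, j, k, l} : Finset (Fin 5)).card = 5 := by
    rw [card_insert_of_notMem, card_insert_of_notMem, card_insert_of_notMem, card_insert_of_notMem,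
      card_singleton] <;> simp [*]
  have hu : ({h, i, j, k, l} : Finset (Fin 5)) = univ := eq_univ_of_card _ (by rw [hc]; rfl)
  have hy : y ∈ ({h, i, j, k, l} : Finset (Fin 5)) := hu ▸ mem_univ y
  simpa using hy

section
variable {K W : Type} [Fintype K] [DecidableEq K] [Fintype W] [DecidableEq W]

lemma e0 {S : Sys K W} {i j : K} (h : S.e i j = 0) : S.Γ i j = false := by
  unfold Sys.e at h
  cases hb : S.Γ i j with
  | false => rfl
  | true => rw [hb] at h; simp at h

lemma e1 (S : Sys K W) (i j : K) : S.e i j ≤ 1 := by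
  unfold Sys.e
  cases S.Γ i j <;> simp

lemma dg_le {S : Sys K W} {P Q : Finset K} {x : K} (h : ∀ y ∈ P, S.Γ x y = true → y ∈ Q) :
    S.dg P x ≤ Q.card := by
  unfold Sys.dg
  refine card_le_card fun y hy => ?_
  rw [mem_filter] at hy
  exact h y hy.1 hy.2

lemma tr_le (S : Sys K W) (P : Finset K) (w : W) : S.tr P w ≤ P.card := by
  unfold Sys.tr
  exact card_filter_le _ _

end

/-- the counting claim -/
lemma claim {W : Type} [DecidableEq W] {A M Y Z : Finset W} (hA : A.card = 4) (hM : 3 ≤ M.card)
    (hd : Disjoint A M) (hY : Y.card = 5) (hZ : Z.card = 5)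
    (hp : ∀ w ∈ A, ∀ w' ∈ M, (w ∈ Y ∧ w' ∈ Y) ∨ (w ∈ Z ∧ w' ∈ Z)) : ¬ A ⊆ Y := by
  intro hAY
  have h1 : A.card + (M ∩ Y).card ≤ 5 := by
    rw [← card_union_of_disjoint (hd.mono_right inter_subset_left), ← hY]
    exact card_le_card (union_subset hAY inter_subset_right)
  have h2 : (M ∩ Y).card + (M \ Y).card = M.card := card_inter_add_card_sdiff M Y
  have h3 : 2 ≤ (M \ Y).card := by omega
  obtain ⟨m, hm⟩ : (M \ Y).Nonempty := card_pos.1 (by omega)
  obtain ⟨a, ha⟩ : A.Nonempty := card_pos.1 (by omega)
  have h4 : A ⊆ Z := by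
    intro w hw
    rcases hp w hw m (mem_sdiff.1 hm).1 with h | h
    · exact absurd h.2 (mem_sdiff.1 hm).2
    · exact h.1
  have h5 : M \ Y ⊆ Z := by
    intro w' hw'
    rcases hp a ha w' (mem_sdiff.1 hw').1 with h | h
    · exact absurd h.2 (mem_sdiff.1 hw').2
    · exact h.2
  have h6 : A.card + (M \ Y).card ≤ 5 := by
    rw [← card_union_of_disjoint (hd.mono_right sdiff_subset), ← hZ]
    exact card_le_card (union_subset h4 h5)
  omega

end T2M

open T2M in
theorem specT2 (hSUB : SpecSUB) (hAC2 : SpecAC2) (hS32 : SpecS32) : SpecT2 := by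
  intro W _ _ S h i j k l hF hh hi hj hk hl he hL
  by_contra hG
  have hcov := cover hF
  obtain ⟨hhi, hhj, hhk, hhl, hij, hik, hil, hjk, hjl, hkl⟩ := hF
  have gik : S.Γ i k = false := e0 (by omega)
  have gil : S.Γ i l = false := e0 (by omega)
  have gjl : S.Γ j l = false := e0 (by omega)
  have gkl : S.Γ k l = false := e0 (by omega)
  have gki : S.Γ k i = false := by rw [S.sym]; exact gik
  have gli : S.Γ l i = false := by rw [S.sym]; exact gil
  have glj : S.Γ l j = false := by rw [S.sym]; exact gjl
  have glk : S.Γ l k = false := by rw [S.sym]; exact gkl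
  have hlm : ∀ (X : Finset W) (v : W), lm S.L X v = 0 := by
    intro X v
    rw [hL]
    simp [lm]
  -- `N k ⊆ N h`
  have hkh : S.N k ⊆ S.N h := by
    intro w hw
    by_contra hwh
    refine hG (hSUB W S h k i j l w ⟨hhk, hhi, hhj, hhl, hik.symm, hjk.symm, hkl, hij, hil, hjl⟩ hk
      ?_ (fun v => by rw [hlm]; omega) hw hwh)
    have := e1 S i j
    omega
  have hdis : Disjoint (S.N k) (S.N l) := by
    rw [disjoint_left]
    intro w h1 h2
    exact hG (hAC2 W S k l w hkl gkl hk hl h1 h2 (by rw [hL]; simp))
  have hpair : ∀ w ∈ S.N k, ∀ w' ∈ S.N l, (w ∈ S.N h ∧ w' ∈ S.N h) ∨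
      (w ∈ S.N i ∧ w' ∈ S.N i) ∨ (w ∈ S.N j ∧ w' ∈ S.N j) := by
    intro w hw w' hw'
    by_contra hno
    rw [not_or, not_or] at hno
    obtain ⟨n1, n2, n3⟩ := hno
    refine hG (hS32 W S k l w w' hkl gkl hk hl hdis hw hw' (by rw [hL]; simp)
      (fun v => by rw [hlm]; omega) ?_)
    intro x hxk hxl
    have hx : x = h ∨ x = i ∨ x = j := by
      rcases hcov x with h | h | h | h | h
      · exact Or.inl h
      · exact Or.inr (Or.inl h)
      · exact Or.inr (Or.inr h)
      · exact absurd h hxk
      · exact absurd h hxl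
    have hd : S.dg ({k, l}ᶜ) x ≤ 2 := by
      have h1 : S.dg ({k, l}ᶜ) x ≤ (({h, i, j} : Finset (Fin 5)).erase x).card := by
        refine dg_le fun y hy hxy => ?_
        rw [mem_compl, mem_insert, mem_singleton, not_or] at hy
        rw [mem_erase]
        refine ⟨?_, ?_⟩
        · rintro rfl
          rw [S.irr] at hxy
          exact absurd hxy (by simp)
        · rcases hcov y with h | h | h | h | h
          · simp [h]
          · simp [h]
          · simp [h]
          · exact absurd h hy.1
          · exact absurd h hy.2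
      have h2 : (({h, i, j} : Finset (Fin 5)).erase x).card = ({h, i, j} : Finset (Fin 5)).card - 1 :=
        card_erase_of_mem (by
          rcases hx with h | h | h <;> simp [h])
      have h3 : ({h, i, j} : Finset (Fin 5)).card ≤ 3 := card_le_three
      omega
    have hnot : ¬ (w ∈ S.N x ∧ w' ∈ S.N x) := by
      rcases hx with h | h | h
      · rw [h]; exact n1
      · rw [h]; exact n2
      · rw [h]; exact n3
    by_cases c1 : w ∈ S.N x
    · by_cases c2 : w' ∈ S.N x
      · exact absurd ⟨c1, c2⟩ hnot
      · rw [if_pos c1, if_neg c2]; omega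
    · by_cases c2 : w' ∈ S.N x
      · rw [if_neg c1, if_pos c2]; omega
      · rw [if_neg c1, if_neg c2]; omega
  set M : Finset W := S.N l \ S.N h with hM
  have hMl : M ⊆ S.N l := sdiff_subset
  have hMc : 3 ≤ M.card := by
    have h1 : (S.N l ∩ S.N h).card + M.card = (S.N l).card := card_inter_add_card_sdiff _ _
    have h2 : S.N l ∩ S.N h ⊆ S.N h \ S.N k := by
      intro x hx
      rw [mem_inter] at hx
      rw [mem_sdiff]
      exact ⟨hx.2, fun hk => disjoint_left.1 hdis hk hx.1⟩
    have h3 := card_le_card h2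
    rw [card_sdiff_of_subset hkh] at h3
    omega
  have hpM : ∀ w ∈ S.N k, ∀ w' ∈ M, (w ∈ S.N i ∧ w' ∈ S.N i) ∨ (w ∈ S.N j ∧ w' ∈ S.N j) := by
    intro w hw w' hw'
    rcases hpair w hw w' (hMl hw') with h1 | h1
    · exact absurd h1.2 (mem_sdiff.1 hw').2
    · exact h1
  have hkM : Disjoint (S.N k) M := hdis.mono_right hMl
  have c1 := claim hk hMc hkM hi hj hpM
  have c2 := claim hk hMc hkM hj hi fun w hw w' hw' => (hpM w hw w' hw').symm
  obtain ⟨w1, hw1, hw1i⟩ := not_subset.1 c1
  obtain ⟨w2, hw2, hw2j⟩ := not_subset.1 c2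
  have hMj : M ⊆ S.N j := by
    intro w' hw'
    rcases hpM w1 hw1 w' hw' with h1 | h1
    · exact absurd h1.1 hw1i
    · exact h1.2
  have hMi : M ⊆ S.N i := by
    intro w' hw'
    rcases hpM w2 hw2 w' hw' with h1 | h1
    · exact h1.2
    · exact absurd h1.1 hw2j
  obtain ⟨u, hu⟩ : M.Nonempty := card_pos.1 (by omega)
  set A : Finset W := S.N k ∩ S.N i with hA
  set B : Finset W := S.N k ∩ S.N j with hB
  have hAM : A.card + M.card ≤ 5 := by
    have h1 : A ∪ M ⊆ S.N i := union_subset inter_subset_right hMi
    have h2 := card_le_card h1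
    rw [card_union_of_disjoint (hkM.mono_left inter_subset_left : Disjoint A M), hi] at h2
    exact h2
  have hBM : B.card + M.card ≤ 5 := by
    have h1 : B ∪ M ⊆ S.N j := union_subset inter_subset_right hMj
    have h2 := card_le_card h1
    rw [card_union_of_disjoint (hkM.mono_left inter_subset_left : Disjoint B M), hj] at h2
    exact h2
  have hAB : 4 ≤ (A ∪ B).card := by
    rw [← hk]
    refine card_le_card fun w hw => ?_
    rw [mem_union, hA, hB, mem_inter, mem_inter]
    rcases hpM w hw u hu with h1 | h1
    · exact Or.inl ⟨hw, h1.1⟩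
    · exact Or.inr ⟨hw, h1.1⟩
  have hAB2 : (A ∪ B).card + (A ∩ B).card = A.card + B.card := card_union_add_card_inter A B
  have hAc : A.card = 2 := by omega
  have hBc : B.card = 2 := by omega
  have hABe : A ∩ B = ∅ := card_eq_zero.1 (by omega)
  have huh : u ∉ S.N h := (mem_sdiff.1 hu).2
  have huk : u ∉ S.N k := fun h1 => disjoint_left.1 hkM h1 hu
  have huB : u ∉ B := fun h1 => huk (mem_inter.1 h1).1
  set X : Finset W := insert u B with hX
  have hXc : X.card = 3 := by rw [hX, card_insert_of_notMem huB, hBc]
  -- the partition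
  refine hG ⟨{h, i}, X, ?_, ?_, ?_, ?_⟩
  · intro x hx
    rw [mem_insert, mem_singleton] at hx
    rcases hx with rfl | rfl
    · have h1 : S.dg {x, i} x ≤ ({i} : Finset (Fin 5)).card := dg_le fun y hy hxy => by
        rw [mem_insert, mem_singleton] at hy
        rcases hy with rfl | rfl
        · rw [S.irr] at hxy
          exact absurd hxy (by simp)
        · exact mem_singleton_self _
      rw [card_singleton] at h1
      have h2 : (S.N x ∩ X).card ≤ B.card := card_le_card fun w hw => by
        rw [mem_inter, hX, mem_insert] at hw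
        rcases hw.2 with h3 | h3
        · exact absurd (h3 ▸ hw.1) huh
        · exact h3
      omega
    · have h1 : S.dg {h, x} x ≤ ({h} : Finset (Fin 5)).card := dg_le fun y hy hxy => by
        rw [mem_insert, mem_singleton] at hy
        rcases hy with rfl | rfl
        · exact mem_singleton_self _
        · rw [S.irr] at hxy
          exact absurd hxy (by simp)
      rw [card_singleton] at h1
      have h2 : (S.N x ∩ X).card ≤ ({u} : Finset W).card := card_le_card fun w hw => by
        rw [mem_inter, hX, mem_insert] at hw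
        rw [mem_singleton]
        rcases hw.2 with h3 | h3
        · exact h3
        · exfalso
          have h4 : w ∈ A ∩ B := mem_inter.2 ⟨mem_inter.2 ⟨(mem_inter.1 h3).1, hw.1⟩, h3⟩
          rw [hABe] at h4
          exact absurd h4 (notMem_empty w)
      rw [card_singleton] at h2
      omega
  · intro x hx
    rw [mem_insert, mem_singleton, not_or] at hx
    have hcase : x = j ∨ x = k ∨ x = l := by
      rcases hcov x with h1 | h1 | h1 | h1 | h1
      · exact absurd h1 hx.1
      · exact absurd h1 hx.2
      · exact Or.inl h1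
      · exact Or.inr (Or.inl h1)
      · exact Or.inr (Or.inr h1)
    have hycase : ∀ y ∈ ({h, i}ᶜ : Finset (Fin 5)), y = j ∨ y = k ∨ y = l := by
      intro y hy
      rw [mem_compl, mem_insert, mem_singleton, not_or] at hy
      rcases hcov y with h1 | h1 | h1 | h1 | h1
      · exact absurd h1 hy.1
      · exact absurd h1 hy.2
      · exact Or.inl h1
      · exact Or.inr (Or.inl h1)
      · exact Or.inr (Or.inr h1)
    rcases hcase with rfl | rfl | rfl
    · have h1 : S.dg {h, i}ᶜ x ≤ ({k} : Finset (Fin 5)).card := dg_le fun y hy hxy => by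
        rcases hycase y hy with rfl | rfl | rfl
        · rw [S.irr] at hxy
          exact absurd hxy (by simp)
        · exact mem_singleton_self _
        · rw [gjl] at hxy
          exact absurd hxy (by simp)
      rw [card_singleton] at h1
      have h2 : X ⊆ S.N x := by
        rw [hX, insert_subset_iff]
        exact ⟨hMj hu, inter_subset_right⟩
      rw [card_sdiff_of_subset h2]
      omega
    · have h1 : S.dg {h, i}ᶜ x ≤ ({j} : Finset (Fin 5)).card := dg_le fun y hy hxy => by
        rcases hycase y hy with rfl | rfl | rfl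
        · exact mem_singleton_self _
        · rw [S.irr] at hxy
          exact absurd hxy (by simp)
        · rw [gkl] at hxy
          exact absurd hxy (by simp)
      rw [card_singleton] at h1
      have h2 : (S.N x \ X).card ≤ (S.N x \ B).card :=
        card_le_card (sdiff_subset_sdiff Subset.rfl (subset_insert u B))
      have h3 : B ⊆ S.N x := inter_subset_left
      rw [card_sdiff_of_subset h3] at h2
      omega
    · have h1 : S.dg {h, i}ᶜ x ≤ (∅ : Finset (Fin 5)).card := dg_le fun y hy hxy => by
        exfalso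
        rcases hycase y hy with rfl | rfl | rfl
        · rw [glj] at hxy
          exact absurd hxy (by simp)
        · rw [glk] at hxy
          exact absurd hxy (by simp)
        · rw [S.irr] at hxy
          exact absurd hxy (by simp)
      rw [card_empty] at h1
      have h2 : (S.N x \ X).card ≤ ((S.N x).erase u).card := card_le_card fun w hw => by
        rw [mem_sdiff, hX, mem_insert, not_or] at hw
        exact mem_erase.2 ⟨hw.2.1, hw.1⟩
      rw [card_erase_of_mem (hMl hu)] at h2
      omega
  · intro w _
    rw [hlm]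
    have h1 := tr_le S {h, i} w
    have h2 : ({h, i} : Finset (Fin 5)).card ≤ 2 := card_le_two
    omega
  · intro w _
    rw [hlm]
    have h1 := tr_le S ({h, i}ᶜ) w
    rw [card_compl, card_pair hhi, Fintype.card_fin] at h1
    omega

end Pool.Agent.Lib.MP270b6b.F4
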