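import Pool.Agent.Lib.MP_270b6b_co.F4.Spec

/-!
# MP_270b6b_co, F4, module T5A
-/

set_option autoImplicit false

namespace Pool.Agent.Lib.MP270b6b.F4

open Finset

namespace T5AM

variable {W : Type} [Fintype W] [DecidableEq W]

omit [Fintype W] in
theorem lm_le (L : Finset (Sym2 W)) (X : Finset W) (w : W) : lm L X w ≤ L.card := by
  unfold lm
  refine Finset.card_le_card_of_injOn (fun u => s(w, u)) ?_ ?_
  · intro u hu
    exact (Finset.mem_filter.1 (Finset.mem_coe.1 hu)).2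
  · intro u _ u' _ huu
    exact Sym2.congr_right.1 huu

omit [Fintype W] in
theorem pick (L : Finset (Sym2 W)) (A : Finset W) (w : W) (hL : L.card ≤ 2) (hA : A.card = 4) :
    ∃ u ∈ A, s(w, u) ∉ L := by
  by_contra hcon
  push Not at hcon
  have h1 : A.filter (fun u => s(w, u) ∈ L) = A := Finset.filter_true_of_mem hcon
  have h2 := lm_le L A w
  unfold lm at h2
  rw [h1] at h2
  omega

theorem deg (S : Sys (Fin 5) W) (i l x : Fin 5) (hil : l ≠ i) (hl : x ≠ l) (hi : x ≠ i) :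
    S.dg ({l, i}ᶜ) x ≤ 2 := by
  have h1 : ({l, i}ᶜ : Finset (Fin 5)).filter (fun j => S.Γ x j = true)
      ⊆ (({l, i}ᶜ : Finset (Fin 5)).erase x) := by
    intro y hy
    rw [Finset.mem_filter] at hy
    rw [Finset.mem_erase]
    refine ⟨?_, hy.1⟩
    rintro rfl
    rw [S.irr] at hy
    exact absurd hy.2 (by decide)
  have h2 : x ∈ ({l, i}ᶜ : Finset (Fin 5)) := by
    rw [Finset.mem_compl, Finset.mem_insert, Finset.mem_singleton]
    rintro (h | h)
    · exact hl h
    · exact hi h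
  have h3 : ({l, i}ᶜ : Finset (Fin 5)).card = 3 := by
    rw [Finset.card_compl, Finset.card_pair hil]
    rfl
  have h4 := Finset.card_le_card h1
  rw [Finset.card_erase_of_mem h2, h3] at h4
  exact h4

theorem fin (hS32 : SpecS32) (S : Sys (Fin 5) W) (i l : Fin 5) (w w' : W) (hil : i ≠ l)
    (hΓ : S.Γ i l = false) (ci : (S.N i).card = 4) (cl : (S.N l).card = 4)
    (hd : Disjoint (S.N l) (S.N i)) (hw : w ∈ S.N l) (hw' : w' ∈ S.N i) (hL : S.L.card ≤ 2)
    (hww : s(w, w') ∉ S.L) (hx : ∀ x, x ≠ l → x ≠ i → ¬ (w ∈ S.N x ∧ w' ∈ S.N x)) :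
    S.Good := by
  refine hS32 W S l i w w' hil.symm (by rw [S.sym]; exact hΓ) cl ci hd hw hw' hww
    (fun v => (lm_le _ _ _).trans hL) ?_
  intro x hxl hxi
  have h1 := deg S i l x hil.symm hxl hxi
  have h2 := hx x hxl hxi
  by_cases a : w ∈ S.N x
  · by_cases b : w' ∈ S.N x
    · exact absurd ⟨a, b⟩ h2
    · rw [if_pos a, if_neg b]
      omega
  · by_cases b : w' ∈ S.N x
    · rw [if_neg a, if_pos b]
      omega
    · rw [if_neg a, if_neg b]
      omega

/-- disjoint or good -/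
theorem disj (hAC2 : SpecAC2) (S : Sys (Fin 5) W) (i l : Fin 5) (hil : i ≠ l)
    (hΓ : S.Γ i l = false) (ci : (S.N i).card = 4) (cl : (S.N l).card = 4)
    (hL : S.L.card ≤ 2) (hng : ¬ S.Good) : Disjoint (S.N l) (S.N i) := by
  rw [Finset.disjoint_left]
  intro w hw hw'
  exact hng (hAC2 W S i l w hil hΓ ci cl hw' hw hL)

end T5AM

theorem specT5A (hAC2 : SpecAC2) (hS32 : SpecS32) : SpecT5A := by
  intro W _ _ S h i j k l hf hil hjl hkl ci cj ck cl ch hL
  by_contra hng
  obtain ⟨hi, hj, hk, hl, hij, hik, hil', hjk, hjl', hkl'⟩ := hf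
  have di := T5AM.disj hAC2 S i l hil' hil ci cl hL hng
  have dj := T5AM.disj hAC2 S j l hjl' hjl cj cl hL hng
  have dk := T5AM.disj hAC2 S k l hkl' hkl ck cl hL hng
  -- choose the two leaves
  have hex : ∃ w ∈ S.N l, ∃ w' ∈ S.N i, s(w, w') ∉ S.L ∧ ¬ (w ∈ S.N h ∧ w' ∈ S.N h) := by
    by_cases hA : ∃ w ∈ S.N l, w ∉ S.N h
    · obtain ⟨w, hw, hwh⟩ := hA
      obtain ⟨w', hw', hL'⟩ := T5AM.pick S.L (S.N i) w hL ci
      exact ⟨w, hw, w', hw', hL', fun hh => hwh hh.1⟩
    · push Not at hA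
      have hB : ∃ w' ∈ S.N i, w' ∉ S.N h := by
        by_contra hcon
        push Not at hcon
        have h1 : S.N l ∪ S.N i ⊆ S.N h := Finset.union_subset hA hcon
        have h2 := Finset.card_le_card h1
        rw [Finset.card_union_of_disjoint di] at h2
        omega
      obtain ⟨w', hw', hwh⟩ := hB
      obtain ⟨w, hw, hL'⟩ := T5AM.pick S.L (S.N l) w' hL cl
      refine ⟨w, hw, w', hw', ?_, fun hh => hwh hh.2⟩
      rw [Sym2.eq_swap]
      exact hL'
  obtain ⟨w, hw, w', hw', hww, hnh⟩ := hex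
  apply hng
  refine T5AM.fin hS32 S i l w w' hil' hil ci cl di hw hw' hL hww ?_
  have all : ∀ x : Fin 5, x = h ∨ x = i ∨ x = j ∨ x = k ∨ x = l := by
    revert hi hj hk hl hij hik hil' hjk hjl' hkl'
    clear * -
    revert h i j k l
    decide
  intro x hxl hxi
  rcases all x with rfl | rfl | rfl | rfl | rfl
  · exact hnh
  · exact absurd rfl hxi
  · exact fun hh => Finset.disjoint_left.1 dj hw hh.1
  · exact fun hh => Finset.disjoint_left.1 dk hw hh.1
  · exact absurd rfl hxl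

end Pool.Agent.Lib.MP270b6b.F4
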