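import Pool.Agent.Lib.MP_270b6b_co.F4.Spec

/-!
# MP_270b6b_co, F4, module T5B
-/

set_option autoImplicit false

namespace Pool.Agent.Lib.MP270b6b.F4

open Finset

namespace T5BM

variable {W : Type} [Fintype W] [DecidableEq W]

omit [Fintype W] in
theorem lm_le (L : Finset (Sym2 W)) (X : Finset W) (w : W) : lm L X w ≤ L.card := by
  unfold lm
  refine Finset.card_le_card_of_injOn (fun u => s(w, u)) ?_ ?_
  · intro u hu
    exact (Finset.mem_filter.1 (Finset.mem_coe.1 hu)).2
  · intro u _ u' _ huu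
    exact Sym2.congr_right.1 huu

omit [Fintype W] in
theorem pick (L : Finset (Sym2 W)) (A : Finset W) (w : W) (hL : L.card ≤ 2) (hA : A.card = 4) :
    ∃ u ∈ A, s(w, u) ∉ L := by
  by_contra hcon
  push Not at hcon
  have h1 : A.filter (fun u => s(w, u) ∈ L) = A := Finset.filter_true_of_mem hcon
  have h2 := lm_le L A w
  unfold lm at h2
  rw [h1] at h2
  omega

theorem deg (S : Sys (Fin 5) W) (i l x : Fin 5) (hil : l ≠ i) (hl : x ≠ l) (hi : x ≠ i) :
    S.dg ({l, i}ᶜ) x ≤ 2 := by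
  have h1 : ({l, i}ᶜ : Finset (Fin 5)).filter (fun j => S.Γ x j = true)
      ⊆ (({l, i}ᶜ : Finset (Fin 5)).erase x) := by
    intro y hy
    rw [Finset.mem_filter] at hy
    rw [Finset.mem_erase]
    refine ⟨?_, hy.1⟩
    rintro rfl
    rw [S.irr] at hy
    exact absurd hy.2 (by decide)
  have h2 : x ∈ ({l, i}ᶜ : Finset (Fin 5)) := by
    rw [Finset.mem_compl, Finset.mem_insert, Finset.mem_singleton]
    rintro (h | h)
    · exact hl h
    · exact hi h
  have h3 : ({l, i}ᶜ : Finset (Fin 5)).card = 3 := by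
    rw [Finset.card_compl, Finset.card_pair hil]
    rfl
  have h4 := Finset.card_le_card h1
  rw [Finset.card_erase_of_mem h2, h3] at h4
  exact h4

theorem fin (hS32 : SpecS32) (S : Sys (Fin 5) W) (i l : Fin 5) (w w' : W) (hil : i ≠ l)
    (hΓ : S.Γ i l = false) (ci : (S.N i).card = 4) (cl : (S.N l).card = 4)
    (hd : Disjoint (S.N l) (S.N i)) (hw : w ∈ S.N l) (hw' : w' ∈ S.N i) (hL : S.L.card ≤ 2)
    (hww : s(w, w') ∉ S.L) (hx : ∀ x, x ≠ l → x ≠ i → ¬ (w ∈ S.N x ∧ w' ∈ S.N x)) :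
    S.Good := by
  refine hS32 W S l i w w' hil.symm (by rw [S.sym]; exact hΓ) cl ci hd hw hw' hww
    (fun v => (lm_le _ _ _).trans hL) ?_
  intro x hxl hxi
  have h1 := deg S i l x hil.symm hxl hxi
  have h2 := hx x hxl hxi
  by_cases a : w ∈ S.N x
  · by_cases b : w' ∈ S.N x
    · exact absurd ⟨a, b⟩ h2
    · rw [if_pos a, if_neg b]
      omega
  · by_cases b : w' ∈ S.N x
    · rw [if_neg a, if_pos b]
      omega
    · rw [if_neg a, if_neg b]
      omega

/-- disjoint or good -/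
theorem disj (hAC2 : SpecAC2) (S : Sys (Fin 5) W) (i l : Fin 5) (hil : i ≠ l)
    (hΓ : S.Γ i l = false) (ci : (S.N i).card = 4) (cl : (S.N l).card = 4)
    (hL : S.L.card ≤ 2) (hng : ¬ S.Good) : Disjoint (S.N l) (S.N i) := by
  rw [Finset.disjoint_left]
  intro w hw hw'
  exact hng (hAC2 W S i l w hil hΓ ci cl hw' hw hL)

end T5BM

theorem specT5B (hAC2 : SpecAC2) (hS32 : SpecS32) (hREC : SpecREC) : SpecT5B := by
  intro W _ _ S h i j k l hf hil hjl hkl ci cj ck cl ch hL0
  by_contra hng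
  obtain ⟨hi, hj, hk, hl, hij, hik, hil', hjk, hjl', hkl'⟩ := hf
  have hL : S.L.card ≤ 2 := by
    rw [hL0, Finset.card_empty]
    omega
  have di := T5BM.disj hAC2 S i l hil' hil ci cl hL hng
  have hex := hREC W (S.N l) (S.N i) (S.N h) (S.N k) (S.N j) ∅ cl ci di (by omega) (by omega)
    (by omega) (by omega) (by omega) (by omega) (by rw [Finset.card_empty]; omega)
  obtain ⟨w, hw, w', hw', hnh, hnk, hnj, -⟩ := hex
  apply hng
  refine T5BM.fin hS32 S i l w w' hil' hil ci cl di hw hw' hL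
    (by rw [hL0]; exact Finset.notMem_empty _) ?_
  have all : ∀ x : Fin 5, x = h ∨ x = i ∨ x = j ∨ x = k ∨ x = l := by
    revert hi hj hk hl hij hik hil' hjk hjl' hkl'
    clear * -
    revert h i j k l
    decide
  intro x hxl hxi
  rcases all x with rfl | rfl | rfl | rfl | rfl
  · exact hnh
  · exact absurd rfl hxi
  · exact hnj
  · exact hnk
  · exact absurd rfl hxl

end Pool.Agent.Lib.MP270b6b.F4
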