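import Pool.Agent.Lib.MP_270b6b_co.F4.Spec

/-!
# T5C (MP_270b6b_co, n = 4)
-/

set_option autoImplicit false

namespace Pool.Agent.Lib.MP270b6b.F4

open Finset

namespace T5CM

lemma five_all {h i j k l : Fin 5} (hF : Five h i j k l) (x : Fin 5) :
    x = h ∨ x = i ∨ x = j ∨ x = k ∨ x = l := by
  obtain ⟨a1, a2, a3, a4, a5, a6, a7, a8, a9, a10⟩ := hF
  have h1 : ({h, i, j, k, l} : Finset (Fin 5)) = univ := by
    apply Finset.eq_univ_of_card
    rw [Finset.card_insert_of_notMem, Finset.card_insert_of_notMem, Finset.card_insert_of_notMem,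
      Finset.card_insert_of_notMem, Finset.card_singleton]
    · rfl
    · simpa using a10
    · simpa using ⟨a8, a9⟩
    · simpa using ⟨a5, a6, a7⟩
    · simpa using ⟨a1, a2, a3, a4⟩
  have h2 : x ∈ ({h, i, j, k, l} : Finset (Fin 5)) := by rw [h1]; exact Finset.mem_univ x
  simpa using h2

lemma e_zero {W : Type} [Fintype W] [DecidableEq W] {S : Sys (Fin 5) W} {i j : Fin 5}
    (h : S.Γ i j = false) : S.e i j = 0 := by
  unfold Sys.e
  rw [h]
  rfl

lemma e_le {W : Type} [Fintype W] [DecidableEq W] (S : Sys (Fin 5) W) (i j : Fin 5) :
    S.e i j ≤ 1 := by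
  unfold Sys.e
  cases S.Γ i j <;> decide

lemma lm_empty {W : Type} [DecidableEq W] {L : Finset (Sym2 W)} (h : L = ∅) (X : Finset W) (w : W) :
    lm L X w = 0 := by
  subst h
  unfold lm
  simp

end T5CM

open T5CM in
theorem specT5C (hSUB : SpecSUB) : SpecT5C := by
  intro W _ _ S h i j k l hF gil gjl gkl ci cj ck cl ch hL
  have hF' := hF
  obtain ⟨a1, a2, a3, a4, a5, a6, a7, a8, a9, a10⟩ := hF'
  have hlm : ∀ (X : Finset W) (v : W), lm S.L X v = 0 := fun X v => lm_empty hL X v
  have hlm2 : ∀ v, lm S.L univ v ≤ 2 := fun v => by rw [hlm]; exact Nat.zero_le _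
  have glj : S.Γ l j = false := by rw [S.sym]; exact gjl
  have glk : S.Γ l k = false := by rw [S.sym]; exact gkl
  have eil := e_zero gil
  have ejl := e_zero gjl
  have ekl := e_zero gkl
  by_cases hi : S.N i ⊆ S.N h
  swap
  · obtain ⟨w, hw, hwh⟩ := Finset.not_subset.mp hi
    refine hSUB W S h i j k l w hF ci ?_ hlm2 hw hwh
    rw [ejl, ekl]
    have := e_le S j k
    omega
  by_cases hj : S.N j ⊆ S.N h
  swap
  · obtain ⟨w, hw, hwh⟩ := Finset.not_subset.mp hj
    refine hSUB W S h j i k l w ⟨a2, a1, a3, a4, a5.symm, a8, a9, a6, a7, a10⟩ cj ?_ hlm2 hw hwh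
    rw [eil, ekl]
    have := e_le S i k
    omega
  by_cases hk : S.N k ⊆ S.N h
  swap
  · obtain ⟨w, hw, hwh⟩ := Finset.not_subset.mp hk
    refine hSUB W S h k i j l w ⟨a3, a1, a2, a4, a6.symm, a8.symm, a10, a5, a7, a9⟩ ck ?_ hlm2 hw hwh
    rw [eil, ejl]
    have := e_le S i j
    omega
  -- two common elements
  have hjk : 3 ≤ (S.N j ∩ S.N k).card := by
    have h1 := Finset.card_union_add_card_inter (S.N j) (S.N k)
    have h2 : (S.N j ∪ S.N k).card ≤ 5 :=
      (Finset.card_le_card (Finset.union_subset hj hk)).trans_eq ch
    omega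
  obtain ⟨x, hx, y, hy, hxy⟩ := Finset.one_lt_card.mp (show 1 < (S.N j ∩ S.N k).card by omega)
  have hxj := (Finset.mem_inter.mp hx).1
  have hxk := (Finset.mem_inter.mp hx).2
  have hyj := (Finset.mem_inter.mp hy).1
  have hyk := (Finset.mem_inter.mp hy).2
  have hpair : ({x, y} : Finset W).card = 2 := Finset.card_pair hxy
  refine ⟨{h, i}, (S.N h \ {x, y})ᶜ, ?_, ?_, ?_, ?_⟩
  · -- centres in `P`
    have hsub : ∀ c, S.N c ⊆ S.N h → (S.N c ∩ (S.N h \ {x, y})ᶜ).card ≤ 2 := by
      intro c hc
      rw [← hpair]
      apply Finset.card_le_card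
      intro v hv
      rw [Finset.mem_inter, Finset.mem_compl, Finset.mem_sdiff] at hv
      by_contra hn
      exact hv.2 ⟨hc hv.1, hn⟩
    intro c hc
    rw [Finset.mem_insert, Finset.mem_singleton] at hc
    rcases hc with rfl | rfl
    · have h1 : S.dg {c, i} c ≤ 1 := by
        unfold Sys.dg
        rw [← Finset.card_singleton i]
        apply Finset.card_le_card
        intro z hz
        rw [Finset.mem_filter, Finset.mem_insert, Finset.mem_singleton] at hz
        rw [Finset.mem_singleton]
        rcases hz.1 with rfl | rfl
        · have := hz.2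
          rw [S.irr] at this
          exact absurd this (by decide)
        · rfl
      have h2 := hsub c Finset.Subset.rfl
      omega
    · have h1 : S.dg {h, c} c ≤ 1 := by
        unfold Sys.dg
        rw [← Finset.card_singleton h]
        apply Finset.card_le_card
        intro z hz
        rw [Finset.mem_filter, Finset.mem_insert, Finset.mem_singleton] at hz
        rw [Finset.mem_singleton]
        rcases hz.1 with rfl | rfl
        · rfl
        · have := hz.2
          rw [S.irr] at this
          exact absurd this (by decide)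
      have h2 := hsub c hi
      omega
  · -- centres outside `P`
    intro c hc
    rw [Finset.mem_insert, Finset.mem_singleton, not_or] at hc
    have hz2 : ∀ c, x ∈ S.N c → y ∈ S.N c → (S.N c).card = 4 →
        (S.N c \ (S.N h \ {x, y})ᶜ).card ≤ 2 := by
      intro c hxc hyc hc4
      have h1 : S.N c \ (S.N h \ {x, y})ᶜ ⊆ S.N c \ {x, y} := by
        intro v hv
        rw [Finset.mem_sdiff, Finset.mem_compl, not_not, Finset.mem_sdiff] at hv
        rw [Finset.mem_sdiff]
        exact ⟨hv.1, hv.2.2⟩
      have h2 : (S.N c \ {x, y}).card = 2 := by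
        rw [Finset.card_sdiff_of_subset, hc4, hpair]
        intro v hv
        rw [Finset.mem_insert, Finset.mem_singleton] at hv
        rcases hv with rfl | rfl
        · exact hxc
        · exact hyc
      rw [← h2]
      exact Finset.card_le_card h1
    rcases five_all hF c with rfl | rfl | rfl | rfl | rfl
    · exact absurd rfl hc.1
    · exact absurd rfl hc.2
    · have h1 : S.dg {h, i}ᶜ c ≤ 1 := by
        unfold Sys.dg
        rw [← Finset.card_singleton k]
        apply Finset.card_le_card
        intro z hz
        rw [Finset.mem_filter, Finset.mem_compl, Finset.mem_insert, Finset.mem_singleton, not_or] at hz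
        rw [Finset.mem_singleton]
        rcases five_all hF z with rfl | rfl | rfl | rfl | rfl
        · exact absurd rfl hz.1.1
        · exact absurd rfl hz.1.2
        · have := hz.2
          rw [S.irr] at this
          exact absurd this (by decide)
        · rfl
        · have := hz.2
          rw [gjl] at this
          exact absurd this (by decide)
      have h2 := hz2 c hxj hyj cj
      omega
    · have h1 : S.dg {h, i}ᶜ c ≤ 1 := by
        unfold Sys.dg
        rw [← Finset.card_singleton j]
        apply Finset.card_le_card
        intro z hz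
        rw [Finset.mem_filter, Finset.mem_compl, Finset.mem_insert, Finset.mem_singleton, not_or] at hz
        rw [Finset.mem_singleton]
        rcases five_all hF z with rfl | rfl | rfl | rfl | rfl
        · exact absurd rfl hz.1.1
        · exact absurd rfl hz.1.2
        · rfl
        · have := hz.2
          rw [S.irr] at this
          exact absurd this (by decide)
        · have := hz.2
          rw [gkl] at this
          exact absurd this (by decide)
      have h2 := hz2 c hxk hyk ck
      omega
    · have h1 : S.dg {h, i}ᶜ c = 0 := by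
        unfold Sys.dg
        rw [Finset.card_eq_zero, Finset.filter_eq_empty_iff]
        intro z hz
        rw [Finset.mem_compl, Finset.mem_insert, Finset.mem_singleton, not_or] at hz
        rcases five_all hF z with rfl | rfl | rfl | rfl | rfl
        · exact absurd rfl hz.1
        · exact absurd rfl hz.2
        · rw [glj]
          decide
        · rw [glk]
          decide
        · rw [S.irr]
          decide
      have h2 : (S.N c \ (S.N h \ {x, y})ᶜ).card ≤ 3 := by
        have h3 : S.N c \ (S.N h \ {x, y})ᶜ ⊆ S.N h \ {x, y} := by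
          intro v hv
          rw [Finset.mem_sdiff, Finset.mem_compl, not_not] at hv
          exact hv.2
        have h4 : (S.N h \ {x, y}).card = 3 := by
          rw [Finset.card_sdiff_of_subset, ch, hpair]
          intro v hv
          rw [Finset.mem_insert, Finset.mem_singleton] at hv
          rcases hv with rfl | rfl
          · exact hj hxj
          · exact hj hyj
        rw [← h4]
        exact Finset.card_le_card h3
      omega
  · intro w _
    rw [hlm]
    have h1 : S.tr {h, i} w ≤ 2 := by
      unfold Sys.tr
      exact le_trans (Finset.card_filter_le _ _) Finset.card_le_two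
    omega
  · intro w _
    rw [hlm]
    have h1 : S.tr {h, i}ᶜ w ≤ 3 := by
      unfold Sys.tr
      refine le_trans (Finset.card_filter_le _ _) ?_
      rw [Finset.card_compl, Finset.card_pair a1, Fintype.card_fin]
    omega

end Pool.Agent.Lib.MP270b6b.F4
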