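import Pool.Agent.Lib.MP_270b6b_co.F4.Spec

/-!
# MP_270b6b_co, hive nf: module TH0

Three pairwise nonadjacent zero centres, no leaf edges.
-/

set_option autoImplicit false

namespace Pool.Agent.Lib.MP270b6b.F4

open Finset

namespace TH0M

variable {W : Type} [Fintype W] [DecidableEq W]

theorem cover5 {h g i j k : Fin 5} (hF : Five h g i j k) (a : Fin 5) :
    a = i ∨ a = j ∨ a = k ∨ a = h ∨ a = g := by
  obtain ⟨h1, h2, h3, h4, h5, h6, h7, h8, h9, h10⟩ := hF
  have hc : ({h, g, i, j, k} : Finset (Fin 5)).card = 5 := by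
    rw [card_insert_of_notMem, card_insert_of_notMem, card_insert_of_notMem,
      card_insert_of_notMem, card_singleton]
    · simpa using h10
    · simp only [mem_insert, mem_singleton, not_or]
      exact ⟨h8, h9⟩
    · simp only [mem_insert, mem_singleton, not_or]
      exact ⟨h5, h6, h7⟩
    · simp only [mem_insert, mem_singleton, not_or]
      exact ⟨h1, h2, h3, h4⟩
  have hu : ({h, g, i, j, k} : Finset (Fin 5)) = univ := by
    apply eq_univ_of_card
    rw [hc]
    rfl
  have ha : a ∈ ({h, g, i, j, k} : Finset (Fin 5)) := by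
    rw [hu]
    exact mem_univ a
  simp only [mem_insert, mem_singleton] at ha
  tauto

theorem core (S : Sys (Fin 5) W) (h g i j k : Fin 5) (w w' w'' : W)
    (hcov : ∀ a, a = i ∨ a = j ∨ a = k ∨ a = h ∨ a = g)
    (hi : (S.N i).card = 4) (hj : (S.N j).card = 4) (hk : (S.N k).card = 4)
    (hij : S.Γ i j = false) (hik : S.Γ i k = false) (hjk : S.Γ j k = false) (hL : S.L = ∅)
    (hw : w ∈ S.N i) (hw' : w' ∈ S.N j) (hw'' : w'' ∈ S.N k) (hwh : w ∉ S.N h)
    (hwg : w ∉ S.N g) : S.Good := by
  have hji : S.Γ j i = false := by rw [S.sym]; exact hij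
  have hki : S.Γ k i = false := by rw [S.sym]; exact hik
  have hkj : S.Γ k j = false := by rw [S.sym]; exact hjk
  have hlm : ∀ (X : Finset W) (v : W), lm S.L X v = 0 := by
    intro X v
    unfold lm
    rw [hL]
    simp
  have hleaf : ∀ a u, (S.N a).card = 4 → u ∈ S.N a → u ∈ ({w, w', w''} : Finset W) →
      (S.N a ∩ ({w, w', w''} : Finset W)ᶜ).card ≤ 3 := by
    intro a u ha hu hu'
    have hsub : S.N a ∩ ({w, w', w''} : Finset W)ᶜ ⊆ (S.N a).erase u := by
      intro v hv
      rw [mem_inter, mem_compl] at hv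
      refine mem_erase.2 ⟨?_, hv.1⟩
      rintro rfl
      exact hv.2 hu'
    have := card_le_card hsub
    rw [card_erase_of_mem hu, ha] at this
    exact this
  have hind : ∀ a, (a = i ∨ a = j ∨ a = k) → S.dg {i, j, k} a = 0 := by
    intro a ha
    unfold Sys.dg
    rw [card_eq_zero, filter_eq_empty_iff]
    intro x hx
    simp only [mem_insert, mem_singleton] at hx
    rw [Bool.not_eq_true]
    rcases ha with rfl | rfl | rfl <;> rcases hx with rfl | rfl | rfl <;>
      first | exact S.irr _ | assumption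
  have hPc : ∀ x, x ∉ ({i, j, k} : Finset (Fin 5)) → x = h ∨ x = g := by
    intro x hx
    simp only [mem_insert, mem_singleton, not_or] at hx
    rcases hcov x with h1 | h1 | h1 | h1 | h1
    · exact absurd h1 hx.1
    · exact absurd h1 hx.2.1
    · exact absurd h1 hx.2.2
    · exact Or.inl h1
    · exact Or.inr h1
  have hdg : ∀ a, (a = h ∨ a = g) → S.dg ({i, j, k} : Finset (Fin 5))ᶜ a ≤ 1 := by
    intro a ha
    unfold Sys.dg
    have hsub : ((({i, j, k} : Finset (Fin 5))ᶜ).filter (fun x => S.Γ a x = true)) ⊆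
        {if a = h then g else h} := by
      intro x hx
      rw [mem_filter, mem_compl] at hx
      rw [mem_singleton]
      have hxa : x ≠ a := by
        rintro rfl
        rw [S.irr] at hx
        exact absurd hx.2 (by decide)
      rcases hPc x hx.1 with h1 | h1
      · have h2 : a ≠ h := fun h3 => hxa (h1.trans h3.symm)
        rw [if_neg h2]
        exact h1
      · by_cases h2 : a = h
        · rw [if_pos h2]
          exact h1
        · have h3 : a = g := ha.resolve_left h2
          exact absurd (h1.trans h3.symm) hxa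
    exact (card_le_card hsub).trans (le_of_eq (card_singleton _))
  have hN : ∀ a, w ∉ S.N a → (S.N a \ ({w, w', w''} : Finset W)ᶜ).card ≤ 2 := by
    intro a ha
    have hsub : S.N a \ ({w, w', w''} : Finset W)ᶜ ⊆ {w', w''} := by
      intro v hv
      rw [mem_sdiff, mem_compl, not_not] at hv
      have h1 := hv.2
      rw [mem_insert] at h1
      rcases h1 with rfl | h1
      · exact absurd hv.1 ha
      · exact h1
    exact (card_le_card hsub).trans card_le_two
  refine ⟨{i, j, k}, ({w, w', w''} : Finset W)ᶜ, ?_, ?_, ?_, ?_⟩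
  · intro a ha
    simp only [mem_insert, mem_singleton] at ha
    rw [hind a ha, zero_add]
    rcases ha with rfl | rfl | rfl
    · exact hleaf _ w hi hw (by simp)
    · exact hleaf _ w' hj hw' (by simp)
    · exact hleaf _ w'' hk hw'' (by simp)
  · intro a ha
    have h1 := hPc a ha
    have h2 := hdg a h1
    have h3 : (S.N a \ ({w, w', w''} : Finset W)ᶜ).card ≤ 2 := by
      apply hN
      rcases h1 with rfl | rfl
      · exact hwh
      · exact hwg
    omega
  · intro v _
    rw [hlm, add_zero]
    unfold Sys.tr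
    exact (card_filter_le _ _).trans card_le_three
  · intro v _
    rw [hlm, add_zero]
    unfold Sys.tr
    refine (card_filter_le _ _).trans ?_
    have hsub : (({i, j, k} : Finset (Fin 5))ᶜ) ⊆ {h, g} := by
      intro x hx
      rw [mem_compl] at hx
      simp only [mem_insert, mem_singleton]
      exact hPc x hx
    have := (card_le_card hsub).trans (card_le_two (a := h) (b := g))
    omega

end TH0M

open TH0M in
theorem specTH0 (hAC2 : SpecAC2) : SpecTH0 := by
  intro W _ _ S h g i j k hF hi hj hk he hc hL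
  have hcov := cover5 hF
  obtain ⟨h1, h2, h3, h4, h5, h6, h7, h8, h9, h10⟩ := hF
  have hb : ∀ a b, S.e a b = 0 → S.Γ a b = false := by
    intro a b hab
    unfold Sys.e at hab
    rcases hΓ : S.Γ a b with _ | _
    · rfl
    · rw [hΓ] at hab
      exact absurd hab (by decide)
  have hij : S.Γ i j = false := hb _ _ (by omega)
  have hik : S.Γ i k = false := hb _ _ (by omega)
  have hjk : S.Γ j k = false := hb _ _ (by omega)
  have hji : S.Γ j i = false := by rw [S.sym]; exact hij
  have hki : S.Γ k i = false := by rw [S.sym]; exact hik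
  have hkj : S.Γ k j = false := by rw [S.sym]; exact hjk
  have hL2 : S.L.card ≤ 2 := by
    rw [hL]
    simp
  by_cases d1 : ∃ v, v ∈ S.N i ∧ v ∈ S.N j
  · obtain ⟨v, hv1, hv2⟩ := d1
    exact hAC2 W S i j v h8 hij hi hj hv1 hv2 hL2
  by_cases d2 : ∃ v, v ∈ S.N i ∧ v ∈ S.N k
  · obtain ⟨v, hv1, hv2⟩ := d2
    exact hAC2 W S i k v h9 hik hi hk hv1 hv2 hL2
  by_cases d3 : ∃ v, v ∈ S.N j ∧ v ∈ S.N k
  · obtain ⟨v, hv1, hv2⟩ := d3
    exact hAC2 W S j k v h10 hjk hj hk hv1 hv2 hL2
  have e1 : Disjoint (S.N i) (S.N j) :=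
    disjoint_left.2 fun v hv1 hv2 => d1 ⟨v, hv1, hv2⟩
  have e2 : Disjoint (S.N i ∪ S.N j) (S.N k) := by
    rw [disjoint_left]
    intro v hv1 hv2
    rcases mem_union.1 hv1 with hv | hv
    · exact d2 ⟨v, hv, hv2⟩
    · exact d3 ⟨v, hv, hv2⟩
  have hcard : (S.N i ∪ S.N j ∪ S.N k).card = 12 := by
    rw [card_union_of_disjoint e2, card_union_of_disjoint e1, hi, hj, hk]
  have hcard2 : (S.N h ∪ S.N g).card ≤ 11 := (card_union_le _ _).trans hc
  obtain ⟨w, hw1, hw2⟩ := exists_mem_notMem_of_card_lt_card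
    (by omega : (S.N h ∪ S.N g).card < (S.N i ∪ S.N j ∪ S.N k).card)
  rw [mem_union, not_or] at hw2
  have hne : ∀ a, (S.N a).card = 4 → ∃ v, v ∈ S.N a := by
    intro a ha
    exact card_pos.1 (by omega)
  obtain ⟨vi, hvi⟩ := hne i hi
  obtain ⟨vj, hvj⟩ := hne j hj
  obtain ⟨vk, hvk⟩ := hne k hk
  rcases mem_union.1 hw1 with hw | hw
  · rcases mem_union.1 hw with hw | hw
    · exact core S h g i j k w vj vk hcov hi hj hk hij hik hjk hL hw hvj hvk hw2.1 hw2.2
    · refine core S h g j i k w vi vk (fun a => ?_) hj hi hk hji hjk hik hL hw hvi hvk hw2.1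
        hw2.2
      have := hcov a
      tauto
  · refine core S h g k i j w vi vj (fun a => ?_) hk hi hj hki hkj hij hL hw hvi hvj hw2.1 hw2.2
    have := hcov a
    tauto

end Pool.Agent.Lib.MP270b6b.F4
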