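import Pool.Agent.Lib.MP_270b6b_co.F4.Spec
import Pool.Agent.Lib.MP_270b6b_co.F4.Base

/-!
# MP_270b6b_co, module TH1: two zero hubs, at most one edge among the other centres
-/

set_option autoImplicit false

namespace Pool.Agent.Lib.MP270b6b.F4

open Finset

theorem specTH1 (hSUB : SpecSUB) (hSPL : SpecSPL) : SpecTH1 := by
  intro W _ _ S h g i j k hF hh hg he hL
  have hlm : ∀ (X : Finset W) v, lm S.L X v ≤ 2 := fun X v => (Base.lm_le_card S.L X v).trans hL
  by_cases hsub : S.N h ⊆ S.N g
  swap
  · rw [not_subset] at hsub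
    obtain ⟨w, hw, hw'⟩ := hsub
    have hF' : Five g h i j k := by
      obtain ⟨h1, h2, h3, h4, h5, h6, h7, h8, h9, h10⟩ := hF
      exact ⟨Ne.symm h1, h5, h6, h7, h2, h3, h4, h8, h9, h10⟩
    exact hSUB W S g h i j k w hF' hh he (hlm univ) hw hw'
  have hEq : S.N h = S.N g := eq_of_subset_of_card_le hsub (by rw [hh, hg])
  obtain ⟨p, q, r, t, hH, hpq, hpr, hpt, hqr, hqt, hrt, hnrt, lp, lq⟩ :=
    hSPL W S.L (S.N h) S.nd hh (by omega) (fun v _ => hlm univ v)
  have hc2 : ({h, g}ᶜ : Finset (Fin 5)) = {i, j, k} := Base.five_compl2 h g i j k hF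
  have hgh : h ≠ g := hF.1
  have hij : i ≠ j := hF.2.2.2.2.2.2.2.1
  have hik : i ≠ k := hF.2.2.2.2.2.2.2.2.1
  have hjk : j ≠ k := hF.2.2.2.2.2.2.2.2.2
  refine ⟨{h, g}, {r, t}ᶜ, ?_, ?_, ?_, ?_⟩
  · intro x hx
    rw [mem_insert, mem_singleton] at hx
    have hNx : S.N x = {p, q, r, t} := by
      rcases hx with rfl | rfl
      · exact hH
      · rw [← hEq]; exact hH
    have h1 : S.dg {h, g} x ≤ 1 := by
      refine (Base.dg_le_erase S _ x).trans ?_
      rw [card_erase_of_mem (by rw [mem_insert, mem_singleton]; exact hx), card_pair hgh]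
    have h2 : (S.N x ∩ {r, t}ᶜ).card ≤ 2 := by
      have h3 : S.N x ∩ {r, t}ᶜ ⊆ {p, q} := by
        intro y hy
        rw [hNx] at hy
        simp only [mem_inter, mem_insert, mem_singleton, mem_compl] at hy ⊢
        tauto
      exact (card_le_card h3).trans card_le_two
    omega
  · intro x hx
    have h1 : (S.N x \ {r, t}ᶜ).card ≤ 2 := by
      have h3 : S.N x \ {r, t}ᶜ ⊆ {r, t} := by
        intro y hy
        simp only [mem_sdiff, mem_insert, mem_singleton, mem_compl] at hy ⊢
        tauto
      exact (card_le_card h3).trans card_le_two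
    have h2 : S.dg {h, g}ᶜ x ≤ 1 := by
      rw [← mem_compl, hc2] at hx
      rw [hc2, Base.dg_triple S x hij hik hjk]
      simp only [mem_insert, mem_singleton] at hx
      have e1 := Base.e_comm S i j
      have e2 := Base.e_comm S i k
      have e3 := Base.e_comm S j k
      rcases hx with rfl | rfl | rfl
      · have e0 := Base.e_self S x
        omega
      · have e0 := Base.e_self S x
        omega
      · have e0 := Base.e_self S x
        omega
    omega
  · intro w hw
    have h2 : S.tr {h, g} w ≤ 2 := (Base.tr_le S _ w).trans card_le_two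
    by_cases hwH : w ∈ S.N h
    · have h3 := hwH
      rw [hH] at h3
      simp only [mem_insert, mem_singleton, mem_compl] at h3 hw
      rcases h3 with rfl | rfl | rfl | rfl
      · omega
      · omega
      · exact absurd (Or.inl rfl) hw
      · exact absurd (Or.inr rfl) hw
    · have h3 : S.tr {h, g} w = 0 := by
        unfold Sys.tr
        rw [card_eq_zero, filter_eq_empty_iff]
        intro x hx
        rw [mem_insert, mem_singleton] at hx
        rcases hx with rfl | rfl
        · exact hwH
        · rw [← hEq]; exact hwH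
      have h4 := hlm {r, t}ᶜ w
      omega
  · intro w hw
    have h2 : S.tr {h, g}ᶜ w ≤ 3 := by
      refine (Base.tr_le S _ w).trans ?_
      rw [hc2]
      exact card_le_three
    have h3 : lm S.L {r, t}ᶜᶜ w = 0 := by
      rw [compl_compl]
      unfold lm
      rw [card_eq_zero, filter_eq_empty_iff]
      intro y hy
      rw [notMem_compl] at hw
      rw [mem_insert, mem_singleton] at hy hw
      rcases hw with rfl | rfl <;> rcases hy with rfl | rfl
      · exact S.nd _
      · exact hnrt
      · rw [Sym2.eq_swap]; exact hnrt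
      · exact S.nd _
    omega

end Pool.Agent.Lib.MP270b6b.F4
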