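import Pool.Agent.Lib.MP_270b6b_co.F4.Spec

/-!
# MP_270b6b_co, F4: module TRN
-/

set_option autoImplicit false

namespace Pool.Agent.Lib.MP270b6b.F4

open Finset

namespace TRNM

open Classical in
theorem nb_split {V : Type} [Fintype V] [DecidableEq V] (G : SimpleGraph V) {K W : Type}
    (x : K → V) (y : W → V) (hx : Function.Injective x) (hy : Function.Injective y)
    (hxy : ∀ i w, x i ≠ y w) (P : Finset K) (X : Finset W) (v : V) :
    nb G (P.image x ∪ X.image y) v =
      (P.filter (fun i => G.Adj v (x i))).card + (X.filter (fun w => G.Adj v (y w))).card := by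
  have h1 : ((P.image x ∪ X.image y).filter (fun u => G.Adj v u)) =
      (P.filter (fun i => G.Adj v (x i))).image x ∪ (X.filter (fun w => G.Adj v (y w))).image y := by
    ext u
    simp only [mem_filter, mem_union, mem_image]
    constructor
    · rintro ⟨⟨i, hi, rfl⟩ | ⟨w, hw, rfl⟩, h⟩
      · exact Or.inl ⟨i, ⟨hi, h⟩, rfl⟩
      · exact Or.inr ⟨w, ⟨hw, h⟩, rfl⟩
    · rintro (⟨i, ⟨hi, h⟩, rfl⟩ | ⟨w, ⟨hw, h⟩, rfl⟩)
      · exact ⟨Or.inl ⟨i, hi, rfl⟩, h⟩
      · exact ⟨Or.inr ⟨w, hw, rfl⟩, h⟩
  have h2 : nb G (P.image x ∪ X.image y) v =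
      ((P.image x ∪ X.image y).filter (fun u => G.Adj v u)).card := rfl
  rw [h2, h1, card_union_of_disjoint, card_image_of_injective _ hx, card_image_of_injective _ hy]
  rw [disjoint_left]
  intro u hu hu'
  obtain ⟨i, -, hi⟩ := mem_image.1 hu
  obtain ⟨w, -, hw⟩ := mem_image.1 hu'
  exact hxy i w (hi.trans hw.symm)

end TRNM

open Classical in
theorem specTRN : SpecTRN := by
  intro V _ _ G C k hk
  let W := {v : V // v ∉ C}
  let e : {v // v ∈ C} ≃ Fin k := C.equivFinOfCardEq hk
  let x : Fin k → V := fun i => (e.symm i).1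
  have hx : Function.Injective x := fun i j h => e.symm.injective (Subtype.ext h)
  have hxC : ∀ i, x i ∈ C := fun i => (e.symm i).2
  have hmem : ∀ v, v ∈ C ↔ ∃ i, x i = v := by
    intro v
    constructor
    · intro hv
      exact ⟨e ⟨v, hv⟩, by simp [x]⟩
    · rintro ⟨i, rfl⟩
      exact hxC i
  let y : W → V := fun w => w.1
  have hy : Function.Injective y := Subtype.val_injective
  have hxy : ∀ i w, x i ≠ y w := by
    intro i w h
    have h1 := hxC i
    rw [h] at h1
    exact w.2 h1
  let H : SimpleGraph W := G.comap y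
  have hsplit : ∀ (P : Finset (Fin k)) (X : Finset W) (v : V),
      nb G (P.image x ∪ X.image y) v =
        (P.filter (fun i => G.Adj v (x i))).card + (X.filter (fun w => G.Adj v (y w))).card :=
    fun P X v => TRNM.nb_split G x y hx hy hxy P X v
  have hCe : C = (univ : Finset (Fin k)).image x ∪ (∅ : Finset W).image y := by
    ext v
    simp only [mem_union, mem_image, mem_univ, true_and, notMem_empty, false_and, exists_false,
      or_false]
    exact hmem v
  have hCc : Cᶜ = (∅ : Finset (Fin k)).image x ∪ (univ : Finset W).image y := by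
    ext v
    simp only [mem_union, mem_image, mem_univ, true_and, notMem_empty, false_and, exists_false,
      false_or, mem_compl]
    constructor
    · intro hv
      exact ⟨⟨v, hv⟩, rfl⟩
    · rintro ⟨w, rfl⟩
      exact w.2
  have hnbC : ∀ v, nb G C v = ((univ : Finset (Fin k)).filter (fun i => G.Adj v (x i))).card := by
    intro v
    have h1 := hsplit univ ∅ v
    rw [← hCe] at h1
    simpa using h1
  have hnbCc : ∀ v, nb G Cᶜ v = ((univ : Finset W).filter (fun w => G.Adj v (y w))).card := by
    intro v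
    have h1 := hsplit ∅ univ v
    rw [← hCc] at h1
    simpa using h1
  let S : Sys (Fin k) W :=
    { Γ := fun i j => decide (G.Adj (x i) (x j))
      sym := fun i j => by simp [G.adj_comm]
      irr := fun i => by simp
      N := fun i => univ.filter (fun w : W => G.Adj (x i) (y w))
      L := H.edgeFinset
      nd := fun v => by simp }
  have hN : ∀ i (w : W), w ∈ S.N i ↔ G.Adj (x i) (y w) := fun i w => by simp [S]
  have hL : ∀ w u : W, s(w, u) ∈ S.L ↔ G.Adj (y w) (y u) := fun w u => by simp [S, H]
  have hG : ∀ i j, S.Γ i j = true ↔ G.Adj (x i) (x j) := fun i j => by simp [S]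
  have hdg : ∀ (P : Finset (Fin k)) i, S.dg P i = (P.filter (fun j => G.Adj (x i) (x j))).card := by
    intro P i
    unfold Sys.dg
    congr 1
    exact filter_congr (fun j _ => hG i j)
  have htr : ∀ (P : Finset (Fin k)) (w : W),
      S.tr P w = (P.filter (fun j => G.Adj (y w) (x j))).card := by
    intro P w
    unfold Sys.tr
    congr 1
    exact filter_congr (fun j _ => (hN j w).trans (G.adj_comm _ _))
  have hlm : ∀ (X : Finset W) (w : W), lm S.L X w = (X.filter (fun u => G.Adj (y w) (y u))).card := by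
    intro X w
    unfold lm
    congr 1
    exact filter_congr (fun u _ => hL w u)
  have hNX : ∀ (X : Finset W) i, (S.N i ∩ X).card = (X.filter (fun u => G.Adj (x i) (y u))).card := by
    intro X i
    congr 1
    ext w
    rw [mem_inter, hN, mem_filter]
    exact and_comm
  refine ⟨S, x, hx, hmem, hG, hN, fun i => (hdg univ i).trans (hnbC _).symm, ?_,
    fun w => (htr univ w).trans (hnbC _).symm, fun w => (hlm univ w).trans (hnbCc _).symm, ?_, ?_⟩
  · intro i
    have := hNX univ i
    rw [inter_univ] at this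
    exact this.trans (hnbCc _).symm
  · have h1 : ∑ v ∈ Cᶜ, nb G Cᶜ v = ∑ w : W, lm S.L univ w := by
      have h2 : Cᶜ = (univ : Finset W).image y := by
        rw [hCc]; simp
      rw [h2, sum_image (fun a _ b _ h => hy h), ← h2]
      exact sum_congr rfl (fun w _ => ((hlm univ w).trans (hnbCc _).symm).symm)
    have h3 : ∀ w : W, lm S.L univ w = H.degree w := by
      intro w
      rw [hlm]
      unfold SimpleGraph.degree
      congr 1
      ext u
      simp [H]
    rw [h1, sum_congr rfl (fun w _ => h3 w), H.sum_degrees_eq_twice_card_edges]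
  · rintro ⟨P, X, g1, g2, g3, g4⟩
    have hAc : (P.image x ∪ X.image y)ᶜ = Pᶜ.image x ∪ Xᶜ.image y := by
      ext v
      simp only [mem_compl, mem_union, mem_image, not_or, not_exists, not_and]
      constructor
      · rintro ⟨h1, h2⟩
        by_cases hv : v ∈ C
        · obtain ⟨i, hi⟩ := (hmem v).1 hv
          exact Or.inl ⟨i, fun hP => h1 i hP hi, hi⟩
        · exact Or.inr ⟨⟨v, hv⟩, fun hX => h2 ⟨v, hv⟩ hX rfl, rfl⟩
      · rintro (⟨i, hi, rfl⟩ | ⟨w, hw, rfl⟩)
        · exact ⟨fun j hj h => hi (hx h ▸ hj), fun u _ h => hxy i u h.symm⟩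
        · exact ⟨fun j _ h => hxy j w h, fun u hu h => hw (hy h ▸ hu)⟩
    refine ⟨P.image x ∪ X.image y, ?_, ?_⟩
    · intro v hv
      rw [hsplit]
      rcases mem_union.1 hv with h | h
      · obtain ⟨i, hi, rfl⟩ := mem_image.1 h
        have := g1 i hi
        rwa [hdg, hNX] at this
      · obtain ⟨w, hw, rfl⟩ := mem_image.1 h
        have := g3 w hw
        rwa [htr, hlm] at this
    · intro v hv
      rw [← mem_compl, hAc] at hv
      rw [hAc, hsplit]
      rcases mem_union.1 hv with h | h
      · obtain ⟨i, hi, rfl⟩ := mem_image.1 h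
        have := g2 i (mem_compl.1 hi)
        rwa [hdg, sdiff_eq_inter_compl, hNX] at this
      · obtain ⟨w, hw, rfl⟩ := mem_image.1 h
        have := g4 w (mem_compl.1 hw)
        rwa [htr, hlm] at this

end Pool.Agent.Lib.MP270b6b.F4
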