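import Pool.Agent.Lib.MP_270b6b_co.F4.Spec

/-! Module X4 of `F4/Spec.lean`: six centres, a centre adjacent to all others but one. -/

set_option autoImplicit false

namespace Pool.Agent.Lib.MP270b6b.F4

open Finset

namespace X4M

theorem univ6 {h s a b c d : Fin 6} (x : Six h s a b c d) :
    (univ : Finset (Fin 6)) = {h, s, a, b, c, d} := by
  obtain ⟨hs, ha, hb, hc, hd, sa, sb, sc, sd, ab, ac, ad, bc, bd, cd⟩ := x
  refine (Finset.eq_univ_of_card _ ?_).symm
  rw [Finset.card_insert_of_notMem (by simp [hs, ha, hb, hc, hd]),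
    Finset.card_insert_of_notMem (by simp [sa, sb, sc, sd]),
    Finset.card_insert_of_notMem (by simp [ab, ac, ad]), Finset.card_insert_of_notMem (by simp [bc, bd]),
    Finset.card_insert_of_notMem (by simp [cd]), Finset.card_singleton, Fintype.card_fin]

theorem sum6 {h s a b c d : Fin 6} (x : Six h s a b c d) (f : Fin 6 → ℕ) :
    ∑ i, f i = f h + f s + f a + f b + f c + f d := by
  rw [univ6 x]
  obtain ⟨hs, ha, hb, hc, hd, sa, sb, sc, sd, ab, ac, ad, bc, bd, cd⟩ := x
  rw [Finset.sum_insert (by simp [hs, ha, hb, hc, hd]), Finset.sum_insert (by simp [sa, sb, sc, sd]),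
    Finset.sum_insert (by simp [ab, ac, ad]), Finset.sum_insert (by simp [bc, bd]),
    Finset.sum_insert (by simp [cd]), Finset.sum_singleton]
  ring

theorem sum5 {h s a b c d : Fin 6} (x : Six h s a b c d) (f : Fin 6 → ℕ) :
    ∑ i ∈ univ.erase h, f i = f s + f a + f b + f c + f d := by
  have h1 := Finset.add_sum_erase univ f (Finset.mem_univ h)
  have h2 := sum6 x f
  omega

theorem cas6 {h s a b c d : Fin 6} (x : Six h s a b c d) (i : Fin 6) :
    i = h ∨ i = s ∨ i = a ∨ i = b ∨ i = c ∨ i = d := by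
  have h1 := Finset.mem_univ i
  rw [univ6 x] at h1
  simpa using h1

/-- the elements different from `h` and `s` -/
def oth (h s : Fin 6) (k : ℕ) : Fin 6 :=
  (([0, 1, 2, 3, 4, 5] : List (Fin 6)).filter (fun x => decide (x ≠ h) && decide (x ≠ s))).getD k 0

theorem six_ex : ∀ h s : Fin 6, h ≠ s → Six h s (oth h s 0) (oth h s 1) (oth h s 2) (oth h s 3) := by
  unfold Six
  decide

section
variable {W : Type} [Fintype W] [DecidableEq W]

theorem dg_eq (S : Sys (Fin 6) W) (P : Finset (Fin 6)) (i : Fin 6) : S.dg P i = ∑ j ∈ P, S.e i j := by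
  unfold Sys.dg Sys.e
  rw [Finset.card_filter]
  exact Finset.sum_congr rfl (fun j _ => by cases S.Γ i j <;> rfl)

theorem e_sym (S : Sys (Fin 6) W) (i j : Fin 6) : S.e i j = S.e j i := by
  unfold Sys.e
  rw [S.sym]

theorem e_irr (S : Sys (Fin 6) W) (i : Fin 6) : S.e i i = 0 := by
  unfold Sys.e
  rw [S.irr]
  rfl

theorem e_one (S : Sys (Fin 6) W) {i j : Fin 6} (h : S.Γ i j = true) : S.e i j = 1 := by
  unfold Sys.e
  rw [h]
  rfl

theorem e_zero (S : Sys (Fin 6) W) {i j : Fin 6} (h : S.Γ i j = false) : S.e i j = 0 := by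
  unfold Sys.e
  rw [h]
  rfl

theorem of_e_zero (S : Sys (Fin 6) W) {i j : Fin 6} (h : S.e i j = 0) : S.Γ i j = false := by
  unfold Sys.e at h
  cases h1 : S.Γ i j
  · rfl
  · rw [h1] at h
    exact absurd h (by decide)

theorem star (S : Sys (Fin 6) W) {h s a b c d : Fin 6} (x : Six h s a b c d)
    (hs : S.Γ h s = false) (hh : ∀ x, x ≠ h → x ≠ s → S.Γ h x = true)
    (tot : (∑ i, S.dg univ i) + 2 * ((∑ i, (S.N i).card) + S.L.card) ≤ 58) :
    S.e s a + S.e s b + S.e s c + S.e s d + S.e a b + S.e a c + S.e a d + S.e b c + S.e b d + S.e c d +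
      ((S.N h).card + (S.N s).card + (S.N a).card + (S.N b).card + (S.N c).card + (S.N d).card) +
      S.L.card ≤ 25 := by
  have x' := x
  obtain ⟨_, ha, hb, hc, hd, sa, sb, sc, sd, _, _, _, _, _, _⟩ := x'
  have i0 := e_zero S hs
  have i1 := e_one S (hh a ha.symm sa.symm)
  have i2 := e_one S (hh b hb.symm sb.symm)
  have i3 := e_one S (hh c hc.symm sc.symm)
  have i4 := e_one S (hh d hd.symm sd.symm)
  have h1 := sum6 x (fun i => (S.N i).card)
  have h2 := sum6 x (fun i => S.dg univ i)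
  simp only [dg_eq, sum6 x, e_irr] at h2
  have j1 := e_sym S h s
  have j2 := e_sym S h a
  have j3 := e_sym S h b
  have j4 := e_sym S h c
  have j5 := e_sym S h d
  have k1 := e_sym S s a
  have k2 := e_sym S s b
  have k3 := e_sym S s c
  have k4 := e_sym S s d
  have l1 := e_sym S a b
  have l2 := e_sym S a c
  have l3 := e_sym S a d
  have m1 := e_sym S b c
  have m2 := e_sym S b d
  have m3 := e_sym S c d
  simp only [dg_eq] at tot
  rw [sum6 x (fun i => ∑ j, S.e i j)] at tot
  simp only [sum6 x, e_irr] at tot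
  omega

theorem msum (S : Sys (Fin 6) W) {h s a b c d : Fin 6} (x : Six h s a b c d) (H : Finset W)
    (hH : H.card = 4) (hw : ∀ w ∈ H, 4 ≤ S.tr (univ.erase h) w) :
    (H \ S.N s).card + (H \ S.N a).card + (H \ S.N b).card + (H \ S.N c).card + (H \ S.N d).card ≤ 4 := by
  rw [← sum5 x (fun i => (H \ S.N i).card)]
  have e1 : ∀ i, (H \ S.N i).card = ∑ w ∈ H, if w ∉ S.N i then 1 else 0 := fun i => by
    rw [Finset.sdiff_eq_filter, Finset.card_filter]
  simp only [e1]
  rw [Finset.sum_comm, ← hH, Finset.card_eq_sum_ones]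
  refine Finset.sum_le_sum (fun w hw' => ?_)
  have h1 := hw w hw'
  unfold Sys.tr at h1
  have h2 := Finset.card_filter_add_card_filter_not (s := univ.erase h) (fun i => w ∈ S.N i)
  rw [Finset.card_erase_of_mem (Finset.mem_univ h), Finset.card_univ, Fintype.card_fin] at h2
  rw [← Finset.card_filter]
  omega

/-- the final step, for a suitable centre `a` -/
theorem core (hXA : SpecXA) (hXB : SpecXB) (hXC : SpecXC) (hXD : SpecXD) (S : Sys (Fin 6) W)
    {h s a b c d : Fin 6} (x : Six h s a b c d) (four : ∀ i, 4 ≤ (S.N i).card)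
    (hs : S.Γ h s = false) (hL : S.L = ∅) (H : Finset W) (hHN : H ⊆ S.N h) (hH : H.card = 4)
    (st : S.e s a + S.e s b + S.e s c + S.e s d + S.e a b + S.e a c + S.e a d + S.e b c + S.e b d + S.e c d +
      ((S.N h).card + (S.N s).card + (S.N a).card + (S.N b).card + (S.N c).card + (S.N d).card) ≤ 25)
    (ms : (H \ S.N s).card + (H \ S.N a).card + (H \ S.N b).card + (H \ S.N c).card + (H \ S.N d).card ≤ 4)
    (hsa : S.e s a = 0) (ha : (S.N a).card = 4) (hm : (H \ S.N a).card ≤ 2)
    (hm' : 2 ≤ (H \ S.N s).card → (H \ S.N a).card = 0) : S.Good := by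
  have hΓ := of_e_zero S hsa
  have fh := four h
  have fs := four s
  have fb := four b
  have fc := four c
  have fd := four d
  have sub : ∀ i, (H \ S.N i).card = 0 → H ⊆ S.N i := fun i hi => by
    rw [Finset.card_eq_zero, Finset.sdiff_eq_empty_iff_subset] at hi
    exact hi
  have dis : (H \ S.N s).card = 4 → Disjoint H (S.N s) := fun hi => by
    have h1 : H \ S.N s = H := Finset.eq_of_subset_of_card_le Finset.sdiff_subset (by omega)
    rw [← h1]
    exact Finset.sdiff_disjoint
  by_cases h5 : (S.N s).card = 4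
  · rcases Nat.lt_or_ge (H \ S.N s).card 2 with h1 | h1
    · exact hXA W S h s a b c d H x hs hΓ hL hHN hH h5 ha (by omega) hm (by omega)
    · have h2 := sub a (hm' h1)
      rcases Nat.lt_or_ge (H \ S.N s).card 4 with h3 | h3
      · exact hXB W S h s a b c d H x hs hΓ hL hHN hH h5 ha h1 (by omega) h2 (by omega)
      · refine hXC W S h s a b c d H x hs hΓ hL hHN hH (dis (by omega)) h2 (sub b (by omega)) (sub c (by omega))
          (sub d (by omega)) ha (by omega) ?_
        omega
  · have h6 : (S.N s).card = 5 := by omega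
    have h7 : H = S.N h := Finset.eq_of_subset_of_card_le hHN (by omega)
    subst h7
    rcases Nat.lt_or_ge (S.N h \ S.N s).card 4 with h3 | h3
    · exact hXD W S h s a b c d x hs hΓ hL (by omega) hH h6 ha (by omega) hm (fun h1 => sub a (hm' h1))
    · exact hXC W S h s a b c d (S.N h) x hs hΓ hL hHN hH (dis (by omega)) (sub a (hm' (by omega)))
        (sub b (by omega)) (sub c (by omega)) (sub d (by omega)) ha (by omega)
        (Or.inl ⟨by omega, by omega, by omega, by omega⟩)

end

theorem perm2 {h s a b c d : Fin 6} (x : Six h s a b c d) : Six h s b a c d := by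
  obtain ⟨hs, ha, hb, hc, hd, sa, sb, sc, sd, ab, ac, ad, bc, bd, cd⟩ := x
  exact ⟨hs, hb, ha, hc, hd, sb, sa, sc, sd, ab.symm, bc, bd, ac, ad, cd⟩

theorem perm3 {h s a b c d : Fin 6} (x : Six h s a b c d) : Six h s c b a d := by
  obtain ⟨hs, ha, hb, hc, hd, sa, sb, sc, sd, ab, ac, ad, bc, bd, cd⟩ := x
  exact ⟨hs, hc, hb, ha, hd, sc, sb, sa, sd, bc.symm, ac.symm, cd, ab.symm, bd, ad⟩

theorem perm4 {h s a b c d : Fin 6} (x : Six h s a b c d) : Six h s d b c a := by
  obtain ⟨hs, ha, hb, hc, hd, sa, sb, sc, sd, ab, ac, ad, bc, bd, cd⟩ := x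
  exact ⟨hs, hd, hb, hc, ha, sd, sb, sc, sa, bd.symm, cd.symm, ad.symm, bc, ab.symm, ac.symm⟩

end X4M

theorem specX4 (hXA : SpecXA) (hXB : SpecXB) (hXC : SpecXC) (hXD : SpecXD) (hXE : SpecXE) (hXS : SpecXS) :
    SpecX4 := by
  intro W _ _ S h s env hne hs hh tot
  obtain ⟨a, b, c, d, x⟩ : ∃ a b c d, Six h s a b c d := ⟨_, _, _, _, X4M.six_ex h s hne⟩
  have st := X4M.star S x hs hh tot
  have four := env.four
  have fh := four h
  have fs := four s
  have fa := four a
  have fb := four b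
  have fc := four c
  have fd := four d
  -- the inner degrees
  have k1 := X4M.e_sym S s a
  have k2 := X4M.e_sym S s b
  have k3 := X4M.e_sym S s c
  have k4 := X4M.e_sym S s d
  have l1 := X4M.e_sym S a b
  have l2 := X4M.e_sym S a c
  have l3 := X4M.e_sym S a d
  have m1 := X4M.e_sym S b c
  have m2 := X4M.e_sym S b d
  have m3 := X4M.e_sym S c d
  have n1 := X4M.e_irr S s
  have n2 := X4M.e_irr S a
  have n3 := X4M.e_irr S b
  have n4 := X4M.e_irr S c
  have n5 := X4M.e_irr S d
  by_cases hB : (S.N h).card ≤ ((S.N h).filter (fun w => S.tr (univ.erase h) w ≤ 3)).card + 3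
  · obtain ⟨Y, hYs, hYc⟩ := Finset.exists_subset_card_eq
      (show (S.N h).card - 3 ≤ ((S.N h).filter (fun w => S.tr (univ.erase h) w ≤ 3)).card by omega)
    refine hXS W S h Y (fun w hw => (Finset.mem_filter.1 (hYs hw)).1) (by omega) (by omega) (by omega) ?_
      (fun w hw => (Finset.mem_filter.1 (hYs hw)).2)
    intro z hz
    rw [X4M.dg_eq, X4M.sum5 x]
    rcases X4M.cas6 x z with h1 | h1 | h1 | h1 | h1 | h1
    · exact absurd h1 hz
    all_goals
      rw [h1]
      omega
  · have hc1 := Finset.card_filter_add_card_filter_not (s := S.N h) (fun w => S.tr (univ.erase h) w ≤ 3)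
    obtain ⟨H, hHs, hHc⟩ := Finset.exists_subset_card_eq
      (show 4 ≤ ((S.N h).filter (fun w => ¬ S.tr (univ.erase h) w ≤ 3)).card by omega)
    have hHN : H ⊆ S.N h := fun w hw => (Finset.mem_filter.1 (hHs hw)).1
    have hHt : ∀ w ∈ H, 4 ≤ S.tr (univ.erase h) w := fun w hw => by
      have h1 := (Finset.mem_filter.1 (hHs hw)).2
      omega
    by_cases hL : S.L.card = 1
    · have h7 : H = S.N h := Finset.eq_of_subset_of_card_le hHN (by omega)
      refine hXE W S h s hne hs ?_ ?_ hL (by rw [← h7]; exact hHt)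
      · intro y z hy hz
        refine X4M.of_e_zero S ?_
        rcases X4M.cas6 x y with h1 | h1 | h1 | h1 | h1 | h1
        · exact absurd h1 hy
        all_goals
          rcases X4M.cas6 x z with h2 | h2 | h2 | h2 | h2 | h2
          · exact absurd h2 hz
          all_goals
            rw [h1, h2]
            omega
      · intro y
        rcases X4M.cas6 x y with h1 | h1 | h1 | h1 | h1 | h1
        all_goals
          rw [h1]
          omega
    · have hL0 : S.L = ∅ := Finset.card_eq_zero.1 (by omega)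
      have ms := X4M.msum S x H hHc hHt
      have key : (S.e s a = 0 ∧ (S.N a).card = 4 ∧ (H \ S.N a).card ≤ 2 ∧ (2 ≤ (H \ S.N s).card → (H \ S.N a).card = 0)) ∨
          (S.e s b = 0 ∧ (S.N b).card = 4 ∧ (H \ S.N b).card ≤ 2 ∧ (2 ≤ (H \ S.N s).card → (H \ S.N b).card = 0)) ∨
          (S.e s c = 0 ∧ (S.N c).card = 4 ∧ (H \ S.N c).card ≤ 2 ∧ (2 ≤ (H \ S.N s).card → (H \ S.N c).card = 0)) ∨
          (S.e s d = 0 ∧ (S.N d).card = 4 ∧ (H \ S.N d).card ≤ 2 ∧ (2 ≤ (H \ S.N s).card → (H \ S.N d).card = 0)) := by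
        omega
      rcases key with ⟨p1, p2, p3, p4⟩ | ⟨p1, p2, p3, p4⟩ | ⟨p1, p2, p3, p4⟩ | ⟨p1, p2, p3, p4⟩
      · exact X4M.core hXA hXB hXC hXD S x four hs hL0 H hHN hHc (by omega) ms p1 p2 p3 p4
      · exact X4M.core hXA hXB hXC hXD S (X4M.perm2 x) four hs hL0 H hHN hHc (by omega) (by omega) p1 p2 p3 p4
      · exact X4M.core hXA hXB hXC hXD S (X4M.perm3 x) four hs hL0 H hHN hHc (by omega) (by omega) p1 p2 p3 p4
      · exact X4M.core hXA hXB hXC hXD S (X4M.perm4 x) four hs hL0 H hHN hHc (by omega) (by omega) p1 p2 p3 p4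

end Pool.Agent.Lib.MP270b6b.F4
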