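import Pool.Agent.Lib.MP_270b6b_co.F4.Spec

/-!
# MP_270b6b_co, module X6: six centres
-/

set_option autoImplicit false

namespace Pool.Agent.Lib.MP270b6b.F4

open Finset

theorem specX6 (hX4 : SpecX4) (hX5 : SpecX5) (hXS : SpecXS) : SpecX6 := by
  intro W _ _ S h hE h4 hsum
  have hsub : (univ.filter fun j => S.Γ h j = true) ⊆ univ.erase h := by
    intro x hx
    rw [mem_filter] at hx
    rw [mem_erase]
    refine ⟨?_, mem_univ _⟩
    rintro rfl
    rw [S.irr] at hx
    exact Bool.false_ne_true hx.2
  have hec : (univ.erase h : Finset (Fin 6)).card = 5 := by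
    rw [card_erase_of_mem (mem_univ _)]
    simp
  by_cases h5 : S.dg univ h = 4
  · -- exactly four neighbours
    have hd : ((univ.erase h) \ (univ.filter fun j => S.Γ h j = true)).card = 1 := by
      rw [card_sdiff_of_subset hsub, hec]
      unfold Sys.dg at h5
      omega
    obtain ⟨s, hs⟩ := card_eq_one.mp hd
    have hs1 : s ∈ (univ.erase h) \ (univ.filter fun j => S.Γ h j = true) := by
      rw [hs]
      exact mem_singleton_self s
    rw [mem_sdiff, mem_erase, mem_filter] at hs1
    have hsf : S.Γ h s = false := by
      by_contra hc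
      exact hs1.2 ⟨mem_univ _, by simpa using hc⟩
    refine hX4 W S h s hE (Ne.symm hs1.1.1) hsf ?_ hsum
    intro x hxh hxs
    by_contra hc
    have hx : x ∈ (univ.erase h) \ (univ.filter fun j => S.Γ h j = true) := by
      rw [mem_sdiff, mem_erase, mem_filter]
      exact ⟨⟨hxh, mem_univ _⟩, fun hx => hc hx.2⟩
    rw [hs, mem_singleton] at hx
    exact hxs hx
  · have hle : S.dg univ h ≤ 5 := by
      have := card_le_card hsub
      rw [hec] at this
      exact this
    have h55 : S.dg univ h = 5 := by omega
    have heq : (univ.filter fun j => S.Γ h j = true) = univ.erase h := by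
      apply eq_of_subset_of_card_le hsub
      rw [hec]
      exact h55.ge
    have hadj : ∀ x, x ≠ h → S.Γ h x = true := by
      intro x hx
      have : x ∈ (univ.filter fun j => S.Γ h j = true) := by
        rw [heq, mem_erase]
        exact ⟨hx, mem_univ _⟩
      exact (mem_filter.mp this).2
    -- degrees of the other centres
    have hdeg : ∀ x, x ≠ h → 1 ≤ S.dg univ x := by
      intro x hx
      have : h ∈ (univ.filter fun j => S.Γ x j = true) := by
        rw [mem_filter]
        refine ⟨mem_univ _, ?_⟩
        rw [S.sym]
        exact hadj x hx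
      exact card_pos.mpr ⟨h, this⟩
    have hs0 : ∑ i, S.dg univ i = S.dg univ h + ∑ i ∈ univ.erase h, S.dg univ i :=
      (add_sum_erase univ (fun i => S.dg univ i) (mem_univ h)).symm
    have hs1 : (5 : ℕ) ≤ ∑ i ∈ univ.erase h, S.dg univ i := by
      have : (univ.erase h : Finset (Fin 6)).card • 1 ≤ ∑ i ∈ univ.erase h, S.dg univ i :=
        card_nsmul_le_sum _ _ _ (fun i hi => hdeg i (mem_erase.mp hi).1)
      rw [hec] at this
      simpa using this
    have hs2 : (24 : ℕ) ≤ ∑ i, (S.N i).card := by
      have : (univ : Finset (Fin 6)).card • 4 ≤ ∑ i, (S.N i).card :=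
        card_nsmul_le_sum _ _ _ (fun i _ => hE.four i)
      simpa using this
    have hL : S.L = ∅ := by
      rw [← card_eq_zero]
      omega
    have hN : ∀ x, (S.N x).card = 4 := by
      intro x
      by_contra hc
      have hx4 := hE.four x
      have e1 : ∑ i, (S.N i).card = (S.N x).card + ∑ i ∈ univ.erase x, (S.N i).card :=
        (add_sum_erase univ (fun i => (S.N i).card) (mem_univ x)).symm
      have e2 : (univ.erase x : Finset (Fin 6)).card • 4 ≤ ∑ i ∈ univ.erase x, (S.N i).card :=
        card_nsmul_le_sum _ _ _ (fun i _ => hE.four i)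
      have e3 : (univ.erase x : Finset (Fin 6)).card = 5 := by
        rw [card_erase_of_mem (mem_univ _)]
        simp
      rw [e3, smul_eq_mul] at e2
      omega
    have hdg1 : ∀ x, x ≠ h → S.dg univ x = 1 := by
      intro x hx
      by_contra hc
      have hx1 := hdeg x hx
      have hxm : x ∈ univ.erase h := mem_erase.mpr ⟨hx, mem_univ _⟩
      have e1 : ∑ i ∈ univ.erase h, S.dg univ i =
          S.dg univ x + ∑ i ∈ (univ.erase h).erase x, S.dg univ i :=
        (add_sum_erase (univ.erase h) (fun i => S.dg univ i) hxm).symm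
      have e2 : ((univ.erase h).erase x : Finset (Fin 6)).card • 1 ≤
          ∑ i ∈ (univ.erase h).erase x, S.dg univ i :=
        card_nsmul_le_sum _ _ _ (fun i hi => hdeg i (mem_erase.mp (mem_erase.mp hi).2).1)
      have e3 : ((univ.erase h).erase x : Finset (Fin 6)).card = 4 := by
        rw [card_erase_of_mem hxm, hec]
      rw [e3, smul_eq_mul] at e2
      omega
    have hno : ∀ x y, x ≠ h → y ≠ h → S.Γ x y = false := by
      intro x y hx hy
      by_contra hc
      have hc' : S.Γ x y = true := by simpa using hc
      have h1 : (univ.filter fun j => S.Γ x j = true).card = 1 := hdg1 x hx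
      obtain ⟨z, hz⟩ := card_eq_one.mp h1
      have hh1 : h ∈ (univ.filter fun j => S.Γ x j = true) := by
        rw [mem_filter]
        refine ⟨mem_univ _, ?_⟩
        rw [S.sym]
        exact hadj x hx
      have hy1 : y ∈ (univ.filter fun j => S.Γ x j = true) := mem_filter.mpr ⟨mem_univ _, hc'⟩
      rw [hz, mem_singleton] at hh1 hy1
      exact hy (hy1.trans hh1.symm)
    by_cases hw : ∃ w ∈ S.N h, S.tr (univ.erase h) w ≤ 3
    · obtain ⟨w, hw1, hw2⟩ := hw
      refine hXS W S h {w} ?_ ?_ ?_ ?_ ?_ ?_
      · rw [singleton_subset_iff]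
        exact hw1
      · rw [hN h, card_singleton]
      · rw [card_singleton]
        omega
      · rw [hL, card_empty, card_singleton]
        omega
      · intro x hx
        have : S.dg (univ.erase h) x ≤ S.dg univ x :=
          card_le_card (filter_subset_filter _ (erase_subset _ _))
        rw [hdg1 x hx] at this
        exact this
      · intro v hv
        rw [mem_singleton] at hv
        rw [hv]
        exact hw2
    · refine hX5 W S h hno hN hL ?_
      intro w hw1
      by_contra hc
      exact hw ⟨w, hw1, by omega⟩

end Pool.Agent.Lib.MP270b6b.F4
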