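import Pool.Agent.Lib.MP_270b6b_co.F4.Spec

/-!
# Module XB

Partition of a system with six centres, no leaf edges, two zero centres `s`, `a`, where `s` misses two
or three leaves of `H` and `a` none.
-/

set_option autoImplicit false

namespace Pool.Agent.Lib.MP270b6b.F4

open Finset

namespace XBM

/-- the leaves of `A` which are not in `B \ T` -/
lemma key {W : Type} [DecidableEq W] (A B T H : Finset W) (hHB : H ⊆ B) :
    (A \ (B \ T)).card + (A ∩ H).card ≤ (A ∩ T).card + A.card := by
  have h1 : A \ (B \ T) ⊆ (A ∩ T) ∪ (A \ H) := by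
    intro v hv
    simp only [mem_sdiff, mem_union, mem_inter, not_and, not_not] at hv ⊢
    by_cases hT : v ∈ T
    · exact Or.inl ⟨hv.1, hT⟩
    · refine Or.inr ⟨hv.1, fun hH => hT (hv.2 (hHB hH))⟩
  have h2 : (A \ (B \ T)).card ≤ (A ∩ T).card + (A \ H).card :=
    (card_le_card h1).trans (card_union_le _ _)
  have h3 : (A ∩ H).card + (A \ H).card = A.card := by
    rw [add_comm]; exact card_sdiff_add_card_inter A H
  omega

end XBM

theorem specXB (hXR : SpecXR) : SpecXB := by
  intro W _ _ S h s a b c d H hsix hhs hsa hL hH hH4 hs ha hms hms3 hHa he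
  obtain ⟨T, hT1, hT3⟩ := Finset.exists_subset_card_eq hms
  have hTH : T ⊆ H := hT1.trans sdiff_subset
  have hTh : T ⊆ S.N h := hTH.trans hH
  have hR : (S.N h \ T).card = (S.N h).card - 2 := by rw [card_sdiff_of_subset hTh, hT3]
  have hNh : 4 ≤ (S.N h).card := by rw [← hH4]; exact card_le_card hH
  have e1 : (S.N s ∩ H).card + (H \ S.N s).card = 4 := by
    rw [← hH4, inter_comm, add_comm]; exact card_sdiff_add_card_inter H (S.N s)
  have e2 : (S.N a ∩ H).card = 4 := by
    rw [inter_eq_right.2 hHa, hH4]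
  have e5 : (S.N s ∩ T).card = 0 := by
    rw [card_eq_zero, ← disjoint_iff_inter_eq_empty, disjoint_left]
    intro v hv hvT
    exact (mem_sdiff.1 (hT1 hvT)).2 hv
  have e6 : (S.N a ∩ T).card ≤ 2 := by rw [← hT3]; exact card_le_card inter_subset_right
  have k1 := XBM.key (S.N s) (S.N h) T H hH
  have k2 := XBM.key (S.N a) (S.N h) T H hH
  have q : ∀ x, (S.N x ∩ (S.N h \ T)).card ≤ (S.N h).card - 2 := by
    intro x; rw [← hR]; exact card_le_card inter_subset_right
  refine hXR W S h s a b c d (S.N h \ T) hsix hhs hsa ?_ (by omega) (by omega) ?_ ?_ ?_ ?_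
  · have : S.N h \ (S.N h \ T) ⊆ T := by
      intro v hv
      simp only [mem_sdiff, not_and, not_not] at hv
      exact hv.2 hv.1
    rw [← hT3]; exact card_le_card this
  · have := q b; omega
  · have := q c; omega
  · have := q d; omega
  · intro u v huv
    rw [hL] at huv
    exact absurd huv (notMem_empty _)

end Pool.Agent.Lib.MP270b6b.F4
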