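import Pool.Agent.Lib.MP_270b6b_co.F4.Spec

/-!
# MP_270b6b_co, F4: module XC (helper74)
-/

set_option autoImplicit false

namespace Pool.Agent.Lib.MP270b6b.F4

open Finset

namespace XCM

variable {W : Type} [DecidableEq W]

lemma sdiff_le (A Nh O T : Finset W) (hA : A ⊆ Nh) : (A \ ((Nh ∪ O) \ T)).card ≤ T.card := by
  apply card_le_card
  intro v hv
  rw [mem_sdiff, mem_sdiff, mem_union] at hv
  by_contra hvT
  exact hv.2 ⟨Or.inl (hA hv.1), hvT⟩

lemma sdiff_s (Ns Nh O T H : Finset W) (hT : T ⊆ H) (hdis : Disjoint H Ns) :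
    (Ns \ ((Nh ∪ O) \ T)).card ≤ (Ns \ O).card := by
  apply card_le_card
  intro v hv
  rw [mem_sdiff, mem_sdiff, mem_union] at hv
  rw [mem_sdiff]
  refine ⟨hv.1, fun hO => hv.2 ⟨Or.inr hO, fun hvT => ?_⟩⟩
  exact (disjoint_left.1 hdis) (hT hvT) hv.1

lemma inter_H (Nh O T H : Finset W) : (H ∩ ((Nh ∪ O) \ T)).card ≤ (H \ T).card := by
  apply card_le_card
  intro v hv
  rw [mem_inter, mem_sdiff] at hv
  exact mem_sdiff.2 ⟨hv.1, hv.2.2⟩

lemma inter_any (A O T H : Finset W) :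
    (A ∩ ((H ∪ O) \ T)).card ≤ (H \ T).card + O.card := by
  refine le_trans (card_le_card ?_) (card_union_le (H \ T) O)
  intro v hv
  rw [mem_inter, mem_sdiff, mem_union] at hv
  rw [mem_union, mem_sdiff]
  rcases hv.2.1 with h | h
  · exact Or.inl ⟨h, hv.2.2⟩
  · exact Or.inr h

end XCM

open XCM in
/-- **XC**. -/
theorem specXC (hXR : SpecXR) : SpecXC := by
  intro W _ _ S h s a b c d H h6 hs sa hL hH hH4 hdis ha hb hc hd ha4 he hcase
  obtain ⟨T, hT, hT2⟩ := exists_subset_card_eq (show 2 ≤ H.card by omega)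
  obtain ⟨O, hO, hOc⟩ := exists_subset_card_eq (show (S.N s).card - 3 ≤ (S.N s).card by omega)
  have hHT : (H \ T).card = 2 := by
    rw [card_sdiff_of_subset hT]
    omega
  have hNa : S.N a = H := (eq_of_subset_of_card_le ha (by omega)).symm
  have hsO : (S.N s \ O).card ≤ 3 := by
    rw [card_sdiff_of_subset hO]
    omega
  have hLe : ∀ u v, s(u, v) ∈ S.L → (u ∈ (S.N h ∪ O) \ T ↔ v ∉ (S.N h ∪ O) \ T) := by
    intro u v huv
    rw [hL] at huv
    exact absurd huv (notMem_empty _)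
  have k1 : (S.N h \ ((S.N h ∪ O) \ T)).card ≤ 2 := (sdiff_le _ _ O T (Subset.refl _)).trans hT2.le
  have k2 : (S.N s \ ((S.N h ∪ O) \ T)).card ≤ 3 := (sdiff_s _ _ O T H hT hdis).trans hsO
  have k3 : (S.N a \ ((S.N h ∪ O) \ T)).card ≤ 2 := by
    rw [hNa]
    exact (sdiff_le _ _ O T hH).trans hT2.le
  rcases hcase with ⟨_, hb4, hc4, hd4⟩ | ⟨hs4, he0, hh4⟩
  · have hNb : S.N b = H := (eq_of_subset_of_card_le hb (by omega)).symm
    have hNc : S.N c = H := (eq_of_subset_of_card_le hc (by omega)).symm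
    have hNd : S.N d = H := (eq_of_subset_of_card_le hd (by omega)).symm
    have hi := inter_H (S.N h) O T H
    refine hXR W S h s a b c d ((S.N h ∪ O) \ T) h6 hs sa k1 k2 k3 ?_ ?_ ?_ hLe
    · rw [hNb]
      omega
    · rw [hNc]
      omega
    · rw [hNd]
      omega
  · have hNh : S.N h = H := (eq_of_subset_of_card_le hH (by omega)).symm
    have hO1 : O.card ≤ 1 := by omega
    have ib := inter_any (S.N b) O T H
    have ic := inter_any (S.N c) O T H
    have idd := inter_any (S.N d) O T H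
    refine hXR W S h s a b c d ((S.N h ∪ O) \ T) h6 hs sa k1 k2 k3 ?_ ?_ ?_ hLe
    · rw [hNh]
      omega
    · rw [hNh]
      omega
    · rw [hNh]
      omega

end Pool.Agent.Lib.MP270b6b.F4
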