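import Pool.Agent.Lib.MP_270b6b_co.F4.Spec

set_option autoImplicit false

namespace Pool.Agent.Lib.MP270b6b.F4

open Finset

theorem specXD (hXR : SpecXR) : SpecXD := by
  intro W _ _ S h s a b c d h6 hhs hsa hL he hNh hNs hNa hms hma hmm
  obtain ⟨o, ho1, ho2⟩ : ∃ o, o ∈ S.N s ∧ o ∉ S.N h := by
    by_contra hcon
    push Not at hcon
    have := Finset.card_le_card (show S.N s ⊆ S.N h from fun x hx => hcon x hx)
    omega
  have key : ∀ P : Finset W, P ⊆ S.N h → P.card = 2 →
      (S.N s \ insert o (S.N h \ P)).card ≤ 3 → (S.N a \ insert o (S.N h \ P)).card ≤ 2 → S.Good := by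
    intro P hP hPc h1 h2
    have hR : (insert o (S.N h \ P)).card ≤ 3 := by
      have h0 := Finset.card_insert_le o (S.N h \ P)
      have h3 : (S.N h \ P).card + P.card = (S.N h).card := Finset.card_sdiff_add_card_eq_card hP
      omega
    have hbR : ∀ x, (S.N x ∩ insert o (S.N h \ P)).card ≤ 3 := fun x =>
      (Finset.card_le_card Finset.inter_subset_right).trans hR
    refine hXR W S h s a b c d (insert o (S.N h \ P)) h6 hhs hsa ?_ h1 h2 ?_ ?_ ?_ ?_
    · refine (Finset.card_le_card (t := P) ?_).trans hPc.le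
      intro w hw
      rw [Finset.mem_sdiff, Finset.mem_insert, Finset.mem_sdiff] at hw
      by_contra hwP
      exact hw.2 (Or.inr ⟨hw.1, hwP⟩)
    · have := hbR b; omega
    · have := hbR c; omega
    · have := hbR d; omega
    · intro u v huv
      rw [hL] at huv
      exact absurd huv (Finset.notMem_empty _)
  -- sizes
  have es1 : (S.N h \ S.N s).card + (S.N h ∩ S.N s).card = (S.N h).card := Finset.card_sdiff_add_card_inter _ _
  have es2 : (S.N s \ S.N h).card + (S.N s ∩ S.N h).card = (S.N s).card := Finset.card_sdiff_add_card_inter _ _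
  have es3 : (S.N s ∩ S.N h).card = (S.N h ∩ S.N s).card := by rw [Finset.inter_comm]
  have ea1 : (S.N h \ S.N a).card + (S.N h ∩ S.N a).card = (S.N h).card := Finset.card_sdiff_add_card_inter _ _
  have ea2 : (S.N a \ S.N h).card + (S.N a ∩ S.N h).card = (S.N a).card := Finset.card_sdiff_add_card_inter _ _
  have ea3 : (S.N a ∩ S.N h).card = (S.N h ∩ S.N a).card := by rw [Finset.inter_comm]
  have hoo : o ∈ S.N s \ S.N h := Finset.mem_sdiff.2 ⟨ho1, ho2⟩
  have ho3 : ((S.N s \ S.N h).erase o).card + 1 = (S.N s \ S.N h).card := Finset.card_erase_add_one hoo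
  by_cases hcase : (S.N h \ S.N s).card ≤ 1
  · obtain ⟨P, hP1, hP2, hP3⟩ := Finset.exists_subsuperset_card_eq (s := S.N h \ S.N a) (t := S.N h) (n := 2)
      Finset.sdiff_subset hma (by omega)
    refine key P hP2 hP3 ?_ ?_
    · have hsub : S.N s \ insert o (S.N h \ P) ⊆ P ∪ (S.N s \ S.N h).erase o := by
        intro w hw
        rw [Finset.mem_sdiff, Finset.mem_insert, Finset.mem_sdiff] at hw
        rw [Finset.mem_union, Finset.mem_erase, Finset.mem_sdiff]
        by_cases hwP : w ∈ P
        · exact Or.inl hwP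
        · refine Or.inr ⟨fun hwo => hw.2 (Or.inl hwo), hw.1, fun hwh => hw.2 (Or.inr ⟨hwh, hwP⟩)⟩
      have h1 := Finset.card_le_card hsub
      have h2 := Finset.card_union_le P ((S.N s \ S.N h).erase o)
      omega
    · have hsub : S.N a \ insert o (S.N h \ P) ⊆ (P ∩ S.N a) ∪ (S.N a \ S.N h) := by
        intro w hw
        rw [Finset.mem_sdiff, Finset.mem_insert, Finset.mem_sdiff] at hw
        rw [Finset.mem_union, Finset.mem_inter, Finset.mem_sdiff]
        by_cases hwP : w ∈ P
        · exact Or.inl ⟨hwP, hw.1⟩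
        · exact Or.inr ⟨hw.1, fun hwh => hw.2 (Or.inr ⟨hwh, hwP⟩)⟩
      have h1 := Finset.card_le_card hsub
      have h2 := Finset.card_union_le (P ∩ S.N a) (S.N a \ S.N h)
      have h3 : (P \ S.N a).card + (P ∩ S.N a).card = P.card := Finset.card_sdiff_add_card_inter _ _
      have h4 : S.N h \ S.N a ⊆ P \ S.N a := by
        intro w hw
        exact Finset.mem_sdiff.2 ⟨hP1 hw, (Finset.mem_sdiff.1 hw).2⟩
      have h5 := Finset.card_le_card h4
      omega
  · obtain ⟨P, hP1, hP2⟩ := Finset.exists_subset_card_eq (s := S.N h \ S.N s) (n := 2) (by omega)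
    have hPh : P ⊆ S.N h := hP1.trans Finset.sdiff_subset
    have hha : S.N h ⊆ S.N a := hmm (by omega)
    have hah : S.N h = S.N a := Finset.eq_of_subset_of_card_le hha (by omega)
    refine key P hPh hP2 ?_ ?_
    · have hsub : S.N s \ insert o (S.N h \ P) ⊆ (S.N s \ S.N h).erase o := by
        intro w hw
        rw [Finset.mem_sdiff, Finset.mem_insert, Finset.mem_sdiff] at hw
        rw [Finset.mem_erase, Finset.mem_sdiff]
        refine ⟨fun hwo => hw.2 (Or.inl hwo), hw.1, fun hwh => hw.2 (Or.inr ⟨hwh, fun hwP => ?_⟩)⟩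
        exact (Finset.mem_sdiff.1 (hP1 hwP)).2 hw.1
      have h1 := Finset.card_le_card hsub
      omega
    · have hsub : S.N a \ insert o (S.N h \ P) ⊆ P := by
        intro w hw
        rw [Finset.mem_sdiff, Finset.mem_insert, Finset.mem_sdiff] at hw
        by_contra hwP
        exact hw.2 (Or.inr ⟨hah ▸ hw.1, hwP⟩)
      have h1 := Finset.card_le_card hsub
      omega

end Pool.Agent.Lib.MP270b6b.F4
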