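import Pool.Agent.Lib.MP_270b6b_co.F4.Spec

/-!
Module XE: six centres, exactly one leaf edge.
-/

set_option autoImplicit false

namespace Pool.Agent.Lib.MP270b6b.F4

open Finset

namespace XEM

theorem three_others (h s a : Fin 6) (h1 : h ≠ s) (h2 : h ≠ a) (h3 : s ≠ a) :
    ∃ b c d, Six h s a b c d := by
  have hc : (({h, s, a} : Finset (Fin 6))ᶜ).card = 3 := by
    rw [Finset.card_compl, Fintype.card_fin, Finset.card_eq_three.mpr ⟨h, s, a, h1, h2, h3, rfl⟩]
  obtain ⟨b, c, d, hbc, hbd, hcd, he⟩ := Finset.card_eq_three.mp hc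
  have hb : b ∈ (({h, s, a} : Finset (Fin 6))ᶜ) := by rw [he]; simp
  have hc' : c ∈ (({h, s, a} : Finset (Fin 6))ᶜ) := by rw [he]; simp
  have hd : d ∈ (({h, s, a} : Finset (Fin 6))ᶜ) := by rw [he]; simp
  simp only [Finset.mem_compl, Finset.mem_insert, Finset.mem_singleton, not_or] at hb hc' hd
  exact ⟨b, c, d, h1, h2, fun e => hb.1 e.symm, fun e => hc'.1 e.symm, fun e => hd.1 e.symm, h3,
    fun e => hb.2.1 e.symm, fun e => hc'.2.1 e.symm, fun e => hd.2.1 e.symm,
    fun e => hb.2.2 e.symm, fun e => hc'.2.2 e.symm, fun e => hd.2.2 e.symm, hbc, hbd, hcd⟩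

section
variable {W : Type} [Fintype W] [DecidableEq W]

theorem cardR (X H Q R : Finset W) (hX : X.card = 4) (hH : H.card = 4) (hQ : Q.card = 2)
    (hR : H \ Q ⊆ R) : (X \ R).card + (Q \ X).card ≤ 2 + (H \ X).card := by
  have h1 : X \ R ⊆ (Q ∩ X) ∪ (X \ H) := by
    intro w hw
    rw [Finset.mem_sdiff] at hw
    rw [Finset.mem_union, Finset.mem_inter, Finset.mem_sdiff]
    by_cases hwH : w ∈ H
    · left
      refine ⟨?_, hw.1⟩
      by_contra hwQ
      exact hw.2 (hR (Finset.mem_sdiff.mpr ⟨hwH, hwQ⟩))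
    · exact Or.inr ⟨hw.1, hwH⟩
  have h2 := (Finset.card_le_card h1).trans (Finset.card_union_le _ _)
  have h3 := Finset.card_inter_add_card_sdiff Q X
  have h4 := Finset.card_inter_add_card_sdiff X H
  have h5 := Finset.card_inter_add_card_sdiff H X
  rw [Finset.inter_comm H X] at h5
  omega

theorem fin1 (hXR : SpecXR) (S : Sys (Fin 6) W) (h s a : Fin 6) (hhs : h ≠ s)
    (hΓ : S.Γ h s = false) (hΓ2 : ∀ x y, x ≠ h → y ≠ h → S.Γ x y = false)
    (hN : ∀ x, (S.N x).card = 4) (u v : W) (hL : S.L = {s(u, v)})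
    (ha1 : a ≠ h) (ha2 : a ≠ s) (Q O : Finset W) (hQH : Q ⊆ S.N h) (hQ2 : Q.card = 2)
    (hb : ∀ x, x ≠ h → x ≠ s → x ≠ a → (S.N x ∩ O).card ≤ 1)
    (hsR : (S.N s \ ((S.N h \ Q) ∪ O)).card ≤ 3) (haR : (S.N a \ ((S.N h \ Q) ∪ O)).card ≤ 2)
    (hsplit : u ∈ (S.N h \ Q) ∪ O ↔ v ∉ (S.N h \ Q) ∪ O) : S.Good := by
  obtain ⟨b, c, d, hsix⟩ := three_others h s a hhs ha1.symm ha2.symm
  obtain ⟨k1, k2, k3, k4, k5, k6, k7, k8, k9, k10, k11, k12, k13, k14, k15⟩ := hsix
  have e0 : ∀ x y, x ≠ h → y ≠ h → S.e x y = 0 := by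
    intro x y hx hy
    unfold Sys.e
    rw [hΓ2 x y hx hy]
    rfl
  have hHQ : (S.N h \ Q).card = 2 := by
    rw [Finset.card_sdiff_of_subset hQH, hN, hQ2]
  have hbR : ∀ x, x ≠ h → x ≠ s → x ≠ a → (S.N x ∩ ((S.N h \ Q) ∪ O)).card ≤ 3 := by
    intro x hx1 hx2 hx3
    rw [Finset.inter_union_distrib_left]
    refine (Finset.card_union_le _ _).trans ?_
    have h1 : (S.N x ∩ (S.N h \ Q)).card ≤ 2 := by
      rw [← hHQ]
      exact Finset.card_le_card Finset.inter_subset_right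
    have h2 := hb x hx1 hx2 hx3
    omega
  refine hXR W S h s a b c d ((S.N h \ Q) ∪ O)
    ⟨k1, k2, k3, k4, k5, k6, k7, k8, k9, k10, k11, k12, k13, k14, k15⟩ hΓ
    (hΓ2 s a hhs.symm ha1) ?_ hsR haR ?_ ?_ ?_ ?_
  · rw [← hQ2]
    refine Finset.card_le_card ?_
    intro w hw
    rw [Finset.mem_sdiff] at hw
    by_contra hwQ
    exact hw.2 (Finset.mem_union_left _ (Finset.mem_sdiff.mpr ⟨hw.1, hwQ⟩))
  · rw [e0 b c k3.symm k4.symm, e0 b d k3.symm k5.symm]
    exact hbR b k3.symm k7.symm k10.symm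
  · rw [e0 b c k3.symm k4.symm, e0 c d k4.symm k5.symm]
    exact hbR c k4.symm k8.symm k11.symm
  · rw [e0 b d k3.symm k5.symm, e0 c d k4.symm k5.symm]
    exact hbR d k5.symm k9.symm k12.symm
  · intro u' v' huv
    rw [hL, Finset.mem_singleton, Sym2.eq_iff] at huv
    rcases huv with ⟨rfl, rfl⟩ | ⟨rfl, rfl⟩
    · exact hsplit
    · tauto

theorem fin2 (hXR : SpecXR) (S : Sys (Fin 6) W) (h s a : Fin 6) (hhs : h ≠ s)
    (hΓ : S.Γ h s = false) (hΓ2 : ∀ x y, x ≠ h → y ≠ h → S.Γ x y = false)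
    (hN : ∀ x, (S.N x).card = 4) (u v : W) (hL : S.L = {s(u, v)})
    (ha1 : a ≠ h) (ha2 : a ≠ s) (Q O : Finset W) (hQH : Q ⊆ S.N h) (hQ2 : Q.card = 2)
    (hO : O.card ≤ 1) (ha : S.N h \ S.N a ⊆ Q) (hs : (S.N h \ S.N s).card ≤ (Q \ S.N s).card + 1)
    (hsplit : u ∈ (S.N h \ Q) ∪ O ↔ v ∉ (S.N h \ Q) ∪ O) : S.Good := by
  refine fin1 hXR S h s a hhs hΓ hΓ2 hN u v hL ha1 ha2 Q O hQH hQ2 ?_ ?_ ?_ hsplit
  · intro x _ _ _
    exact (Finset.card_le_card Finset.inter_subset_right).trans hO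
  · have := cardR (S.N s) (S.N h) Q ((S.N h \ Q) ∪ O) (hN s) (hN h) hQ2 Finset.subset_union_left
    omega
  · have h1 := cardR (S.N a) (S.N h) Q ((S.N h \ Q) ∪ O) (hN a) (hN h) hQ2 Finset.subset_union_left
    have h2 : (S.N h \ S.N a).card ≤ (Q \ S.N a).card := by
      refine Finset.card_le_card ?_
      intro w hw
      exact Finset.mem_sdiff.mpr ⟨ha hw, (Finset.mem_sdiff.mp hw).2⟩
    omega

/-- the choice of two leaves, both ends of the leaf edge in `H`, one end in `M` -/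
theorem exA1 (H X : Finset W) (hH : H.card = 4) (hM : (H \ X).card ≤ 3) (u v : W) (hu : u ∈ H)
    (hv : v ∈ H) (huv : u ≠ v) (huX : u ∉ X) :
    ∃ Q ⊆ H, Q.card = 2 ∧ (H \ X).card ≤ (Q \ X).card + 1 ∧ u ∈ Q ∧ v ∉ Q := by
  have hsub : ({u, v} : Finset W) ⊆ H := by
    intro w hw
    rw [Finset.mem_insert, Finset.mem_singleton] at hw
    rcases hw with rfl | rfl
    · exact hu
    · exact hv
  by_cases hne : ((H \ X) \ {u, v}).Nonempty
  · obtain ⟨y, hy⟩ := hne
    simp only [Finset.mem_sdiff, Finset.mem_insert, Finset.mem_singleton, not_or] at hy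
    obtain ⟨⟨hyH, hyX⟩, hyu, hyv⟩ := hy
    refine ⟨{u, y}, ?_, Finset.card_pair (Ne.symm hyu), ?_, by simp, ?_⟩
    · intro w hw
      rw [Finset.mem_insert, Finset.mem_singleton] at hw
      rcases hw with rfl | rfl
      · exact hu
      · exact hyH
    · have h1 : ({u, y} : Finset W) \ X = {u, y} := by
        rw [Finset.sdiff_eq_self_iff_disjoint, Finset.disjoint_left]
        intro w hw
        rw [Finset.mem_insert, Finset.mem_singleton] at hw
        rcases hw with rfl | rfl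
        · exact huX
        · exact hyX
      rw [h1, Finset.card_pair (Ne.symm hyu)]
      exact hM
    · rw [Finset.mem_insert, Finset.mem_singleton, not_or]
      exact ⟨Ne.symm huv, Ne.symm hyv⟩
  · rw [Finset.not_nonempty_iff_eq_empty, Finset.sdiff_eq_empty_iff_subset] at hne
    have h2 : (H \ X).card ≤ 2 := (Finset.card_le_card hne).trans Finset.card_le_two
    have h3 : (H \ {u, v}).card = 2 := by
      rw [Finset.card_sdiff_of_subset hsub, hH, Finset.card_pair huv]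
    obtain ⟨y, hy⟩ : (H \ {u, v}).Nonempty := Finset.card_pos.mp (by omega)
    simp only [Finset.mem_sdiff, Finset.mem_insert, Finset.mem_singleton, not_or] at hy
    obtain ⟨hyH, hyu, hyv⟩ := hy
    refine ⟨{u, y}, ?_, Finset.card_pair (Ne.symm hyu), ?_, by simp, ?_⟩
    · intro w hw
      rw [Finset.mem_insert, Finset.mem_singleton] at hw
      rcases hw with rfl | rfl
      · exact hu
      · exact hyH
    · have h4 : 0 < (({u, y} : Finset W) \ X).card :=
        Finset.card_pos.mpr ⟨u, Finset.mem_sdiff.mpr ⟨by simp, huX⟩⟩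
      omega
    · rw [Finset.mem_insert, Finset.mem_singleton, not_or]
      exact ⟨Ne.symm huv, Ne.symm hyv⟩

theorem exA (H X : Finset W) (hH : H.card = 4) (hM : (H \ X).card ≤ 3) (u v : W) (hu : u ∈ H)
    (hv : v ∈ H) (huv : u ≠ v) :
    ∃ Q ⊆ H, Q.card = 2 ∧ (H \ X).card ≤ (Q \ X).card + 1 ∧ (u ∈ Q ↔ v ∉ Q) := by
  by_cases huX : u ∉ X
  · obtain ⟨Q, h1, h2, h3, h4, h5⟩ := exA1 H X hH hM u v hu hv huv huX
    exact ⟨Q, h1, h2, h3, by tauto⟩
  by_cases hvX : v ∉ X
  · obtain ⟨Q, h1, h2, h3, h4, h5⟩ := exA1 H X hH hM v u hv hu huv.symm hvX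
    exact ⟨Q, h1, h2, h3, by tauto⟩
  push Not at huX hvX
  have hsub : ({u, v} : Finset W) ⊆ H := by
    intro w hw
    rw [Finset.mem_insert, Finset.mem_singleton] at hw
    rcases hw with rfl | rfl
    · exact hu
    · exact hv
  have h3 : (H \ {u, v}).card = 2 := by
    rw [Finset.card_sdiff_of_subset hsub, hH, Finset.card_pair huv]
  have hMs : H \ X ⊆ H \ {u, v} := by
    intro w hw
    rw [Finset.mem_sdiff] at hw
    rw [Finset.mem_sdiff, Finset.mem_insert, Finset.mem_singleton]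
    refine ⟨hw.1, ?_⟩
    rintro (rfl | rfl)
    · exact hw.2 huX
    · exact hw.2 hvX
  obtain ⟨y, hy, hyM⟩ : ∃ y ∈ H \ {u, v}, (H \ X).Nonempty → y ∈ H \ X := by
    by_cases hne : (H \ X).Nonempty
    · obtain ⟨y, hy⟩ := hne
      exact ⟨y, hMs hy, fun _ => hy⟩
    · obtain ⟨y, hy⟩ : (H \ {u, v}).Nonempty := Finset.card_pos.mp (by omega)
      exact ⟨y, hy, fun h => absurd h hne⟩
  simp only [Finset.mem_sdiff, Finset.mem_insert, Finset.mem_singleton, not_or] at hy
  obtain ⟨hyH, hyu, hyv⟩ := hy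
  refine ⟨{u, y}, ?_, Finset.card_pair (Ne.symm hyu), ?_, ?_⟩
  · intro w hw
    rw [Finset.mem_insert, Finset.mem_singleton] at hw
    rcases hw with rfl | rfl
    · exact hu
    · exact hyH
  · have h4 := Finset.card_le_card hMs
    by_cases hne : (H \ X).Nonempty
    · have h5 := (Finset.mem_sdiff.mp (hyM hne)).2
      have h6 : 0 < (({u, y} : Finset W) \ X).card :=
        Finset.card_pos.mpr ⟨y, Finset.mem_sdiff.mpr ⟨by simp, h5⟩⟩
      omega
    · rw [Finset.not_nonempty_iff_eq_empty] at hne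
      rw [hne, Finset.card_empty]
      exact Nat.zero_le _
  · simp only [Finset.mem_insert, Finset.mem_singleton]
    constructor
    · intro _ h
      rcases h with h | h
      · exact huv h.symm
      · exact hyv h.symm
    · intro _
      exact Or.inl trivial

theorem exB (H X : Finset W) (hH : H.card = 4) (hM : (H \ X).card ≤ 3) (u : W) :
    ∃ Q ⊆ H, Q.card = 2 ∧ (H \ X).card ≤ (Q \ X).card + 1 ∧ u ∉ Q := by
  have hE : 3 ≤ (H.erase u).card := by
    have := Finset.pred_card_le_card_erase (s := H) (a := u)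
    omega
  have hM0 : (H \ X).card ≤ ((H \ X).erase u).card + 1 := by
    have := Finset.pred_card_le_card_erase (s := H \ X) (a := u)
    omega
  have hsubE : (H \ X).erase u ⊆ H.erase u := Finset.erase_subset_erase u Finset.sdiff_subset
  by_cases h2 : ((H \ X).erase u).card ≤ 2
  · obtain ⟨Q, h3, h4, h5⟩ := Finset.exists_subsuperset_card_eq hsubE h2 (by omega)
    refine ⟨Q, h4.trans (Finset.erase_subset u H), h5, ?_, fun hu => ?_⟩
    · have h6 : (H \ X).erase u ⊆ Q \ X := by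
        intro w hw
        exact Finset.mem_sdiff.mpr ⟨h3 hw, (Finset.mem_sdiff.mp (Finset.mem_of_mem_erase hw)).2⟩
      have := Finset.card_le_card h6
      omega
    · exact absurd (h4 hu) (Finset.notMem_erase u H)
  · push Not at h2
    obtain ⟨Q, h3, h4⟩ := Finset.exists_subset_card_eq (s := (H \ X).erase u) (n := 2) h2.le
    refine ⟨Q, (h3.trans hsubE).trans (Finset.erase_subset u H), h4, ?_, fun hu => ?_⟩
    · have h6 : Q ⊆ Q \ X := by
        intro w hw
        exact Finset.mem_sdiff.mpr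
          ⟨hw, (Finset.mem_sdiff.mp (Finset.mem_of_mem_erase (h3 hw))).2⟩
      have := Finset.card_le_card h6
      omega
    · exact absurd (h3 hu) (Finset.notMem_erase u _)

/-- what is used of the system -/
structure Hyp (S : Sys (Fin 6) W) (h s : Fin 6) : Prop where
  hhs : h ≠ s
  hΓ : S.Γ h s = false
  hΓ2 : ∀ x y, x ≠ h → y ≠ h → S.Γ x y = false
  hN : ∀ x, (S.N x).card = 4
  hd : ∀ w ∈ S.N h, ∀ i j, i ≠ h → j ≠ h → i ≠ j → w ∈ S.N i ∨ w ∈ S.N j

/-- two leaves with the sufficient conditions, for all positions of the leaf edge -/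
theorem conc (hXR : SpecXR) (S : Sys (Fin 6) W) (h s : Fin 6) (hy : Hyp S h s) (u v : W)
    (huv : u ≠ v) (hL : S.L = {s(u, v)})
    (hA : u ∈ S.N h → v ∈ S.N h → ∃ a Q, a ≠ h ∧ a ≠ s ∧ Q ⊆ S.N h ∧ Q.card = 2 ∧
      S.N h \ S.N a ⊆ Q ∧ (S.N h \ S.N s).card ≤ (Q \ S.N s).card + 1 ∧ (u ∈ Q ↔ v ∉ Q))
    (hB : ∀ z, ∃ a Q, a ≠ h ∧ a ≠ s ∧ Q ⊆ S.N h ∧ Q.card = 2 ∧
      S.N h \ S.N a ⊆ Q ∧ (S.N h \ S.N s).card ≤ (Q \ S.N s).card + 1 ∧ z ∉ Q) : S.Good := by
  by_cases hu : u ∈ S.N h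
  · by_cases hv : v ∈ S.N h
    · obtain ⟨a, Q, h1, h2, h3, h4, h5, h6, h7⟩ := hA hu hv
      refine fin2 hXR S h s a hy.hhs hy.hΓ hy.hΓ2 hy.hN u v hL h1 h2 Q ∅ h3 h4 (by simp) h5 h6 ?_
      rw [Finset.union_empty, Finset.mem_sdiff, Finset.mem_sdiff]
      tauto
    · obtain ⟨a, Q, h1, h2, h3, h4, h5, h6, h7⟩ := hB u
      refine fin2 hXR S h s a hy.hhs hy.hΓ hy.hΓ2 hy.hN u v hL h1 h2 Q ∅ h3 h4 (by simp) h5 h6 ?_
      rw [Finset.union_empty, Finset.mem_sdiff, Finset.mem_sdiff]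
      tauto
  · by_cases hv : v ∈ S.N h
    · obtain ⟨a, Q, h1, h2, h3, h4, h5, h6, h7⟩ := hB v
      refine fin2 hXR S h s a hy.hhs hy.hΓ hy.hΓ2 hy.hN u v hL h1 h2 Q ∅ h3 h4 (by simp) h5 h6 ?_
      rw [Finset.union_empty, Finset.mem_sdiff, Finset.mem_sdiff]
      tauto
    · obtain ⟨a, Q, h1, h2, h3, h4, h5, h6, h7⟩ := hB u
      refine fin2 hXR S h s a hy.hhs hy.hΓ hy.hΓ2 hy.hN u v hL h1 h2 Q {v} h3 h4 (by simp) h5 h6 ?_
      rw [Finset.mem_union, Finset.mem_union, Finset.mem_sdiff, Finset.mem_sdiff,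
        Finset.mem_singleton, Finset.mem_singleton]
      tauto

/-- case alpha -/
theorem caseA (hXR : SpecXR) (S : Sys (Fin 6) W) (h s a : Fin 6) (hy : Hyp S h s) (u v : W)
    (huv : u ≠ v) (hL : S.L = {s(u, v)}) (ha1 : a ≠ h) (ha2 : a ≠ s) (haH : S.N h ⊆ S.N a)
    (hM : (S.N h \ S.N s).card ≤ 3) : S.Good := by
  have hempty : S.N h \ S.N a = ∅ := Finset.sdiff_eq_empty_iff_subset.mpr haH
  refine conc hXR S h s hy u v huv hL ?_ ?_
  · intro hu hv
    obtain ⟨Q, h1, h2, h3, h4⟩ := exA (S.N h) (S.N s) (hy.hN h) hM u v hu hv huv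
    exact ⟨a, Q, ha1, ha2, h1, h2, by rw [hempty]; exact Finset.empty_subset _, h3, h4⟩
  · intro z
    obtain ⟨Q, h1, h2, h3, h4⟩ := exB (S.N h) (S.N s) (hy.hN h) hM z
    exact ⟨a, Q, ha1, ha2, h1, h2, by rw [hempty]; exact Finset.empty_subset _, h3, h4⟩

/-- case beta -/
theorem caseB (hXR : SpecXR) (S : Sys (Fin 6) W) (h s : Fin 6) (hy : Hyp S h s) (u v : W)
    (huv : u ≠ v) (hL : S.L = {s(u, v)}) (hno : ∀ a, a ≠ h → a ≠ s → ¬ S.N h ⊆ S.N a) :
    S.Good := by
  have hex : ∀ a, a ≠ h → a ≠ s → ∃ w ∈ S.N h, w ∉ S.N a := fun a h1 h2 =>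
    Finset.not_subset.mp (hno a h1 h2)
  have hW : Nonempty W := ⟨u⟩
  choose! p hp1 hp2 using hex
  let T : Finset (Fin 6) := univ.filter fun a => a ≠ h ∧ a ≠ s
  have hTmem : ∀ a, a ∈ T ↔ a ≠ h ∧ a ≠ s := fun a => by simp [T]
  have hTeq : T = ({h, s} : Finset (Fin 6))ᶜ := by
    ext a
    rw [hTmem, Finset.mem_compl, Finset.mem_insert, Finset.mem_singleton, not_or]
  have hTc : T.card = 4 := by
    rw [hTeq, Finset.card_compl, Fintype.card_fin, Finset.card_pair hy.hhs]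
  have hinj : Set.InjOn p (T : Set (Fin 6)) := by
    intro a ha b hb hab
    rw [Finset.mem_coe, hTmem] at ha hb
    by_contra hne
    rcases hy.hd (p a) (hp1 a ha.1 ha.2) a b ha.1 hb.1 hne with h1 | h1
    · exact hp2 a ha.1 ha.2 h1
    · rw [hab] at h1
      exact hp2 b hb.1 hb.2 h1
  have himg : T.image p = S.N h := by
    refine Finset.eq_of_subset_of_card_le ?_ ?_
    · intro w hw
      obtain ⟨a, ha, rfl⟩ := Finset.mem_image.mp hw
      rw [hTmem] at ha
      exact hp1 a ha.1 ha.2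
    · rw [Finset.card_image_of_injOn hinj, hTc, hy.hN h]
  have hsurj : ∀ w ∈ S.N h, ∃ a, a ≠ h ∧ a ≠ s ∧ p a = w := by
    intro w hw
    rw [← himg] at hw
    obtain ⟨a, ha, rfl⟩ := Finset.mem_image.mp hw
    rw [hTmem] at ha
    exact ⟨a, ha.1, ha.2, rfl⟩
  have hs0 : S.N h \ S.N s = ∅ := by
    rw [Finset.sdiff_eq_empty_iff_subset]
    intro w hw
    obtain ⟨a, h1, h2, rfl⟩ := hsurj w hw
    rcases hy.hd (p a) hw a s h1 hy.hhs.symm h2 with h3 | h3
    · exact absurd h3 (hp2 a h1 h2)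
    · exact h3
  have hMa : ∀ a, a ≠ h → a ≠ s → S.N h \ S.N a ⊆ {p a} := by
    intro a h1 h2 w hw
    rw [Finset.mem_sdiff] at hw
    obtain ⟨b, h3, h4, rfl⟩ := hsurj w hw.1
    rw [Finset.mem_singleton]
    by_cases hab : b = a
    · rw [hab]
    · rcases hy.hd (p b) hw.1 b a h3 h1 hab with h5 | h5
      · exact absurd h5 (hp2 b h3 h4)
      · exact absurd h5 hw.2
  -- the choice of the second leaf
  have hpair : ∀ w ∈ S.N h, ∀ z, w ≠ z → ∃ y ∈ S.N h, y ≠ w ∧ y ≠ z := by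
    intro w hw z hwz
    have h1 : (({w, z} : Finset W)).card ≤ 2 := Finset.card_le_two
    have h2 : 0 < (S.N h \ {w, z}).card := by
      have := Finset.le_card_sdiff ({w, z} : Finset W) (S.N h)
      rw [hy.hN h] at this
      omega
    obtain ⟨y, hy'⟩ := Finset.card_pos.mp h2
    simp only [Finset.mem_sdiff, Finset.mem_insert, Finset.mem_singleton, not_or] at hy'
    exact ⟨y, hy'.1, hy'.2.1, hy'.2.2⟩
  have hmain : ∀ w ∈ S.N h, ∀ z, w ≠ z → ∃ a Q, a ≠ h ∧ a ≠ s ∧ Q ⊆ S.N h ∧ Q.card = 2 ∧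
      S.N h \ S.N a ⊆ Q ∧ (S.N h \ S.N s).card ≤ (Q \ S.N s).card + 1 ∧ w ∈ Q ∧ z ∉ Q := by
    intro w hw z hwz
    obtain ⟨a, h1, h2, h3⟩ := hsurj w hw
    obtain ⟨y, hyH, hyw, hyz⟩ := hpair w hw z hwz
    refine ⟨a, {w, y}, h1, h2, ?_, Finset.card_pair (Ne.symm hyw), ?_, ?_, by simp, ?_⟩
    · intro x hx
      rw [Finset.mem_insert, Finset.mem_singleton] at hx
      rcases hx with rfl | rfl
      · exact hw
      · exact hyH
    · intro x hx
      have h4 := hMa a h1 h2 hx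
      rw [Finset.mem_singleton, h3] at h4
      rw [h4]
      simp
    · rw [hs0, Finset.card_empty]
      exact Nat.zero_le _
    · rw [Finset.mem_insert, Finset.mem_singleton, not_or]
      exact ⟨Ne.symm hwz, Ne.symm hyz⟩
  refine conc hXR S h s hy u v huv hL ?_ ?_
  · intro hu hv
    obtain ⟨a, Q, h1, h2, h3, h4, h5, h6, h7, h8⟩ := hmain u hu v huv
    exact ⟨a, Q, h1, h2, h3, h4, h5, h6, by tauto⟩
  · intro z
    have h1 : 0 < ((S.N h).erase z).card := by
      have := Finset.pred_card_le_card_erase (s := S.N h) (a := z)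
      rw [hy.hN h] at this
      omega
    obtain ⟨w, hw⟩ := Finset.card_pos.mp h1
    rw [Finset.mem_erase] at hw
    obtain ⟨a, Q, h1, h2, h3, h4, h5, h6, h7, h8⟩ := hmain w hw.2 z hw.1
    exact ⟨a, Q, h1, h2, h3, h4, h5, h6, h8⟩

/-- case gamma -/
theorem caseC (hXR : SpecXR) (S : Sys (Fin 6) W) (h s a : Fin 6) (hy : Hyp S h s) (u v : W)
    (huv : u ≠ v) (hL : S.L = {s(u, v)}) (ha1 : a ≠ h) (ha2 : a ≠ s)
    (hM : ∀ w ∈ S.N h, w ∉ S.N s) : S.Good := by
  have hNa : ∀ x, x ≠ h → x ≠ s → S.N x = S.N h := by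
    intro x h1 h2
    symm
    refine Finset.eq_of_subset_of_card_le ?_ (by rw [hy.hN, hy.hN])
    intro w hw
    rcases hy.hd w hw x s h1 hy.hhs.symm h2 with h3 | h3
    · exact h3
    · exact absurd h3 (hM w hw)
  have fin3 : ∀ Q O : Finset W, Q ⊆ S.N h → Q.card = 2 → (∀ w ∈ O, w ∉ S.N h) →
      (∃ o ∈ O, o ∈ S.N s) → (u ∈ (S.N h \ Q) ∪ O ↔ v ∉ (S.N h \ Q) ∪ O) → S.Good := by
    intro Q O hQH hQ2 hO hOs hsplit
    refine fin1 hXR S h s a hy.hhs hy.hΓ hy.hΓ2 hy.hN u v hL ha1 ha2 Q O hQH hQ2 ?_ ?_ ?_ hsplit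
    · intro x h1 h2 _
      have h3 : S.N x ∩ O = ∅ := by
        rw [← Finset.disjoint_iff_inter_eq_empty, Finset.disjoint_left, hNa x h1 h2]
        exact fun w hw hwO => hO w hwO hw
      rw [h3, Finset.card_empty]
      exact Nat.zero_le _
    · obtain ⟨o, ho1, ho2⟩ := hOs
      have h3 : S.N s \ ((S.N h \ Q) ∪ O) ⊆ (S.N s).erase o := by
        intro w hw
        rw [Finset.mem_sdiff, Finset.mem_union, not_or] at hw
        rw [Finset.mem_erase]
        exact ⟨fun e => hw.2.2 (e ▸ ho1), hw.1⟩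
      have h4 := Finset.card_le_card h3
      rw [Finset.card_erase_of_mem ho2, hy.hN s] at h4
      exact h4
    · rw [hNa a ha1 ha2, ← hQ2]
      refine Finset.card_le_card ?_
      intro w hw
      rw [Finset.mem_sdiff] at hw
      by_contra hwQ
      exact hw.2 (Finset.mem_union_left _ (Finset.mem_sdiff.mpr ⟨hw.1, hwQ⟩))
  have hsub : ∀ w ∈ S.N s, w ∉ S.N h := fun w hw hwh => hM w hwh hw
  -- an element of `N s` different from `z`
  have hoz : ∀ z, ∃ o ∈ S.N s, o ≠ z := by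
    intro z
    have h1 : 0 < ((S.N s).erase z).card := by
      have := Finset.pred_card_le_card_erase (s := S.N s) (a := z)
      rw [hy.hN s] at this
      omega
    obtain ⟨w, hw⟩ := Finset.card_pos.mp h1
    rw [Finset.mem_erase] at hw
    exact ⟨w, hw.2, hw.1⟩
  have hXe : (S.N h \ S.N h).card ≤ 3 := by rw [Finset.sdiff_self]; simp
  by_cases hu : u ∈ S.N h
  · by_cases hv : v ∈ S.N h
    · obtain ⟨Q, h1, h2, -, h4⟩ := exA (S.N h) (S.N h) (hy.hN h) hXe u v hu hv huv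
      obtain ⟨o, ho, -⟩ := hoz u
      refine fin3 Q {o} h1 h2 ?_ ⟨o, Finset.mem_singleton_self o, ho⟩ ?_
      · intro w hw
        rw [Finset.mem_singleton] at hw
        rw [hw]
        exact hsub o ho
      · have e1 : u ≠ o := fun e => hsub o ho (e ▸ hu)
        have e2 : v ≠ o := fun e => hsub o ho (e ▸ hv)
        rw [Finset.mem_union, Finset.mem_union, Finset.mem_sdiff, Finset.mem_sdiff,
          Finset.mem_singleton, Finset.mem_singleton]
        tauto
    · obtain ⟨Q, h1, h2, -, h4⟩ := exB (S.N h) (S.N h) (hy.hN h) hXe u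
      obtain ⟨o, ho, hov⟩ := hoz v
      refine fin3 Q {o} h1 h2 ?_ ⟨o, Finset.mem_singleton_self o, ho⟩ ?_
      · intro w hw
        rw [Finset.mem_singleton] at hw
        rw [hw]
        exact hsub o ho
      · have e2 : v ≠ o := fun e => hov e.symm
        rw [Finset.mem_union, Finset.mem_union, Finset.mem_sdiff, Finset.mem_sdiff,
          Finset.mem_singleton, Finset.mem_singleton]
        tauto
  · by_cases hv : v ∈ S.N h
    · obtain ⟨Q, h1, h2, -, h4⟩ := exB (S.N h) (S.N h) (hy.hN h) hXe v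
      obtain ⟨o, ho, hou⟩ := hoz u
      refine fin3 Q {o} h1 h2 ?_ ⟨o, Finset.mem_singleton_self o, ho⟩ ?_
      · intro w hw
        rw [Finset.mem_singleton] at hw
        rw [hw]
        exact hsub o ho
      · have e2 : u ≠ o := fun e => hou e.symm
        rw [Finset.mem_union, Finset.mem_union, Finset.mem_sdiff, Finset.mem_sdiff,
          Finset.mem_singleton, Finset.mem_singleton]
        tauto
    · obtain ⟨Q, h1, h2, -, -⟩ := exB (S.N h) (S.N h) (hy.hN h) hXe u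
      by_cases hvs : v ∈ S.N s
      · refine fin3 Q {v} h1 h2 ?_ ⟨v, Finset.mem_singleton_self v, hvs⟩ ?_
        · intro w hw
          rw [Finset.mem_singleton] at hw
          rw [hw]
          exact hv
        · rw [Finset.mem_union, Finset.mem_union, Finset.mem_sdiff, Finset.mem_sdiff,
            Finset.mem_singleton, Finset.mem_singleton]
          tauto
      · by_cases hus : u ∈ S.N s
        · refine fin3 Q {u} h1 h2 ?_ ⟨u, Finset.mem_singleton_self u, hus⟩ ?_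
          · intro w hw
            rw [Finset.mem_singleton] at hw
            rw [hw]
            exact hu
          · have e2 : v ≠ u := fun e => huv e.symm
            rw [Finset.mem_union, Finset.mem_union, Finset.mem_sdiff, Finset.mem_sdiff,
              Finset.mem_singleton, Finset.mem_singleton]
            tauto
        · obtain ⟨o, ho, -⟩ := hoz u
          refine fin3 Q {o, v} h1 h2 ?_ ⟨o, by simp, ho⟩ ?_
          · intro w hw
            rw [Finset.mem_insert, Finset.mem_singleton] at hw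
            rcases hw with rfl | rfl
            · exact hsub _ ho
            · exact hv
          · have e1 : u ≠ o := fun e => hus (e ▸ ho)
            rw [Finset.mem_union, Finset.mem_union, Finset.mem_sdiff, Finset.mem_sdiff,
              Finset.mem_insert, Finset.mem_insert, Finset.mem_singleton, Finset.mem_singleton]
            tauto

end

end XEM

open XEM in
theorem specXE (hXR : SpecXR) : SpecXE := by
  intro W _ _ S h s hhs hΓ hΓ2 hN hL1 htr
  obtain ⟨e, he⟩ := Finset.card_eq_one.mp hL1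
  induction e using Sym2.inductionOn with
  | _ u v =>
    have huv : u ≠ v := by
      rintro rfl
      exact S.nd u (by rw [he]; simp)
    have hd : ∀ w ∈ S.N h, ∀ i j, i ≠ h → j ≠ h → i ≠ j → w ∈ S.N i ∨ w ∈ S.N j := by
      intro w hw i j hi hj hij
      by_contra hcon
      push Not at hcon
      have h1 := htr w hw
      have h2 : (univ.erase h).filter (fun k => w ∈ S.N k) ⊆ (((univ.erase h).erase i).erase j) := by
        intro k hk
        rw [Finset.mem_filter] at hk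
        rw [Finset.mem_erase, Finset.mem_erase]
        refine ⟨?_, ?_, hk.1⟩
        · rintro rfl
          exact hcon.2 hk.2
        · rintro rfl
          exact hcon.1 hk.2
      have h3 := Finset.card_le_card h2
      have hi' : i ∈ univ.erase h := Finset.mem_erase.mpr ⟨hi, Finset.mem_univ i⟩
      have hj' : j ∈ (univ.erase h).erase i :=
        Finset.mem_erase.mpr ⟨hij.symm, Finset.mem_erase.mpr ⟨hj, Finset.mem_univ j⟩⟩
      rw [Finset.card_erase_of_mem hj', Finset.card_erase_of_mem hi',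
        Finset.card_erase_of_mem (Finset.mem_univ h), Finset.card_univ, Fintype.card_fin] at h3
      have h4 : S.tr (univ.erase h) w ≤ 3 := h3
      omega
    have hy : Hyp S h s := ⟨hhs, hΓ, hΓ2, hN, hd⟩
    obtain ⟨a, ha1, ha2⟩ : ∃ a : Fin 6, a ≠ h ∧ a ≠ s := by
      have h1 : 0 < (({h, s} : Finset (Fin 6))ᶜ).card := by
        rw [Finset.card_compl, Fintype.card_fin, Finset.card_pair hhs]
        norm_num
      obtain ⟨a, ha⟩ := Finset.card_pos.mp h1
      rw [Finset.mem_compl, Finset.mem_insert, Finset.mem_singleton, not_or] at ha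
      exact ⟨a, ha.1, ha.2⟩
    by_cases hM : (S.N h \ S.N s).card ≤ 3
    · by_cases hα : ∃ a, a ≠ h ∧ a ≠ s ∧ S.N h ⊆ S.N a
      · obtain ⟨a, h1, h2, h3⟩ := hα
        exact caseA hXR S h s a hy u v huv he h1 h2 h3 hM
      · push Not at hα
        exact caseB hXR S h s hy u v huv he hα
    · push Not at hM
      refine caseC hXR S h s a hy u v huv he ha1 ha2 ?_
      have h1 : S.N h \ S.N s = S.N h :=
        Finset.eq_of_subset_of_card_le Finset.sdiff_subset (by rw [hN h]; exact hM)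
      intro w hw
      rw [← h1] at hw
      exact (Finset.mem_sdiff.mp hw).2

end Pool.Agent.Lib.MP270b6b.F4
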