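import Pool.Agent.Lib.MP_270b6b_co.F4.Spec

/-!
# MP_270b6b_co, F4, module XR (helper87)
-/

set_option autoImplicit false

namespace Pool.Agent.Lib.MP270b6b.F4

open Finset

namespace XRM

variable {K W : Type} [Fintype K] [DecidableEq K] [Fintype W] [DecidableEq W]

lemma dg3 (S : Sys K W) (P : Finset K) (i x y z : K) (hP : P ⊆ {x, y, z}) :
    S.dg P i ≤ S.e i x + S.e i y + S.e i z := by
  have h0 : ∀ j : K, (({j} : Finset K).filter (fun t => S.Γ i t = true)).card ≤ S.e i j := by
    intro j
    unfold Sys.e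
    rw [filter_singleton]
    cases S.Γ i j <;> simp
  have h1 : P.filter (fun t => S.Γ i t = true) ⊆
      (({x} : Finset K).filter (fun t => S.Γ i t = true) ∪
        ({y} : Finset K).filter (fun t => S.Γ i t = true)) ∪
        ({z} : Finset K).filter (fun t => S.Γ i t = true) := by
    intro t ht
    rw [mem_filter] at ht
    have h2 := hP ht.1
    simp only [mem_insert, mem_singleton] at h2
    simp only [mem_union, mem_filter, mem_singleton]
    rcases h2 with h2 | h2 | h2
    · exact Or.inl (Or.inl ⟨h2, ht.2⟩)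
    · exact Or.inl (Or.inr ⟨h2, ht.2⟩)
    · exact Or.inr ⟨h2, ht.2⟩
  unfold Sys.dg
  refine (card_le_card h1).trans ((card_union_le _ _).trans ?_)
  have h3 := card_union_le (({x} : Finset K).filter (fun t => S.Γ i t = true))
    (({y} : Finset K).filter (fun t => S.Γ i t = true))
  have hx := h0 x
  have hy := h0 y
  have hz := h0 z
  omega

lemma e_self (S : Sys K W) (i : K) : S.e i i = 0 := by
  unfold Sys.e
  rw [S.irr]
  rfl

lemma e_false (S : Sys K W) {i j : K} (h : S.Γ i j = false) : S.e i j = 0 := by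
  unfold Sys.e
  rw [h]
  rfl

lemma e_comm (S : Sys K W) (i j : K) : S.e i j = S.e j i := by
  unfold Sys.e
  rw [S.sym]

lemma e_le (S : Sys K W) (i j : K) : S.e i j ≤ 1 := by
  unfold Sys.e
  cases S.Γ i j <;> simp

lemma tr3 (S : Sys K W) (P : Finset K) (w : W) (h : P.card ≤ 3) : S.tr P w ≤ 3 :=
  (card_filter_le _ _).trans h

end XRM

open XRM in
theorem specXR : SpecXR := by
  intro W _ _ S h s a b c d R hsix hhs hsa hh hs ha hb hc hd hL
  obtain ⟨n1, n2, n3, n4, n5, n6, n7, n8, n9, n10, n11, n12, n13, n14, n15⟩ := hsix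
  have hP : ({h, s, a} : Finset (Fin 6)).card = 3 := card_eq_three.2 ⟨h, s, a, n1, n2, n6, rfl⟩
  have hPc : (({h, s, a} : Finset (Fin 6))ᶜ).card = 3 := by
    rw [card_compl, hP]
    rfl
  have hQ : ({b, c, d} : Finset (Fin 6)).card = 3 := card_eq_three.2 ⟨b, c, d, n13, n14, n15, rfl⟩
  have hsub : ({b, c, d} : Finset (Fin 6)) ⊆ ({h, s, a} : Finset (Fin 6))ᶜ := by
    intro x hx
    simp only [mem_insert, mem_singleton] at hx
    simp only [mem_compl, mem_insert, mem_singleton, not_or]
    rcases hx with rfl | rfl | rfl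
    · exact ⟨Ne.symm n3, Ne.symm n7, Ne.symm n10⟩
    · exact ⟨Ne.symm n4, Ne.symm n8, Ne.symm n11⟩
    · exact ⟨Ne.symm n5, Ne.symm n9, Ne.symm n12⟩
  have hcompl : ({h, s, a} : Finset (Fin 6))ᶜ = {b, c, d} :=
    (eq_of_subset_of_card_le hsub (by rw [hPc, hQ])).symm
  have hinter : ∀ Z : Finset W, Z ∩ Rᶜ = Z \ R := by
    intro Z
    ext x
    simp
  have hsdiff : ∀ Z : Finset W, Z \ Rᶜ = Z ∩ R := by
    intro Z
    ext x
    simp
  refine ⟨{h, s, a}, Rᶜ, ?_, ?_, ?_, ?_⟩
  · intro i hi
    simp only [mem_insert, mem_singleton] at hi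
    have hd3 := dg3 S {h, s, a} i h s a (subset_refl _)
    rw [hinter]
    rcases hi with rfl | rfl | rfl
    · rw [e_self, e_false S hhs] at hd3
      have := e_le S i a
      omega
    · rw [e_self, e_comm S i h, e_false S hhs, e_false S hsa] at hd3
      omega
    · rw [e_self, e_comm S i s, e_false S hsa] at hd3
      have := e_le S i h
      omega
  · intro i hi
    have hi' : i ∈ ({h, s, a} : Finset (Fin 6))ᶜ := mem_compl.2 hi
    rw [hcompl] at hi'
    simp only [mem_insert, mem_singleton] at hi'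
    rw [hcompl, hsdiff]
    have hd3 := dg3 S {b, c, d} i b c d (subset_refl _)
    rcases hi' with rfl | rfl | rfl
    · rw [e_self] at hd3
      omega
    · rw [e_self, e_comm S i b] at hd3
      omega
    · rw [e_self, e_comm S i b, e_comm S i c] at hd3
      omega
  · intro w hw
    rw [mem_compl] at hw
    have h1 := tr3 S {h, s, a} w hP.le
    have h2 : lm S.L Rᶜ w = 0 := by
      unfold lm
      rw [card_eq_zero, filter_eq_empty_iff]
      intro u hu hs
      rw [mem_compl] at hu
      exact hw ((hL w u hs).2 hu)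
    omega
  · intro w hw
    rw [mem_compl, not_not] at hw
    have h1 := tr3 S ({h, s, a} : Finset (Fin 6))ᶜ w hPc.le
    have h2 : lm S.L Rᶜᶜ w = 0 := by
      unfold lm
      rw [compl_compl, card_eq_zero, filter_eq_empty_iff]
      intro u hu hs
      exact (hL w u hs).1 hw hu
    omega

end Pool.Agent.Lib.MP270b6b.F4
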