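import Pool.Agent.Lib.MP_270b6b_co.F4.Spec

/-!
# MP_270b6b_co, F4, module XS (helper87)
-/

set_option autoImplicit false

namespace Pool.Agent.Lib.MP270b6b.F4

open Finset

namespace XSM

variable {K W : Type} [Fintype K] [DecidableEq K] [Fintype W] [DecidableEq W]

omit [Fintype W] in
lemma lm_le (L : Finset (Sym2 W)) (X : Finset W) (w : W) : lm L X w ≤ L.card := by
  unfold lm
  apply card_le_card_of_injOn (fun u => s(w, u))
  · intro u hu
    rw [mem_coe, mem_filter] at hu
    exact hu.2
  · intro u _ v _ h
    simp only [Sym2.eq_iff] at h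
    rcases h with h | h
    · exact h.2
    · exact h.2.trans h.1

end XSM

theorem specXS : SpecXS := by
  intro W _ _ S h Y hY hN hY2 hLY hdg htr
  have hcompl : ({h} : Finset (Fin 6))ᶜ = univ.erase h := by
    ext x
    simp
  refine ⟨{h}, Yᶜ, ?_, ?_, ?_, ?_⟩
  · intro i hi
    rw [mem_singleton] at hi
    subst hi
    have h1 : S.dg {i} i = 0 := by
      unfold Sys.dg
      rw [card_eq_zero, filter_eq_empty_iff]
      intro j hj
      rw [mem_singleton] at hj
      subst hj
      rw [S.irr]
      exact Bool.false_ne_true
    have h2 : S.N i ∩ Yᶜ = S.N i \ Y := by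
      ext x
      simp
    rw [h1, h2, card_sdiff_of_subset hY]
    omega
  · intro i hi
    rw [mem_singleton] at hi
    have h1 := hdg i hi
    have h2 : (S.N i \ Yᶜ).card ≤ Y.card := by
      apply card_le_card
      intro x hx
      rw [mem_sdiff, mem_compl, not_not] at hx
      exact hx.2
    rw [hcompl]
    omega
  · intro w _
    have h1 : S.tr {h} w ≤ 1 := by
      unfold Sys.tr
      exact (card_filter_le _ _).trans (card_singleton h).le
    have h2 := XSM.lm_le S.L Yᶜ w
    omega
  · intro w hw
    rw [mem_compl, not_not] at hw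
    have h1 := htr w hw
    have h2 : lm S.L Yᶜᶜ w = 0 := by
      unfold lm
      rw [compl_compl, card_eq_zero, filter_eq_empty_iff]
      intro u hu hs
      have hne : w ≠ u := by
        intro he
        subst he
        exact S.nd w hs
      have h3 : 1 < Y.card := one_lt_card.2 ⟨w, hw, u, hu, hne⟩
      have h4 : 0 < S.L.card := card_pos.2 ⟨_, hs⟩
      omega
    rw [hcompl, h2]
    omega

end Pool.Agent.Lib.MP270b6b.F4
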