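import Pool.Agent.Lib.MP_270b6b_co.F4.ACG
import Pool.Agent.Lib.MP_270b6b_co.F4.AC2
import Pool.Agent.Lib.MP_270b6b_co.F4.AC3
import Pool.Agent.Lib.MP_270b6b_co.F4.AC4
import Pool.Agent.Lib.MP_270b6b_co.F4.S41
import Pool.Agent.Lib.MP_270b6b_co.F4.SUB
import Pool.Agent.Lib.MP_270b6b_co.F4.S14
import Pool.Agent.Lib.MP_270b6b_co.F4.S32
import Pool.Agent.Lib.MP_270b6b_co.F4.S23
import Pool.Agent.Lib.MP_270b6b_co.F4.AN
import Pool.Agent.Lib.MP_270b6b_co.F4.H0A
import Pool.Agent.Lib.MP_270b6b_co.F4.SPL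
import Pool.Agent.Lib.MP_270b6b_co.F4.H0B
import Pool.Agent.Lib.MP_270b6b_co.F4.H0C
import Pool.Agent.Lib.MP_270b6b_co.F4.H1A
import Pool.Agent.Lib.MP_270b6b_co.F4.H1C
import Pool.Agent.Lib.MP_270b6b_co.F4.H1B
import Pool.Agent.Lib.MP_270b6b_co.F4.H1D
import Pool.Agent.Lib.MP_270b6b_co.F4.H1E
import Pool.Agent.Lib.MP_270b6b_co.F4.H1F
import Pool.Agent.Lib.MP_270b6b_co.F4.H1G
import Pool.Agent.Lib.MP_270b6b_co.F4.H1H
import Pool.Agent.Lib.MP_270b6b_co.F4.T2
import Pool.Agent.Lib.MP_270b6b_co.F4.REC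
import Pool.Agent.Lib.MP_270b6b_co.F4.T5A
import Pool.Agent.Lib.MP_270b6b_co.F4.T5B
import Pool.Agent.Lib.MP_270b6b_co.F4.T5C
import Pool.Agent.Lib.MP_270b6b_co.F4.H2A
import Pool.Agent.Lib.MP_270b6b_co.F4.H2B
import Pool.Agent.Lib.MP_270b6b_co.F4.T1
import Pool.Agent.Lib.MP_270b6b_co.F4.H4
import Pool.Agent.Lib.MP_270b6b_co.F4.RM
import Pool.Agent.Lib.MP_270b6b_co.F4.TH1
import Pool.Agent.Lib.MP_270b6b_co.F4.TH0
import Pool.Agent.Lib.MP_270b6b_co.F4.NF
import Pool.Agent.Lib.MP_270b6b_co.F4.K0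
import Pool.Agent.Lib.MP_270b6b_co.F4.K1A
import Pool.Agent.Lib.MP_270b6b_co.F4.K1B
import Pool.Agent.Lib.MP_270b6b_co.F4.K1C
import Pool.Agent.Lib.MP_270b6b_co.F4.K2A
import Pool.Agent.Lib.MP_270b6b_co.F4.K2B
import Pool.Agent.Lib.MP_270b6b_co.F4.K2C
import Pool.Agent.Lib.MP_270b6b_co.F4.K2D
import Pool.Agent.Lib.MP_270b6b_co.F4.K4
import Pool.Agent.Lib.MP_270b6b_co.F4.KT
import Pool.Agent.Lib.MP_270b6b_co.F4.K5
import Pool.Agent.Lib.MP_270b6b_co.F4.XS
import Pool.Agent.Lib.MP_270b6b_co.F4.X5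
import Pool.Agent.Lib.MP_270b6b_co.F4.XR
import Pool.Agent.Lib.MP_270b6b_co.F4.XA
import Pool.Agent.Lib.MP_270b6b_co.F4.XB
import Pool.Agent.Lib.MP_270b6b_co.F4.XC
import Pool.Agent.Lib.MP_270b6b_co.F4.XD
import Pool.Agent.Lib.MP_270b6b_co.F4.XE
import Pool.Agent.Lib.MP_270b6b_co.F4.X4
import Pool.Agent.Lib.MP_270b6b_co.F4.X6
import Pool.Agent.Lib.MP_270b6b_co.F4.CHO
import Pool.Agent.Lib.MP_270b6b_co.F4.CNT
import Pool.Agent.Lib.MP_270b6b_co.F4.TRN
import Pool.Agent.Lib.MP_270b6b_co.F4.FIN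

/-!
# Every graph with at most 29 edges has a partition into two parts of maximum degree at most 3
-/

set_option autoImplicit false

namespace Pool.Agent.Lib.MP270b6b.F4

theorem ac2 : SpecAC2 := specAC2 specACG
theorem ac3 : SpecAC3 := specAC3 specACG
theorem ac4 : SpecAC4 := specAC4 specACG
theorem sub : SpecSUB := specSUB specS41
theorem an : SpecAN := specAN ac2 specS32
theorem h0a : SpecH0A := specH0A specS14
theorem h0b : SpecH0B := specH0B specSPL
theorem h1a : SpecH1A := specH1A specS14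
theorem h1c : SpecH1C := specH1C specS14
theorem h1b : SpecH1B := specH1B sub specS23
theorem h1g : SpecH1G := specH1G ac3 ac4
theorem h1h : SpecH1H := specH1H specACG sub specS23
theorem t2 : SpecT2 := specT2 sub ac2 specS32
theorem t5a : SpecT5A := specT5A ac2 specS32
theorem t5b : SpecT5B := specT5B ac2 specS32 specREC
theorem t5c : SpecT5C := specT5C sub
theorem h2a : SpecH2A := specH2A specS14
theorem h2b : SpecH2B := specH2B specS14
theorem t1 : SpecT1 := specT1 sub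
theorem h4 : SpecH4 := specH4 sub
theorem rm : SpecRM := specRM ac2 specREC specS32
theorem th1 : SpecTH1 := specTH1 sub specSPL
theorem th0 : SpecTH0 := specTH0 ac2
theorem k0 : SpecK0 := specK0 ac2 h0a h0b specH0C
theorem k1a : SpecK1A := specK1A ac2 h1a h1b h1c specH1D h1g h1h
theorem k1b : SpecK1B := specK1B ac2 h1a h1b h1c specH1E h1g
theorem k1c : SpecK1C := specK1C ac2 an h1a h1b h1c specH1F t2
theorem k2a : SpecK2A := specK2A an t5a t5b t5c
theorem k2b : SpecK2B := specK2B ac2 h2a h2b h1g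
theorem k2c : SpecK2C := specK2C ac2 an sub t1 t5a
theorem k2d : SpecK2D := specK2D an
theorem k4 : SpecK4 := specK4 h4
theorem kt : SpecKT := specKT rm th1 th0
theorem k5 : SpecK5 := specK5 specNF k0 k1a k1b k1c k2a k2b k2c k2d k4 kt
theorem xa : SpecXA := specXA specXR
theorem xb : SpecXB := specXB specXR
theorem xc : SpecXC := specXC specXR
theorem xd : SpecXD := specXD specXR
theorem xe : SpecXE := specXE specXR
theorem x4 : SpecX4 := specX4 xa xb xc xd xe specXS
theorem x6 : SpecX6 := specX6 x4 specX5 specXS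
theorem fin : SpecFIN := specFIN k5 x6 specCHO specCNT specTRN

/-- Every graph with at most 29 edges has a partition of its vertices into two parts in which all degrees are at most 3. -/
theorem good_of_card_le {V : Type} [Fintype V] [DecidableEq V] (G : SimpleGraph V) [DecidableRel G.Adj]
    (h : G.edgeFinset.card ≤ 29) :
    ∃ A : Finset V, (∀ v ∈ A, (G.neighborFinset v ∩ A).card ≤ 3) ∧ (∀ v ∉ A, (G.neighborFinset v \ A).card ≤ 3) := by
  classical
  obtain ⟨A, h1, h2⟩ := fin V G h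
  refine ⟨A, fun v hv => ?_, fun v hv => ?_⟩
  · refine le_trans (le_of_eq ?_) (h1 v hv)
    unfold nb
    apply congrArg Finset.card
    ext u
    simp only [Finset.mem_inter, SimpleGraph.mem_neighborFinset, Finset.mem_filter]
    exact and_comm
  · refine le_trans (le_of_eq ?_) (h2 v hv)
    unfold nb
    apply congrArg Finset.card
    ext u
    simp only [Finset.mem_sdiff, SimpleGraph.mem_neighborFinset, Finset.mem_filter, Finset.mem_compl]
    exact and_comm

end Pool.Agent.Lib.MP270b6b.F4
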