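import Pool.Agent.Lib.MP_270b6b_co.F4.Spec

/-!
# MP_270b6b_co, F4: module REC (helper74)

A `4 × 4` grid is not covered by three combinatorial rectangles of half perimeters at most `4` or `5`
and few extra cells.
-/

set_option autoImplicit false

namespace Pool.Agent.Lib.MP270b6b.F4

open Finset

namespace RECM

variable {W : Type} [DecidableEq W]

/-- the number of covered cells in a row -/
def r (B Y1 Y2 Y3 : Finset W) (a : W) : ℕ :=
  (if a ∈ Y1 then (B ∩ Y1).card else 0) + (if a ∈ Y2 then (B ∩ Y2).card else 0) +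
    (if a ∈ Y3 then (B ∩ Y3).card else 0)

lemma sum_ite' (A Y : Finset W) (n : ℕ) :
    ∑ a ∈ A, (if a ∈ Y then n else 0) = (A ∩ Y).card * n := by
  rw [← Finset.sum_filter, Finset.sum_const, smul_eq_mul, Finset.filter_mem_eq_inter]

lemma row (A B Y1 Y2 Y3 : Finset W) (hA : A.card = 4) (hB : B.card = 4)
    (hc : ∀ a ∈ A, ∀ b ∈ B, (a ∈ Y1 ∧ b ∈ Y1) ∨ (a ∈ Y2 ∧ b ∈ Y2) ∨ (a ∈ Y3 ∧ b ∈ Y3))
    (ht : (A ∩ Y1).card * (B ∩ Y1).card + (A ∩ Y2).card * (B ∩ Y2).card +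
      (A ∩ Y3).card * (B ∩ Y3).card ≤ 16) (a : W) (ha : a ∈ A) : r B Y1 Y2 Y3 a = 4 := by
  have h1 : ∀ a ∈ A, 4 ≤ r B Y1 Y2 Y3 a := by
    intro a ha
    rw [← hB]
    have h : B ⊆ (if a ∈ Y1 then B ∩ Y1 else ∅) ∪ (if a ∈ Y2 then B ∩ Y2 else ∅) ∪
        (if a ∈ Y3 then B ∩ Y3 else ∅) := by
      intro b hb
      rcases hc a ha b hb with h | h | h
      · simp [h.1, h.2, hb]
      · simp [h.1, h.2, hb]
      · simp [h.1, h.2, hb]
    calc B.card ≤ _ := card_le_card h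
      _ ≤ _ := (card_union_le _ _).trans (Nat.add_le_add_right (card_union_le _ _) _)
      _ = r B Y1 Y2 Y3 a := by
        unfold r
        split_ifs <;> simp
  have h2 : ∑ a ∈ A, r B Y1 Y2 Y3 a ≤ 16 := by
    unfold r
    rw [sum_add_distrib, sum_add_distrib, sum_ite', sum_ite', sum_ite']
    exact ht
  have h3 : 12 ≤ ∑ a' ∈ A.erase a, r B Y1 Y2 Y3 a' := by
    have h := Finset.card_nsmul_le_sum (A.erase a) (r B Y1 Y2 Y3) 4
      (fun x hx => h1 x (mem_of_mem_erase hx))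
    rw [card_erase_of_mem ha, hA] at h
    simpa using h
  have h4 := Finset.add_sum_erase A (r B Y1 Y2 Y3) ha
  have h5 := h1 a ha
  omega

lemma core (A B Y1 Y2 Y3 : Finset W) (hA : A.card = 4) (hB : B.card = 4)
    (hc : ∀ a ∈ A, ∀ b ∈ B, (a ∈ Y1 ∧ b ∈ Y1) ∨ (a ∈ Y2 ∧ b ∈ Y2) ∨ (a ∈ Y3 ∧ b ∈ Y3))
    (ht : (A ∩ Y1).card * (B ∩ Y1).card + (A ∩ Y2).card * (B ∩ Y2).card +
      (A ∩ Y3).card * (B ∩ Y3).card ≤ 16)
    (h1 : (A ∩ Y1).card = 3 ∨ (B ∩ Y1).card = 3) (ha1 : 0 < (A ∩ Y1).card)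
    (hb1 : 0 < (B ∩ Y1).card) (ha2 : 2 ≤ (A ∩ Y2).card) (hb2 : 2 ≤ (B ∩ Y2).card)
    (ha3 : 2 ≤ (A ∩ Y3).card) (hb3 : 2 ≤ (B ∩ Y3).card) : False := by
  have hc' : ∀ b ∈ B, ∀ a ∈ A, (b ∈ Y1 ∧ a ∈ Y1) ∨ (b ∈ Y2 ∧ a ∈ Y2) ∨ (b ∈ Y3 ∧ a ∈ Y3) := by
    intro b hb a ha
    rcases hc a ha b hb with h | h | h
    · exact Or.inl h.symm
    · exact Or.inr (Or.inl h.symm)
    · exact Or.inr (Or.inr h.symm)
  have ht' : (B ∩ Y1).card * (A ∩ Y1).card + (B ∩ Y2).card * (A ∩ Y2).card +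
      (B ∩ Y3).card * (A ∩ Y3).card ≤ 16 := by
    rw [mul_comm (B ∩ Y1).card, mul_comm (B ∩ Y2).card, mul_comm (B ∩ Y3).card]
    exact ht
  rcases h1 with h1 | h1
  · obtain ⟨b, hb⟩ := card_pos.1 hb1
    rw [mem_inter] at hb
    have h := row B A Y1 Y2 Y3 hB hA hc' ht' b hb.1
    unfold r at h
    rw [if_pos hb.2] at h
    split_ifs at h <;> omega
  · obtain ⟨a, ha⟩ := card_pos.1 ha1
    rw [mem_inter] at ha
    have h := row A B Y1 Y2 Y3 hA hB hc ht a ha.1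
    unfold r at h
    rw [if_pos ha.2] at h
    split_ifs at h <;> omega

lemma inter_add (A B Y : Finset W) (hd : Disjoint A B) : (A ∩ Y).card + (B ∩ Y).card ≤ Y.card := by
  rw [← card_union_of_disjoint]
  · exact card_le_card (union_subset inter_subset_right inter_subset_right)
  · exact hd.mono inter_subset_left inter_subset_left

lemma prod4 (a b : ℕ) (h : a + b ≤ 4) : a * b ≤ 4 ∧ (4 ≤ a * b → a = 2 ∧ b = 2) := by
  have ha : a ≤ 4 := by omega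
  interval_cases a
  · omega
  · omega
  · omega
  · omega
  · omega

lemma prod5 (a b : ℕ) (h : a + b ≤ 5) : a * b ≤ 6 ∧ (6 ≤ a * b → (a = 2 ∧ b = 3) ∨ (a = 3 ∧ b = 2)) := by
  have ha : a ≤ 5 := by omega
  interval_cases a <;> omega

lemma count (A B Y1 Y2 Y3 : Finset W) (E : Finset (Sym2 W)) (hA : A.card = 4) (hB : B.card = 4)
    (hd : Disjoint A B)
    (hc : ∀ a ∈ A, ∀ b ∈ B, (a ∈ Y1 ∧ b ∈ Y1) ∨ (a ∈ Y2 ∧ b ∈ Y2) ∨ (a ∈ Y3 ∧ b ∈ Y3) ∨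
      s(a, b) ∈ E) :
    16 ≤ (A ∩ Y1).card * (B ∩ Y1).card + (A ∩ Y2).card * (B ∩ Y2).card +
      (A ∩ Y3).card * (B ∩ Y3).card + E.card := by
  have h1 : A ×ˢ B ⊆ (A ∩ Y1) ×ˢ (B ∩ Y1) ∪ (A ∩ Y2) ×ˢ (B ∩ Y2) ∪ (A ∩ Y3) ×ˢ (B ∩ Y3) ∪
      (A ×ˢ B).filter (fun p => s(p.1, p.2) ∈ E) := by
    rintro ⟨a, b⟩ hab
    have hab' := mem_product.1 hab
    simp only [mem_union, mem_product, mem_inter, mem_filter]
    rcases hc a hab'.1 b hab'.2 with h | h | h | h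
    · exact Or.inl (Or.inl (Or.inl ⟨⟨hab'.1, h.1⟩, ⟨hab'.2, h.2⟩⟩))
    · exact Or.inl (Or.inl (Or.inr ⟨⟨hab'.1, h.1⟩, ⟨hab'.2, h.2⟩⟩))
    · exact Or.inl (Or.inr ⟨⟨hab'.1, h.1⟩, ⟨hab'.2, h.2⟩⟩)
    · exact Or.inr ⟨hab', h⟩
  have h2 : ((A ×ˢ B).filter (fun p => s(p.1, p.2) ∈ E)).card ≤ E.card := by
    apply card_le_card_of_injOn (fun p : W × W => s(p.1, p.2))
    · intro p hp
      exact (mem_filter.1 hp).2
    · rintro ⟨a, b⟩ hp ⟨a', b'⟩ hp' heq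
      have hp1 := mem_product.1 (mem_filter.1 hp).1
      have hp2 := mem_product.1 (mem_filter.1 hp').1
      rcases Sym2.eq_iff.1 heq with h | h
      · exact Prod.ext h.1 h.2
      · exfalso
        have h3 : a ∈ B := by
          have h4 : a = b' := h.1
          rw [h4]
          exact hp2.2
        exact (disjoint_left.1 hd) hp1.1 h3
  have h3 := card_le_card h1
  have h4 := card_union_le ((A ∩ Y1) ×ˢ (B ∩ Y1) ∪ (A ∩ Y2) ×ˢ (B ∩ Y2) ∪ (A ∩ Y3) ×ˢ (B ∩ Y3))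
    ((A ×ˢ B).filter (fun p => s(p.1, p.2) ∈ E))
  have h5 := card_union_le ((A ∩ Y1) ×ˢ (B ∩ Y1) ∪ (A ∩ Y2) ×ˢ (B ∩ Y2)) ((A ∩ Y3) ×ˢ (B ∩ Y3))
  have h6 := card_union_le ((A ∩ Y1) ×ˢ (B ∩ Y1)) ((A ∩ Y2) ×ˢ (B ∩ Y2))
  rw [card_product] at h3 h5 h6
  rw [card_product] at h6
  rw [hA, hB] at h3
  omega

end RECM

open RECM in
/-- **REC**. -/
theorem specREC : SpecREC := by
  intro W _ _ A B Y1 Y2 Y3 E hA hB hd l1 l2 l3 u1 u2 u3 hs
  by_contra hcon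
  push Not at hcon
  have hc : ∀ a ∈ A, ∀ b ∈ B, (a ∈ Y1 ∧ b ∈ Y1) ∨ (a ∈ Y2 ∧ b ∈ Y2) ∨ (a ∈ Y3 ∧ b ∈ Y3) ∨
      s(a, b) ∈ E := by
    intro a ha b hb
    by_contra hn
    push Not at hn
    exact hn.2.2.2 (hcon a ha b hb (fun h => hn.1 h) (fun h => hn.2.1 h) (fun h => hn.2.2.1 h))
  have hn := count A B Y1 Y2 Y3 E hA hB hd hc
  have s1 := inter_add A B Y1 hd
  have s2 := inter_add A B Y2 hd
  have s3 := inter_add A B Y3 hd
  have q1 := prod5 _ _ (s1.trans u1)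
  have q2 := prod5 _ _ (s2.trans u2)
  have q3 := prod5 _ _ (s3.trans u3)
  have t1 : Y1.card = 4 → _ := fun h => prod4 _ _ (s1.trans h.le)
  have t2 : Y2.card = 4 → _ := fun h => prod4 _ _ (s2.trans h.le)
  have t3 : Y3.card = 4 → _ := fun h => prod4 _ _ (s3.trans h.le)
  generalize hp1 : (A ∩ Y1).card * (B ∩ Y1).card = p1 at *
  generalize hp2 : (A ∩ Y2).card * (B ∩ Y2).card = p2 at *
  generalize hp3 : (A ∩ Y3).card * (B ∩ Y3).card = p3 at *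
  have hE : E.card = 0 := by
    rcases (show Y1.card = 4 ∨ Y1.card = 5 by omega) with h1 | h1 <;>
    rcases (show Y2.card = 4 ∨ Y2.card = 5 by omega) with h2 | h2 <;>
    rcases (show Y3.card = 4 ∨ Y3.card = 5 by omega) with h3 | h3 <;>
    omega
  have hE' : E = ∅ := card_eq_zero.1 hE
  subst hE'
  have hc3 : ∀ a ∈ A, ∀ b ∈ B, (a ∈ Y1 ∧ b ∈ Y1) ∨ (a ∈ Y2 ∧ b ∈ Y2) ∨ (a ∈ Y3 ∧ b ∈ Y3) := by
    intro a ha b hb
    rcases hc a ha b hb with h | h | h | h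
    · exact Or.inl h
    · exact Or.inr (Or.inl h)
    · exact Or.inr (Or.inr h)
    · exact absurd h (notMem_empty _)
  -- the two largest sets have five elements
  have key : ∀ (Z1 Z2 Z3 : Finset W), (∀ a ∈ A, ∀ b ∈ B, (a ∈ Z1 ∧ b ∈ Z1) ∨ (a ∈ Z2 ∧ b ∈ Z2) ∨
      (a ∈ Z3 ∧ b ∈ Z3)) → Z1.card = 5 → Z2.card = 5 → Z3.card = 4 → False := by
    intro Z1 Z2 Z3 hz c1 c2 c3
    have hn' := count A B Z1 Z2 Z3 ∅ hA hB hd (fun a ha b hb => by
      rcases hz a ha b hb with h | h | h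
      · exact Or.inl h
      · exact Or.inr (Or.inl h)
      · exact Or.inr (Or.inr (Or.inl h)))
    rw [card_empty] at hn'
    have s1 := inter_add A B Z1 hd
    have s2 := inter_add A B Z2 hd
    have s3 := inter_add A B Z3 hd
    have q1 := prod5 _ _ (s1.trans c1.le)
    have q2 := prod5 _ _ (s2.trans c2.le)
    have q3 := prod4 _ _ (s3.trans c3.le)
    have r1 := q1.2 (by omega)
    have r2 := q2.2 (by omega)
    have r3 := q3.2 (by omega)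
    exact core A B Z1 Z2 Z3 hA hB hz (by omega) (by omega) (by omega) (by omega) (by omega)
      (by omega) (by omega) (by omega)
  rcases (show Y1.card = 4 ∨ Y1.card = 5 by omega) with h1 | h1 <;>
  rcases (show Y2.card = 4 ∨ Y2.card = 5 by omega) with h2 | h2 <;>
  rcases (show Y3.card = 4 ∨ Y3.card = 5 by omega) with h3 | h3
  · have := (t1 h1).1; have := (t2 h2).1; have := (t3 h3).1; omega
  · have := (t1 h1).1; have := (t2 h2).1; omega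
  · have := (t1 h1).1; have := (t3 h3).1; omega
  · refine key Y2 Y3 Y1 (fun a ha b hb => ?_) h2 h3 h1
    rcases hc3 a ha b hb with h | h | h
    · exact Or.inr (Or.inr h)
    · exact Or.inl h
    · exact Or.inr (Or.inl h)
  · have := (t2 h2).1; have := (t3 h3).1; omega
  · refine key Y1 Y3 Y2 (fun a ha b hb => ?_) h1 h3 h2
    rcases hc3 a ha b hb with h | h | h
    · exact Or.inl h
    · exact Or.inr (Or.inr h)
    · exact Or.inr (Or.inl h)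
  · exact key Y1 Y2 Y3 hc3 h1 h2 h3
  · omega

end Pool.Agent.Lib.MP270b6b.F4
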