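import Pool.Agent.Lib.MP_270b6b_co.F4.Spec

/-! # SPL: splitting four vertices of degree at most two in a graph with at most five edges -/

set_option autoImplicit false

namespace Pool.Agent.Lib.MP270b6b.F4

open Finset

namespace SPLM

/-- the finite check, as a function with values in `Bool` -/
def chk (ab ac ad bc bd cd : Bool) (oa ob oc od : Fin 3) : Bool :=
  (!decide (ab.toNat + ac.toNat + ad.toNat + oa.val ≤ 2)) || (!decide (ab.toNat + bc.toNat + bd.toNat + ob.val ≤ 2)) ||
  (!decide (ac.toNat + bc.toNat + cd.toNat + oc.val ≤ 2)) || (!decide (ad.toNat + bd.toNat + cd.toNat + od.val ≤ 2)) ||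
  (!decide (ab.toNat + ac.toNat + ad.toNat + bc.toNat + bd.toNat + cd.toNat + oa.val + ob.val + oc.val + od.val ≤ 5)) ||
  (!cd && (decide (ab.toNat + oa.val ≤ 1) && decide (ab.toNat + ob.val ≤ 1))) ||
  (!bd && (decide (ac.toNat + oa.val ≤ 1) && decide (ac.toNat + oc.val ≤ 1))) ||
  (!bc && (decide (ad.toNat + oa.val ≤ 1) && decide (ad.toNat + od.val ≤ 1))) ||
  (!ad && (decide (bc.toNat + ob.val ≤ 1) && decide (bc.toNat + oc.val ≤ 1))) ||
  (!ac && (decide (bd.toNat + ob.val ≤ 1) && decide (bd.toNat + od.val ≤ 1))) ||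
  (!ab && (decide (cd.toNat + oc.val ≤ 1) && decide (cd.toNat + od.val ≤ 1)))

lemma chk_all : ∀ (ab ac ad bc bd cd : Bool) (oa ob oc od : Fin 3), chk ab ac ad bc bd cd oa ob oc od = true := by
  decide +kernel

lemma key (ab ac ad bc bd cd : Bool) (oa ob oc od : Fin 3)
    (h1 : ab.toNat + ac.toNat + ad.toNat + oa.val ≤ 2) (h2 : ab.toNat + bc.toNat + bd.toNat + ob.val ≤ 2)
    (h3 : ac.toNat + bc.toNat + cd.toNat + oc.val ≤ 2) (h4 : ad.toNat + bd.toNat + cd.toNat + od.val ≤ 2)
    (h5 : ab.toNat + ac.toNat + ad.toNat + bc.toNat + bd.toNat + cd.toNat + oa.val + ob.val + oc.val + od.val ≤ 5) :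
    (cd = false ∧ ab.toNat + oa.val ≤ 1 ∧ ab.toNat + ob.val ≤ 1) ∨
    (bd = false ∧ ac.toNat + oa.val ≤ 1 ∧ ac.toNat + oc.val ≤ 1) ∨
    (bc = false ∧ ad.toNat + oa.val ≤ 1 ∧ ad.toNat + od.val ≤ 1) ∨
    (ad = false ∧ bc.toNat + ob.val ≤ 1 ∧ bc.toNat + oc.val ≤ 1) ∨
    (ac = false ∧ bd.toNat + ob.val ≤ 1 ∧ bd.toNat + od.val ≤ 1) ∨
    (ab = false ∧ cd.toNat + oc.val ≤ 1 ∧ cd.toNat + od.val ≤ 1) := by
  have h := chk_all ab ac ad bc bd cd oa ob oc od
  unfold chk at h
  rw [decide_eq_true h1, decide_eq_true h2, decide_eq_true h3, decide_eq_true h4, decide_eq_true h5] at h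
  simp only [Bool.or_eq_true, Bool.and_eq_true, Bool.not_eq_true', decide_eq_true_eq, Bool.not_true,
    Bool.false_eq_true, false_or, or_assoc] at h
  exact h

set_option linter.unusedSectionVars false
set_option linter.unusedVariables false

section
variable {W : Type} [Fintype W] [DecidableEq W]

lemma lm_univ_le (L : Finset (Sym2 W)) (w : W) :
    lm L univ w + (L.filter (fun e => w ∉ e)).card ≤ L.card := by
  have h1 : lm L univ w ≤ (L.filter (fun e => w ∈ e)).card := by
    unfold lm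
    refine Finset.card_le_card_of_injOn (fun u => s(w, u)) ?_ ?_
    · intro u hu
      rw [Finset.mem_coe, Finset.mem_filter] at hu ⊢
      exact ⟨hu.2, Sym2.mem_mk_left _ _⟩
    · intro u _ v _ huv
      have h1 : s(w, u) = s(w, v) := huv
      rw [Sym2.eq_iff] at h1
      rcases h1 with ⟨_, h2⟩ | ⟨h2, h3⟩
      · exact h2
      · rw [h3, h2]
  have h2 := Finset.card_filter_add_card_filter_not (s := L) (fun e => w ∈ e)
  omega

/-- outer neighbours plus neighbours in a part: disjoint split -/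
lemma lm_insert (L : Finset (Sym2 W)) (X : Finset W) (x w : W) (hx : x ∉ X) :
    lm L (insert x X) w = (decide (s(w, x) ∈ L)).toNat + lm L X w := by
  unfold lm
  rw [Finset.filter_insert]
  by_cases h : s(w, x) ∈ L
  · rw [if_pos h, Finset.card_insert_of_notMem (by
      intro hh; exact hx (Finset.mem_of_mem_filter _ hh))]
    simp [h, add_comm]
  · rw [if_neg h]
    simp [h]

/-- removing the edges at `x` -/
lemma lm_filter (L : Finset (Sym2 W)) (X : Finset W) (x w : W) (hx : x ∉ X) (hxw : x ≠ w) :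
    lm (L.filter (fun e => x ∉ e)) X w = lm L X w := by
  unfold lm
  congr 1
  apply Finset.filter_congr
  intro u hu
  rw [Finset.mem_filter]
  constructor
  · exact fun h => h.1
  · intro h
    refine ⟨h, ?_⟩
    rw [Sym2.mem_iff]
    rintro (rfl | rfl)
    · exact hxw rfl
    · exact hx hu

lemma lm_mono (L : Finset (Sym2 W)) {X Y : Finset W} (h : X ⊆ Y) (w : W) : lm L X w ≤ lm L Y w := by
  unfold lm
  exact Finset.card_le_card (Finset.filter_subset_filter _ h)

lemma tb (L : Finset (Sym2 W)) (v : W) (h : s(v, v) ∉ L) : (decide (s(v, v) ∈ L)).toNat = 0 := by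
  simp [h]

lemma tsym (L : Finset (Sym2 W)) (u v : W) : (decide (s(u, v) ∈ L)).toNat = (decide (s(v, u) ∈ L)).toNat := by
  rw [Sym2.eq_swap]

/-- the union of the four vertices and the rest -/
lemma degrees (L : Finset (Sym2 W)) (hnd : ∀ v, s(v, v) ∉ L) (a b c d w : W) (R : Finset W)
    (hab : a ≠ b) (hac : a ≠ c) (had : a ≠ d) (hbc : b ≠ c) (hbd : b ≠ d) (hcd : c ≠ d)
    (ha : a ∉ R) (hb : b ∉ R) (hc : c ∉ R) (hd : d ∉ R) :
    lm L (insert a (insert b (insert c (insert d R)))) w =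
      (decide (s(w, a) ∈ L)).toNat + ((decide (s(w, b) ∈ L)).toNat + ((decide (s(w, c) ∈ L)).toNat +
        ((decide (s(w, d) ∈ L)).toNat + lm L R w))) := by
  rw [lm_insert L _ a w (by simp [hab, hac, had, ha]), lm_insert L _ b w (by simp [hbc, hbd, hb]),
    lm_insert L _ c w (by simp [hcd, hc]), lm_insert L _ d w hd]

end

end SPLM

open SPLM in
theorem specSPL : SpecSPL := by
  intro W _ _ L H hnd hH hL hdeg
  obtain ⟨a, b, c, d, hab, hac, had, hbc, hbd, hcd, rfl⟩ := Finset.card_eq_four.mp hH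
  obtain ⟨R, hR⟩ : ∃ R : Finset W, R = ({a, b, c, d} : Finset W)ᶜ := ⟨_, rfl⟩
  have mR : ∀ x, x ∈ R ↔ ¬ (x = a ∨ x = b ∨ x = c ∨ x = d) := by
    intro x; rw [hR]; simp
  have haR : a ∉ R := by rw [mR]; simp
  have hbR : b ∉ R := by rw [mR]; simp
  have hcR : c ∉ R := by rw [mR]; simp
  have hdR : d ∉ R := by rw [mR]; simp
  have hu : (univ : Finset W) = insert a (insert b (insert c (insert d R))) := by
    ext x
    simp only [Finset.mem_univ, true_iff, Finset.mem_insert, mR]
    tauto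
  have da := hdeg a (by simp)
  have db := hdeg b (by simp)
  have dc := hdeg c (by simp)
  have dd := hdeg d (by simp)
  have ea := degrees L hnd a b c d a R hab hac had hbc hbd hcd haR hbR hcR hdR
  have eb := degrees L hnd a b c d b R hab hac had hbc hbd hcd haR hbR hcR hdR
  have ec := degrees L hnd a b c d c R hab hac had hbc hbd hcd haR hbR hcR hdR
  have ed := degrees L hnd a b c d d R hab hac had hbc hbd hcd haR hbR hcR hdR
  rw [← hu] at ea eb ec ed
  rw [tb L a (hnd a)] at ea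
  rw [tb L b (hnd b), tsym L b a] at eb
  rw [tb L c (hnd c), tsym L c a, tsym L c b] at ec
  rw [tb L d (hnd d), tsym L d a, tsym L d b, tsym L d c] at ed
  -- the number of edges
  have n1 := lm_univ_le L a
  have n2 := lm_univ_le (L.filter (fun e => a ∉ e)) b
  have n3 := lm_univ_le ((L.filter (fun e => a ∉ e)).filter (fun e => b ∉ e)) c
  have n4 := lm_univ_le (((L.filter (fun e => a ∉ e)).filter (fun e => b ∉ e)).filter (fun e => c ∉ e)) d
  have m2 : (decide (s(b, c) ∈ L)).toNat + ((decide (s(b, d) ∈ L)).toNat + lm L R b) ≤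
      lm (L.filter (fun e => a ∉ e)) univ b := by
    have := lm_mono (L.filter (fun e => a ∉ e)) (Finset.subset_univ (insert c (insert d R))) b
    rw [lm_filter L _ a b (by simp [hac, had, haR]) hab, lm_insert L _ c b (by simp [hcd, hcR]),
      lm_insert L _ d b hdR] at this
    exact this
  have m3 : (decide (s(c, d) ∈ L)).toNat + lm L R c ≤
      lm ((L.filter (fun e => a ∉ e)).filter (fun e => b ∉ e)) univ c := by
    have := lm_mono ((L.filter (fun e => a ∉ e)).filter (fun e => b ∉ e)) (Finset.subset_univ (insert d R)) c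
    rw [lm_filter _ _ b c (by simp [hbd, hbR]) hbc, lm_filter L _ a c (by simp [had, haR]) hac,
      lm_insert L _ d c hdR] at this
    exact this
  have m4 : lm L R d ≤
      lm (((L.filter (fun e => a ∉ e)).filter (fun e => b ∉ e)).filter (fun e => c ∉ e)) univ d := by
    have := lm_mono (((L.filter (fun e => a ∉ e)).filter (fun e => b ∉ e)).filter (fun e => c ∉ e))
      (Finset.subset_univ R) d
    rw [lm_filter _ _ c d hcR hcd, lm_filter _ _ b d hbR hbd, lm_filter L _ a d haR had] at this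
    exact this
  have out : ∀ p q r t : W, p ≠ q → p ∉ R → q ∉ R → ({r, t} : Finset W)ᶜ = insert p (insert q R) →
      lm L ({r, t} : Finset W)ᶜ p = (decide (s(p, q) ∈ L)).toNat + lm L R p ∧
      lm L ({r, t} : Finset W)ᶜ q = (decide (s(p, q) ∈ L)).toNat + lm L R q := by
    intro p q r t hpq hp hq he
    rw [he]
    constructor
    · rw [lm_insert L _ p p (by simp [hpq, hp]), lm_insert L _ q p hq, tb L p (hnd p)]
      omega
    · rw [lm_insert L _ p q (by simp [hpq, hp]), lm_insert L _ q q hq, tb L q (hnd q), tsym L q p]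
      omega
  have cm : ∀ p q r t : W, ({p, q, r, t} : Finset W) = {a, b, c, d} → p ≠ r → p ≠ t → q ≠ r → q ≠ t →
      ({r, t} : Finset W)ᶜ = insert p (insert q R) := by
    intro p q r t he h1 h2 h3 h4
    ext x
    have hx := Finset.ext_iff.mp he x
    have := mR x
    simp only [Finset.mem_insert, Finset.mem_singleton] at hx
    simp only [Finset.mem_compl, Finset.mem_insert, Finset.mem_singleton]
    rw [this, ← hx]
    constructor
    · intro h; tauto
    · rintro (rfl | rfl | h)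
      · tauto
      · tauto
      · tauto
  have K := key (decide (s(a, b) ∈ L)) (decide (s(a, c) ∈ L)) (decide (s(a, d) ∈ L)) (decide (s(b, c) ∈ L))
    (decide (s(b, d) ∈ L)) (decide (s(c, d) ∈ L)) ⟨lm L R a, by omega⟩ ⟨lm L R b, by omega⟩ ⟨lm L R c, by omega⟩
    ⟨lm L R d, by omega⟩ (by simp only; omega) (by simp only; omega) (by simp only; omega) (by simp only; omega)
    (by simp only; omega)
  have fin : ∀ p q r t : W, ({p, q, r, t} : Finset W) = {a, b, c, d} → p ≠ q → p ≠ r → p ≠ t → q ≠ r → q ≠ t → r ≠ t →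
      p ∉ R → q ∉ R → decide (s(r, t) ∈ L) = false → (decide (s(p, q) ∈ L)).toNat + lm L R p ≤ 1 →
      (decide (s(p, q) ∈ L)).toNat + lm L R q ≤ 1 →
      ∃ p q r t : W, ({a, b, c, d} : Finset W) = {p, q, r, t} ∧ p ≠ q ∧ p ≠ r ∧ p ≠ t ∧ q ≠ r ∧ q ≠ t ∧ r ≠ t ∧ s(r, t) ∉ L ∧
      lm L ({r, t}ᶜ) p ≤ 1 ∧ lm L ({r, t}ᶜ) q ≤ 1 := by
    intro p q r t he h1 h2 h3 h4 h5 h6 hp hq g1 g2 g3
    obtain ⟨o1, o2⟩ := out p q r t h1 hp hq (cm p q r t he h2 h3 h4 h5)
    exact ⟨p, q, r, t, he.symm, h1, h2, h3, h4, h5, h6, of_decide_eq_false g1, by rw [o1]; exact g2, by rw [o2]; exact g3⟩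
  rcases K with ⟨k1, k2, k3⟩ | ⟨k1, k2, k3⟩ | ⟨k1, k2, k3⟩ | ⟨k1, k2, k3⟩ | ⟨k1, k2, k3⟩ | ⟨k1, k2, k3⟩
  · exact fin a b c d rfl hab hac had hbc hbd hcd haR hbR k1 k2 k3
  · exact fin a c b d (by ext x; simp only [Finset.mem_insert, Finset.mem_singleton]; tauto) hac hab had hbc.symm hcd hbd haR hcR k1 k2 k3
  · exact fin a d b c (by ext x; simp only [Finset.mem_insert, Finset.mem_singleton]; tauto) had hab hac hbd.symm hcd.symm hbc haR hdR k1 k2 k3
  · exact fin b c a d (by ext x; simp only [Finset.mem_insert, Finset.mem_singleton]; tauto) hbc hab.symm hbd hac.symm hcd had hbR hcR k1 k2 k3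
  · exact fin b d a c (by ext x; simp only [Finset.mem_insert, Finset.mem_singleton]; tauto) hbd hab.symm hbc had.symm hcd.symm hac hbR hdR k1 k2 k3
  · exact fin c d a b (by ext x; simp only [Finset.mem_insert, Finset.mem_singleton]; tauto) hcd hac.symm hbc.symm had.symm hbd.symm hab hcR hdR k1 k2 k3

end Pool.Agent.Lib.MP270b6b.F4
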