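import Mathlib

/-!
# Every graph with at most 29 edges has a partition into two parts of maximum degree at most 3

Sketch. Let `C` minimise `4 |C| + e(G - C)`, then with `|C|` maximal, then with most edges inside. A vertex outside (a leaf)
has at most 3 neighbours outside, a vertex of `C` (a centre) has at least 4 neighbours outside. So `(C, V - C)` is a good partition
unless some centre `h` (hub) has 4 neighbours in `C`, and so `|C| = 5` or `|C| = 6` by the number of edges.

NOTATION for the proofs below. A side of a partition is written `A` or `B`. `P` = the set of the centres in `A`, `X` = the set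
of the leaves in `A`. `N i` = the leaves adjacent to the centre `i`. A centre `i` is ZERO if `|N i| = 4`. A leaf is FULL if it is
adjacent to all centres. `L` = the edges between leaves, `lm L univ w` = the number of the leaves adjacent to the leaf `w`.
-/

set_option autoImplicit false

namespace Pool.Agent.Lib.MP270b6b.F4

open Finset

/-- A system: a graph `Γ` on the centres `K`, a set `L` of edges between leaves `W`, and the set `N i` of the leaves adjacent
to the centre `i`. -/
structure Sys (K W : Type) [Fintype K] [DecidableEq K] [Fintype W] [DecidableEq W] where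
  Γ : K → K → Bool
  sym : ∀ i j, Γ i j = Γ j i
  irr : ∀ i, Γ i i = false
  N : K → Finset W
  L : Finset (Sym2 W)
  nd : ∀ v, s(v, v) ∉ L

/-- the number of the leaves in `X` adjacent to the leaf `w` -/
def lm {W : Type} [DecidableEq W] (L : Finset (Sym2 W)) (X : Finset W) (w : W) : ℕ := (X.filter (fun u => s(w, u) ∈ L)).card

section
variable {K W : Type} [Fintype K] [DecidableEq K] [Fintype W] [DecidableEq W]

/-- the number of the centres in `P` adjacent to the centre `i` -/
def Sys.dg (S : Sys K W) (P : Finset K) (i : K) : ℕ := (P.filter (fun j => S.Γ i j = true)).card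

/-- the number of the centres in `P` adjacent to the leaf `w` -/
def Sys.tr (S : Sys K W) (P : Finset K) (w : W) : ℕ := (P.filter (fun i => w ∈ S.N i)).card

/-- the system has a good partition `P ∪ X`, rest -/
def Sys.Good (S : Sys K W) : Prop :=
  ∃ (P : Finset K) (X : Finset W),
    (∀ i ∈ P, S.dg P i + (S.N i ∩ X).card ≤ 3) ∧
    (∀ i ∉ P, S.dg Pᶜ i + (S.N i \ X).card ≤ 3) ∧
    (∀ w ∈ X, S.tr P w + lm S.L X w ≤ 3) ∧
    (∀ w ∉ X, S.tr Pᶜ w + lm S.L Xᶜ w ≤ 3)

/-- the leaf `w` is full -/
def Sys.Full (S : Sys K W) (w : W) : Prop := ∀ i, w ∈ S.N i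

/-- `h` is a hub: adjacent to all other centres -/
def Sys.Hub (S : Sys K W) (h : K) : Prop := ∀ x, x ≠ h → S.Γ h x = true

/-- number of edges (0 or 1) between two centres -/
def Sys.e (S : Sys K W) (i j : K) : ℕ := (S.Γ i j).toNat

/-- the standing assumptions which come from the choice of `C` -/
structure Env (S : Sys K W) : Prop where
  four : ∀ i, 4 ≤ (S.N i).card
  lam : ∀ w, lm S.L univ w ≤ 3
  ext : ∀ w i, lm S.L univ w = 3 → w ∈ S.N i → (S.N i).card = 4 → S.tr univ w ≤ S.dg univ i + 1

end

/-- five distinct centres -/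
def Five (h i j k l : Fin 5) : Prop :=
  h ≠ i ∧ h ≠ j ∧ h ≠ k ∧ h ≠ l ∧ i ≠ j ∧ i ≠ k ∧ i ≠ l ∧ j ≠ k ∧ j ≠ l ∧ k ≠ l

/-- six distinct centres -/
def Six (h s a b c d : Fin 6) : Prop :=
  h ≠ s ∧ h ≠ a ∧ h ≠ b ∧ h ≠ c ∧ h ≠ d ∧ s ≠ a ∧ s ≠ b ∧ s ≠ c ∧ s ≠ d ∧ a ≠ b ∧ a ≠ c ∧ a ≠ d ∧ b ≠ c ∧ b ≠ d ∧ c ≠ d

/-! ## Criteria (partitions) for five centres -/

/-- **ACG** (60). `P = {i, j}`, `X = ` all leaves but `w`. Check: `i`: no centre, `|N i| - 1 = 3` leaves. A centre outside `P`: at most
2 centres and `w`. `w`: at most 3 centres, no leaf. A leaf `v ≠ w`: number of the centres `i, j` adjacent to it plus its leaf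
neighbours other than `w`: `2 + 1`, `1 + 2` or `0 + 3`. -/
def SpecACG : Prop := ∀ (W : Type) [Fintype W] [DecidableEq W] (S : Sys (Fin 5) W) (i j : Fin 5) (w : W),
  i ≠ j → S.Γ i j = false → (S.N i).card = 4 → (S.N j).card = 4 → w ∈ S.N i → w ∈ S.N j →
  (∀ v, lm S.L univ v ≤ 3) →
  (∀ v, v ≠ w → v ∈ S.N i → v ∈ S.N j → lm S.L (univ.erase w) v ≤ 1) →
  (∀ v, v ≠ w → (v ∈ S.N i ∨ v ∈ S.N j) → lm S.L (univ.erase w) v ≤ 2) → S.Good

/-- **AC2** (60, uses ACG). At most two leaf edges; `i, j` nonadjacent zero centres with a common leaf. If some `v ∈ N i ∩ N j` has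
two leaf neighbours, take it as `w` (all leaf edges are at `w`, so every other leaf has no neighbour other than `w`). Otherwise take any common leaf as
`w`. Then ACG applies, as `lm ≤ 2` for every leaf. -/
def SpecAC2 : Prop := ∀ (W : Type) [Fintype W] [DecidableEq W] (S : Sys (Fin 5) W) (i j : Fin 5) (w : W),
  i ≠ j → S.Γ i j = false → (S.N i).card = 4 → (S.N j).card = 4 → w ∈ S.N i → w ∈ S.N j → S.L.card ≤ 2 → S.Good

/-- **AC3** (80, uses ACG). At most three leaf edges, no leaf with three leaf neighbours, `i, j` as before. If some leaf in `N i ∩ N j` has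
two leaf neighbours, take it as `w`: another leaf `v` of `N i ∩ N j` with two leaf neighbours is adjacent to `w` (else there were 4 edges), so it
has one neighbour other than `w`. Otherwise any common leaf. -/
def SpecAC3 : Prop := ∀ (W : Type) [Fintype W] [DecidableEq W] (S : Sys (Fin 5) W) (i j : Fin 5) (w : W),
  i ≠ j → S.Γ i j = false → (S.N i).card = 4 → (S.N j).card = 4 → w ∈ S.N i → w ∈ S.N j → S.L.card ≤ 3 →
  (∀ v, lm S.L univ v ≤ 2) → S.Good

/-- **AC4** (120, uses ACG). At most four leaf edges, `z` a leaf with three leaf neighbours which is in both of `N i, N j` or in none.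
If `z` is in both take `w = z`: at most one edge is not at `z`, so every other leaf has at most one neighbour other than `z`. If `z` is in
none: every `v ≠ z` has at most two leaf neighbours (`v` and `z` share at most one edge, so `lm v = 3` needs 5 edges). If some leaf in `N i ∩ N j`
has two leaf neighbours take it as `w`: another such leaf `v` is adjacent to `w`, otherwise the 4 edges at `v` or `w` are all edges, but `z` has 3 edges and at
most two of them go to `v, w`. Otherwise take any common leaf. For `v` not `z` in `N i ∪ N j` we have `lm v ≤ 2`; `z` itself is not in `N i ∪ N j`. -/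
def SpecAC4 : Prop := ∀ (W : Type) [Fintype W] [DecidableEq W] (S : Sys (Fin 5) W) (i j : Fin 5) (w z : W),
  i ≠ j → S.Γ i j = false → (S.N i).card = 4 → (S.N j).card = 4 → w ∈ S.N i → w ∈ S.N j → S.L.card ≤ 4 →
  (∀ v, lm S.L univ v ≤ 3) → lm S.L univ z = 3 → (z ∈ S.N i ↔ z ∈ S.N j) → S.Good

/-- **S41** (60). `P = {j}`, `X = ` all leaves but `w`. Check: `j`: 3 leaves. A centre `i ≠ j` : the other three centres and, if `w ∈ N i`,
only two of them and `w`. `w`: it is adjacent to at most three of the centres other than `j`. A leaf `v ≠ w`: 1 or 0 centre (`j`). -/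
def SpecS41 : Prop := ∀ (W : Type) [Fintype W] [DecidableEq W] (S : Sys (Fin 5) W) (j : Fin 5) (w : W),
  (S.N j).card = 4 → w ∈ S.N j → ¬ S.Full w → (∀ v, lm S.L univ v ≤ 3) →
  (∀ v, v ≠ w → v ∈ S.N j → lm S.L (univ.erase w) v ≤ 2) →
  (∀ i, i ≠ j → w ∈ S.N i → S.dg (univ.erase j) i ≤ 2) → S.Good

/-- **SUB** (50, uses S41). `j` zero; among the three centres other than `h, j` at most one edge; every leaf has at most two leaf
neighbours; `w ∈ N j`, `w ∉ N h`. Apply S41: a centre `i ≠ j` with `w ∈ N i` is not `h`, it is adjacent to at most `h` and one of the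
others. -/
def SpecSUB : Prop := ∀ (W : Type) [Fintype W] [DecidableEq W] (S : Sys (Fin 5) W) (h j a b c : Fin 5) (w : W),
  Five h j a b c → (S.N j).card = 4 → S.e a b + S.e a c + S.e b c ≤ 1 → (∀ v, lm S.L univ v ≤ 2) →
  w ∈ S.N j → w ∉ S.N h → S.Good

/-- **S14** (50). `P = {h}`, `X = ` all leaves not in `Y`, where `Y ⊆ N h` and `|N h| = |Y| + 3`. -/
def SpecS14 : Prop := ∀ (W : Type) [Fintype W] [DecidableEq W] (S : Sys (Fin 5) W) (h : Fin 5) (Y : Finset W),
  Y ⊆ S.N h → (S.N h).card = Y.card + 3 →
  (∀ x, x ≠ h → S.dg (univ.erase h) x + (S.N x ∩ Y).card ≤ 3) →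
  (∀ w ∈ Y, S.tr (univ.erase h) w + lm S.L Y w ≤ 3) →
  (∀ v ∉ Y, (if v ∈ S.N h then 1 else 0) + lm S.L Yᶜ v ≤ 3) → S.Good

/-- **S32** (90). `P = {i, j}`, `X = ` all leaves but `w, w'`. Check: `i`: no centre, its leaves but `w` (`w' ∉ N i`): 3. A leaf in `X`: at most one
centre and at most 2 leaves. `w`: at most 3 centres, and `w'` is not adjacent to it. -/
def SpecS32 : Prop := ∀ (W : Type) [Fintype W] [DecidableEq W] (S : Sys (Fin 5) W) (i j : Fin 5) (w w' : W),
  i ≠ j → S.Γ i j = false → (S.N i).card = 4 → (S.N j).card = 4 → Disjoint (S.N i) (S.N j) → w ∈ S.N i → w' ∈ S.N j →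
  s(w, w') ∉ S.L → (∀ v, lm S.L univ v ≤ 2) →
  (∀ x, x ≠ i → x ≠ j → S.dg ({i, j}ᶜ) x + (if w ∈ S.N x then 1 else 0) + (if w' ∈ S.N x then 1 else 0) ≤ 3) → S.Good

/-- **S23** (90). `|N h| = 5`, `N a ⊆ N h`, no edges among the three other centres `i, j, k`; `Y ⊆ N h` has 3 elements, no leaf edge inside `Y`; a leaf in
`N h` outside `Y` has at most one leaf neighbour outside `Y`. `P = {h, a}`, `X = ` all leaves not in `Y`. Check: `h`: `a` and 2 leaves. `a`: `h` and at most 2 leaves. `i`: at most the 3 leaves of `Y`.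
A leaf of `Y`: at most 3 centres. A leaf in `N h \ Y`: at most 2 centres and one leaf. A leaf outside `N h`: no centre, at most 3 leaves. -/
def SpecS23 : Prop := ∀ (W : Type) [Fintype W] [DecidableEq W] (S : Sys (Fin 5) W) (h a i j k : Fin 5) (Y : Finset W),
  Five h a i j k → (S.N h).card = 5 → S.N a ⊆ S.N h → S.Γ i j = false → S.Γ i k = false → S.Γ j k = false →
  Y ⊆ S.N h → Y.card = 3 → (∀ w ∈ Y, lm S.L Y w = 0) → (∀ x ∈ S.N h, x ∉ Y → lm S.L Yᶜ x ≤ 1) →
  (∀ v, lm S.L univ v ≤ 3) → S.Good

/-- **AN** (110, uses AC2, S32). `i, j` zero and nonadjacent, `k, l` nonadjacent, `|N h| ≤ 7`, at most two leaf edges. If `N i, N j` have a common leaf: AC2.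
Otherwise `N i ∪ N j` has 8 elements, so one of them, say `w ∈ N i` (or `w' ∈ N j`), is not in `N h`. Choose `w'` in `N j` (4 choices) not
adjacent to `w` (at most 2 leaf edges). S32: `h` has at most 2 centres (`k, l`) and not both of `w, w'`; `k` has at most the centre `h` and
`w, w'`. -/
def SpecAN : Prop := ∀ (W : Type) [Fintype W] [DecidableEq W] (S : Sys (Fin 5) W) (h i j k l : Fin 5),
  Five h i j k l → S.Γ i j = false → S.Γ k l = false → (S.N i).card = 4 → (S.N j).card = 4 → (S.N h).card ≤ 7 →
  S.L.card ≤ 2 → S.Good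

/-! ## `|N h| = 4` -/

/-- **H0A** (110, uses S14). `h` has four leaves, not all full; the other centres have at most 2 neighbours among themselves. If some `z ∈ N h` has three leaf neighbours, it is not full by
assumption; take `Y = {z}`; another `v ∈ N h` with three leaf neighbours is adjacent to `z` (two nonadjacent ones need 6 leaf edges), so it has two in `X`. Otherwise
`Y = {w}` with `w` not full. S14: a centre `x ≠ h`: `2 + 1`; the leaf of `Y`: at most 3 centres other than `h`. A leaf in `N h` outside `Y`: `h` and at most 2 leaves, a leaf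
outside `N h`: at most 3 leaves. -/
def SpecH0A : Prop := ∀ (W : Type) [Fintype W] [DecidableEq W] (S : Sys (Fin 5) W) (h : Fin 5) (w : W),
  (S.N h).card = 4 → (∀ x, x ≠ h → S.dg (univ.erase h) x ≤ 2) → S.L.card ≤ 5 → (∀ v, lm S.L univ v ≤ 3) →
  (∀ z ∈ S.N h, lm S.L univ z = 3 → ¬ S.Full z) → w ∈ S.N h → ¬ S.Full w → S.Good

/-- **SPL** (200). A graph on the leaves with at most 5 edges, a set `H` of 4 vertices of degree at most 2. There is a partition `H = {p, q} ∪ {r, s}` with `r, s` nonadjacent
and such that each of `p, q` has at most one neighbour outside `{r, s}`. PROOF by the graph induced on `H` (call neighbours outside `H` outer neighbours). No edge: at most two of the four have two outer neighbours (these are 2 edges each), take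
them among `r, s`. One edge `12` (so `1, 2` have at most one outer neighbour each): if both `3, 4` have two outer neighbours then `1, 2` have none; `{r, s} = {3, 4}`, `p = 1` has the neighbour `2` only. Otherwise, say,
`4` has at most one outer neighbour: `{r, s} = {1, 3}`: `2` has at most its outer neighbour, `4` too. Path `1 2 3` and `4`: if `4` has at most one outer neighbour
take `{r, s} = {1, 3}` (then `2` has none, `4` at most one). If `4` has two outer neighbours, at most one further edge remains: one of `1, 3`, say `3`, has no outer neighbour: `{r, s} = {1, 4}`: `2` has `3` only, `3` has `2` only. Two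
disjoint edges `12, 34`: `{r, s} = {1, 3}`: `2` has at most its outer neighbour, `4` too. Path `1 2 3 4`: `{1, 3}`: `2` none, `4` at most an outer one. Triangle `123` and `4`: `{r, s} = {1, 4}`: `2` has `3` only, `3` has `2` only (degree at most 2).
Four-cycle `1 2 3 4`: `{1, 3}`. (Degree at most 2, so nothing else.) -/
def SpecSPL : Prop := ∀ (W : Type) [Fintype W] [DecidableEq W] (L : Finset (Sym2 W)) (H : Finset W), (∀ v, s(v, v) ∉ L) →
  H.card = 4 → L.card ≤ 5 → (∀ v ∈ H, lm L univ v ≤ 2) →
  ∃ p q r t : W, H = {p, q, r, t} ∧ p ≠ q ∧ p ≠ r ∧ p ≠ t ∧ q ≠ r ∧ q ≠ t ∧ r ≠ t ∧ s(r, t) ∉ L ∧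
    lm L ({r, t}ᶜ) p ≤ 1 ∧ lm L ({r, t}ᶜ) q ≤ 1

/-- **H0B** (110, uses SPL). `N h` consists of four full leaves, `a` is zero (so `N a = N h`), among the three other centres there is at most one edge. With `p, q, r, t` from SPL for
`H = N h`: `P = {h, a}`, `X = ` all leaves but `r, t`. Check: `h`: `a, p, q`. `a`: `h, p, q`. `i`: at most one centre and `r, t`. `p`: `h, a` and at most one leaf. A leaf outside `H`: no
centre, at most 3 leaves. `r`: 3 centres, not adjacent to `t`. -/
def SpecH0B : Prop := ∀ (W : Type) [Fintype W] [DecidableEq W] (S : Sys (Fin 5) W) (h a i j k : Fin 5),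
  Five h a i j k → (S.N h).card = 4 → (S.N a).card = 4 → (∀ w ∈ S.N h, S.Full w) → S.L.card ≤ 5 → (∀ v, lm S.L univ v ≤ 3) →
  (∀ w ∈ S.N h, lm S.L univ w ≤ 2) → S.e i j + S.e i k + S.e j k ≤ 1 → S.Good

/-- **H0C** (130). `N h = H` consists of four full leaves, `|N a| = 5`, so `N a = H ∪ {e}`; no edge among the three other centres; at most one leaf edge. Choose `r, t ∈ H` such that `r, t, e` are pairwise nonadjacent (if the leaf edge has an end in `H`, let this end be
one of the two others). `P = {h, a}`, `X = ` all leaves but `r, t, e`. Check: `h`: `a` and 2 leaves; `a`: `h` and 2 leaves; `i`: `r, t, e`; `r, t, e`: at most 3 centres; the leaves in `H` and `X`: `h, a` and at most one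
leaf; the other leaves in `X`: no centre. -/
def SpecH0C : Prop := ∀ (W : Type) [Fintype W] [DecidableEq W] (S : Sys (Fin 5) W) (h a i j k : Fin 5),
  Five h a i j k → (S.N h).card = 4 → (S.N a).card = 5 → (∀ w ∈ S.N h, S.Full w) → S.L.card ≤ 1 →
  S.Γ i j = false → S.Γ i k = false → S.Γ j k = false → S.Good

/-! ## `|N h| = 5` -/

/-- **H1A** (150, uses S14). `|N h| = 5`, no full leaf in `N h`, the other centres have at most one neighbour among themselves, at most 4 leaf edges. There is at most one leaf with three leaf neighbours (two of them need 5 edges). If there is one, `z`, in `N h`: `Y = {z, y}` with `y ∈ N h` not adjacent to `z` (four others, three neighbours).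
Otherwise `Y` = two nonadjacent leaves of `N h` (5 leaves have 10 pairs). S14: a centre: `1 + 2`; a leaf of `Y`: at most 3 centres other than `h`, no leaf. A leaf `v ∈ N h` outside `Y`: `h` and at most 2 leaves. -/
def SpecH1A : Prop := ∀ (W : Type) [Fintype W] [DecidableEq W] (S : Sys (Fin 5) W) (h : Fin 5),
  (S.N h).card = 5 → (∀ x, x ≠ h → S.dg (univ.erase h) x ≤ 1) → (∀ w ∈ S.N h, ¬ S.Full w) → S.L.card ≤ 4 →
  (∀ v, lm S.L univ v ≤ 3) → S.Good

/-- **H1C** (60, uses S14). `|N h| = 5`, no leaf edges, two non-full leaves in `N h`: S14 with `Y` = these. -/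
def SpecH1C : Prop := ∀ (W : Type) [Fintype W] [DecidableEq W] (S : Sys (Fin 5) W) (h : Fin 5) (w w' : W),
  (S.N h).card = 5 → (∀ x, x ≠ h → S.dg (univ.erase h) x ≤ 1) → S.L = ∅ → w ∈ S.N h → w' ∈ S.N h → w ≠ w' →
  ¬ S.Full w → ¬ S.Full w' → S.Good

/-- **H1B** (170, uses SUB, S23). `|N h| = 5`, `a` zero, no edges among the three other centres, at most two leaf edges. By SUB `N a ⊆ N h`. If some `x ∈ N h` has two leaf neighbours, then all leaf edges are at `x`; let
`Y = {x, y, y'}` with `y, y' ∈ N h` not adjacent to `x` (4 others, 2 neighbours). Every other leaf has no neighbour outside `Y`. Otherwise every leaf of `N h` has at most one leaf neighbour; at most two (disjoint) leaf edges inside `N h`, a 5-set; choose for `Y` one end of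
each of these edges and further leaves of `N h` not adjacent to them: an independent set of size 3. Apply S23. -/
def SpecH1B : Prop := ∀ (W : Type) [Fintype W] [DecidableEq W] (S : Sys (Fin 5) W) (h a i j k : Fin 5),
  Five h a i j k → (S.N h).card = 5 → (S.N a).card = 4 → S.Γ i j = false → S.Γ i k = false → S.Γ j k = false →
  S.L.card ≤ 2 → S.Good

/-- **H1D** (120). No edges among `i, j, k, l`, all five `|N| = 5`, no leaf edges, a set `H` of four full leaves. Then `N x = H ∪ {e_x}` for every centre; put `t = e_h`. If `t` is in `N a` for some centre `a ≠ h` then `N a = N h`, else let `a` be any.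
`H = {p, q, r, u}`. `P = {h, a}`, `X = ` all leaves but `r, u, t, e_a`. Check: `h`: `a, p, q`. `a`: `h, p, q`. Another centre `x`: `r, u` and of `t, e_a` at most one (if `t = e_a` clear, otherwise `t ∉ N x`). Leaves: at most 2, at most 3 centres. -/
def SpecH1D : Prop := ∀ (W : Type) [Fintype W] [DecidableEq W] (S : Sys (Fin 5) W) (h i j k l : Fin 5) (H : Finset W),
  Five h i j k l → (∀ x, (S.N x).card = 5) → S.e i j + S.e i k + S.e i l + S.e j k + S.e j l + S.e k l = 0 →
  S.L = ∅ → H.card = 4 → (∀ w ∈ H, S.Full w) → S.Good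

/-- **H1E** (150). Only the edge `ij` among `i, j, k, l`; `|N h| = |N i| = |N j| = |N k| = 5`, `|N l| = 4`; no leaf edges; `H` = four full leaves, so `N l = H`, `N h = H ∪ {t}`. `H = {p, q, r, u}`. If `t ∈ N i` (so `N i = N h`): `P = {h, i}`, `X = ` all leaves but `r, u, t`: the centres
`j, k, l` are pairwise nonadjacent and have at most `r, u, t`. The same if `t ∈ N j`. Otherwise `P = {h, l}`, `X = ` all leaves but `r, u, t`: `i`: `j, r, u`; `j`: `i, r, u`; `k`: `r, u, t`. `h`: `l, p, q`. `l`: `h, p, q`. -/
def SpecH1E : Prop := ∀ (W : Type) [Fintype W] [DecidableEq W] (S : Sys (Fin 5) W) (h i j k l : Fin 5) (H : Finset W),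
  Five h i j k l → (S.N h).card = 5 → (S.N i).card = 5 → (S.N j).card = 5 → (S.N k).card = 5 → (S.N l).card = 4 →
  S.e i k + S.e i l + S.e j k + S.e j l + S.e k l = 0 →
  S.L = ∅ → H.card = 4 → (∀ w ∈ H, S.Full w) → S.Good

/-- **H1F** (120). Only the edges `ij`, `kl` among `i, j, k, l`; `|N i| = |N j| = 4`, the others 5; no leaf edges; `H` = four full leaves, so `N i = N j = H`, `N h = H ∪ {t}`, `N k = H ∪ {e}`, `N l = H ∪ {f}`. `P = {h, k}`, `X = ` all leaves but `r, u, t, e` (`H = {p, q, r, u}`).
Check: `h`: `k, p, q`. `k`: `h, p, q`. `i`: `j, r, u`. `j`: `i, r, u`. `l`: no centre (`k` is in `P`, `i, j` nonadjacent to it), `r, u` and at most one of `t, e`. Leaves have at most 2, at most 3 centres. -/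
def SpecH1F : Prop := ∀ (W : Type) [Fintype W] [DecidableEq W] (S : Sys (Fin 5) W) (h i j k l : Fin 5) (H : Finset W),
  Five h i j k l → (S.N h).card = 5 → (S.N i).card = 4 → (S.N j).card = 4 → (S.N k).card = 5 → (S.N l).card = 5 →
  S.e i k + S.e i l + S.e j k + S.e j l = 0 →
  S.L = ∅ → H.card = 4 → (∀ w ∈ H, S.Full w) → S.Good

/-- **H1G** (130, uses AC3, AC4). At most 4 leaf edges; a full leaf `w`; among the centres `i, j, k, l` the number of edges plus the number `|N i| + |N j| + |N k| + |N l| - 16` is at most 1; and, if there are 4 leaf edges, some leaf has three leaf neighbours. There are three pairwise nonadjacent zero centres among `i, j, k, l`: if there is no edge, at most one is not zero, take the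
three others; if there is one edge then all are zero, omit one of its ends. If no leaf has three leaf neighbours (so `|L| ≤ 3`): AC3 for any two of them. If `z` has three leaf neighbours: two of the three centres both contain `z` or both do not: AC4. -/
def SpecH1G : Prop := ∀ (W : Type) [Fintype W] [DecidableEq W] (S : Sys (Fin 5) W) (h i j k l : Fin 5) (w : W),
  Five h i j k l → Env S → S.Full w →
  S.e i j + S.e i k + S.e i l + S.e j k + S.e j l + S.e k l + (S.N i).card + (S.N j).card + (S.N k).card + (S.N l).card ≤ 17 →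
  S.L.card ≤ 4 → (S.L.card = 4 → ∃ z, lm S.L univ z = 3) → S.Good

/-- **H1H** (200, uses ACG, SUB, S23). `|N h| = 5`, the other four centres zero and pairwise nonadjacent, at most 4 leaf edges, every leaf has at most two leaf neighbours. By SUB all `N x ⊆ N h`. Let `I = N i ∩ N j`, `|I| ≥ 3`. Let `D` = the leaves in `I` with two leaf neighbours. If `D` is empty ACG with any `w ∈ I`. Otherwise let
`v1 ∈ D`; if all others in `D` are adjacent to `v1` use ACG with `w = v1`. Otherwise let `v2 ∈ D` be not adjacent to `v1`, different from it. Then the four leaf edges are those at `v1` or `v2`. (1) If some `y ∈ N h`, other than `v1, v2`, is adjacent to none of them: `Y = {v1, v2, y}` has no edge inside, and every other leaf has no neighbour outside `Y`. (2)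
Otherwise each of the three leaves of `N h` other than `v1, v2` is adjacent to `v1` or `v2`, so `v1, v2` have together at least 3 of their 4 neighbours in `N h`, each at least one; let `Y = N h` without `v1, v2`: no edge inside (all edges are at `v1, v2`), and `v1`, `v2` have at most one neighbour outside `Y`. Apply S23 with `a = i`. -/
def SpecH1H : Prop := ∀ (W : Type) [Fintype W] [DecidableEq W] (S : Sys (Fin 5) W) (h i j k l : Fin 5),
  Five h i j k l → (S.N h).card = 5 → (S.N i).card = 4 → (S.N j).card = 4 → (S.N k).card = 4 → (S.N l).card = 4 →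
  S.e i j + S.e i k + S.e i l + S.e j k + S.e j l + S.e k l = 0 → S.L.card ≤ 4 → (∀ v, lm S.L univ v ≤ 2) → S.Good

/-- **T2** (220, uses SUB, AC2, S32). Edges `ij, jk` among `i, j, k, l` (path, `l` isolated); `|N h| = |N i| = |N j| = 5`, `|N k| = |N l| = 4`, no leaf edges. SUB for `k`: `N k ⊆ N h` (among `i, j, l` one edge). AC2: `N k, N l` disjoint. S32 for the pair `k, l` with `w ∈ N k`, `w' ∈ N l` works if not both are in `N h`, not both in `N i`, not both in `N j` (each of
`h, i, j` has two centres). Let `M = N l \ N h`; `|M| ≥ 3` as `N h` has only one element outside `N k`. So for all `w ∈ N k`, `w' ∈ M` both are in `N i` or both in `N j`. Let `A_i = N i ∩ N k`, `B_i = N i ∩ M`, similarly for `j`; `|A| + |B| ≤ 5`. Every pair is in `A_i × B_i` or `A_j × B_j`. If `A_i = N k` then `|B_i| ≤ 1`, and the at least two other elements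
of `M` are in `B_j` with `A_j = N k`: `4 + 2 > 5`, impossible. So `A_i ≠ N k`, `A_j ≠ N k`; hence (an element of `N k` outside `A_i`) `B_j = M`, also `B_i = M`, `|M| ≥ 3`, `|A_i|, |A_j| ≤ 2`, their union is `N k`: so `|A_i| = |A_j| = 2`, disjoint, `|M| = 3`, `N i = A_i ∪ M`, `N j = A_j ∪ M`, `N h = N k ∪ {t}`, `N l = M ∪ {t}`.
Take `P = {h, i}`, and in `A` the leaves of `A_j` and one `u ∈ M`, so `X = A_j ∪ {u}`. Check: `h`: `i` and the two of `A_j`. `i`: `h, u`. `j`: `k` and the two others of `M`. `k`: `j` and the two of `A_i`. `l`: `t` and the two others of `M`. `A_j`: `h`. `u`: `i`. The leaves outside: at most 3 of `j, k, l`. -/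
def SpecT2 : Prop := ∀ (W : Type) [Fintype W] [DecidableEq W] (S : Sys (Fin 5) W) (h i j k l : Fin 5),
  Five h i j k l → (S.N h).card = 5 → (S.N i).card = 5 → (S.N j).card = 5 → (S.N k).card = 4 → (S.N l).card = 4 →
  S.e i k + S.e i l + S.e j l + S.e k l = 0 → S.L = ∅ → S.Good

/-- **REC** (220). `A, B` disjoint 4-sets, `Y1, Y2, Y3` sets of sizes 4 or 5, `E` forbidden pairs, `|Y1| + |Y2| + |Y3| + |E| ≤ 14`: some pair `(a, b)` in `A × B` is not inside `Y1`, not inside `Y2`, not inside `Y3` and not in `E`. Proof: the pairs inside `Y` number `|A ∩ Y| |B ∩ Y|`, at most 4 if `|Y| = 4` and at most 6 if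
`|Y| = 5`. If at most one of the sets has 5 elements the excluded pairs number at most `4 + 4 + 4 + 2` or `6 + 4 + 4 + 1`, less than 16. Otherwise the sizes are `5, 5, 4` and `E` is empty. Suppose all pairs are covered. Let `A_x = A ∩ Y_x`, `B_x = B ∩ Y_x`, the sum of all `|A_x| + |B_x|` is at most 14. If every `a ∈ A` is in two of the `A_x` then their sizes sum to at least 8, so those of the `B_x` to at most 6 and some `b ∈ B` is in
only one. So (by symmetry) some `a` is in only one `A_x` (in none is impossible): then `B_x = B`, `|A_x| ≤ 1`, so `|Y_x| = 5` and `A_x = {a}`. The three other rows are covered by the two other sets, of sizes 5 and 4: if one of these rows is in only one set then `B` is contained in this set and its part in `A` has at most 1 element (so it is the set of size 5), and the two remaining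
rows are covered by the set of size 4 alone, which then contains `B` and nothing of `A`, impossible. So the three rows are in both sets, whose parts in `B` have at most `2` and `1` elements and do not cover `B`. -/
def SpecREC : Prop := ∀ (W : Type) [Fintype W] [DecidableEq W] (A B Y1 Y2 Y3 : Finset W) (E : Finset (Sym2 W)),
  A.card = 4 → B.card = 4 → Disjoint A B → 4 ≤ Y1.card → 4 ≤ Y2.card → 4 ≤ Y3.card → Y1.card ≤ 5 → Y2.card ≤ 5 → Y3.card ≤ 5 →
  Y1.card + Y2.card + Y3.card + E.card ≤ 14 →
  ∃ a ∈ A, ∃ b ∈ B, ¬ (a ∈ Y1 ∧ b ∈ Y1) ∧ ¬ (a ∈ Y2 ∧ b ∈ Y2) ∧ ¬ (a ∈ Y3 ∧ b ∈ Y3) ∧ s(a, b) ∉ E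

/-- **T5A** (120, uses AC2, S32). `l` nonadjacent to `i, j, k`; `i, j, k, l` zero, `|N h| ≤ 7`, at most 2 leaf edges. By AC2 `N l` is disjoint from `N i, N j, N k` (or good). `N l ∪ N i` has 8 elements, one is not in `N h`; choose `w ∈ N l`, `w' ∈ N i` not both in `N h` and not adjacent (as in AN). S32 for the pair `l, i`: `h` has
2 centres and not both of `w, w'`; `j` has at most two centres `h, k` and `w ∉ N j`; the same for `k`. -/
def SpecT5A : Prop := ∀ (W : Type) [Fintype W] [DecidableEq W] (S : Sys (Fin 5) W) (h i j k l : Fin 5),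
  Five h i j k l → S.Γ i l = false → S.Γ j l = false → S.Γ k l = false →
  (S.N i).card = 4 → (S.N j).card = 4 → (S.N k).card = 4 → (S.N l).card = 4 → (S.N h).card ≤ 7 → S.L.card ≤ 2 → S.Good

/-- **T5B** (100, uses AC2, S32, REC). `l` nonadjacent to `i, j, k`; `i, j, l` zero, `|N k| = |N h| = 5`, no leaf edges. By AC2 `N l` is disjoint from `N i` and `N j`. By REC (with `Y1 = N h`, `Y2 = N k`, `Y3 = N j`, `E` empty) there are `w ∈ N l`, `w' ∈ N i` not both in `N h`, not both in `N k`. S32 for `l, i`: each of `h, j, k` has at most 2 centres outside, and not both of `w, w'`. -/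
def SpecT5B : Prop := ∀ (W : Type) [Fintype W] [DecidableEq W] (S : Sys (Fin 5) W) (h i j k l : Fin 5),
  Five h i j k l → S.Γ i l = false → S.Γ j l = false → S.Γ k l = false →
  (S.N i).card = 4 → (S.N j).card = 4 → (S.N k).card = 5 → (S.N l).card = 4 → (S.N h).card = 5 → S.L = ∅ → S.Good

/-- **T5C** (130, uses SUB). `l` nonadjacent to `i, j, k`; `i, j, k` zero, `|N l| = |N h| = 5`, no leaf edges. SUB: `N i, N j, N k ⊆ N h` (the three centres other than `h, i` have at most the edge `jk`). `|N j ∩ N k| ≥ 3`; let `x, y` be two elements of it. `P = {h, i}`, `X = ` all leaves but the three others of `N h`. Check: `h`: `i, x, y`. `i`: `h` and at most `x, y`.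
`j`: at most `k` and `|N j| - 2 = 2` leaves, the same for `k`. `l`: no centre, at most 3 leaves. Leaves: at most 2, at most 3 centres. -/
def SpecT5C : Prop := ∀ (W : Type) [Fintype W] [DecidableEq W] (S : Sys (Fin 5) W) (h i j k l : Fin 5),
  Five h i j k l → S.Γ i l = false → S.Γ j l = false → S.Γ k l = false →
  (S.N i).card = 4 → (S.N j).card = 4 → (S.N k).card = 4 → (S.N l).card = 5 → (S.N h).card = 5 → S.L = ∅ → S.Good

/-! ## `|N h| ≥ 6` -/

/-- **H2A** (170, uses S14). `|N h| = 6`, no full leaf in `N h`, no edges among the other centres, at most 3 leaf edges. If some `z ∈ N h` has three leaf neighbours, these are all leaf edges; `Y = {z, y, y'}` with `y, y' ∈ N h` not adjacent to `z` (5 others, 3 neighbours). Otherwise `Y` = three pairwise nonadjacent leaves of `N h`: they exist, since 6 vertices with at most 3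
edges have an independent set of size 3 (delete an end of each edge). S14: a centre: `0 + 3`; a leaf of `Y`: at most 3 centres other than `h`. A leaf of `N h` outside `Y`: `h` and at most 2 leaves (in the first case 0). -/
def SpecH2A : Prop := ∀ (W : Type) [Fintype W] [DecidableEq W] (S : Sys (Fin 5) W) (h : Fin 5),
  (S.N h).card = 6 → (∀ x, x ≠ h → S.dg (univ.erase h) x = 0) → (∀ w ∈ S.N h, ¬ S.Full w) → S.L.card ≤ 3 →
  (∀ v, lm S.L univ v ≤ 3) → S.Good

/-- **H2B** (130, uses S14). `|N h| = 6`, `|N i| = 4`, `|N j| = |N k| = |N l| = 5`, no edges among `i, j, k, l`, no leaf edges. If `N h` has three leaves which are not full: S14 with `Y` = these (a centre: `0 + 3`). Otherwise `N h` has at least four full leaves; the full leaves are in `N i`, so there are exactly four: `N i = F = {p, q, r, u}`, `N h = F ∪ {t, t'}`.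
`P = {h, i}`, `X = ` all leaves but `r, u, t, t'`. Check: `h`: `i, p, q`. `i`: `h, p, q`. `j`: no centre, `r, u` and at most one of `t, t'` (as `N j = F ∪ {e}`). Leaves: at most 2, at most 3 centres. -/
def SpecH2B : Prop := ∀ (W : Type) [Fintype W] [DecidableEq W] (S : Sys (Fin 5) W) (h i j k l : Fin 5),
  Five h i j k l → (S.N h).card = 6 → (S.N i).card = 4 → (S.N j).card = 5 → (S.N k).card = 5 → (S.N l).card = 5 →
  S.e i j + S.e i k + S.e i l + S.e j k + S.e j l + S.e k l = 0 → S.L = ∅ → S.Good

/-- **T1** (200, uses SUB). Only the edge `ij` among `i, j, k, l`; `|N h| = 6`, `|N i| = |N j| = 4`, `|N k| = |N l| = 5`, no leaf edges. SUB: `N i, N j ⊆ N h` (the others have no edge among them). (1) If `N k \ N h` has two elements `w, w'`: `P = {k}`, `X = ` all leaves but `w, w'`. Check: `k`: 3 leaves. `h`: `i, j, l` and no leaf. `i`: `h, j`, no leaf (`N i ⊆ N h`). `j` same. `l`: `h` and at most `w, w'`. `w`: at most `l`.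
A leaf in `X`: at most `k`. So good. The same with `l`. (2) Otherwise `|N k ∩ N h|, |N l ∩ N h|` are 4 or 5. Choose `x ≠ y` in `N h` such that at most three elements of each of `N j, N k, N l` are in `N h \ {x, y}`: that is `{x, y}` meets `N j`, and has at least `|N k ∩ N h| - 3` elements in `N k`, at least `|N l ∩ N h| - 3` in `N l`. If both are 4: `x ∈ N k ∩ N l ∩ N h`, `y ∈ N j` any other (and `N h` has 6 elements so these
sets meet: `4 + 4 - 6 = 2`). If `|N k ∩ N h| = 5` and `|N l ∩ N h| = 4`: `x ∈ N k ∩ N l`, `y ∈ N k ∩ N j` other than `x` (at least 3 each). Symmetric. If both are 5: `x ∈ N j ∩ N k ∩ N l` (at least 2), `y ∈ N k ∩ N l ∩ N h` other (at least 4). `P = {h, i}`, `X = ` all leaves but `N h \ {x, y}`. Check: `h`: `i, x, y`. `i`: `h` and at most `x, y`. `j, k, l`: no centre, at most three leaves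
(leaves outside `N h` are in `X`). A leaf in `N h ∩ X`: at most 2 centres; a leaf outside `N h`: none; a leaf outside `X`: at most 3. -/
def SpecT1 : Prop := ∀ (W : Type) [Fintype W] [DecidableEq W] (S : Sys (Fin 5) W) (h i j k l : Fin 5),
  Five h i j k l → (S.N h).card = 6 → (S.N i).card = 4 → (S.N j).card = 4 → (S.N k).card = 5 → (S.N l).card = 5 →
  S.e i k + S.e i l + S.e j k + S.e j l + S.e k l = 0 → S.L = ∅ → S.Good

/-- **H4** (200, uses SUB). `8 ≤ |N h| ≤ 11`, `i, j, k` zero and pairwise nonadjacent; `|N a| ≤ 5`; at most one of `ai, aj, ak` is an edge; at most one leaf edge, and no leaf edge if `|N a| = 5` or one of `ai, aj, ak` is an edge. SUB: `N i, N j, N k ⊆ N h` (the three centres other than `h, i` are `a, j, k`, at most one edge). As `12 > 11` two of them meet,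
say `x ∈ N i ∩ N j` (rename). (1) If some leaf `x'` which has a leaf neighbour is in all of `N i, N j, N k`: `X = {x', y}` with any other `y ∈ N h`. (2) Otherwise `X = {x, y}` with `y ∈ N k` other than `x` . `P = {h, a}`. Check: `h`: `a, x, y`. `a`: `h` and at most `x, y`. `i, j, k`: no centre, at most 3 leaves outside `X`. `x, y`: at most 2 centres, at most one leaf (`y`). A leaf outside
`X`: at most 3 centres; if it has a leaf neighbour outside `X`: in case (2) at most 2 of `i, j, k` and one leaf, in case (1) the only leaf edge is at `x' ∈ X`, so it has none. -/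
def SpecH4 : Prop := ∀ (W : Type) [Fintype W] [DecidableEq W] (S : Sys (Fin 5) W) (h a i j k : Fin 5),
  Five h a i j k → 8 ≤ (S.N h).card → (S.N h).card ≤ 11 → (S.N i).card = 4 → (S.N j).card = 4 → (S.N k).card = 4 →
  4 ≤ (S.N a).card → S.e i j + S.e i k + S.e j k = 0 →
  S.e a i + S.e a j + S.e a k + S.L.card + (S.N a).card ≤ 5 → S.Good

/-! ## Two hubs -/

/-- **RM** (90, uses AC2, REC, S32). `i, j` nonadjacent zero centres; `h, g, k` the others, `|N|` 4 or 5 with sum plus the number of leaf edges at most 14. AC2: disjoint. REC gives `w ∈ N i`, `w' ∈ N j` nonadjacent not both in `N h`, `N g`, `N k`. S32: each of `h, g, k` has at most 2 centres. -/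
def SpecRM : Prop := ∀ (W : Type) [Fintype W] [DecidableEq W] (S : Sys (Fin 5) W) (h g k i j : Fin 5),
  Five h g k i j → (∀ x, 4 ≤ (S.N x).card) → S.Γ i j = false → (S.N i).card = 4 → (S.N j).card = 4 →
  (S.N h).card ≤ 5 → (S.N g).card ≤ 5 → (S.N k).card ≤ 5 →
  (S.N h).card + (S.N g).card + (S.N k).card + S.L.card ≤ 14 → S.L.card ≤ 2 → S.Good

/-- **TH1** (140, uses SUB, SPL). `h, g` zero, at most one edge among `i, j, k`, at most 2 leaf edges. SUB (hub `g`, `j := h`): `N h ⊆ N g`, so `N h = N g = H`. With `p, q, r, t` from SPL: `P = {h, g}`, `X = ` all leaves but `r, t`. Check: `h`: `g, p, q`. `g`: `h, p, q`. `i`: at most one centre and `r, t`. `p`: 2 centres and at most one leaf. A leaf outside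
`H`: no centre. `r`: at most 3 centres. -/
def SpecTH1 : Prop := ∀ (W : Type) [Fintype W] [DecidableEq W] (S : Sys (Fin 5) W) (h g i j k : Fin 5),
  Five h g i j k → (S.N h).card = 4 → (S.N g).card = 4 → S.e i j + S.e i k + S.e j k ≤ 1 → S.L.card ≤ 2 → S.Good

/-- **TH0** (120, uses AC2). `i, j, k` zero, pairwise nonadjacent, no leaf edges, `|N h| + |N g| ≤ 11`. By AC2 `N i, N j, N k` are pairwise disjoint, their union has 12 elements, so some `w` of it is in none of `N h, N g`; say `w ∈ N i`; take any `w' ∈ N j`, `w'' ∈ N k`. `P = {i, j, k}`, `X = ` all leaves but `w, w', w''`. Check: `i, j, k`: 3 leaves each. `h`: at most `g`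
and `w', w''`; the same for `g`. A leaf in `X`: at most one centre; outside: at most 2. -/
def SpecTH0 : Prop := ∀ (W : Type) [Fintype W] [DecidableEq W] (S : Sys (Fin 5) W) (h g i j k : Fin 5),
  Five h g i j k → (S.N i).card = 4 → (S.N j).card = 4 → (S.N k).card = 4 → S.e i j + S.e i k + S.e j k = 0 →
  (S.N h).card + (S.N g).card ≤ 11 → S.L = ∅ → S.Good

/-! ## Assembly for five centres -/

/-- the six edge numbers among `i, j, k, l` in the order `ij, ik, il, jk, jl, kl` -/
def Pat {W : Type} [Fintype W] [DecidableEq W] (S : Sys (Fin 5) W) (i j k l : Fin 5) (a b c d e f : Bool) : Prop :=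
  S.Γ i j = a ∧ S.Γ i k = b ∧ S.Γ i l = c ∧ S.Γ j k = d ∧ S.Γ j l = e ∧ S.Γ k l = f

/-- the graph among the four centres other than `h` is, after numbering: empty, an edge, two disjoint edges, a path with two edges, a path with three edges, a triangle, a four-cycle -/
def OneHub {W : Type} [Fintype W] [DecidableEq W] (S : Sys (Fin 5) W) (i j k l : Fin 5) : Prop :=
  Pat S i j k l false false false false false false ∨
  Pat S i j k l true false false false false false ∨
  Pat S i j k l true false false false false true ∨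
  Pat S i j k l true false false true false false ∨
  Pat S i j k l true false false true false true ∨
  Pat S i j k l true true false true false false ∨
  Pat S i j k l true false true true false true

/-- or `g = i` is a second hub and the graph among `j, k, l` is empty, the edge `kl`, the path `j l k`.. with the edges `jl, kl`, or a triangle -/
def TwoHub {W : Type} [Fintype W] [DecidableEq W] (S : Sys (Fin 5) W) (i j k l : Fin 5) : Prop :=
  Pat S i j k l true true true false false false ∨
  Pat S i j k l true true true false false true ∨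
  Pat S i j k l true true true false true true ∨
  Pat S i j k l true true true true true true

/-- **NF** (120). Normal forms. Choose any numbering `i, j, k, l` of the centres other than `h` and permute it according to the 64 values of the six Booleans. (For instance: prove it for a function `g : Fin 4 → Fin 4 → Bool`, symmetric and irreflexive, by
`decide` on the six Booleans: there is a permutation of the four numbers which brings them into one of the eleven forms.) -/
def SpecNF : Prop := ∀ (W : Type) [Fintype W] [DecidableEq W] (S : Sys (Fin 5) W) (h : Fin 5), S.Hub h →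
  ∃ i j k l : Fin 5, Five h i j k l ∧ (OneHub S i j k l ∨ TwoHub S i j k l)

/-- the total number of edges is at most 29 (with the hub `h`: 4 edges at `h` between centres) -/
def Tot {W : Type} [Fintype W] [DecidableEq W] (S : Sys (Fin 5) W) (h i j k l : Fin 5) : Prop :=
  (S.N h).card + (S.N i).card + (S.N j).card + (S.N k).card + (S.N l).card + S.L.card +
    (S.e i j + S.e i k + S.e i l + S.e j k + S.e j l + S.e k l) ≤ 25

/-- **K0** (220, uses AC2, H0A, H0B, H0C). Let `c'` = number of edges among `i, j, k, l`, `β` = `|N| - 4`: `c' + β_i + β_j + β_k + β_l + |L| ≤ 5`. If some leaf of `N h` is not full: H0A (a full leaf `z` with three leaf neighbours is impossible: then `|L| ≥ 3`, so some centre `x ≠ h` is zero and has at most 3 neighbours, contradiction to `ext`: `5 ≤ 4`). Now all leaves of `N h` are full, and have at most 2 leaf neighbours (same reason).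
(All of these leaves are in every `N x`.) If some zero `a` leaves at most one edge among the three others: H0B. Patterns. Empty, one edge, two disjoint edges: any zero `a` works; if there is none, all `β ≥ 1` and (two disjoint edges: `2 + 4 > 5`) (one edge: all `β = 1`, `L` empty, H0C with `a = i`) (empty: some `β = 1`, `|L| ≤ 1`, H0C with this one). Path `i j k`: `a` one of `i, j, k` works if zero; otherwise
`β_i = β_j = β_k = 1`, `L` empty: H0C with `a = j`. Path `i j k l`: `a = j` or `k` works if zero, otherwise `β_j = β_k = 1`, `i, l` are zero and nonadjacent with common leaves, `L` empty: AC2. Triangle `ijk`: one of them is zero (`3 + 3 > 5`), H0B. Four-cycle `i j k l` : `i, k` or `j, l` are both zero: AC2. -/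
def SpecK0 : Prop := ∀ (W : Type) [Fintype W] [DecidableEq W] (S : Sys (Fin 5) W) (h i j k l : Fin 5),
  Five h i j k l → Env S → S.Hub h → OneHub S i j k l → Tot S h i j k l → (S.N h).card = 4 → S.Good

/-- **K1A** (200, uses AC2, H1A, H1B, H1C, H1D, H1G, H1H). `|N h| = 5`, empty pattern: `β_i + .. + β_l + |L| ≤ 4`. If `|L| ≤ 2` and some centre other than `h` is zero: H1B. If `|L| ≤ 2` and none is zero: all `|N| = 5`, `L` empty; the set `F` of the full leaves is contained in `N h`; if `|F| ≥ 4` H1D, else H1C. If `|L| ≥ 3`: `β_i + .. ≤ 1`. No full leaf: H1A. A full leaf: H1G,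
unless `|L| = 4` and no leaf has three leaf neighbours: then all four are zero and H1H. -/
def SpecK1A : Prop := ∀ (W : Type) [Fintype W] [DecidableEq W] (S : Sys (Fin 5) W) (h i j k l : Fin 5),
  Five h i j k l → Env S → S.Hub h → Pat S i j k l false false false false false false → Tot S h i j k l →
  (S.N h).card = 5 → S.Good

/-- **K1B** (200, uses AC2, H1A, H1B, H1C, H1E, H1G). `|N h| = 5`, only the edge `ij`: `β_i + .. + β_l + |L| ≤ 3`. `|L| = 3`: all zero; no full leaf: H1A, a full leaf: H1G. `|L| ≤ 2`: if `i` or `j` is zero: H1B with `a` = this one (no edge among the three others). Otherwise `β_i, β_j ≥ 1`, so `β_k + β_l + |L| ≤ 1`. If `k, l` are both zero: if they have a common leaf AC2, otherwise there is no full leaf and H1A.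
Otherwise `L` is empty, `β_i = β_j = 1` and one of `k, l` is zero, the other has 5 leaves (rename so that `l` is zero): if there are four full leaves H1E, otherwise H1C. -/
def SpecK1B : Prop := ∀ (W : Type) [Fintype W] [DecidableEq W] (S : Sys (Fin 5) W) (h i j k l : Fin 5),
  Five h i j k l → Env S → S.Hub h → Pat S i j k l true false false false false false → Tot S h i j k l →
  (S.N h).card = 5 → S.Good

/-- **K1C** (200, uses AC2, AN, H1A, H1B, H1C, H1F, T2). `|N h| = 5` and at least two edges, two disjoint edges `ij, kl` or the path `i j k`. `β_i + .. + β_l + |L| ≤ 2`. Two disjoint edges: no full leaf: H1A. A full leaf: if a pair `(i, k), (i, l), (j, k), (j, l)` consists of zero centres: AC2. Otherwise `β_i, β_j ≥ 1` or `β_k, β_l ≥ 1`, so these are 1, the others 0, `L` is empty: H1F (renamed) if there are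
four full leaves, otherwise H1C. Path `i j k`: `j` zero: H1B with `a = j`. Otherwise `β_j ≥ 1`. If `i, k` are both zero: AN for the pair `i, k` (`j, l` nonadjacent). Otherwise `β_j = 1` and one of `β_i, β_k` is 1, all else zero, `L` empty: T2 (for `β_k = 1` with `i, k` exchanged). -/
def SpecK1C : Prop := ∀ (W : Type) [Fintype W] [DecidableEq W] (S : Sys (Fin 5) W) (h i j k l : Fin 5),
  Five h i j k l → Env S → S.Hub h →
  (Pat S i j k l true false false false false true ∨ Pat S i j k l true false false true false false) → Tot S h i j k l →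
  (S.N h).card = 5 → S.Good

/-- **K2A** (150, uses AN, T5A, T5B, T5C). `|N h| = 5` and at least 3 edges among `i, j, k, l`. Path `i j k l`: `β_i + .. + β_l + |L| ≤ 1`, so `i, k` or `j, l` are both zero: AN (`i, k` nonadjacent, `j, l` nonadjacent). Four-cycle: all zero, AN for `i, k`. Triangle `ijk`: `β_i + .. + |L| ≤ 1`: all zero: T5A; `β_l = 1`: T5C; `β_k = 1` (or `i`, `j` by symmetry): T5B. -/
def SpecK2A : Prop := ∀ (W : Type) [Fintype W] [DecidableEq W] (S : Sys (Fin 5) W) (h i j k l : Fin 5),
  Five h i j k l → Env S → S.Hub h → OneHub S i j k l → Tot S h i j k l → (S.N h).card = 5 →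
  3 ≤ S.e i j + S.e i k + S.e i l + S.e j k + S.e j l + S.e k l → S.Good

/-- **K2B** (140, uses AC2, H2A, H2B, H1G). `|N h| = 6`, empty pattern, `β_i + .. + β_l + |L| ≤ 3`: no full leaf: H2A. A full leaf: if `|L| = 3`, all are zero: H1G; if `|L| ≤ 2` and two of `i, j, k, l` are zero: AC2; otherwise exactly one is zero, the others have 5 leaves, `L` is empty: H2B. -/
def SpecK2B : Prop := ∀ (W : Type) [Fintype W] [DecidableEq W] (S : Sys (Fin 5) W) (h i j k l : Fin 5),
  Five h i j k l → Env S → S.Hub h → Pat S i j k l false false false false false false → Tot S h i j k l →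
  (S.N h).card = 6 → S.Good

/-- **K2C** (200, uses AC2, AN, SUB, T1, T5A). `|N h| = 6`, at least one edge among `i, j, k, l`: `c' + β_i + .. + β_l + |L| ≤ 3`. One edge `ij`, `β_i + .. + |L| ≤ 2`: if both centres of one of the pairs `(i, k), (j, l), (i, l), (j, k)` are zero: AN. Otherwise `β_i = β_j = 1` or `β_k = β_l = 1`, all else zero, `L` empty. In the first case `k, l` are zero: by SUB `N k ⊆ N h`, `N l ⊆ N h` (among the other three centres there is one edge), by AC2 they are disjoint,
but `|N h| = 6`. In the second case T1. Two edges, `β_i + .. + |L| ≤ 1`: two disjoint edges, or path `i j k`: AN for `(i, k)` or `(j, l)` (one of the pairs is zero, both pairs are nonadjacent). Path `i j k l`: all zero, AN for `(i, k)`. Triangle: all zero, T5A. Four-cycle: impossible (`4 + 2 > 5`). -/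
def SpecK2C : Prop := ∀ (W : Type) [Fintype W] [DecidableEq W] (S : Sys (Fin 5) W) (h i j k l : Fin 5),
  Five h i j k l → Env S → S.Hub h → OneHub S i j k l → Tot S h i j k l → (S.N h).card = 6 →
  1 ≤ S.e i j + S.e i k + S.e i l + S.e j k + S.e j l + S.e k l → S.Good

/-- **K2D** (90, uses AN). `|N h| = 7`: `c' + β_i + .. + β_l + |L| ≤ 2`. Empty pattern: two zero centres, AN. One edge `ij`: sum of the `β` at most 1: AN for `(i, k)` or `(j, l)`. Two edges: all zero: AN for `(i, k)`. Three or more edges are impossible. -/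
def SpecK2D : Prop := ∀ (W : Type) [Fintype W] [DecidableEq W] (S : Sys (Fin 5) W) (h i j k l : Fin 5),
  Five h i j k l → Env S → S.Hub h → OneHub S i j k l → Tot S h i j k l → (S.N h).card = 7 → S.Good

/-- **K4** (110, uses H4). `8 ≤ |N h|`: `β_h ≥ 4`, `c' + β_i + .. + |L| ≤ 1`, `|N h| ≤ 9`. Edge `ij`: H4 with `a = i`. Empty pattern: `a` = the nonzero one if there is one, else `a = i`. -/
def SpecK4 : Prop := ∀ (W : Type) [Fintype W] [DecidableEq W] (S : Sys (Fin 5) W) (h i j k l : Fin 5),
  Five h i j k l → Env S → S.Hub h → OneHub S i j k l → Tot S h i j k l → 8 ≤ (S.N h).card → S.Good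

/-- **KT** (200, uses RM, TH1, TH0). Two hubs `h, i`; among `j, k, l` at most 2 edges `c''` (3 edges exceed the total). `β_h + β_i + β_j + β_k + β_l + |L| + c'' ≤ 2`. `c'' = 2` (edges `jl, kl`): all zero, RM for the pair `j, k` (sum 12). `c'' = 1` (edge `kl`): if `β_h = β_i = 0`: TH1. Otherwise one of them is 1, all else zero, RM for the pair `j, k` (sum 13). `c'' = 0`: `β_h = β_i = 0`: TH1. `β_h + β_i = 1`: if `j, k, l`
are zero: RM for `j, k` (sum 13, at most one leaf edge). Otherwise one of them is 1 and `L` is empty: RM for the other two (sum 14). `β_h + β_i = 2`: all else zero; `β_h = β_i = 1`: RM for `j, k` (sum 14). Otherwise TH0. -/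
def SpecKT : Prop := ∀ (W : Type) [Fintype W] [DecidableEq W] (S : Sys (Fin 5) W) (h i j k l : Fin 5),
  Five h i j k l → Env S → S.Hub h → TwoHub S i j k l → Tot S h i j k l → S.Good

/-- **K5** (140, uses NF, K0, K1A, K1B, K1C, K2A, K2B, K2C, K2D, K4, KT). Combine, with the count: `Tot` follows from the hypothesis, since the sum of the degrees between centres is `2 (4 + c')`. -/
def SpecK5 : Prop := ∀ (W : Type) [Fintype W] [DecidableEq W] (S : Sys (Fin 5) W) (h : Fin 5),
  Env S → S.Hub h → (∑ i, S.dg univ i) + 2 * ((∑ i, (S.N i).card) + S.L.card) ≤ 58 → S.Good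

/-! ## Six centres -/

/-- **XS** (90). Six centres, `P = {h}`, `X = ` all leaves but `Y`, `Y ⊆ N h`, `|N h| = |Y| + 3`; the other centres have at most one neighbour among themselves; `|Y| ≤ 2`, at most one leaf edge, none if `|Y| = 2`; the leaves of `Y` have at most 3 centres other than `h`. Check: `x ≠ h`: `1 + 2`; a leaf of `Y`: `3 + 0`; another leaf: at most `h` and one leaf. -/
def SpecXS : Prop := ∀ (W : Type) [Fintype W] [DecidableEq W] (S : Sys (Fin 6) W) (h : Fin 6) (Y : Finset W),
  Y ⊆ S.N h → (S.N h).card = Y.card + 3 → Y.card ≤ 2 → S.L.card + Y.card ≤ 2 →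
  (∀ x, x ≠ h → S.dg (univ.erase h) x ≤ 1) → (∀ w ∈ Y, S.tr (univ.erase h) w ≤ 3) → S.Good

/-- **X5** (180). `h` is adjacent to the five others, which are pairwise nonadjacent; all `|N| = 4`, no leaf edges; each leaf of `N h` has at least 4 centres other than `h`. For a centre `x ≠ h` let `mis x` = the number of leaves of `N h` not in `N x`; the sum of the five numbers is at most 4, so some `a` has `mis a = 0`, that is `N a = N h`, and another `b` has `mis b ≤ 1`. Let `w0 ∈ N h`. `P = {h, a, b}`, `X = ` all leaves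
but the three others of `N h`. Check: `h`: `a, b, w0`. `a`: `h, w0`. `b`: `h`, `w0` and at most one leaf outside `N h`. The three others: no centre, at most the three leaves of `N h` other than `w0`. Leaves: at most 3 centres on each side. -/
def SpecX5 : Prop := ∀ (W : Type) [Fintype W] [DecidableEq W] (S : Sys (Fin 6) W) (h : Fin 6),
  (∀ x y, x ≠ h → y ≠ h → S.Γ x y = false) → (∀ x, (S.N x).card = 4) → S.L = ∅ →
  (∀ w ∈ S.N h, 4 ≤ S.tr (univ.erase h) w) → S.Good

/-- **XR** (90). Six centres. `P = {h, s, a}`, `X = Rᶜ`, every leaf edge has one end in `R` and one outside. Check: `h` has only the centre `a` in `P`, `s` none, `a` only `h`; leaves have at most 3 centres and no leaf on their side. -/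
def SpecXR : Prop := ∀ (W : Type) [Fintype W] [DecidableEq W] (S : Sys (Fin 6) W) (h s a b c d : Fin 6) (R : Finset W),
  Six h s a b c d → S.Γ h s = false → S.Γ s a = false →
  (S.N h \ R).card ≤ 2 → (S.N s \ R).card ≤ 3 → (S.N a \ R).card ≤ 2 →
  (S.N b ∩ R).card + S.e b c + S.e b d ≤ 3 → (S.N c ∩ R).card + S.e b c + S.e c d ≤ 3 →
  (S.N d ∩ R).card + S.e b d + S.e c d ≤ 3 →
  (∀ u v, s(u, v) ∈ S.L → (u ∈ R ↔ v ∉ R)) → S.Good

/-- **XA** (120, uses XR). No leaf edges; `H ⊆ N h` of size 4; `s` and `a` zero, `s` misses at most one leaf of `H`, `a` misses at most two; `e b c + e b d + e c d + |N h| ≤ 5`. Choose `x, y ∈ H` such that all leaves of `H` which `a` misses are among them. `R = N h \ {x, y}`. `h`: 2. `s`: at most `2 + (4 - 3)`. `a`: `|N a \ R| = |N a ∩ {x, y}| + |N a \ N h| ≤ (2 - m) + m` where `m` is the number of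
missed leaves of `H` (`|N a \ N h| ≤ 4 - (4 - m)`). `b`: `|R| = |N h| - 2`. -/
def SpecXA : Prop := ∀ (W : Type) [Fintype W] [DecidableEq W] (S : Sys (Fin 6) W) (h s a b c d : Fin 6) (H : Finset W),
  Six h s a b c d → S.Γ h s = false → S.Γ s a = false → S.L = ∅ → H ⊆ S.N h → H.card = 4 →
  (S.N s).card = 4 → (S.N a).card = 4 → (H \ S.N s).card ≤ 1 → (H \ S.N a).card ≤ 2 →
  S.e b c + S.e b d + S.e c d + (S.N h).card ≤ 5 → S.Good

/-- **XB** (100, uses XR). No leaf edges; `H ⊆ N h` of size 4; `s, a` zero, `s` misses two or three leaves of `H`, `a` none, so `N a = H`. Take `x, y ∈ H \ N s` , `R = N h \ {x, y}`. `s`: `|N s \ R| = |N s \ N h| ≤ 4 - 1`. `a`: `x, y`. The rest as in XA. -/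
def SpecXB : Prop := ∀ (W : Type) [Fintype W] [DecidableEq W] (S : Sys (Fin 6) W) (h s a b c d : Fin 6) (H : Finset W),
  Six h s a b c d → S.Γ h s = false → S.Γ s a = false → S.L = ∅ → H ⊆ S.N h → H.card = 4 →
  (S.N s).card = 4 → (S.N a).card = 4 → 2 ≤ (H \ S.N s).card → (H \ S.N s).card ≤ 3 → H ⊆ S.N a →
  S.e b c + S.e b d + S.e c d + (S.N h).card ≤ 5 → S.Good

/-- **XC** (130, uses XR). No leaf edges; `H ⊆ N h` of size 4, contained in `N a, N b, N c, N d` and disjoint from `N s`; `a` zero; `|N s| ≤ 5`. Three possibilities: (1) `s` and `b, c, d` zero, so `N b = N c = N d = H`; `R = (N h ∪ {o}) \ {x, y}` with `x, y ∈ H` and `o ∈ N s` arbitrary: `s`: `|N s \ R| ≤ 3`; `b`: two leaves and at most one centre by `e b c + e b d + e c d ≤ 1` . (2) `|N s| = 5`, `b, c, d` zero: the same with two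
elements `o, o'` of `N s`. (3) `s` zero, `e b c + e b d + e c d = 0`, `|N h| = 4`: the same with one `o`: `b`: at most two leaves of `H` and `o`. In all cases `R = (N h ∪ O) \ {x, y}`, `O ⊆ N s`; in (1), (2) `N b = H`, so `|N b ∩ R| = 2`. -/
def SpecXC : Prop := ∀ (W : Type) [Fintype W] [DecidableEq W] (S : Sys (Fin 6) W) (h s a b c d : Fin 6) (H : Finset W),
  Six h s a b c d → S.Γ h s = false → S.Γ s a = false → S.L = ∅ → H ⊆ S.N h → H.card = 4 →
  Disjoint H (S.N s) → H ⊆ S.N a → H ⊆ S.N b → H ⊆ S.N c → H ⊆ S.N d → (S.N a).card = 4 →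
  S.e b c + S.e b d + S.e c d ≤ 1 →
  (((S.N s).card ≤ 5 ∧ (S.N b).card = 4 ∧ (S.N c).card = 4 ∧ (S.N d).card = 4) ∨
   ((S.N s).card = 4 ∧ S.e b c + S.e b d + S.e c d = 0 ∧ (S.N h).card = 4)) → S.Good

/-- **XD** (150, uses XR). `|N s| = 5`, all others zero, no edges among the centres other than `h`, no leaf edges, `h` has exactly four neighbours (all but `s`), `H = N h`; `s` misses at most three leaves of `H`; `a` misses at most two, and none if `s` misses two or three. Then there is `o ∈ N s \ N h`. `R = (H \ {x, y}) ∪ {o}`. If `s` misses at most one: `x, y` as in XA; `s`: `|N s \ R| ≤ 2 + (|N s \ H| - 1)`, `|N s \ H| = 5 - |N s ∩ H| ≤ 2`.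
If `s` misses 2 or 3: `x, y ∈ H \ N s`; `s`: `0 + (5 - 1) - 1 = 3`. `a`: at most 2 as in XA, XB (`o` in `R` only helps). `b`: at most 2 leaves of `H` and `o`. -/
def SpecXD : Prop := ∀ (W : Type) [Fintype W] [DecidableEq W] (S : Sys (Fin 6) W) (h s a b c d : Fin 6),
  Six h s a b c d → S.Γ h s = false → S.Γ s a = false → S.L = ∅ → S.e b c + S.e b d + S.e c d = 0 → (S.N h).card = 4 →
  (S.N s).card = 5 → (S.N a).card = 4 → (S.N h \ S.N s).card ≤ 3 → (S.N h \ S.N a).card ≤ 2 →
  (2 ≤ (S.N h \ S.N s).card → S.N h ⊆ S.N a) → S.Good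

/-- **XE** (220, uses XR). Exactly one leaf edge `uv`; all centres zero; no edges among the centres other than `h`, `h` adjacent to all but `s`. `H = N h`, each leaf of `H` misses at most one centre. Write `m x = |H \ N x|`; the sum over the five centres other than `h` is at most 4. Rule: an `R = (H \ {x, y}) ∪ O` with `x, y ∈ H`, `O` outside `N h`, `|O| ≤ 1`, has `|N h \ R| = 2`, and at most 3 leaves of each of `b, c, d` in `R`. It must split the edge `uv`.
(i) `m s ≤ 1`. (i.1) Some `a ≠ h, s` with `m a = 0`, `N a = H`. Any `x, y` satisfy `a` (`x, y`) and `s` (`2 + 1`). If `u, v ∈ H`: `x = u`, `y ≠ v`, `O` empty. If `u ∈ H`, `v ∉ H`: `x, y ≠ u`, `O` empty (`u ∈ R`, `v ∉ R`). If `u, v ∉ H`: `O = {v}` (`O` in `R` only helps `s, a`). (i.2) No such `a`: then `m a = 1` for the four centres and `m s = 0`; the leaves of `H` missed by them are different, each leaf of `H` is missed by exactly one of them.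
If `u, v ∈ H`: `a` = the one which misses `u`, `x = u`, `y ≠ v`; `a`: `|N a \ R| = |{y}| + 1`. If `u ∈ H, v ∉ H`: `a` = one which misses another `x ≠ u`, `y ≠ u`. If `u, v ∉ H`: `a` any, `x` missed by it, `O = {v}`. `s`: `N s = H`: 2. (ii) `m s ≥ 2`: the others sum to at most 2, so some `a` has `m a = 0`, `N a = H`. `M = H \ N s`. `s`: `|N s \ R| = |N s ∩ {x, y}| + |N s \ (N h ∪ O)|`, `|N s \ N h| = m s`.
(ii.1) `m s = 2`: at least one of `x, y` in `M`. `u, v ∈ H`: if `u ∈ M` (or `v`): `x = u`, `y ≠ v`; if none: `x ∈ M`, `y = u`. `u ∈ H`, `v ∉ H`: `x ∈ M`, `x ≠ u`, `y ≠ u`. `u, v ∉ H`: `O = {v}`. (ii.2) `m s = 3`: both `x, y` in `M`. `u, v ∈ H`: if `u, v ∈ M`: `x = u`, `y` the third of `M`. If only `u ∈ M`: `x = u`, `y ∈ M`. (At least one of `u, v` is in `M`, as `|H \ M| = 1`.) `u ∈ H`, `v ∉ H`: `x, y ∈ M`, not `u` (if `u ∉ M` any two).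
`u, v ∉ H`: `O = {v}`. (ii.3) `m s = 4`: `M = H`, all other centres have `N = H`, `N s` is four leaves outside `H`. `O = {o}`, `o ∈ N s`. `u, v ∈ H`: `x = u`, `y ≠ v`. `u ∈ H`, `v ∉ H`: `x, y ≠ u`, `o ≠ v`. `u, v ∉ H`: if one of them, say `v`, is in `N s`: `O = {v}`. If none is: `O = {o, v}` with `o ∈ N s`; here `b, c, d` have only two leaves in `R` (`N b = H`). -/
def SpecXE : Prop := ∀ (W : Type) [Fintype W] [DecidableEq W] (S : Sys (Fin 6) W) (h s : Fin 6),
  h ≠ s → S.Γ h s = false → (∀ x y, x ≠ h → y ≠ h → S.Γ x y = false) → (∀ x, (S.N x).card = 4) → S.L.card = 1 →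
  (∀ w ∈ S.N h, 4 ≤ S.tr (univ.erase h) w) → S.Good

/-- **X4** (240, uses XA, XB, XC, XD, XE, XS). `s` is the only centre not adjacent to `h`. Let `c` be the number of edges between centres: `4 ≤ c ≤ 5`; at most one edge among the centres other than `h`. `β = |N| - 4`, `c + sum of the β + |L| ≤ 5`. If `1 + β_h` leaves of `N h` have at most 3 centres other than `h` each: XS. (`β_h ≤ 1`; if `β_h = 1` there are no leaf edges.) Otherwise there is `H ⊆ N h` of size 4 whose leaves miss at most one of the five centres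
other than `h` each; `m x = |H \ N x|`, the sum over `x ≠ h` is at most 4. If `|L| = 1`: `c = 4`, all zero, XE. Now `L` is empty. CANDIDATES for `a`: centres other than `h, s` which are zero and not adjacent to `s`: there are at least 3 of the 4 (if `c = 5` all are zero and at most one is adjacent to `s`; if `c = 4` at most one is not zero). (A) `β_s = 0`, `m s ≤ 1`: some candidate has `m a ≤ 1`: XA (`e b c + .. + |N h| ≤ 5`
holds since at most one of the extra edge and `β_h` is present). (B) `β_s = 0`, `m s` is 2 or 3: the others sum to at most 2, so some candidate has `m a = 0`: XB. (C) `β_s = 0`, `m s = 4`: all other `m` are 0: `a` any candidate, XC: if the three others `b, c, d` are zero, first alternative; if one of them is not zero then `c = 4`, `β_h = 0`, second alternative. (D) `β_s = 1`: `c = 4`, all others zero, `H = N h`, `L` empty: `m s ≤ 1`: XD with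
`m a ≤ 1`; `m s` 2 or 3: XD with `m a = 0`; `m s = 4`: XC, first alternative. -/
def SpecX4 : Prop := ∀ (W : Type) [Fintype W] [DecidableEq W] (S : Sys (Fin 6) W) (h s : Fin 6),
  Env S → h ≠ s → S.Γ h s = false → (∀ x, x ≠ h → x ≠ s → S.Γ h x = true) →
  (∑ i, S.dg univ i) + 2 * ((∑ i, (S.N i).card) + S.L.card) ≤ 58 → S.Good

/-- **X6** (130, uses X4, X5, XS). A centre `h` with at least 4 neighbours among the centres. If exactly four: X4. If five: then `c ≥ 5` so `c = 5`, all zero, `L` empty, no other edges; if some leaf of `N h` has at most 3 centres other than `h`: XS with `Y` = this leaf, otherwise X5. -/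
def SpecX6 : Prop := ∀ (W : Type) [Fintype W] [DecidableEq W] (S : Sys (Fin 6) W) (h : Fin 6),
  Env S → 4 ≤ S.dg univ h → (∑ i, S.dg univ i) + 2 * ((∑ i, (S.N i).card) + S.L.card) ≤ 58 → S.Good

/-! ## Graphs -/

/-- number of neighbours of `v` in `C` -/
noncomputable def nb {V : Type} [Fintype V] [DecidableEq V] (G : SimpleGraph V) (C : Finset V) (v : V) : ℕ := by
  classical exact (C.filter (fun u => G.Adj v u)).card

/-- `G` has a good partition -/
def GGood {V : Type} [Fintype V] [DecidableEq V] (G : SimpleGraph V) : Prop :=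
  ∃ A : Finset V, (∀ v ∈ A, nb G A v ≤ 3) ∧ (∀ v ∉ A, nb G Aᶜ v ≤ 3)

/-- **CHO** (200). Choose `C` minimising `f(C) = 8 |C| + sum over v ∉ C of nb G Cᶜ v`, among these with `|C|` maximal, among these with the sum over `x ∈ C` of `nb G C x` maximal. (1) `v ∉ C`: adding `v` changes `f` by `8 - 2 nb G Cᶜ v`; so `nb ≤ 4`, and if it were 4 then `f` is the same with `|C|` larger. (2) `x ∈ C`: removing `x` changes `f` by `-8 + 2 nb G Cᶜ x ≥ 0`. (3) `w ∉ C` with 3 neighbours outside, adjacent to `i ∈ C`
which has 4 neighbours outside: `C' = C ∪ {w} \ {i}`: `f` changes by `-6 + 2 (4 - 1) = 0`, the size is the same, the sum of the degrees inside changes by `2 (nb G C w - 1) - 2 nb G C i ≤ 0`. -/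
def SpecCHO : Prop := ∀ (V : Type) [Fintype V] [DecidableEq V] (G : SimpleGraph V), ∃ C : Finset V,
  (∀ v ∉ C, nb G Cᶜ v ≤ 3) ∧ (∀ x ∈ C, 4 ≤ nb G Cᶜ x) ∧
  (∀ w ∉ C, ∀ i ∈ C, nb G Cᶜ w = 3 → G.Adj w i → nb G Cᶜ i = 4 → nb G C w ≤ nb G C i + 1)

/-- **CNT** (110). The degree sum split: `2 |E| = sum over C of nb G C + 2 * sum over C of nb G Cᶜ + sum over Cᶜ of nb G Cᶜ`. -/
def SpecCNT : Prop := ∀ (V : Type) [Fintype V] [DecidableEq V] (G : SimpleGraph V) [DecidableRel G.Adj] (C : Finset V),
  (∑ x ∈ C, nb G C x) + 2 * (∑ x ∈ C, nb G Cᶜ x) + (∑ v ∈ Cᶜ, nb G Cᶜ v) = 2 * G.edgeFinset.card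

/-- **TRN** (220). The system of a graph `G` and a set `C` of `k` vertices: `W` = the vertices outside `C`, an equivalence `Fin k ≃ C`. `dg univ i = nb G C (x_i)`, `|N i| = nb G Cᶜ (x_i)`, `tr univ w = nb G C w`, `lm L univ w = nb G Cᶜ w`, `2 |L|` = the sum of the `nb G Cᶜ` over the leaves; a good partition of the system gives one of `G` (`A` = the images of `P` and `X`). -/
def SpecTRN : Prop := ∀ (V : Type) [Fintype V] [DecidableEq V] (G : SimpleGraph V) (C : Finset V) (k : ℕ), C.card = k →
  ∃ (S : Sys (Fin k) {v : V // v ∉ C}) (x : Fin k → V), Function.Injective x ∧ (∀ v, v ∈ C ↔ ∃ i, x i = v) ∧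
    (∀ i j, S.Γ i j = true ↔ G.Adj (x i) (x j)) ∧ (∀ i (w : {v : V // v ∉ C}), w ∈ S.N i ↔ G.Adj (x i) w.1) ∧
    (∀ i, S.dg univ i = nb G C (x i)) ∧ (∀ i, (S.N i).card = nb G Cᶜ (x i)) ∧
    (∀ w : {v : V // v ∉ C}, S.tr univ w = nb G C w.1) ∧ (∀ w : {v : V // v ∉ C}, lm S.L univ w = nb G Cᶜ w.1) ∧
    2 * S.L.card = ∑ v ∈ Cᶜ, nb G Cᶜ v ∧ (S.Good → GGood G)

/-- **FIN** (160, uses K5, X6, CHO, CNT, TRN). Let `C` be as in CHO. If `nb G C x ≤ 3` for all `x ∈ C` then `A = C` is good. Otherwise some `h ∈ C` has at least 4 neighbours in `C`, so `|C| ≥ 5`, and `8 |C| + 8 ≤ 58` gives `|C| ≤ 6`. (`nb G C h ≥ 4` and its neighbours have at least 1: the sum of the `nb G C` is at least 8.) Apply TRN and K5 (`|C| = 5`: `h` is adjacent to all others) or X6. -/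
def SpecFIN : Prop := ∀ (V : Type) [Fintype V] [DecidableEq V] (G : SimpleGraph V) [DecidableRel G.Adj],
  G.edgeFinset.card ≤ 29 → GGood G

end Pool.Agent.Lib.MP270b6b.F4
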