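import Pool.Agent.Lib.MP_270b6b_co.F4.Spec

/-!
# MP_270b6b, n = 4: module X5, six centres, a hub adjacent to all others
-/

set_option autoImplicit false

namespace Pool.Agent.Lib.MP270b6b.F4

open Finset

theorem specX5 : SpecX5 := by
  intro W _ _ S h hG hN hL hH
  -- the number of leaves of `N h` missed by a centre
  have hsum : ∑ x ∈ univ.erase h, (S.N h \ S.N x).card ≤ 4 := by
    have h1 : ∀ x, (S.N h \ S.N x).card = ∑ w ∈ S.N h, if w ∈ S.N x then 0 else 1 := by
      intro x
      have : S.N h \ S.N x = (S.N h).filter (fun w => ¬ w ∈ S.N x) := by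
        ext w
        simp
      rw [this, card_filter]
      refine sum_congr rfl fun w _ => ?_
      by_cases hw : w ∈ S.N x <;> simp [hw]
    simp only [h1]
    rw [sum_comm]
    have h2 : ∀ w ∈ S.N h, (∑ x ∈ univ.erase h, if w ∈ S.N x then 0 else 1) ≤ 1 := by
      intro w hw
      have h3 := hH w hw
      unfold Sys.tr at h3
      rw [card_filter] at h3
      have h4 : (∑ x ∈ univ.erase h, if w ∈ S.N x then 1 else 0) +
          (∑ x ∈ univ.erase h, if w ∈ S.N x then 0 else 1) = 5 := by
        rw [← sum_add_distrib]
        have : ∀ x ∈ univ.erase h, ((if w ∈ S.N x then 1 else 0) + (if w ∈ S.N x then 0 else 1)) = 1 := by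
          intro x _
          by_cases hw : w ∈ S.N x <;> simp [hw]
        rw [sum_congr rfl this, sum_const, card_erase_of_mem (mem_univ h)]
        simp
      omega
    calc ∑ w ∈ S.N h, (∑ x ∈ univ.erase h, if w ∈ S.N x then 0 else 1) ≤ ∑ w ∈ S.N h, 1 :=
          sum_le_sum h2
      _ = 4 := by rw [sum_const, hN h]; rfl
  have hc5 : ((univ : Finset (Fin 6)).erase h).card = 5 := by
    rw [card_erase_of_mem (mem_univ h)]
    simp
  obtain ⟨a, ha, ha0⟩ : ∃ a ∈ univ.erase h, (S.N h \ S.N a).card = 0 := by
    by_contra hcon
    push Not at hcon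
    have : ∑ x ∈ univ.erase h, 1 ≤ ∑ x ∈ univ.erase h, (S.N h \ S.N x).card :=
      sum_le_sum fun x hx => Nat.one_le_iff_ne_zero.2 (hcon x hx)
    rw [sum_const, hc5] at this
    simp at this
    omega
  have hah : a ≠ h := ne_of_mem_erase ha
  obtain ⟨b, hb, hb1⟩ : ∃ b ∈ (univ.erase h).erase a, (S.N h \ S.N b).card ≤ 1 := by
    by_contra hcon
    push Not at hcon
    have h1 : ∑ x ∈ (univ.erase h).erase a, 2 ≤ ∑ x ∈ (univ.erase h).erase a, (S.N h \ S.N x).card :=
      sum_le_sum fun x hx => hcon x hx
    have h2 : ∑ x ∈ (univ.erase h).erase a, (S.N h \ S.N x).card ≤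
        ∑ x ∈ univ.erase h, (S.N h \ S.N x).card :=
      sum_le_sum_of_subset (erase_subset a _)
    rw [sum_const, card_erase_of_mem ha, hc5] at h1
    simp at h1
    omega
  have hba : b ≠ a := ne_of_mem_erase hb
  have hbh : b ≠ h := ne_of_mem_erase (mem_of_mem_erase hb)
  have hNa : S.N a = S.N h := by
    have h1 : S.N h ⊆ S.N a := by
      rw [card_eq_zero, sdiff_eq_empty_iff_subset] at ha0
      exact ha0
    exact (eq_of_subset_of_card_le h1 (by rw [hN, hN])).symm
  obtain ⟨w0, hw0⟩ : (S.N h).Nonempty := by
    rw [← card_pos, hN h]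
    norm_num
  have hlm : ∀ (X : Finset W) (w : W), lm S.L X w = 0 := by
    intro X w
    unfold lm
    rw [hL]
    simp
  have hPc : ({h, a, b} : Finset (Fin 6)).card = 3 := by
    rw [card_insert_of_notMem, card_pair hba.symm]
    simp only [mem_insert, mem_singleton]
    rintro (h1 | h1)
    · exact hah h1.symm
    · exact hbh h1.symm
  have hNhX : ∀ w, w ∈ (((S.N h).erase w0)ᶜ : Finset W) ↔ (w ∈ S.N h → w = w0) := by
    intro w
    rw [mem_compl, mem_erase]
    constructor
    · intro h1 h2
      by_contra h3
      exact h1 ⟨h3, h2⟩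
    · rintro h1 ⟨h2, h3⟩
      exact h2 (h1 h3)
  have hNh1 : (S.N h ∩ ((S.N h).erase w0)ᶜ).card ≤ 1 := by
    have : S.N h ∩ ((S.N h).erase w0)ᶜ ⊆ {w0} := by
      intro w hw
      rw [mem_inter, hNhX] at hw
      rw [mem_singleton]
      exact hw.2 hw.1
    exact (card_le_card this).trans (by simp)
  refine ⟨{h, a, b}, ((S.N h).erase w0)ᶜ, ?_, ?_, ?_, ?_⟩
  · intro i hi
    rw [mem_insert, mem_insert, mem_singleton] at hi
    rcases hi with rfl | rfl | rfl
    · have h1 : S.dg {i, a, b} i ≤ 2 := by
        unfold Sys.dg
        have : ({i, a, b} : Finset (Fin 6)).filter (fun j => S.Γ i j = true) ⊆ {a, b} := by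
          intro y hy
          rw [mem_filter, mem_insert] at hy
          rcases hy.1 with rfl | h2
          · rw [S.irr] at hy
            exact absurd hy.2 (by decide)
          · exact h2
        exact (card_le_card this).trans (card_le_two)
      omega
    · have h1 : S.dg {h, i, b} i ≤ 1 := by
        unfold Sys.dg
        have : ({h, i, b} : Finset (Fin 6)).filter (fun j => S.Γ i j = true) ⊆ {h} := by
          intro y hy
          rw [mem_filter, mem_insert, mem_insert, mem_singleton] at hy
          rw [mem_singleton]
          rcases hy.1 with h2 | rfl | rfl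
          · exact h2
          · rw [S.irr] at hy
            exact absurd hy.2 (by decide)
          · rw [hG _ _ hah hbh] at hy
            exact absurd hy.2 (by decide)
        exact (card_le_card this).trans (by simp)
      rw [hNa]
      omega
    · have h1 : S.dg {h, a, i} i ≤ 1 := by
        unfold Sys.dg
        have : ({h, a, i} : Finset (Fin 6)).filter (fun j => S.Γ i j = true) ⊆ {h} := by
          intro y hy
          rw [mem_filter, mem_insert, mem_insert, mem_singleton] at hy
          rw [mem_singleton]
          rcases hy.1 with h2 | rfl | rfl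
          · exact h2
          · rw [hG _ _ hbh hah] at hy
            exact absurd hy.2 (by decide)
          · rw [S.irr] at hy
            exact absurd hy.2 (by decide)
        exact (card_le_card this).trans (by simp)
      have h2 : (S.N i ∩ ((S.N h).erase w0)ᶜ).card ≤ 2 := by
        have h3 : S.N i ∩ ((S.N h).erase w0)ᶜ ⊆ insert w0 (S.N i \ S.N h) := by
          intro w hw
          rw [mem_inter, hNhX] at hw
          rw [mem_insert, mem_sdiff]
          by_cases hwh : w ∈ S.N h
          · exact Or.inl (hw.2 hwh)
          · exact Or.inr ⟨hw.1, hwh⟩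
        have h4 : (S.N i \ S.N h).card + (S.N i ∩ S.N h).card = 4 := by
          rw [← hN i]
          exact card_sdiff_add_card_inter _ _
        have h5 : (S.N h \ S.N i).card + (S.N h ∩ S.N i).card = 4 := by
          rw [← hN h]
          exact card_sdiff_add_card_inter _ _
        rw [inter_comm] at h5
        have h6 := (card_le_card h3).trans (card_insert_le _ _)
        omega
      omega
  · intro x hx
    rw [mem_insert, mem_insert, mem_singleton] at hx
    push Not at hx
    have h1 : S.dg ({h, a, b}ᶜ) x = 0 := by
      unfold Sys.dg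
      rw [card_eq_zero, filter_eq_empty_iff]
      intro y hy
      rw [mem_compl, mem_insert, mem_insert, mem_singleton] at hy
      push Not at hy
      rw [hG x y hx.1 hy.1]
      decide
    have h2 : (S.N x \ ((S.N h).erase w0)ᶜ).card ≤ 3 := by
      have h3 : S.N x \ ((S.N h).erase w0)ᶜ ⊆ (S.N h).erase w0 := by
        intro w hw
        rw [mem_sdiff, mem_compl, not_not] at hw
        exact hw.2
      have h4 := card_le_card h3
      rw [card_erase_of_mem hw0, hN h] at h4
      exact h4
    omega
  · intro w _
    rw [hlm]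
    have : S.tr {h, a, b} w ≤ 3 := by
      unfold Sys.tr
      exact (card_filter_le _ _).trans hPc.le
    omega
  · intro w _
    rw [hlm]
    have : S.tr ({h, a, b}ᶜ) w ≤ 3 := by
      unfold Sys.tr
      refine (card_filter_le _ _).trans ?_
      rw [card_compl, hPc]
      decide
    omega

end Pool.Agent.Lib.MP270b6b.F4
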